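import Pool.Agent.P.MP_2cb329_al.EG.YR
import Pool.Agent.P.MP_2cb329_al.F.Api

/-! Section F9: the comparison of the free forest of a system with the train track forest. -/

set_option autoImplicit false

namespace CPOR
namespace EG
open ZT MulAction

variable {G N W : Type} [Group G] [MulAction G N] [MulAction G W]

/-- A train track map over an automorphism system, with comparison maps. -/
structure Bx (S : Sys G N) (X : Cx G W) where
  bij : S.Bij
  ν : W → N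
  ν_smul : ∀ (g : G) (x : W), ν (g • x) = g • ν x
  ν_eq : ∀ x y, ν x = ν y ↔ X.T.Reachable x y
  ν_f : ∀ (a : S.A) (x : W), ν x = S.src a → ν (X.f x) = S.tgt a
  edge : ∀ x : W, ∃ y, X.T.Adj x y
  bar : S.V → W
  bar_smul : ∀ (g : G) (p : S.V), bar (g • p) = g • bar p
  ν_bar : ∀ p, ν (bar p) = S.nd p
  anc : W × W → S.V
  anc_smul : ∀ (g : G) (e : W × W), X.T.Adj e.1 e.2 → anc (g • e) = g • anc e
  nd_anc : ∀ e : W × W, X.T.Adj e.1 e.2 → S.nd (anc e) = ν e.1

namespace Bx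

variable {S : Sys G N} {X : Cx G W} (B : Bx S X)

/-- The point `p` is close to the anchor of a dart at `w`. -/
def Nr (r : ℕ) (p : S.V) (w : W) : Prop := ∃ w', X.T.Adj w w' ∧ S.Cl r p (B.anc (w, w'))

end Bx

/-- The system of objects. -/
structure Ox {S : Sys G N} {X : Cx G W} (B : Bx S X) where
  Ω : Type
  [act : MulAction G Ω]
  S' : Sys G Ω
  O : Over S' S
  bij : S'.Bij
  tight : O.Tight
  gall : S'.Gall
  sg : Equiv.Perm Ω
  sg_smul : ∀ (g : G) (ω : Ω), sg (g • ω) = g • sg ω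
  tgt_eq : ∀ b, S'.tgt b = sg (S'.src b)
  mal : ∀ (g : G) (ω ω' : Ω), g ≠ 1 → g • ω = ω → g • ω' = ω' → O.ν ω = O.ν ω' → ω = ω'
  vert : ∀ (g : G) (w : W), g ≠ 1 → g • w = w → ∃ ω, O.ν ω = B.ν w ∧ g • ω = ω
  τ : ℕ
  τs : ℕ
  cover : ∃ Γ, Bd Γ ∧ ∀ (K : ℕ) (x x' : W) (p p' : S.V), X.HYP τs K x x' →
    B.Nr K p (X.f^[τ] x) → B.Nr K p' (X.f^[τ] x') →
    ∃ F : Finset Ω, F.card ≤ Γ K ∧ (∀ ω ∈ F, O.ν ω = S.nd p) ∧
      {z | Btw S.B p z p' ∧ ∀ ω ∈ F, ¬ O.Near 0 z ω}.ncard ≤ Γ K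

attribute [instance] Ox.act

/-- The constants of a train track map: `lm` by `fo_bound`, `c` with `c (μ - 1) ≥ C lm`. -/
theorem exists_cx {S : Sys G N} {Z : Spl S W} (φ : TMap Z) (h : φ.TT) :
    ∃ X : Cx G W, X.T = Z.T ∧ X.f = φ.f := by
  obtain ⟨l, μ, hl, hμ, hexp⟩ := h.expand
  obtain ⟨C, hC⟩ := h.bcc
  obtain ⟨lm, hlm⟩ := Z.finE.bound_real l (fun k _ e he _ => hl.smul k e he)
  obtain ⟨c, hc⟩ := exists_nat_ge ((C : ℝ) * lm / (μ - 1))
  rw [div_le_iff₀ (by linarith)] at hc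
  refine ⟨{ T := Z.T, f := φ.f, l := l, μ := μ, lm := lm, C := C, c := c + 1, gf := Z.gf,
            finW := Z.finW, finE := Z.finE, smul := φ.smul, nondeg := h.nondeg, tt := h.tt,
            wt := hl, one_lt := hμ, exp := hexp, l_le := fun x y hxy => hlm (x, y) hxy,
            vinj := h.vinj, vsurj := h.vsurj, bcc := hC, c_pos := by omega, c_big := ?_ },
    rfl, rfl⟩
  push_cast
  nlinarith

/-- Comparison maps: `free_choice`; a vertex without an edge would be fixed by its node group. -/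
theorem exists_bx {S : Sys G N} (hS : S.Bij) {Z : Spl S W} (φ : TMap Z) (h : φ.TT) (X : Cx G W)
    (hT : X.T = Z.T) (hf : X.f = φ.f) : ∃ B : Bx S X, B.ν = Z.ν := by
  obtain ⟨bar, hb1, hb2⟩ := exists_equiv_choice (G := G) (fun (p : S.V) (w : W) => Z.ν w = S.nd p)
    (fun g x y hxy => by rw [Z.ν_smul, S.nd_smul, hxy]) (fun p => by
      obtain ⟨w, hw⟩ := Z.ν_surj (S.nd p)
      refine ⟨w, hw, fun g hg => ?_⟩
      rw [S.free g p hg]
      exact one_mem _)
  have hanc : ∃ anc : W × W → S.V, (∀ e : W × W, Z.T.Adj e.1 e.2 → S.nd (anc e) = Z.ν e.1) ∧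
      ∀ (g : G) (e : W × W), Z.T.Adj e.1 e.2 → anc (g • e) = g • anc e := by
    rcases isEmpty_or_nonempty W with hW | ⟨⟨w₀⟩⟩
    · exact ⟨fun e => isEmptyElim e.1, fun e => isEmptyElim e.1, fun _ e => isEmptyElim e.1⟩
    · obtain ⟨p₀, -⟩ := S.nd_surj (Z.ν w₀)
      haveI : Nonempty S.V := ⟨p₀⟩
      exact exists_equiv_choice_on (G := G) (S := Darts Z.T) (inv_darts Z.gf.acts ⊤)
        (fun (e : W × W) (p : S.V) => S.nd p = Z.ν e.1)
        (fun g x y _ hxy => by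
          show S.nd (g • y) = Z.ν (g • x.1)
          rw [Z.ν_smul, S.nd_smul, hxy]) (fun e he => by
          obtain ⟨p, hp⟩ := S.nd_surj (Z.ν e.1)
          refine ⟨p, hp, fun g hg => ?_⟩
          rw [Z.gf.dart_free he hg]
          exact one_mem _)
  obtain ⟨anc, ha1, ha2⟩ := hanc
  refine ⟨{ bij := hS, ν := Z.ν, ν_smul := Z.ν_smul, ν_eq := hT ▸ Z.ν_eq, ν_f := hf ▸ φ.ν_f,
            edge := ?_, bar := bar, bar_smul := hb2, ν_bar := hb1, anc := anc,
            anc_smul := hT ▸ ha2, nd_anc := hT ▸ ha1 }, rfl⟩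
  intro x
  rw [hT]
  by_contra hx
  push Not at hx
  refine h.nofix x fun k hk => ?_
  have h1 : Z.ν x = Z.ν (k • x) := by rw [Z.ν_smul]; exact (hk : k • Z.ν x = Z.ν x).symm
  obtain ⟨p⟩ := (Z.ν_eq _ _).1 h1
  show k • x = x
  generalize k • x = y at p
  cases p with
  | nil => rfl
  | cons h _ => exact absurd h (hx _)

namespace Bx

variable {S : Sys G N} {X : Cx G W} (B : Bx S X)

theorem nr_mono {r r' : ℕ} {p : S.V} {w : W} (h : B.Nr r p w) (hr : r ≤ r') : B.Nr r' p w := by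
  obtain ⟨w', h1, h2⟩ := h
  exact ⟨w', h1, h2.mono hr⟩

theorem nr_nd {r : ℕ} {p : S.V} {w : W} (h : B.Nr r p w) : S.nd p = B.ν w := by
  obtain ⟨w', h1, h2⟩ := h
  rw [h2.1]
  exact B.nd_anc (w, w') h1

theorem nr_smul {r : ℕ} {p : S.V} {w : W} (h : B.Nr r p w) (g : G) : B.Nr r (g • p) (g • w) := by
  obtain ⟨w', h1, h2⟩ := h
  refine ⟨g • w', X.gf.acts g _ _ h1, ?_⟩
  have := B.anc_smul g (w, w') h1
  rw [show (g • w, g • w') = g • (w, w') from rfl, this]
  exact h2.smul g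

theorem nr_cl {r r' : ℕ} {p p' : S.V} {w : W} (h : B.Nr r p w) (hc : S.Cl r' p' p) :
    B.Nr (r' + r) p' w := by
  obtain ⟨w', h1, h2⟩ := h
  exact ⟨w', h1, hc.trans h2⟩

theorem nr_bar : ∃ C : ℕ, ∀ p, B.Nr C p (B.bar p) := by
  obtain ⟨C, hC⟩ := S.finV.bound (fun p c => B.Nr c p (B.bar p))
    (fun _ _ _ _ hc h => B.nr_mono h hc)
    (fun k _ p _ c _ h => by rw [B.bar_smul]; exact B.nr_smul h k)
    (fun p _ => by
      obtain ⟨w', hw⟩ := B.edge (B.bar p)
      exact ⟨_, w', hw, Sys.cl_dist (by rw [B.nd_anc (B.bar p, w') hw, B.ν_bar])⟩)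
  exact ⟨C, fun p => hC p trivial⟩

theorem bar_lip : ∃ C : ℕ, ∀ r p q, S.Cl r p q →
    X.T.Reachable (B.bar p) (B.bar q) ∧ X.T.dist (B.bar p) (B.bar q) ≤ C * r := by
  obtain ⟨C, hC⟩ := (S.ft.finOrb_darts S.finV).bound
    (fun e c => X.T.dist (B.bar e.1) (B.bar e.2) ≤ c)
    (fun _ _ _ _ hc h => h.trans hc)
    (fun k _ e _ c _ h => by
      show X.T.dist (B.bar (k • e.1)) (B.bar (k • e.2)) ≤ c
      rw [B.bar_smul, B.bar_smul, X.gf.acts.dist]
      exact h)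
    (fun e _ => ⟨_, le_rfl⟩)
  have hre : ∀ p q, S.B.Reachable p q → X.T.Reachable (B.bar p) (B.bar q) := fun p q h =>
    (B.ν_eq _ _).1 (by rw [B.ν_bar, B.ν_bar]; exact (S.nd_eq _ _).2 h)
  refine ⟨C, fun r p q h => ⟨hre _ _ h.reach, ?_⟩⟩
  obtain ⟨a, h0, h1, h2, h3, -⟩ := exists_geod h.reach
  have key : ∀ i ≤ S.B.dist p q, X.T.dist (B.bar p) (B.bar (a i)) ≤ C * i := by
    intro i
    induction i with
    | zero => intro _; rw [h0]; simp
    | succ i ih =>
      intro hi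
      have r1 := (h3 0 i (Nat.zero_le _) (by omega)).1
      rw [h0] at r1
      have t := dist_tri (hre _ _ r1) (hre _ _ (h2 i (by omega)).reachable)
      have c1 := hC (a i, a (i + 1)) ⟨h2 i (by omega), trivial, trivial⟩
      have c2 := ih (by omega)
      simp only at c1
      rw [Nat.mul_succ]
      omega
  have := key _ le_rfl
  rw [h1] at this
  exact this.trans (Nat.mul_le_mul_left _ h.2)

theorem nr_dist : ∃ F, Bd F ∧ ∀ r p w, B.Nr r p w →
    X.T.Reachable w (B.bar p) ∧ X.T.dist w (B.bar p) ≤ F r := by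
  obtain ⟨C, hC⟩ := B.bar_lip
  obtain ⟨D, hD⟩ := X.finE.bound (fun e c => X.T.dist e.1 (B.bar (B.anc e)) ≤ c)
    (fun _ _ _ _ hc h => h.trans hc)
    (fun k _ e he c _ h => by
      show X.T.dist (k • e.1) (B.bar (B.anc (k • e))) ≤ c
      rw [B.anc_smul k e he, B.bar_smul, X.gf.acts.dist]
      exact h)
    (fun e _ => ⟨_, le_rfl⟩)
  refine ⟨fun r => D + C * r, (Bd.const D).add ((Bd.const C).mul Bd.id), ?_⟩
  rintro r p w ⟨w', h1, h2⟩
  obtain ⟨r1, d1⟩ := hC r _ _ h2.symm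
  have r2 : X.T.Reachable w (B.bar (B.anc (w, w'))) :=
    (B.ν_eq _ _).1 (by rw [B.ν_bar, B.nd_anc (w, w') h1])
  have d2 := hD (w, w') h1
  have t := dist_tri r2 r1
  simp only at d2
  exact ⟨r2.trans r1, by show _ ≤ D + C * r; omega⟩

/-- For every dart `e` there is a point `q` of the arrow at its node with `s q` close to
`anc e` and `t q` close to `anc (Df e)`, uniformly; then `Sys.consts`. -/
theorem nr_fwd : ∃ F, Bd F ∧ ∀ r (p : S.P) w, B.Nr r (S.s p) w → B.Nr (F r) (S.t p) (X.f w) := by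
  obtain ⟨C, hC⟩ := S.consts
  obtain ⟨D, hD⟩ := X.finE.bound
    (fun e c => ∃ q : S.P, S.Cl c (S.s q) (B.anc e) ∧ S.Cl c (S.t q) (B.anc (Df X.T X.f e)))
    (fun _ _ _ _ hc h => let ⟨q, h1, h2⟩ := h; ⟨q, h1.mono hc, h2.mono hc⟩)
    (fun k _ e he c _ h => by
      obtain ⟨q, h1, h2⟩ := h
      refine ⟨k • q, ?_, ?_⟩
      · rw [S.s_smul, B.anc_smul k e he]; exact h1.smul k
      · rw [S.t_smul, X.df_smul, B.anc_smul k _ (X.df_sep he).1]; exact h2.smul k)
    (fun e he => by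
      obtain ⟨a, ha, -⟩ := B.bij.out (B.ν e.1)
      obtain ⟨q, hq⟩ := S.arr_surj a
      have e1 : S.nd (S.s q) = S.nd (B.anc e) := by rw [S.nd_s, hq, ha, B.nd_anc e he]
      have e2 : S.nd (S.t q) = S.nd (B.anc (Df X.T X.f e)) := by
        rw [S.nd_t, hq, B.nd_anc _ (X.df_sep he).1]
        exact (B.ν_f a e.1 ha.symm).symm
      exact ⟨_, q, (Sys.cl_dist e1).mono (Nat.le_add_right _ _),
        (Sys.cl_dist e2).mono (Nat.le_add_left _ _)⟩)
  refine ⟨fun r => C * (r + D + 1) + D,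
    ((Bd.const C).mul ((Bd.id.add (Bd.const D)).add (Bd.const 1))).add (Bd.const D), ?_⟩
  rintro r p w ⟨w', h1, h2⟩
  obtain ⟨q, h3, h4⟩ := hD (w, w') h1
  have h5 := h2.trans h3.symm
  have h6 : S.arr p = S.arr q :=
    (B.bij.out (S.nd (S.s q))).unique (by rw [← S.nd_s]; exact h5.1) (S.nd_s q).symm
  exact ⟨(Df X.T X.f (w, w')).2, (X.df_sep (e := (w, w')) h1).1, ((hC p q h6).2.2.1 _ h5).trans h4⟩

theorem nr_chain : ∃ F, Bd F ∧ ∀ (L n : ℕ) (p : ℤ → S.P) (w : W), S.Chain L p 0 (n + 1) →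
    n ≤ L → B.Nr L (S.s (p 0)) w → B.Nr (F L) (S.s (p n)) (X.f^[n] w) := by
  obtain ⟨F, hF, h⟩ := B.nr_fwd
  refine ⟨Bd.it (fun r => r + F r), Bd.it_bd (Bd.id.add hF), fun L n p w hc hn h0 => ?_⟩
  refine Bd.it_induct (F := fun r => r + F r)
    (fun i r => B.Nr r (S.s (p i)) (X.f^[i] w)) n L hn (fun _ _ _ hab h => B.nr_mono h hab)
    (by simpa using h0) (fun i m hi hm hP => ?_) n le_rfl
  have h1 := h m _ _ hP
  have h2 := hc i (by positivity) (by omega)
  rw [Function.iterate_succ_apply']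
  push_cast
  exact B.nr_cl h1 (h2.symm.mono hm)

theorem ν_iter {a : ℤ → S.A} {n : ℕ} (ha : S.IsPath a 0 (n + 1)) {w : W}
    (hw : B.ν w = S.src (a 0)) : B.ν (X.f^[n + 1] w) = S.tgt (a n) := by
  have key : ∀ k : ℕ, k ≤ n → B.ν (X.f^[k + 1] w) = S.tgt (a k) := by
    intro k
    induction k with
    | zero => intro _; exact B.ν_f _ _ hw
    | succ k ih =>
      intro hk
      rw [Function.iterate_succ_apply']
      refine B.ν_f _ _ ?_
      rw [ih (by omega), ha k (by positivity) (by omega)]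
      push_cast
      rfl
  exact key n le_rfl

/-- Darts at a vertex with trivial stabiliser, and the two orientations of an edge, have close
anchors. -/
theorem anc_close : ∃ C : ℕ, ∀ e e' : W × W, X.T.Adj e.1 e.2 → X.T.Adj e'.1 e'.2 →
    ((e.1 = e'.1 ∧ stabilizer G e.1 = ⊥) ∨ e' = e.swap) → S.Cl C (B.anc e) (B.anc e') := by
  obtain ⟨C, hC⟩ := X.finE.bound
    (fun e c => ∀ e' : W × W, X.T.Adj e'.1 e'.2 →
      ((e.1 = e'.1 ∧ stabilizer G e.1 = ⊥) ∨ e' = e.swap) → S.Cl c (B.anc e) (B.anc e'))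
    (fun _ _ _ _ hc h e' h1 h2 => (h e' h1 h2).mono hc)
    (fun k _ e he c _ h e' h1 h2 => by
      have h3 : X.T.Adj (k⁻¹ • e').1 (k⁻¹ • e').2 := X.gf.acts k⁻¹ _ _ h1
      have h4 := h (k⁻¹ • e') h3 (by
        rcases h2 with ⟨h2, h2'⟩ | h2
        · refine Or.inl ⟨?_, ?_⟩
          · show e.1 = k⁻¹ • e'.1
            rw [← h2]
            exact (inv_smul_smul k e.1).symm
          · rw [eq_bot_iff]
            intro g hg
            have h5 : k * g * k⁻¹ ∈ stabilizer G (k • e).1 := by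
              show (k * g * k⁻¹) • k • e.1 = k • e.1
              rw [mul_smul, inv_smul_smul, mul_smul, (hg : g • e.1 = e.1)]
            rw [h2', Subgroup.mem_bot] at h5
            rw [Subgroup.mem_bot]
            have : g = k⁻¹ * (k * g * k⁻¹) * k := by group
            rw [this, h5]
            group
        · right
          rw [h2]
          exact Prod.ext (inv_smul_smul k e.2) (inv_smul_smul k e.1))
      have h6 := h4.smul k
      rwa [← B.anc_smul k e he, ← B.anc_smul k _ h3, smul_inv_smul] at h6)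
    (fun e he => by
      have hfin : {e' : W × W | X.T.Adj e'.1 e'.2 ∧
          ((e.1 = e'.1 ∧ stabilizer G e.1 = ⊥) ∨ e' = e.swap)}.Finite := by
        by_cases hb : stabilizer G e.1 = ⊥
        · refine (((X.triv_finite hb).image (fun z => (e.1, z))).insert e.swap).subset ?_
          rintro e' ⟨h1, ⟨h2, -⟩ | h2⟩
          · exact Or.inr ⟨e'.2, by rw [Set.mem_setOf_eq, h2]; exact h1, by rw [h2]⟩
          · exact Or.inl h2
        · refine (Set.finite_singleton e.swap).subset ?_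
          rintro e' ⟨-, ⟨-, h2⟩ | h2⟩
          · exact absurd h2 hb
          · exact h2
      obtain ⟨c, hc⟩ := (hfin.image fun e' => S.B.dist (B.anc e) (B.anc e')).bddAbove
      refine ⟨c, fun e' h1 h2 => ⟨?_, hc ⟨e', ⟨h1, h2⟩, rfl⟩⟩⟩
      rw [B.nd_anc e he, B.nd_anc e' h1]
      rcases h2 with ⟨h2, -⟩ | h2
      · rw [h2]
      · rw [h2]
        exact (B.ν_eq _ _).2 (SimpleGraph.Adj.reachable he))
  exact ⟨C, fun e e' he he' h => hC e he e' he' h⟩

end Bx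

end EG
end CPOR
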