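import Pool.Agent.P.MP_2cb329_al.EG.B0

/-! Section F9: the system of objects. -/

set_option autoImplicit false

namespace CPOR
namespace EG
open ZT MulAction

variable {G N W : Type} [Group G] [MulAction G N] [MulAction G W]

/-- Derived systems along an equivariant permutation that covers the arrows. -/
theorem b1_der {S : Sys G N} (hS : S.Bij) {Ω : Type} [MulAction G Ω] (ν : Ω → N)
    (hν : ∀ (g : G) ω, ν (g • ω) = g • ν ω) (hfin : FinOrb (⊤ : Subgroup G) (Set.univ : Set Ω))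
    (hfg : ∀ ω : Ω, (stabilizer G ω).FG) (π : Ω ≃ Ω) (hπ : ∀ (g : G) ω, π (g • ω) = g • π ω)
    (hcov : ∀ a x, ν x = S.src a → ν (π x) = S.tgt a) :
    FinOrb (⊤ : Subgroup G) {τ : S.A × Ω × Ω | ν τ.2.1 = S.src τ.1 ∧ τ.2.2 = π τ.2.1} ∧
    ∃ (S' : Sys G Ω) (O : Over S' S), O.ν = ν ∧
      O.IsDer (fun a x y => ν x = S.src a ∧ y = π x) ∧ S'.Bij ∧ O.Tight ∧
      ∀ b, S'.tgt b = π (S'.src b) := by
  have hR : ∀ (g : G) a x y, (ν x = S.src a ∧ y = π x) →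
      (ν (g • x) = S.src (g • a) ∧ g • y = π (g • x)) := by
    rintro g a x y ⟨h1, h2⟩
    exact ⟨by rw [hν, S.src_smul, h1], by rw [hπ, h2]⟩
  have hF : FinOrb (⊤ : Subgroup G)
      {τ : S.A × Ω × Ω | ν τ.2.1 = S.src τ.1 ∧ τ.2.2 = π τ.2.1} := by
    refine hfin.of_rel (fun τ ω => (ν τ.2.1 = S.src τ.1 ∧ τ.2.2 = π τ.2.1) ∧ τ.2.1 = ω) ?_
      (fun τ hτ => ⟨τ.2.1, trivial, hτ, rfl⟩) (fun ω _ => Set.Subsingleton.finite ?_)
    · rintro k _ τ ω ⟨h1, h2⟩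
      exact ⟨hR k _ _ _ h1, by rw [← h2]; rfl⟩
    · rintro ⟨a, x, y⟩ ⟨⟨h1, h2⟩, h3⟩ ⟨a', x', y'⟩ ⟨⟨h1', h2'⟩, h3'⟩
      simp only at h1 h2 h3 h1' h2' h3'
      subst h3 h3' h2 h2'
      rw [(hS.out (ν x')).unique h1.symm h1'.symm]
  refine ⟨hF, ?_⟩
  obtain ⟨S', O, hO, hD⟩ := exists_der S ν hν hfin hfg (fun a x y => ν x = S.src a ∧ y = π x) hR
    (fun _ _ _ h => h.1) (fun a x y h => by rw [h.2]; exact hcov a x h.1) hF
  have ht : ∀ b, S'.tgt b = π (S'.src b) := fun b => (hD.mem b).2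
  have huniq : ∀ b b', S'.src b = S'.src b' → b = b' := by
    intro b b' h
    refine O.det b b' ?_ h (by rw [ht, ht, h])
    exact (hS.out (ν (S'.src b))).unique (hD.mem b).1.symm (by rw [h]; exact (hD.mem b').1.symm)
  have hex : ∀ ω, ∃ b, S'.src b = ω := by
    intro ω
    obtain ⟨a, ha, -⟩ := hS.out (ν ω)
    obtain ⟨b, -, hb, -⟩ := hD.surj a ω (π ω) ⟨ha.symm, rfl⟩
    exact ⟨b, hb⟩
  refine ⟨S', O, hO, hD, ⟨fun ω => ?_, fun ω => ?_⟩, hD.tight ?_ ?_, ht⟩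
  · obtain ⟨b, hb⟩ := hex ω
    exact ⟨b, hb, fun b' hb' => huniq _ _ (hb'.trans hb.symm)⟩
  · obtain ⟨b, hb⟩ := hex (π.symm ω)
    refine ⟨b, by show S'.tgt b = ω; rw [ht, hb, Equiv.apply_symm_apply], fun b' hb' => ?_⟩
    refine huniq _ _ (π.injective ?_)
    rw [← ht, hb, Equiv.apply_symm_apply]
    exact hb'
  · rintro a x y y' ⟨-, h⟩ ⟨-, h'⟩
    rw [h, h']
  · rintro a x x' y ⟨-, h⟩ ⟨-, h'⟩
    exact π.injective (h.symm.trans h')

theorem b1_dist_le {V : Type} {T : SimpleGraph V} (φ : T ≃g T) (x y : V) :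
    T.dist (φ x) (φ y) ≤ T.dist x y := by
  by_cases h : T.Reachable x y
  · obtain ⟨p, hp⟩ := h.exists_walk_length_eq_dist
    have := SimpleGraph.dist_le (p.map φ.toHom)
    rwa [SimpleGraph.Walk.length_map, hp] at this
  · have : ¬ T.Reachable (φ x) (φ y) := fun h' => h (SimpleGraph.Iso.reachable_iff.1 h')
    rw [SimpleGraph.dist_eq_zero_of_not_reachable this]
    exact Nat.zero_le _

namespace YD

variable {X : Cx G W} (D : YD X)

/-- The shift as a graph automorphism. -/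
def σIso : D.H ≃g D.H := ⟨D.σ, fun {a b} => D.σ_adj a b⟩

/-- Objects. -/
def Ob : Type := D.H.ConnectedComponent

/-- The object of a vertex. -/
def ob (y : D.Y) : D.Ob := D.H.connectedComponentMk y

theorem ob_eq {y y' : D.Y} : D.ob y = D.ob y' ↔ D.H.Reachable y y' :=
  SimpleGraph.ConnectedComponent.eq

theorem ob_surj : Function.Surjective D.ob := fun c => Quot.exists_rep c

instance : MulAction G D.Ob where
  smul g c := Quot.lift (fun y => D.ob (g • y))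
    (fun _ _ h => D.ob_eq.2 (D.gf.acts.reach g h)) c
  one_smul c := by
    obtain ⟨y, rfl⟩ := D.ob_surj c
    show D.ob ((1 : G) • y) = D.ob y
    rw [one_smul]
  mul_smul g h c := by
    obtain ⟨y, rfl⟩ := D.ob_surj c
    show D.ob ((g * h) • y) = D.ob (g • h • y)
    rw [mul_smul]

theorem ob_smul (g : G) (y : D.Y) : D.ob (g • y) = g • D.ob y := rfl

theorem σ_reach {y y' : D.Y} : D.H.Reachable (D.σ y) (D.σ y') ↔ D.H.Reachable y y' := by
  exact SimpleGraph.Iso.reachable_iff (φ := D.σIso)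

theorem σ_dist (y y' : D.Y) : D.H.dist (D.σ y) (D.σ y') = D.H.dist y y' := by
  refine le_antisymm (b1_dist_le D.σIso y y') ?_
  have := b1_dist_le D.σIso.symm (D.σIso y) (D.σIso y')
  rwa [RelIso.symm_apply_apply, RelIso.symm_apply_apply] at this

theorem σ_btw {x y z : D.Y} (h : Btw D.H x y z) : Btw D.H (D.σ x) (D.σ y) (D.σ z) := by
  refine ⟨D.σ_reach.2 h.1, D.σ_reach.2 h.2.1, ?_⟩
  rw [D.σ_dist, D.σ_dist, D.σ_dist]
  exact h.2.2

theorem exists_sg : ∃ sg : Equiv.Perm D.Ob, ∀ y, sg (D.ob y) = D.ob (D.σ y) := by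
  exact ⟨D.σIso.connectedComponentEquiv, fun _ => rfl⟩

variable {S : Sys G N} (B : Bx S X)

theorem exists_ν : ∃ ν : D.Ob → N, ∀ y, ν (D.ob y) = B.ν (D.pt y) := by
  refine ⟨Quot.lift (fun y => B.ν (D.pt y)) (fun y y' h => ?_), fun _ => rfl⟩
  exact t4_reach_ind (P := fun z => B.ν (D.pt y) = B.ν (D.pt z)) rfl
    (fun z z' _ hz ih => ih.trans ((B.ν_eq _ _).2 (D.pt_adj z z' hz))) h

include B in
/-- Vertex groups of the tree are finitely generated (`Sys.node_fg`, `fg_inf_stab`). -/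
theorem fg_vert (w : W) : (stabilizer G w).FG := by
  have h1 := fg_inf_stab X.gf (S.node_fg (B.ν w)) (x := w) (fun k hk =>
    (B.ν_eq _ _).1 (by rw [B.ν_smul]; exact (hk : k • B.ν w = B.ν w).symm))
  rwa [inf_eq_right.2 (fun k (hk : k • w = w) => by
    show k • B.ν w = B.ν w
    rw [← B.ν_smul, hk])] at h1

include B in
theorem fg_y (y : D.Y) : (stabilizer G y).FG := by
  rcases D.stab y with h | ⟨w, h⟩
  · rw [h]; exact ⟨∅, by simp⟩
  · rw [h]; exact fg_vert B w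

include B in
/-- `fg_of_kc` for the component. -/
theorem fg_ob (ω : D.Ob) : (stabilizer G ω).FG := by
  obtain ⟨y₀, rfl⟩ := D.ob_surj ω
  have hset : {y | D.ob y = D.ob y₀} = {y | D.H.Reachable y₀ y} := by
    ext y
    exact ⟨fun h => (D.ob_eq.1 h).symm, fun h => D.ob_eq.2 h.symm⟩
  have hV := D.finV.fibre (fun _ _ _ _ => trivial) D.ob (fun k _ x _ => D.ob_smul k x) (D.ob y₀)
  have hE := D.finE.fibre (inv_darts D.gf.acts ⊤) (fun e => D.ob e.1)
    (fun k _ x _ => D.ob_smul k x.1) (D.ob y₀)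
  rw [top_inf_eq] at hV hE
  refine fg_of_kc D.gf (X := {y | D.ob y = D.ob y₀})
    ⟨⟨⟨y₀, rfl⟩, hset ▸ cvx_comp y₀, fun k hk x hx => ?_⟩, hV.mono fun x hx => ⟨trivial, hx⟩,
      hE.mono fun e he => ⟨he.1, he.2.1⟩⟩ (fun x hx => ?_)
  · show D.ob (k • x) = D.ob y₀
    rw [D.ob_smul, (hx : D.ob x = D.ob y₀)]
    exact hk
  · rw [inf_eq_right.2 (fun k (hk : k • x = x) => by
      show k • D.ob y₀ = D.ob y₀
      rw [← (hx : D.ob x = D.ob y₀), ← D.ob_smul, hk])]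
    exact D.fg_y B x

/-- The derived system on the objects (`exists_der` with `R a ω ω' := src a = ν ω ∧ ω' = sg ω`). -/
theorem exists_obsys {sg : Equiv.Perm D.Ob} (hsg : ∀ y, sg (D.ob y) = D.ob (D.σ y))
    {ν : D.Ob → N} (hν : ∀ y, ν (D.ob y) = B.ν (D.pt y)) :
    ∃ (S' : Sys G D.Ob) (O : Over S' S), O.ν = ν ∧ S'.Bij ∧ O.Tight ∧
      ∀ b, S'.tgt b = sg (S'.src b) := by
  have hfin : FinOrb (⊤ : Subgroup G) (Set.univ : Set D.Ob) := by
    have := D.finV.image D.ob (fun k _ x _ _ => D.ob_smul k x)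
    rwa [Set.image_univ, D.ob_surj.range_eq] at this
  obtain ⟨-, S', O, h1, -, h2, h3, h4⟩ := b1_der B.bij ν (fun g ω => by
      obtain ⟨y, rfl⟩ := D.ob_surj ω
      rw [← D.ob_smul, hν, hν, ← B.ν_smul]
      exact (B.ν_eq _ _).2 (D.pt_smul g y)) hfin (D.fg_ob B) sg (fun g ω => by
      obtain ⟨y, rfl⟩ := D.ob_surj ω
      rw [← D.ob_smul, hsg, hsg, D.σ_smul, D.ob_smul]) (fun a ω h => by
      obtain ⟨y, rfl⟩ := D.ob_surj ω
      rw [hν] at h
      rw [hsg, hν, ← B.ν_f a _ h]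
      exact (B.ν_eq _ _).2 (D.pt_σ y))
  exact ⟨S', O, h1, h2, h3, h4⟩

/-- The forest `H` is a NEG machine over the system of objects; its vertex system is bijective
and has smaller rank. -/
theorem obsys_gall (hneg : S_neg) {ρ : ℕ} (hρ : 0 < ρ) (hIH : IH G ρ)
    (hfg : ∀ y : D.Y, (stabilizer G y).FG) (hb : ∀ w : W, beta (stabilizer G w) < ρ)
    {sg : Equiv.Perm D.Ob} (hsg : ∀ y, sg (D.ob y) = D.ob (D.σ y)) (S' : Sys G D.Ob)
    (hB : S'.Bij) (ht : ∀ b, S'.tgt b = sg (S'.src b)) : S'.Gall := by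
  have hcov : ∀ a x, D.ob x = S'.src a → D.ob (D.σ x) = S'.tgt a := fun a x h => by
    rw [ht, ← hsg, h]
  obtain ⟨hF, S'', O, h1, h2, h3, -, -⟩ := b1_der hB D.ob D.ob_smul D.finV hfg D.σ D.σ_smul hcov
  let Z : Spl S' D.Y :=
    { T := D.H, gf := D.gf, finW := D.finV, finE := D.finE, ν := D.ob, ν_smul := D.ob_smul,
      ν_surj := D.ob_surj, ν_eq := fun _ _ => D.ob_eq }
  let M : Mach Z :=
    { R := fun a x y => D.ob x = S'.src a ∧ y = D.σ x
      smul := by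
        rintro g a x y ⟨e1, e2⟩
        exact ⟨by rw [D.ob_smul, S'.src_smul, e1], by rw [D.σ_smul, e2]⟩
      src := fun _ _ _ h => h.1
      tgt := fun a x y h => by
        show D.ob y = S'.tgt a
        rw [h.2]; exact hcov a x h.1
      func := by
        rintro a x y y' ⟨-, e⟩ ⟨-, e'⟩
        rw [e, e']
      inj := by
        rintro a x x' y ⟨-, e⟩ ⟨-, e'⟩
        exact D.σ.injective (e.symm.trans e')
      ne := fun a => by
        obtain ⟨x, hx⟩ := D.ob_surj (S'.src a)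
        exact ⟨x, _, hx, rfl⟩
      cvx := by
        rintro a x y x' y' z ⟨e1, rfl⟩ ⟨-, rfl⟩ hz
        exact ⟨D.σ z, ⟨(D.ob_eq.2 hz.1).symm.trans e1, rfl⟩, D.σ_btw hz⟩
      fin := hF }
  refine hneg G D.Ob S' D.Y Z M S'' O h1 h2 ⟨?_, ?_, ?_⟩ (hIH _ S'' h3.si fun y => ?_)
  · rintro a x y x' y' ⟨-, rfl⟩ ⟨-, rfl⟩
    exact D.σ_dist x x'
  · intro x x' hx
    obtain ⟨a, ha, hu⟩ := hB.out (D.ob x)
    refine ⟨a, ⟨⟨_, ha.symm, rfl⟩, _, (D.ob_eq.2 hx.reachable).symm.trans ha.symm, rfl⟩, ?_⟩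
    rintro a' ⟨⟨y, e, -⟩, -⟩
    exact hu a' e.symm
  · intro y y' hy
    obtain ⟨x, rfl⟩ := D.σ.surjective y
    obtain ⟨x', rfl⟩ := D.σ.surjective y'
    have hx := (D.σ_adj x x').1 hy
    obtain ⟨a, ha, hu⟩ := hB.out (D.ob x)
    refine ⟨a, ⟨⟨x, ha.symm, rfl⟩, x', (D.ob_eq.2 hx.reachable).symm.trans ha.symm, rfl⟩, ?_⟩
    rintro a' ⟨⟨z, e, e'⟩, -⟩
    obtain rfl := D.σ.injective e'
    exact hu a' e.symm
  · rcases D.stab y with h | ⟨w, h⟩
    · rw [h, beta_bot]; exact hρ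
    · rw [h]; exact hb w

/-- Anchors of carried darts are near their object. -/
theorem car_near {S' : Sys G D.Ob} (O : Over S' S) (hν : ∀ y, O.ν (D.ob y) = B.ν (D.pt y)) :
    ∃ C : ℕ, ∀ e y, D.Car e y → O.Near C (B.anc e) (D.ob y) := by
  obtain ⟨C, hC⟩ := D.car_fin.bound (fun p c => O.Near c (B.anc p.1) (D.ob p.2))
    (fun _ _ _ _ hc h => h.mono hc)
    (fun k _ p hp c _ h => by
      show O.Near c (B.anc (k • p.1)) (D.ob (k • p.2))
      rw [B.anc_smul k _ (D.car_adj _ _ hp).1, D.ob_smul]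
      exact h.smul k)
    (fun p hp => by
      obtain ⟨q, hq⟩ := S'.nd_surj (D.ob p.2)
      refine ⟨_, q, hq, Sys.cl_dist ?_⟩
      rw [O.nd_V, hq, hν, B.nd_anc _ (D.car_adj _ _ hp).1]
      exact (B.ν_eq _ _).2 (D.car_adj _ _ hp).2)
  exact ⟨C, fun e y h => hC (e, y) h⟩

end YD

/-- A chain of points, consecutive ones close or near one node above, is covered. -/
theorem cover_of_chain {S : Sys G N} {Ω : Type} [MulAction G Ω] {S' : Sys G Ω} (O : Over S' S)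
    (q : ℕ → S.V) (n C : ℕ)
    (h : ∀ i < n, S.Cl C (q i) (q (i + 1)) ∨ ∃ ω, O.Near C (q i) ω ∧ O.Near C (q (i + 1)) ω) :
    ∃ F : Finset Ω, F.card ≤ n ∧ (∀ ω ∈ F, O.ν ω = S.nd (q 0)) ∧
      {z | Btw S.B (q 0) z (q n) ∧ ∀ ω ∈ F, ¬ O.Near 0 z ω}.ncard ≤ n * (2 * C + 2) + 1 := by
  classical
  have hnd : ∀ i ≤ n, S.nd (q i) = S.nd (q 0) := by
    intro i
    induction i with
    | zero => intro _; rfl
    | succ i ih =>
      intro hi
      rw [← ih (by omega)]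
      rcases h i (by omega) with h1 | ⟨ω, h1, h2⟩
      · exact h1.1.symm
      · rw [h1.nd, h2.nd]
  have hch : ∀ i, ∃ F : Finset Ω, F.card ≤ 1 ∧ (i < n → (∀ ω ∈ F, O.ν ω = S.nd (q 0)) ∧
      (S.Cl C (q i) (q (i + 1)) ∨ ∃ ω ∈ F, O.Near C (q i) ω ∧ O.Near C (q (i + 1)) ω)) := by
    intro i
    by_cases hi : i < n
    · rcases h i hi with h1 | ⟨ω, h1, h2⟩
      · exact ⟨∅, by simp, fun _ => ⟨by simp, Or.inl h1⟩⟩
      · refine ⟨{ω}, by simp, fun _ => ⟨fun ω' hω => ?_, Or.inr ⟨ω, by simp, h1, h2⟩⟩⟩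
        rw [Finset.mem_singleton.1 hω, ← h1.nd, hnd i hi.le]
    · exact ⟨∅, by simp, fun h => absurd h hi⟩
  choose F hF1 hF2 using hch
  refine ⟨(Finset.range n).biUnion F, ?_, fun ω hω => ?_, ?_⟩
  · refine Finset.card_biUnion_le.trans ?_
    refine (Finset.sum_le_sum fun i _ => hF1 i).trans ?_
    simp
  · obtain ⟨i, hi, hω⟩ := Finset.mem_biUnion.1 hω
    exact (hF2 i (Finset.mem_range.1 hi)).1 ω hω
  set A : ℕ → Set S.V := fun i => {z | Btw S.B (q i) z (q (i + 1)) ∧ S.B.dist (q i) z ≤ C} ∪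
    {z | Btw S.B (q i) z (q (i + 1)) ∧ S.B.dist z (q (i + 1)) ≤ C} with hA
  have hAf : ∀ i, (A i).Finite := fun i =>
    (btw_finite S.gf.acyc (q i) (q (i + 1))).subset (by rintro z (hz | hz) <;> exact hz.1)
  have hAc : ∀ i, (A i).ncard ≤ 2 * C + 2 := fun i => by
    have h1 := btw_near_ncard S.gf.acyc (q i) (q (i + 1)) C
    have h2 := Set.ncard_union_le {z | Btw S.B (q i) z (q (i + 1)) ∧ S.B.dist (q i) z ≤ C}
      {z | Btw S.B (q i) z (q (i + 1)) ∧ S.B.dist z (q (i + 1)) ≤ C}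
    simp only [hA]
    omega
  have hsub : {z | Btw S.B (q 0) z (q n) ∧ ∀ ω ∈ (Finset.range n).biUnion F, ¬ O.Near 0 z ω} ⊆
      insert (q 0) (⋃ i ∈ Finset.range n, A i) := by
    rintro z ⟨hz, hn⟩
    rcases Btw.chain S.gf.acyc q n (fun i hi => (S.nd_eq _ _).1
      ((hnd i hi.le).trans (hnd (i + 1) hi).symm)) hz with h0 | ⟨i, hi, hb⟩
    · exact Or.inl h0
    refine Or.inr (Set.mem_biUnion (Finset.mem_coe.2 (Finset.mem_range.2 hi)) ?_)
    by_contra hcon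
    simp only [hA, Set.mem_union, Set.mem_setOf_eq, not_or, not_and, not_le] at hcon
    have c1 := hcon.1 hb
    have c2 := hcon.2 hb
    rcases (hF2 i hi).2 with h1 | ⟨ω, hω, ⟨x, hx, h1⟩, x', hx', h2⟩
    · have := hb.2.2
      have := h1.2
      omega
    · have b1 := btw_move_left S.gf.acyc hb h1.reach (by have := h1.2; omega)
      have b2 := btw_move_left S.gf.acyc b1.symm h2.reach (by
        have := h2.2
        rw [SimpleGraph.dist_comm (u := q (i + 1)) (v := z)]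
        omega)
      obtain ⟨y, hy, rfl⟩ := (O.cvx ω _ ⟨x', hx', rfl⟩ _ ⟨x, hx, rfl⟩).2 z b2
      exact hn ω (Finset.mem_biUnion.2 ⟨i, Finset.mem_range.2 hi, hω⟩) ⟨y, hy, Sys.cl_refl 0 _⟩
  have h1 := Set.ncard_le_ncard hsub
    ((Set.Finite.biUnion (Finset.finite_toSet _) fun i _ => hAf i).insert _)
  have h2 := Set.ncard_insert_le (q 0) (⋃ i ∈ Finset.range n, A i)
  have h3 := (Finset.range n).set_ncard_biUnion_le A
  have h4 : ∑ i ∈ Finset.range n, (A i).ncard ≤ n * (2 * C + 2) := by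
    refine (Finset.sum_le_sum fun i _ => hAc i).trans ?_
    simp
  omega

theorem YD.cover {X : Cx G W} (D : YD X) {S : Sys G N} (B : Bx S X) {S' : Sys G D.Ob}
    (O : Over S' S) (hν : ∀ y, O.ν (D.ob y) = B.ν (D.pt y)) {τ τs : ℕ} (h : D.RD τ τs) :
    ∃ Γ, Bd Γ ∧ ∀ (K : ℕ) (x x' : W) (p p' : S.V), X.HYP τs K x x' →
      B.Nr K p (X.f^[τ] x) → B.Nr K p' (X.f^[τ] x') →
      ∃ F : Finset D.Ob, F.card ≤ Γ K ∧ (∀ ω ∈ F, O.ν ω = S.nd p) ∧
        {z | Btw S.B p z p' ∧ ∀ ω ∈ F, ¬ O.Near 0 z ω}.ncard ≤ Γ K := by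
  obtain ⟨Γ, hΓ, hrd⟩ := h
  obtain ⟨C₁, hC₁⟩ := B.anc_close
  obtain ⟨C₂, hC₂⟩ := D.car_near B O hν
  refine ⟨fun K => (Γ K + 2) * (2 * (K + C₁ + C₂) + 2) + 1,
    ((hΓ.add (Bd.const 2)).mul (((Bd.const 2).mul ((Bd.id.add (Bd.const _)).add
      (Bd.const _))).add (Bd.const 2))).add (Bd.const 1), ?_⟩
  rintro K x x' p p' hH ⟨w, h1, h2⟩ ⟨w', h1', h2'⟩
  obtain ⟨n, hn, a, a0, an, hadj, hst⟩ := hrd K x x' hH (_, w) (_, w') h1 h1' rfl rfl
  obtain ⟨F, hF1, hF2, hF3⟩ := cover_of_chain O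
    (fun i => if i = 0 then p else if i ≤ n + 1 then B.anc (a (i - 1)) else p') (n + 2)
    (K + C₁ + C₂) (fun i hi => by
      by_cases hi0 : i = 0
      · subst hi0
        left
        simp only [if_true, zero_add, one_ne_zero, if_false, Nat.sub_self, a0,
          if_pos (by omega : 1 ≤ n + 1)]
        exact h2.mono (by omega)
      by_cases hi1 : i = n + 1
      · subst hi1
        left
        simp only [if_neg hi0, le_refl, if_true, Nat.add_sub_cancel, an,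
          if_neg (by omega : ¬ n + 1 + 1 = 0), if_neg (by omega : ¬ n + 1 + 1 ≤ n + 1)]
        exact h2'.symm.mono (by omega)
      obtain ⟨j, rfl⟩ : ∃ j, i = j + 1 := ⟨i - 1, by omega⟩
      simp only [if_neg hi0, if_pos (by omega : j + 1 ≤ n + 1), Nat.add_sub_cancel,
        if_neg (by omega : ¬ j + 1 + 1 = 0), if_pos (by omega : j + 1 + 1 ≤ n + 1)]
      have e1 := hadj j (by omega)
      have e2 := hadj (j + 1) (by omega)
      rcases hst j (by omega) with s | s | ⟨y, y', s1, s2, s3⟩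
      · by_cases hb : stabilizer G (a j).1 = ⊥
        · exact Or.inl ((hC₁ _ _ e1 e2 (Or.inl ⟨s, hb⟩)).mono (by omega))
        · obtain ⟨y, -, -, hy⟩ := D.vert _ hb
          refine Or.inr ⟨D.ob y, (hC₂ _ _ (hy _ e1)).mono (by omega), ?_⟩
          have := hy (a (j + 1)).2 (by rw [s]; exact e2)
          rw [s] at this
          exact (hC₂ _ _ this).mono (by omega)
      · exact Or.inl ((hC₁ _ _ e1 e2 (Or.inr s)).mono (by omega))
      · refine Or.inr ⟨D.ob y, (hC₂ _ _ s1).mono (by omega), ?_⟩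
        rw [D.ob_eq.2 s3]
        exact (hC₂ _ _ s2).mono (by omega))
  simp only [if_true, if_neg (by omega : ¬ n + 2 = 0), if_neg (by omega : ¬ n + 2 ≤ n + 1)]
    at hF2 hF3
  have c1 : (n + 2) * (2 * (K + C₁ + C₂) + 2) ≤ (Γ K + 2) * (2 * (K + C₁ + C₂) + 2) :=
    Nat.mul_le_mul_right _ (by omega)
  have c2 : (n + 2) * 1 ≤ (n + 2) * (2 * (K + C₁ + C₂) + 2) := Nat.mul_le_mul_left _ (by omega)
  refine ⟨F, ?_, hF2, ?_⟩
  · show _ ≤ (Γ K + 2) * (2 * (K + C₁ + C₂) + 2) + 1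
    omega
  · show _ ≤ (Γ K + 2) * (2 * (K + C₁ + C₂) + 2) + 1
    omega

theorem exists_ox (hneg : S_neg) {ρ : ℕ} (hρ : 0 < ρ) (hIH : IH G ρ) {S : Sys G N} {X : Cx G W}
    (B : Bx S X) (hb : ∀ w : W, beta (stabilizer G w) < ρ) : Nonempty (Ox B) := by
  obtain ⟨D, τ, τs, hrd⟩ := exists_yd X
  obtain ⟨sg, hsg⟩ := D.exists_sg
  obtain ⟨ν, hν⟩ := D.exists_ν B
  obtain ⟨S', O, hO, hB, hT, ht⟩ := D.exists_obsys B hsg hν
  subst hO
  refine ⟨{ Ω := D.Ob, S' := S', O := O, bij := hB, tight := hT, sg := sg, tgt_eq := ht, τ := τ,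
            τs := τs, cover := D.cover B O hν hrd,
            gall := D.obsys_gall hneg hρ hIH (D.fg_y B) hb hsg S' hB ht,
            sg_smul := ?_, mal := ?_, vert := ?_ }⟩
  · intro g ω
    obtain ⟨y, rfl⟩ := D.ob_surj ω
    rw [← D.ob_smul, hsg, hsg, D.σ_smul, D.ob_smul]
  · intro g ω ω' hg h1 h2 h3
    obtain ⟨y, rfl⟩ := D.ob_surj ω
    obtain ⟨y', rfl⟩ := D.ob_surj ω'
    rw [hν, hν, B.ν_eq] at h3
    exact D.ob_eq.2 (D.mal g y y' hg (D.ob_eq.1 h1.symm) (D.ob_eq.1 h2.symm) h3)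
  · intro g w hg hw
    have hne : stabilizer G w ≠ ⊥ := fun e => hg (by
      have : g ∈ stabilizer G w := hw
      rw [e] at this
      exact Subgroup.mem_bot.1 this)
    obtain ⟨y, h1, h2, -⟩ := D.vert w hne
    refine ⟨D.ob y, ?_, ?_⟩
    · rw [hν]; exact ((B.ν_eq _ _).2 h2).symm
    · rw [← D.ob_smul]; exact congrArg D.ob (h1 hw)

end EG
end CPOR
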