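import Pool.Agent.P.MP_2cb329_al.EG.B0

/-! Section F9: LL, TO, G1 and G2. -/

set_option autoImplicit false

namespace CPOR
namespace EG
open ZT MulAction

theorem seg_le {V : Type} {T : SimpleGraph V} (hT : T.IsAcyclic) {p p' : V} (A : Set V)
    (a m : ℕ) (h : ∀ z ∈ A, Btw T p z p' ∧ a ≤ T.dist p z ∧ T.dist p z < a + m) :
    A.ncard ≤ m := by
  have := Set.ncard_le_ncard_of_injOn (s := A) (t := Set.Ico a (a + m)) (T.dist p)
    (fun z hz => (h z hz).2) (fun z hz z' hz' e => (h z hz).1.unique hT (h z' hz').1 e)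
    (Set.finite_Ico _ _)
  rw [← Finset.coe_Ico, Set.ncard_coe_finset, Nat.card_Ico] at this
  omega

theorem seg_ge {V : Type} {T : SimpleGraph V} {p p' : V} (hr : T.Reachable p p') {A : Set V}
    (hA : A.Finite) (I : Set ℕ) (hI : ∀ i ∈ I, i ≤ T.dist p p')
    (h : ∀ z, Btw T p z p' → T.dist p z ∈ I → z ∈ A) : I.ncard ≤ A.ncard := by
  refine le_trans (Set.ncard_le_ncard ?_ (hA.image (T.dist p))) (Set.ncard_image_le hA)
  intro i hi
  obtain ⟨z, h1, h2⟩ := exists_btw_dist hr (hI i hi)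
  exact ⟨z, h z h1 (h2 ▸ hi), h2⟩

theorem ncard_cover {V Ω : Type} (A U : Set V) (hU : U.Finite) (F : Finset Ω) (P : Ω → Set V)
    (m : ℕ) (hP : ∀ ω ∈ F, (P ω).Finite ∧ (P ω).ncard ≤ m)
    (h : ∀ z ∈ A, z ∈ U ∨ ∃ ω ∈ F, z ∈ P ω) : A.ncard ≤ U.ncard + F.card * m := by
  classical
  induction F using Finset.induction_on generalizing U with
  | empty => simpa using Set.ncard_le_ncard (fun z hz => by simpa using h z hz) hU
  | insert a F ha ih =>
    have h1 := hP a (Finset.mem_insert_self _ _)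
    have := ih (U ∪ P a) (hU.union h1.1) (fun ω hω => hP ω (Finset.mem_insert_of_mem hω)) (by
      intro z hz
      rcases h z hz with k | ⟨ω, k1, k2⟩
      · exact Or.inl (Or.inl k)
      · rcases Finset.mem_insert.1 k1 with rfl | k1
        · exact Or.inl (Or.inr k2)
        · exact Or.inr ⟨ω, k1, k2⟩)
    have h2 := Set.ncard_union_le U (P a)
    rw [Finset.card_insert_of_notMem ha, Nat.add_mul]
    omega

theorem dist_on_geod {V : Type} {T : SimpleGraph V} (hT : T.IsAcyclic) {p p' z z' : V}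
    (h : Btw T p z p') (h' : Btw T p z' p') (hd : T.dist p z ≤ T.dist p z') :
    T.dist p z + T.dist z z' = T.dist p z' := (h.compare hT h' hd).1.2.2

variable {G N W : Type} [Group G] [MulAction G N] [MulAction G W]

/-- Ping-pong on a broken geodesic `x0, x1, h x0, h x1` with short backtracking.  Take the dart
`(y, y')` of `[x0, x1]` at distance `D` from `x0`; `axis_of_nested`. -/
theorem broken_axis {V : Type} {T : SimpleGraph V} [MulAction G V] (hG : GF T G) {h : G}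
    {x0 x1 : V} {D : ℕ} (r1 : T.Reachable x0 x1) (r2 : T.Reachable x1 (h • x0))
    (h1 : T.dist x1 (med T x0 x1 (h • x0)) ≤ D)
    (h2 : T.dist (h • x0) (med T x1 (h • x0) (h • x1)) ≤ D)
    (l1 : 3 * D + 2 ≤ T.dist x0 x1) (l2 : 3 * D + 2 ≤ T.dist x1 (h • x0)) :
    ∃ (b : ℤ → V) (l : ℕ), IsAxis T h b l ∧
      (∃ i j, Btw T x0 (b i) x1 ∧ Btw T x0 (b j) x1 ∧ D < T.dist (b i) (b j)) ∧
      ∃ i j, Btw T x1 (b i) (h • x0) ∧ Btw T x1 (b j) (h • x0) ∧ D < T.dist (b i) (b j) := by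
  have hT := hG.acyc
  have hA := hG.acts
  have r3 : T.Reachable (h • x0) (h • x1) := hA.reach h r1
  obtain ⟨a1, a2, a3⟩ := med_spec hT r1 r2
  obtain ⟨b1, b2, b3⟩ := med_spec hT r2 r3
  set m1 := med T x0 x1 (h • x0)
  set m2 := med T x1 (h • x0) (h • x1)
  obtain ⟨y, y1, y2⟩ := exists_btw_dist r1 (i := D) (by omega)
  obtain ⟨y', y1', y2'⟩ := exists_btw_dist r1 (i := D + 1) (by omega)
  have yy := (y1.compare hT y1' (by omega)).1
  have adj : T.Adj y y' := adj_of_dist_one (by have := yy.2.2; omega)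
  have c1 : T.dist m1 x1 = T.dist x1 m1 := SimpleGraph.dist_comm
  have c2 : T.dist m2 (h • x0) = T.dist (h • x0) m2 := SimpleGraph.dist_comm
  have e1 := a1.2.2
  have e2 := b1.2.2
  have ym := (y1'.compare hT a1 (by omega)).1
  have mm := a2.compare hT b1 (by omega)
  have e3 := mm.1.2.2
  have ne12 : m1 ≠ m2 := fun e => by rw [← e, SimpleGraph.dist_self] at e3; rw [← e] at c2 e2 h2; omega
  have hy := hA.btw h y1
  have hy' := hA.btw h y1'
  have hyy := hA.btw h yy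
  have d1 : T.dist (h • x0) (h • y) = D := by rw [hA.dist]; exact y2
  have d2 : T.dist (h • x0) (h • y') = D + 1 := by rw [hA.dist]; exact y2'
  have k1 := (b2.compare hT hy (by omega))
  have k2 := (b2.compare hT hy' (by omega))
  have k3 : Btw T m2 (h • y) (h • y') := (hyy.trans_left k1.1).2
  have k4 : Btw T x1 m2 (h • y') := (b3.trans_right k2.2).2
  have k5 : Btw T m1 m2 (h • y') := (k4.trans_left mm.1).2
  have k6 : Btw T x0 m1 m2 := (a3.trans_right mm.2).2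
  obtain ⟨k7, k8⟩ := k6.glue hT k5 ne12
  obtain ⟨k9, k10⟩ := k8.trans_right k3
  have k11 : Btw T x0 m1 (h • y) := (k10.trans_left k6).1
  have k12 : Btw T x0 y' (h • y) := (k11.trans_left ym).1
  have k13 : Btw T y y' (h • y) := (k12.trans_left yy).2
  have k14 : Btw T y' (h • y) (h • y') := (k9.trans_left k12).2
  obtain ⟨b, l, hb, b0, -⟩ := axis_of_nested hG adj k13 k14
  have bl : b l = h • y := by
    have := hb.2.2 0
    rw [b0, zero_add] at this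
    exact this.symm
  have ym1 : Btw T x0 y m1 := (ym.trans_left yy).1
  have in1 : Btw T y m1 (h • y) := (k11.trans_left ym1).2
  have in2 : Btw T y m2 (h • y) := (k10.trans_left (k6.trans_left ym1).1).2
  rw [← bl, ← b0] at in1 in2
  obtain ⟨i1, -, -, f1⟩ := hb.1.of_btw hT (Int.natCast_nonneg l) in1
  obtain ⟨i2, -, -, f2⟩ := hb.1.of_btw hT (Int.natCast_nonneg l) in2
  refine ⟨b, l, hb, ⟨0, i1, b0 ▸ y1, f1 ▸ a1, ?_⟩, ⟨i1, i2, f1 ▸ a2, f2 ▸ b1, ?_⟩⟩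
  · rw [b0, ← f1]
    have := ym1.2.2
    omega
  · rw [← f1, ← f2]
    omega

namespace Ox

variable {S : Sys G N} {X : Cx G W} {B : Bx S X} (Q : Ox B)

/-- The arrow of `S'` at the object `sg ^ i ω`. -/
noncomputable def lift (ω : Q.Ω) (i : ℤ) : Q.S'.A := (Q.bij.out ((Q.sg ^ i) ω)).choose

theorem lift_src (ω : Q.Ω) (i : ℤ) : Q.S'.src (Q.lift ω i) = (Q.sg ^ i) ω :=
  (Q.bij.out ((Q.sg ^ i) ω)).choose_spec.1

theorem lift_tgt (ω : Q.Ω) (i : ℤ) : Q.S'.tgt (Q.lift ω i) = (Q.sg ^ (i + 1)) ω := by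
  rw [Q.tgt_eq, Q.lift_src, add_comm, zpow_add, zpow_one, Equiv.Perm.mul_apply]

theorem sg_zpow_smul (i : ℤ) (g : G) (ω : Q.Ω) : (Q.sg ^ i) (g • ω) = g • (Q.sg ^ i) ω := by
  have inv : ∀ o : Q.Ω, Q.sg⁻¹ (g • o) = g • Q.sg⁻¹ o := by
    intro o
    apply Q.sg.injective
    rw [Q.sg_smul]
    simp
  induction i using Int.induction_on with
  | zero => simp
  | succ n ih => rw [add_comm, zpow_add, zpow_one, Equiv.Perm.mul_apply, Equiv.Perm.mul_apply, ih,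
      Q.sg_smul]
  | pred n ih => rw [sub_eq_neg_add, zpow_add, zpow_neg_one, Equiv.Perm.mul_apply,
      Equiv.Perm.mul_apply, ih, inv]

theorem lift_smul (g : G) (ω : Q.Ω) (i : ℤ) : Q.lift (g • ω) i = g • Q.lift ω i := by
  refine (Q.bij.out ((Q.sg ^ i) (g • ω))).unique (Q.lift_src _ _) ?_
  rw [Q.S'.src_smul, Q.lift_src, Q.sg_zpow_smul]

theorem ν_sg {ω : Q.Ω} {a : S.A} (h : Q.O.ν ω = S.src a) : Q.O.ν (Q.sg ω) = S.tgt a := by
  obtain ⟨b, hb, -⟩ := Q.bij.out ω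
  have e : Q.O.A b = a := (B.bij.out (S.src a)).unique (by rw [Q.O.src_A, hb, h]) rfl
  rw [← e, Q.O.tgt_A, Q.tgt_eq, hb]

theorem ν_sg_inv {ω : Q.Ω} {a : S.A} (h : Q.O.ν ω = S.tgt a) : Q.O.ν (Q.sg⁻¹ ω) = S.src a := by
  obtain ⟨a', ha', -⟩ := B.bij.out (Q.O.ν (Q.sg⁻¹ ω))
  have h1 := Q.ν_sg ha'.symm
  have e : a' = a := (B.bij.inn (S.tgt a)).unique (by rw [← h1, ← h]; simp) rfl
  rw [← e, ha']

theorem lifts {a : ℤ → S.A} {j : ℤ} (ha : S.IsPath a 0 j) {ω : Q.Ω}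
    (h : Q.O.ν ω = S.src (a 0)) : Q.O.Lifts (Q.lift ω) a 0 j := by
  have key : ∀ n : ℕ, (n : ℤ) < j → Q.O.ν ((Q.sg ^ (n : ℤ)) ω) = S.src (a n) := by
    intro n
    induction n with
    | zero => intro _; simpa using h
    | succ n ih =>
      intro hn
      push_cast at hn ⊢
      rw [add_comm, zpow_add, zpow_one, Equiv.Perm.mul_apply, Q.ν_sg (ih (by omega)), add_comm]
      exact ha n (by omega) hn
  refine ⟨fun l _ _ => by rw [Q.lift_tgt, Q.lift_src], fun l h1 h2 => ?_⟩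
  obtain ⟨n, rfl⟩ := Int.eq_ofNat_of_zero_le h1
  exact (B.bij.out (S.src (a n))).unique (by rw [Q.O.src_A, Q.lift_src, key n h2]) rfl

theorem lift_A {a : ℤ → S.A} (ha : ∀ i, S.tgt (a i) = S.src (a (i + 1))) {ω : Q.Ω}
    (h : Q.O.ν ω = S.src (a 0)) (i : ℤ) :
    Q.O.A (Q.lift ω i) = a i ∧ Q.O.ν ((Q.sg ^ i) ω) = S.src (a i) := by
  have key : Q.O.ν ((Q.sg ^ i) ω) = S.src (a i) := by
    induction i using Int.induction_on with
    | zero => simpa using h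
    | succ n ih =>
      rw [add_comm, zpow_add, zpow_one, Equiv.Perm.mul_apply, Q.ν_sg ih, add_comm]
      exact ha n
    | pred n ih =>
      rw [sub_eq_neg_add, zpow_add, zpow_neg_one, Equiv.Perm.mul_apply]
      refine Q.ν_sg_inv ?_
      rw [ih, ha]
      congr 2; ring
  exact ⟨(B.bij.out (S.src (a i))).unique (by rw [Q.O.src_A, Q.lift_src, key]) rfl, key⟩

theorem plift {L k : ℕ} {u : G} {p : ℤ → S.P} (hp : S.Thread L k u p) {ω : Q.Ω}
    (h : Q.O.ν ω = S.nd (S.s (p 0))) (hu : (Q.sg ^ (k : ℤ)) ω = u • ω) :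
    Q.O.PLift k u p (Q.lift ω) := by
  have hpath : ∀ i, S.tgt (S.arr (p i)) = S.src (S.arr (p (i + 1))) := fun i => by
    rw [← S.nd_t, ← S.nd_s]; exact (hp.ch i).1
  refine ⟨fun i => (Q.lift_A (a := fun i => S.arr (p i)) hpath (by rw [h, S.nd_s]) i).1,
    fun i => by rw [Q.lift_tgt, Q.lift_src], fun i => ?_⟩
  rw [← Q.lift_smul]
  refine (Q.bij.out ((Q.sg ^ (i + k)) ω)).unique (Q.lift_src _ _) ?_
  rw [Q.lift_src, zpow_add, Equiv.Perm.mul_apply, hu]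

theorem stab_inf {ω ω' : Q.Ω} (h : Q.O.ν ω = Q.O.ν ω') (hne : ω ≠ ω') :
    stabilizer G ω ⊓ stabilizer G ω' = ⊥ := by
  rw [eq_bot_iff]
  intro g hg
  by_contra h1
  exact hne (Q.mal g ω ω' (fun e => h1 (e ▸ Subgroup.one_mem _)) hg.1 hg.2 h)

/-- Distinct objects overlap boundedly. -/
theorem ov : ∃ C : ℕ, ∀ (ω ω' : Q.Ω) (r : ℕ) (p p' : S.V), ω ≠ ω' → Q.O.Near r p ω →
    Q.O.Near r p ω' → Q.O.Near r p' ω → Q.O.Near r p' ω' → S.Cl (2 * r + C) p p' := by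
  obtain ⟨C, hC⟩ := Q.O.overlap
  exact ⟨C, fun ω ω' r p p' hne h1 h2 h3 h4 =>
    hC ω ω' r p p' (Q.stab_inf (h1.nd.symm.trans h2.nd) hne) h1 h2 h3 h4⟩

/-- Objects fixed by `g` are carried back along the dynamics. -/
theorem pull {g : G} {z : W} {t : ℕ} {ω : Q.Ω} (h : Q.O.ν ω = B.ν (X.f^[t] z)) (hg : g • ω = ω) :
    ∃ ω', Q.O.ν ω' = B.ν z ∧ g • ω' = ω' := by
  induction t generalizing ω with
  | zero => exact ⟨ω, h, hg⟩
  | succ t ih =>
    obtain ⟨a, ha, -⟩ := B.bij.out (B.ν (X.f^[t] z))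
    rw [Function.iterate_succ_apply', B.ν_f a _ ha.symm] at h
    refine ih (ω := Q.sg⁻¹ ω) ((Q.ν_sg_inv h).trans ha) ?_
    have := Q.sg_zpow_smul (-1) g ω
    rw [zpow_neg_one, hg] at this
    exact this.symm

/-- If all `[p, g ^ M p]` are covered by a bounded number of objects up to a bounded set, then
`g` fixes an object: one of them contains a long piece of the axis, so it overlaps its
translate. -/
theorem fix_of_cover {g : G} (hg : g ≠ 1) {p : S.V} (hp : S.nd (g • p) = S.nd p) {K : ℕ}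
    (h : ∀ M : ℕ, ∃ F : Finset Q.Ω, F.card ≤ K ∧
      {z | Btw S.B p z (g ^ M • p) ∧ ∀ ω ∈ F, ¬ Q.O.Near 0 z ω}.ncard ≤ K) :
    ∃ ω, Q.O.ν ω = S.nd p ∧ g • ω = ω := by
  classical
  obtain ⟨C, hC⟩ := Q.ov
  have hT := S.gf.acyc
  have hr : S.B.Reachable p (g • p) := (S.nd_eq _ _).1 hp.symm
  obtain ⟨a, l, ha, hb⟩ := S.ft.exists_axis hg hr
  have hl := ha.2.1
  set M := K + K * (2 * (l + C) + 1) + 1 with hM
  obtain ⟨F, F1, F2⟩ := h M
  obtain ⟨i, i1, -, -, i4⟩ := (ha.pow (n := M) (by omega)).disp hT S.gf.acts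
    (hb 0 le_rfl (Int.natCast_nonneg l)).1
  have on : ∀ j, i ≤ j → j ≤ i + (M * l : ℕ) → Btw S.B p (a j) (g ^ M • p) := fun j j1 j2 =>
    (i4.trans_left ((i1 _).trans_right (ha.1.btw hT j1 j2)).1).1
  have fin : {z | Btw S.B p z (g ^ M • p) ∧ ∀ ω ∈ F, ¬ Q.O.Near 0 z ω}.Finite :=
    (btw_finite hT _ _).subset fun z hz => hz.1
  by_contra hno
  have diam : ∀ ω ∈ F, ∀ j j', Q.O.Near 0 (a j) ω → Q.O.Near 0 (a j') ω → j' ≤ j + l + C := by
    intro ω _ j j' n1 n2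
    by_contra hlt
    have n3 : Q.O.Near 0 (a (j + l)) ω := n1.btw n2 (ha.1.btw hT (by omega) (by omega))
    have n4 : Q.O.Near 0 (a (j' - l)) ω := n1.btw n2 (ha.1.btw hT (by omega) (by omega))
    have n5 := n1.smul g
    have n6 := n4.smul g
    rw [ha.2.2] at n5 n6
    rw [show j' - l + l = j' by ring] at n6
    have hne : ω ≠ g • ω := fun e => hno ⟨ω, by
      rw [← n1.nd]
      exact ((S.nd_eq _ _).2 ((hb 0 le_rfl (Int.natCast_nonneg l)).1.trans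
        (ha.1.dist hT 0 j).1)).symm, e.symm⟩
    have := (hC _ _ 0 _ _ hne n3 n5 n2 n6).2
    rw [(ha.1.dist hT _ _).2] at this
    omega
  have hU : (a ⁻¹' {z | Btw S.B p z (g ^ M • p) ∧ ∀ ω ∈ F, ¬ Q.O.Near 0 z ω}).ncard ≤ K :=
    le_trans (Set.ncard_le_ncard_of_injOn a (fun _ hz => hz) (ha.1.inj hT).injOn fin) F2
  have := ncard_cover (Set.Icc i (i + (M * l : ℕ))) _ (fin.preimage (ha.1.inj hT).injOn) F
    (fun ω => {j | Q.O.Near 0 (a j) ω}) (2 * (l + C) + 1) (by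
      intro ω hω
      rcases Set.eq_empty_or_nonempty {j | Q.O.Near 0 (a j) ω} with e | ⟨j0, h0⟩
      · rw [e]; simp
      · have sub : {j | Q.O.Near 0 (a j) ω} ⊆ Set.Icc (j0 - (l + C)) (j0 + (l + C)) := by
          intro j hj
          have := diam ω hω j j0 hj h0
          have := diam ω hω j0 j h0 hj
          constructor <;> omega
        refine ⟨(Set.finite_Icc _ _).subset sub,
          le_trans (Set.ncard_le_ncard sub (Set.finite_Icc _ _)) ?_⟩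
        rw [← Finset.coe_Icc, Set.ncard_coe_finset, Int.card_Icc]
        omega) (by
      intro j hj
      by_cases c : ∃ ω ∈ F, Q.O.Near 0 (a j) ω
      · exact Or.inr c
      · exact Or.inl ⟨on j hj.1 hj.2, fun ω c1 c2 => c ⟨ω, c1, c2⟩⟩)
  rw [← Finset.coe_Icc, Set.ncard_coe_finset, Int.card_Icc] at this
  have h3 : F.card * (2 * (l + C) + 1) ≤ K * (2 * (l + C) + 1) := Nat.mul_le_mul_right _ F1
  have h4 : M ≤ M * l := Nat.le_mul_of_pos_right _ hl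
  omega

/-- (LL) `llt` for `z = bar p`, `z' = bar q`; `vert`, `cover`, `fix_of_cover`, `pull`. -/
theorem ll : ∃ Γ, Bd Γ ∧ ∀ (L n : ℕ) (x : G) (a : ℤ → S.A), x ≠ 1 → S.IsPath a 0 n →
    S.TL L x (S.src (a 0)) → S.TL L x (S.tgt (a (n - 1))) →
    n ≤ Γ L ∨ ∃ ω, Q.O.ν ω = S.src (a 0) ∧ x • ω = ω := by
  obtain ⟨Γ, hΓ, h⟩ := X.llt Q.τs
  obtain ⟨Γc, -, hc⟩ := Q.cover
  obtain ⟨C, hC⟩ := B.bar_lip
  refine ⟨fun L => Γ (C * L), hΓ.comp ((Bd.const C).mul Bd.id), ?_⟩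
  intro L n x a hx ha ⟨p, p1, p2⟩ ⟨q, q1, q2⟩
  rcases Nat.eq_zero_or_pos n with rfl | hn
  · exact Or.inl (Nat.zero_le _)
  obtain ⟨n, rfl⟩ : ∃ m, n = m + 1 := ⟨n - 1, by omega⟩
  have z1 := hC L _ _ p2
  have z2 := hC L _ _ q2
  rw [B.bar_smul] at z1 z2
  have hν : B.ν (B.bar p) = S.src (a 0) := by rw [B.ν_bar, p1]
  have hr : X.T.Reachable (X.f^[n + 1] (B.bar p)) (B.bar q) := by
    refine (B.ν_eq _ _).1 ?_
    rw [B.ν_iter (by exact_mod_cast ha) hν, B.ν_bar, q1]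
    congr 2; push_cast; ring
  rcases h (C * L) (n + 1) x _ _ z1.1 z1.2 hr z2.2 with h1 | ⟨t, w, h1, h2⟩ | ⟨t, K, h1⟩
  · exact Or.inl h1
  · obtain ⟨ω, o1, o2⟩ := Q.vert x w hx h2
    obtain ⟨ω', o3, o4⟩ := Q.pull (o1.trans ((B.ν_eq _ _).2 h1).symm) o2
    exact Or.inr ⟨ω', o3.trans hν, o4⟩
  · obtain ⟨w', hw'⟩ := B.edge (X.f^[Q.τ] (X.f^[t] (B.bar p)))
    have n0 : B.Nr K (B.anc (X.f^[Q.τ] (X.f^[t] (B.bar p)), w')) (X.f^[Q.τ] (X.f^[t] (B.bar p))) :=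
      ⟨w', hw', Sys.cl_refl _ _⟩
    have nd0 := B.nr_nd n0
    have hfix : S.nd (x • B.anc (X.f^[Q.τ] (X.f^[t] (B.bar p)), w')) =
        S.nd (B.anc (X.f^[Q.τ] (X.f^[t] (B.bar p)), w')) := by
      rw [S.nd_smul, nd0, ← B.ν_smul, ← X.iter_smul, ← X.iter_smul]
      exact (B.ν_eq _ _).2 (X.reach_iter _ (X.reach_iter _ z1.1.symm))
    obtain ⟨ω, o1, o2⟩ := Q.fix_of_cover hx hfix (K := Γc K) (fun M => by
      have n1 := B.nr_smul n0 (x ^ M)
      rw [← X.iter_smul] at n1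
      obtain ⟨F, F1, -, F3⟩ := hc K _ _ _ _ (h1 M) n0 n1
      exact ⟨F, F1, F3⟩)
    rw [nd0, ← Function.iterate_add_apply] at o1
    obtain ⟨ω', o3, o4⟩ := Q.pull o1 o2
    exact Or.inr ⟨ω', o3.trans hν, o4⟩

/-- (TO) `h = x ^ M * x' ^ M`, `M = 3 D + 2`, `D = 2 L + C`; `ov` bounds the backtracking
(`near_of_fix`, `Near.btw`), `FT.natAbs_le` the lengths; `broken_axis` with `x0 = p`,
`x1 = x ^ M • p`; if `h` fixes `ω''` its axis lies in the tree of `ω''` (`IsAxis.mem_cvx`), so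
`ω'' = ω` and `ω'' = x ^ M • ω'`; else `ll`. -/
theorem two : ∃ Γ, Bd Γ ∧ ∀ (L n : ℕ) (x x' : G) (a : ℤ → S.A) (p q : S.V) (ω ω' : Q.Ω),
    S.IsPath a 0 n → S.nd p = S.src (a 0) → S.nd q = S.tgt (a (n - 1)) →
    S.Cl L p (x • p) → S.Cl L p (x' • p) → S.Cl L q (x • q) → S.Cl L q (x' • q) →
    x ≠ 1 → x' ≠ 1 → x • ω = ω → x' • ω' = ω' → Q.O.ν ω = S.nd p → Q.O.ν ω' = S.nd p →
    n ≤ Γ L ∨ ω = ω' := by
  obtain ⟨Γ, hΓ, h⟩ := Q.ll
  obtain ⟨C, hC⟩ := Q.ov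
  have hT := S.gf.acyc
  let Mf : ℕ → ℕ := fun L => 3 * (2 * L + C) + 2
  have hMf : Bd Mf :=
    ((Bd.const 3).mul (((Bd.const 2).mul Bd.id).add (Bd.const C))).add (Bd.const 2)
  refine ⟨fun L => Γ (Mf L * L + Mf L * L), hΓ.comp ((hMf.mul Bd.id).add (hMf.mul Bd.id)), ?_⟩
  intro L n x x' a p q ω ω' ha hp hq c1 c2 c3 c4 hx hx' f1 f2 n1 n2
  by_cases hne : ω = ω'
  · exact Or.inr hne
  left
  set M := Mf L with hM
  have pw : ∀ {y : G} {r : S.V}, S.Cl L r (y • r) → S.Cl (M * L) r (y ^ M • r) := by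
    intro y r c
    have := dist_zpow_le S.gf.acts c.reach (M : ℤ)
    rw [zpow_natCast, Int.natAbs_natCast] at this
    exact ⟨(S.nd_eq _ _).2 this.1, this.2.trans (Nat.mul_le_mul_left _ c.2)⟩
  have lb : ∀ {y : G}, y ≠ 1 → S.Cl L p (y • p) → M ≤ S.B.dist p (y ^ M • p) := by
    intro y hy c
    have := S.ft.natAbs_le hy c.reach (M : ℤ)
    rwa [zpow_natCast, Int.natAbs_natCast] at this
  have fx : ∀ {y : G} {o : Q.Ω}, y • o = o → y ^ M • o = o := fun {y o} e =>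
    (stabilizer G o).pow_mem e M
  have hh : ∀ {r : S.V}, S.Cl L r (x • r) → S.Cl L r (x' • r) →
      S.Cl (M * L + M * L) r ((x ^ M * x' ^ M) • r) := by
    intro r d1 d2
    rw [mul_smul]
    exact (pw d1).trans ((pw d2).smul _)
  have N1 : Q.O.Near L p ω := Over.near_of_fix hx f1 n1.symm c1
  have N2 : Q.O.Near L p ω' := Over.near_of_fix hx' f2 n2.symm c2
  have N3 : Q.O.Near L (x ^ M • p) ω := by
    have := N1.smul (x ^ M); rwa [fx f1] at this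
  have N4 : Q.O.Near L (x ^ M • p) (x ^ M • ω') := N2.smul _
  have N5 : Q.O.Near L ((x ^ M * x' ^ M) • p) (x ^ M • ω') := by
    have := N2.smul (x ^ M * x' ^ M); rwa [mul_smul _ _ ω', fx f2] at this
  have N6 := N1.smul (x ^ M * x' ^ M)
  have N7 := N3.smul (x ^ M * x' ^ M)
  have ne1 : ω ≠ x ^ M • ω' := fun e => hne (smul_left_cancel (x ^ M) (by rw [fx f1]; exact e))
  have ne2 : x ^ M • ω' ≠ (x ^ M * x' ^ M) • ω := fun e => hne (by
    rw [mul_smul] at e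
    have e2 := smul_left_cancel _ e
    rw [← fx f2] at e2
    exact (smul_left_cancel _ e2).symm)
  have r1 := (pw c1).reach
  have r2 : S.B.Reachable (x ^ M • p) ((x ^ M * x' ^ M) • p) := r1.symm.trans (hh c1 c2).reach
  have r3 := S.gf.acts.reach (x ^ M * x' ^ M) r1
  obtain ⟨a1, a2, -⟩ := med_spec hT r1 r2
  obtain ⟨b1, b2, -⟩ := med_spec hT r2 r3
  obtain ⟨b, l, hb, ⟨i, j, k1, k2, k3⟩, ⟨i', j', k4, k5, k6⟩⟩ :=
    broken_axis S.gf (h := x ^ M * x' ^ M) (D := 2 * L + C) r1 r2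
      (hC _ _ L _ _ ne1 N3 N4 (N1.btw N3 a1) (N4.btw N5 a2)).2
      (hC _ _ L _ _ ne2 N5 N6 (N4.btw N5 b1) (N6.btw N7 b2)).2
      (lb hx c1) (by rw [mul_smul, S.gf.acts.dist]; exact lb hx' c2)
  have rb : S.B.Reachable p (b 0) := k1.1.trans (hb.1.dist hT i 0).1
  have h1 : x ^ M * x' ^ M ≠ 1 := fun e => hb.not_fix hT S.gf.acts rb (by rw [e, one_smul])
  rcases h _ n _ a h1 ha ⟨p, hp, hh c1 c2⟩ ⟨q, hq, hh c3 c4⟩ with h2 | ⟨o, o1, o2⟩
  · exact h2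
  exfalso
  have kc := Q.O.kc_tree o
  obtain ⟨c, hc⟩ := kc.ne
  have on : ∀ m, Q.O.Near L (b m) o := by
    intro m
    have rc : S.B.Reachable c (b 0) := by
      obtain ⟨c', c'1, rfl⟩ := hc
      refine SimpleGraph.Reachable.trans ((S.nd_eq _ _).1 ?_) rb
      rw [Q.O.nd_V, c'1, o1, hp]
    obtain ⟨y, y1, y2⟩ := hb.mem_cvx hT S.gf.acts kc.cvx
      (fun z => kc.inv.mem_iff (show _ ∈ stabilizer G o from o2) z) hc rc m
    exact ⟨y, y1, y2 ▸ Sys.cl_refl _ _⟩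
  have e1 : ω = o := by
    by_contra e
    have := (hC _ _ L _ _ e (N1.btw N3 k1) (on i) (N1.btw N3 k2) (on j)).2
    omega
  have e2 : x ^ M • ω' = o := by
    by_contra e
    have := (hC _ _ L _ _ e (N4.btw N5 k4) (on i') (N4.btw N5 k5) (on j')).2
    omega
  exact ne1 (e1.trans e2.symm)

include Q in
theorem g1 : S.G1P S.Any := by
  obtain ⟨Γ, hΓ, h⟩ := Q.ll
  obtain ⟨F, hF, h1⟩ := Q.O.g1_lift Q.tight Q.gall.1
  refine ⟨fun L => Γ L + F L, hΓ.add hF, ?_⟩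
  intro L n x a hx hr _ t1 t2
  rcases h L n x a hx hr.path t1 t2 with h2 | ⟨ω, o1, o2⟩
  · exact Or.inl (h2.trans (Nat.le_add_right _ _))
  · rcases h1 L n x a (Q.lift ω) hx hr (Q.lifts hr.path o1)
      (by rw [Q.lift_src]; simpa using o2) t1 t2 with h3 | h3
    · exact Or.inl (h3.trans (Nat.le_add_left _ _))
    · exact Or.inr h3

/-- In a bijective system a path is determined by one arrow. -/
theorem arr_ext {a a' : ℤ → S.A} (hS : S.Bij) (ha : ∀ i, S.tgt (a i) = S.src (a (i + 1)))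
    (ha' : ∀ i, S.tgt (a' i) = S.src (a' (i + 1))) (h0 : a 0 = a' 0) : a = a' := by
  funext i
  induction i using Int.induction_on with
  | zero => exact h0
  | succ n ih => exact (hS.out (S.src (a (n + 1)))).unique rfl (by rw [← ha', ← ih, ha])
  | pred n ih =>
    refine (hS.inn (S.tgt (a (-n - 1)))).unique rfl ?_
    rw [ha', ha, show -(n : ℤ) - 1 + 1 = -n by ring, ih]

include Q in
/-- `ε = u⁻¹ u'` and `ε' = u' u⁻¹` move `s (p 0)` and `s (p n)` little (`chain_lip` forwards and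
backwards over `k` steps); `ll` gives `ω` fixed by `ε`; `ε'` fixes `u • (sg ^ (-k)) ω`; `two`;
`plift`, `near_of_fix`, `near_thread`, `g2_lift`. -/
theorem g2 : S.G2P S.Any := by
  obtain ⟨Γ1, hΓ1, h1⟩ := Q.ll
  obtain ⟨Γ2, hΓ2, h2⟩ := Q.two
  obtain ⟨Fc, hFc, hc⟩ := S.chain_lip
  obtain ⟨Fn, hFn, hn⟩ := Q.O.near_thread Q.tight
  obtain ⟨M, hM, F, hF, h3⟩ := Q.O.g2_lift Q.gall.2.1
  let A : ℕ → ℕ := fun L => Fc (L + 1) + L + L
  have hA : Bd A := ((hFc.comp (Bd.id.add (Bd.const 1))).add Bd.id).add Bd.id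
  let A2 : ℕ → ℕ := fun L => Fn (A L) + L
  have hA2 : Bd A2 := (hFn.comp hA).add Bd.id
  refine ⟨M, hM, fun L => Γ1 (A L) + Γ2 (A L) + F (A2 L),
    ((hΓ1.comp hA).add (hΓ2.comp hA)).add (hF.comp hA2), ?_⟩
  intro L k n u u' p p' hp hp' ha _ c0 cn
  have hk := hp.le
  have path : ∀ {v : G} {q : ℤ → S.P}, S.Thread L k v q →
      ∀ i, S.tgt (S.arr (q i)) = S.src (S.arr (q (i + 1))) := fun {v q} hq i => by
    rw [← S.nd_t, ← S.nd_s]; exact (hq.ch i).1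
  have ha' : ∀ i, S.arr (p i) = S.arr (p' i) :=
    congrFun (arr_ext B.bij (path hp) (path hp') (ha 0 le_rfl (Int.natCast_nonneg n)))
  have fw : ∀ i, S.Cl L (S.s (p i)) (S.s (p' i)) →
      S.Cl (Fc (L + 1)) (S.s (p (i + k))) (S.s (p' (i + k))) := fun i c =>
    (hc (L + 1) p p' i (i + k + 1) i (i + k) ((hp.mono (Nat.le_succ L)).chain _ _)
      ((hp'.mono (Nat.le_succ L)).chain _ _) (fun m _ _ => ha' m) (by push_cast; omega) le_rfl
      (by omega) (by omega) (by omega) (Or.inl (c.mono (Nat.le_succ L)))).1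
  have bw : ∀ i, S.Cl L (S.s (p i)) (S.s (p' i)) →
      S.Cl (Fc (L + 1)) (S.s (p (i - k))) (S.s (p' (i - k))) := fun i c =>
    (hc (L + 1) p p' (i - k) (i + 1) i (i - k) ((hp.mono (Nat.le_succ L)).chain _ _)
      ((hp'.mono (Nat.le_succ L)).chain _ _) (fun m _ _ => ha' m) (by push_cast; omega) (by omega)
      (by omega) le_rfl (by omega) (Or.inl (c.mono (Nat.le_succ L)))).1
  have e1' : ∀ i, S.Cl L (S.s (p i)) (S.s (p' i)) →
      S.Cl (Fc (L + 1)) (S.s (p i)) ((u⁻¹ * u') • S.s (p' i)) := fun i c => by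
    have := (fw i c).smul u⁻¹
    rwa [hp.per, hp'.per, S.s_smul, S.s_smul, inv_smul_smul, ← mul_smul] at this
  have e1 : ∀ i, S.Cl L (S.s (p i)) (S.s (p' i)) →
      S.Cl (A L) (S.s (p i)) ((u⁻¹ * u') • S.s (p i)) := fun i c =>
    ((e1' i c).trans (c.symm.smul _)).mono (by simp only [A]; omega)
  have e2 : ∀ i, S.Cl L (S.s (p i)) (S.s (p' i)) →
      S.Cl (A L) (S.s (p i)) ((u' * u⁻¹) • S.s (p i)) := fun i c => by
    have := (bw i c).smul u'
    have k1 := hp.per (i - k)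
    have k2 := hp'.per (i - k)
    rw [sub_add_cancel] at k1 k2
    rw [← S.s_smul u' (p' (i - k)), ← k2] at this
    have k3 : (u' * u⁻¹) • S.s (p i) = u' • S.s (p (i - k)) := by
      rw [k1, S.s_smul, mul_smul, inv_smul_smul]
    rw [k3]
    exact (c.trans this.symm).mono (by simp only [A]; omega)
  by_cases hε : u⁻¹ * u' = 1
  · exact Or.inr (by rw [inv_mul_eq_one.1 hε])
  have hε' : u' * u⁻¹ ≠ 1 := fun e => hε (by rw [mul_inv_eq_one.1 e, inv_mul_cancel])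
  have hq : S.nd (S.s (p n)) = S.tgt (S.arr (p (n - 1))) := by
    rw [path hp, S.nd_s, sub_add_cancel]
  rcases h1 (A L) n _ (fun i => S.arr (p i)) hε (hp.chain _ _).path ⟨_, S.nd_s _, e1 0 c0⟩
    ⟨_, hq, e1 n cn⟩ with h4 | ⟨ω, o1, o2⟩
  · exact Or.inl (by beta_reduce; omega)
  have uu : u' • ω = u • ω := by
    rw [mul_smul, inv_smul_eq_iff] at o2; exact o2
  have o3 : Q.O.ν (u • (Q.sg ^ (-(k : ℤ))) ω) = S.nd (S.s (p 0)) := by
    rw [Q.O.ν_smul, (Q.lift_A (a := fun i => S.arr (p i)) (path hp) o1 _).2, S.nd_s]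
    have k1 := hp.per (-k)
    rw [neg_add_cancel] at k1
    rw [k1, S.arr_smul, S.src_smul]
  rcases h2 (A L) n _ _ (fun i => S.arr (p i)) _ _ ω (u • (Q.sg ^ (-(k : ℤ))) ω)
    (hp.chain _ _).path (S.nd_s _) hq (e1 0 c0) (e2 0 c0) (e1 n cn) (e2 n cn) hε hε' o2
    (by rw [mul_smul, inv_smul_smul, ← Q.sg_zpow_smul, uu, Q.sg_zpow_smul])
    (o1.trans (S.nd_s _).symm) o3 with h5 | h5
  · exact Or.inl (by beta_reduce; omega)
  have hu : (Q.sg ^ (k : ℤ)) ω = u • ω := by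
    conv_lhs => rw [h5]
    rw [Q.sg_zpow_smul, ← Equiv.Perm.mul_apply, ← zpow_add]
    simp
  have n1 : Q.O.ν ω = S.nd (S.s (p 0)) := o1.trans (S.nd_s _).symm
  have n2 : Q.O.ν ω = S.nd (S.s (p' 0)) := n1.trans c0.1
  have l1 := Q.plift hp n1 hu
  have l2 := Q.plift hp' n2 (hu.trans uu.symm)
  have s0 : Q.S'.src (Q.lift ω 0) = ω := by rw [Q.lift_src]; simp
  have LA : L ≤ A L := by simp only [A]; omega
  have m1 := hn (A L) k u p _ 0 (hp.mono LA) l1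
    (by rw [s0]; exact Over.near_of_fix hε o2 n1.symm (e1 0 c0))
  have m2 := hn (A L) k u' p' _ 0 (hp'.mono LA) l2
    (by
      rw [s0]
      exact Over.near_of_fix hε o2 n2.symm
        ((c0.symm.trans (e1' 0 c0)).mono (by simp only [A]; omega)))
  have LA2 : L ≤ A2 L := Nat.le_add_left _ _
  have FA : Fn (A L) ≤ A2 L := Nat.le_add_right _ _
  rcases h3 (A2 L) k n u u' p p' _ _ (hp.mono LA2) (hp'.mono LA2) l1 l2 (fun _ _ _ => rfl)
    (fun i => ⟨(m1 i).1.mono FA, (m1 i).2.mono FA⟩) (fun i => ⟨(m2 i).1.mono FA, (m2 i).2.mono FA⟩)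
    (c0.mono LA2) (cn.mono LA2) with h6 | h6
  · exact Or.inl (by beta_reduce; omega)
  · exact Or.inr h6

end Ox

end EG
end CPOR
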