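import Pool.Agent.P.MP_2cb329_al.EG.B2

/-! Section F9: G3. -/

set_option autoImplicit false

namespace CPOR
namespace EG
open ZT MulAction

/-- A strictly order preserving self-map of a finite set is the identity. -/
theorem fix_of_mono {Ω : Type} (F : Finset Ω) (α : Ω → ℕ) (Φ : Ω → Ω) (hm : ∀ ω ∈ F, Φ ω ∈ F)
    (h : ∀ ω ∈ F, ∀ ω' ∈ F, ω ≠ ω' → α ω ≤ α ω' → α (Φ ω) < α (Φ ω')) :
    ∀ ω ∈ F, Φ ω = ω := by
  classical
  have hinj : ∀ ω ∈ F, ∀ ω' ∈ F, α ω = α ω' → ω = ω' := by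
    intro ω h1 ω' h2 e
    by_contra hne
    have := h ω h1 ω' h2 hne e.le
    have := h ω' h2 ω h1 (Ne.symm hne) e.ge
    omega
  have hΦ : ∀ ω ∈ F, ∀ ω' ∈ F, Φ ω = Φ ω' → ω = ω' := by
    intro ω h1 ω' h2 e
    by_contra hne
    rcases le_total (α ω) (α ω') with k | k
    · have := h ω h1 ω' h2 hne k
      rw [e] at this; omega
    · have := h ω' h2 ω h1 (Ne.symm hne) k
      rw [e] at this; omega
  have hsurj : ∀ ω' ∈ F, ∃ ω ∈ F, Φ ω = ω' := by
    have := Finset.surj_on_of_inj_on_of_card_le (s := F) (t := F) (fun ω _ => Φ ω)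
      (fun ω h1 => hm ω h1) (fun a b ha hb e => hΦ a ha b hb e) le_rfl
    intro ω' h'
    obtain ⟨a, ha, e⟩ := this ω' h'
    exact ⟨a, ha, e.symm⟩
  have key : ∀ n, ∀ ω ∈ F, α ω = n → Φ ω = ω := by
    intro n
    induction n using Nat.strong_induction_on with
    | _ n ih =>
      intro ω h1 e
      by_contra hne
      rcases lt_trichotomy (α (Φ ω)) (α ω) with k | k | k
      · have := ih _ (e ▸ k) (Φ ω) (hm ω h1) rfl
        exact hne (hΦ _ (hm ω h1) _ h1 this)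
      · exact hne (hinj _ (hm ω h1) _ h1 k)
      · obtain ⟨ω', h2, e2⟩ := hsurj ω h1
        have hne' : ω' ≠ ω := fun e3 => hne (by subst e3; exact e2)
        rcases lt_or_ge (α ω') (α ω) with k' | k'
        · have := ih _ (e ▸ k') ω' h2 rfl
          exact hne' (this.symm.trans e2)
        · have := h ω h1 ω' h2 (Ne.symm hne') k'
          rw [e2] at this; omega
  exact fun ω h1 => key _ ω h1 rfl

/-- Listing of almost disjoint intervals that almost cover `[0, n]`. -/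
theorem list_intervals {Ω : Type} (F : Finset Ω) (α β : Ω → ℕ) (n C U : ℕ)
    (hl : ∀ ω ∈ F, α ω + C < β ω ∧ β ω ≤ n)
    (hs : ∀ ω ∈ F, ∀ ω' ∈ F, ω ≠ ω' → α ω ≤ α ω' → β ω ≤ α ω' + C)
    (hU : {i | i ≤ n ∧ ∀ ω ∈ F, ¬ (α ω ≤ i ∧ i ≤ β ω)}.ncard ≤ U) :
    n ≤ U ∨ ∃ (D : ℕ) (o : ℕ → Ω), D ≤ F.card ∧ (∀ j ≤ D, o j ∈ F) ∧ α (o 0) ≤ U ∧
      (∀ j < D, β (o j) ≤ α (o (j + 1)) + C ∧ α (o (j + 1)) ≤ β (o j) + U + 1) ∧
      n ≤ β (o D) + U := by
  classical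
  have hfin : {i | i ≤ n ∧ ∀ ω ∈ F, ¬ (α ω ≤ i ∧ i ≤ β ω)}.Finite :=
    (Set.finite_Iic n).subset fun i hi => hi.1
  have gap : ∀ a b : ℕ, b ≤ n + 1 → (∀ i, a ≤ i → i < b → ∀ ω ∈ F, ¬ (α ω ≤ i ∧ i ≤ β ω)) →
      b ≤ a + U := by
    intro a b hb hh
    have hsub : Set.Ico a b ⊆ {i | i ≤ n ∧ ∀ ω ∈ F, ¬ (α ω ≤ i ∧ i ≤ β ω)} :=
      fun i hi => ⟨by have := hi.2; omega, hh i hi.1 hi.2⟩
    have : (Set.Ico a b).ncard ≤ U := le_trans (Set.ncard_le_ncard hsub hfin) hU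
    rw [← Finset.coe_Ico, Set.ncard_coe_finset, Nat.card_Ico] at this
    omega
  rcases F.eq_empty_or_nonempty with hF | hF
  · left
    have := gap 0 (n + 1) le_rfl (by intro i _ _ ω hω; rw [hF] at hω; simp at hω)
    omega
  right
  have hinj : ∀ ω ∈ F, ∀ ω' ∈ F, α ω = α ω' → ω = ω' := by
    intro ω h1 ω' h2 e
    by_contra hne
    have := hs ω h1 ω' h2 hne e.le
    have := hl ω h1
    omega
  have hβ : ∀ ω ∈ F, ∀ ω' ∈ F, α ω ≤ α ω' → β ω ≤ β ω' := by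
    intro ω h1 ω' h2 e
    by_cases hne : ω = ω'
    · rw [hne]
    · have := hs ω h1 ω' h2 hne e
      have := hl ω' h2
      omega
  have key : ∀ m, ∀ ω ∈ F, (F.filter fun ω' => α ω < α ω').card = m →
      ∃ o : ℕ → Ω, o 0 = ω ∧ (∀ j ≤ m, o j ∈ F) ∧
        (∀ j < m, β (o j) ≤ α (o (j + 1)) + C ∧ α (o (j + 1)) ≤ β (o j) + U + 1) ∧
        n ≤ β (o m) + U := by
    intro m
    induction m with
    | zero =>
      intro ω h1 hc
      refine ⟨fun _ => ω, rfl, fun _ _ => h1, fun j hj => absurd hj (by omega), ?_⟩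
      have := gap (β ω + 1) (n + 1) le_rfl (by
        intro i hi _ ω' h2 hh
        have : ¬ α ω < α ω' := fun k => by
          have : ω' ∈ F.filter fun ω' => α ω < α ω' := Finset.mem_filter.2 ⟨h2, k⟩
          rw [Finset.card_eq_zero.1 hc] at this
          simp at this
        have := hβ ω' h2 ω h1 (by omega)
        omega)
      show n ≤ β ω + U
      omega
    | succ m ih =>
      intro ω h1 hc
      obtain ⟨ω', h2, hmin⟩ := Finset.exists_min_image (F.filter fun ω' => α ω < α ω') α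
        (Finset.card_pos.1 (by omega))
      obtain ⟨h2, h3⟩ := Finset.mem_filter.1 h2
      have hc' : (F.filter fun ω'' => α ω' < α ω'').card = m := by
        have : (F.filter fun ω'' => α ω' < α ω'') =
            (F.filter fun ω'' => α ω < α ω'').erase ω' := by
          ext a
          simp only [Finset.mem_filter, Finset.mem_erase]
          constructor
          · rintro ⟨k1, k2⟩
            exact ⟨fun e => by rw [e] at k2; omega, k1, by omega⟩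
          · rintro ⟨k1, k2, k3⟩
            refine ⟨k2, ?_⟩
            have := hmin a (Finset.mem_filter.2 ⟨k2, k3⟩)
            have := mt (hinj a k2 ω' h2) k1
            omega
        rw [this, Finset.card_erase_of_mem (Finset.mem_filter.2 ⟨h2, h3⟩), hc]
        rfl
      obtain ⟨o, o0, o1, o2, o3⟩ := ih ω' h2 hc'
      refine ⟨fun j => if j = 0 then ω else o (j - 1), by simp, ?_, ?_, by simpa using o3⟩
      · intro j hj
        by_cases e : j = 0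
        · simpa [e] using h1
        · simpa [e] using o1 (j - 1) (by omega)
      · intro j hj
        by_cases e : j = 0
        · subst e
          simp only [if_true, one_ne_zero, if_false, zero_add, Nat.sub_self, o0]
          refine ⟨hs ω h1 ω' h2 (fun e => by rw [e] at h3; omega) h3.le, ?_⟩
          have := gap (β ω + 1) (α ω') (by have := hl ω' h2; omega) (by
            intro i hi hi' a ha hh
            by_cases k : α ω < α a
            · have := hmin a (Finset.mem_filter.2 ⟨ha, k⟩)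
              omega
            · have := hβ a ha ω h1 (by omega)
              omega)
          omega
        · have := o2 (j - 1) (by omega)
          rw [show j - 1 + 1 = j by omega] at this
          simpa [e] using this
  obtain ⟨ω, h1, hmin⟩ := Finset.exists_min_image F α hF
  obtain ⟨o, o0, o1, o2, o3⟩ := key _ ω h1 rfl
  refine ⟨_, o, Finset.card_filter_le _ _, o1, ?_, o2, o3⟩
  have := gap 0 (α ω) (by have := hl ω h1; omega) (by
    intro i _ hi a ha hh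
    have := hmin a ha
    omega)
  rw [o0]; omega

variable {G N W : Type} [Group G] [MulAction G N] [MulAction G W]

section Over

variable {Ω : Type} [MulAction G Ω] {S : Sys G N} {S' : Sys G Ω} (O : Over S' S)

open Classical in
/-- The projection to the tree of `ω` (junk value: any vertex over `ω`). -/
noncomputable def pr (p : S.V) (ω : Ω) : S'.V :=
  if h : ∃ q, O.IsPr p ω q then h.choose else (S'.nd_surj ω).choose

theorem pr_spec {p : S.V} {ω : Ω} (h : S.nd p = O.ν ω) : O.IsPr p ω (pr O p ω) := by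
  have := Over.exists_pr (O := O) h
  unfold pr
  rw [dif_pos this]
  exact this.choose_spec

/-- The distance of the projections. -/
noncomputable def lam (p p' : S.V) (ω : Ω) : ℕ := S'.B.dist (pr O p ω) (pr O p' ω)

/-- The position of the first projection. -/
noncomputable def pos (p : S.V) (ω : Ω) : ℕ := S.B.dist p (O.V (pr O p ω))

/-- The intersection of `[p, p']` with the tree of `ω` is the interval of positions
`[pos, pos + lam]`. -/
theorem near_iff {p p' z : S.V} {ω : Ω} (h : S.nd p = O.ν ω) (hz : Btw S.B p z p') :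
    (O.Near 0 z ω → pos O p ω ≤ S.B.dist p z ∧ S.B.dist p z ≤ pos O p ω + lam O p p' ω) ∧
    (0 < lam O p p' ω → pos O p ω ≤ S.B.dist p z → S.B.dist p z ≤ pos O p ω + lam O p p' ω →
      O.Near 0 z ω) := by
  have hn := Sys.nd_of_btw hz
  have h' : S.nd p' = O.ν ω := by rw [← hn.2, ← hn.1, h]
  have hx := pr_spec O h
  have hy := pr_spec O h'
  have hd : S.B.dist (O.V (pr O p ω)) (O.V (pr O p' ω)) = lam O p p' ω :=
    O.dist_V _ _ (hx.1.trans hy.1.symm)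
  have hT := S.gf.acyc
  constructor
  · rintro ⟨q, hq, hc⟩
    have e : z = O.V q := eq_of_dist_zero hc.reach (Nat.le_zero.1 hc.2)
    subst e
    have b1 := hx.2 q hq
    have b2 := hy.2 q hq
    have b3 := (hz.trans_right b2.symm).2
    have b4 := hx.2 _ hy.1
    have := b1.2.2
    have := b3.2.2
    have := b4.2.2
    unfold pos
    omega
  · intro hl h1 h2
    have hne : pr O p ω ≠ pr O p' ω := fun e => by
      unfold lam at hl
      rw [e, SimpleGraph.dist_self] at hl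
      omega
    obtain ⟨b1, b2, b3⟩ := hx.btw_of_ne hy hne
    have c1 := (b1.compare hT hz h1).1
    have c2 := (hz.compare hT b2 (by have := b3.2.2; unfold pos at h2; omega)).1
    have c3 : Btw S.B (O.V (pr O p ω)) z (O.V (pr O p' ω)) := (c2.trans_left c1).2
    obtain ⟨q, hq, e⟩ := (O.cvx ω _ ⟨_, hx.1, rfl⟩ _ ⟨_, hy.1, rfl⟩).2 z c3
    exact ⟨q, hq, e ▸ Sys.cl_refl 0 _⟩

theorem pr_btw {p p' : S.V} {ω : Ω} (h : S.nd p = O.ν ω) (h' : S.nd p' = O.ν ω)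
    (hl : 0 < lam O p p' ω) :
    Btw S.B p (O.V (pr O p ω)) p' ∧ Btw S.B p (O.V (pr O p' ω)) p' ∧
      S.B.dist p (O.V (pr O p' ω)) = pos O p ω + lam O p p' ω := by
  have hx := pr_spec O h
  have hy := pr_spec O h'
  have hd : S.B.dist (O.V (pr O p ω)) (O.V (pr O p' ω)) = lam O p p' ω :=
    O.dist_V _ _ (hx.1.trans hy.1.symm)
  have hne : pr O p ω ≠ pr O p' ω := fun e => by
    unfold lam at hl
    rw [e, SimpleGraph.dist_self] at hl
    omega
  obtain ⟨b1, b2, b3⟩ := hx.btw_of_ne hy hne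
  refine ⟨b1, b2, ?_⟩
  have := b3.2.2
  unfold pos
  omega

theorem lam_smul (g : G) {p p' : S.V} {ω : Ω} (h : S.nd p = O.ν ω) (h' : S.nd p' = O.ν ω) :
    lam O (g • p) (g • p') (g • ω) = lam O p p' ω ∧ pos O (g • p) (g • ω) = pos O p ω := by
  have e : ∀ {q : S.V}, S.nd q = O.ν ω → pr O (g • q) (g • ω) = g • pr O q ω := by
    intro q hq
    exact (pr_spec O (by rw [S.nd_smul, O.ν_smul, hq])).unique ((pr_spec O hq).smul g)
  unfold lam pos
  rw [e h, e h', S'.gf.acts.dist, O.V_smul, S.gf.acts.dist]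
  exact ⟨rfl, rfl⟩

/-- The projections of a chain to a tight lift are shadowed by a chain (`proj_point`,
`IsPr.lip`, `s_cl`, `t_cl`). -/
theorem proj_chain (h : O.Tight) : ∃ F, Bd F ∧ ∀ (L : ℕ) (p : ℤ → S.P) (b : ℤ → S'.A) (i j : ℤ),
    S.Chain L p i j → O.Lifts b (fun m => S.arr (p m)) i j →
    ∃ q : ℤ → S.P, S.Chain (F L) q i j ∧ ∀ l, i ≤ l → l < j → S.arr (q l) = S.arr (p l) ∧
      S.Cl (F L) (O.V (pr O (S.s (p l)) (S'.src (b l)))) (S.s (q l)) := by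
  obtain ⟨C, hC⟩ := O.proj_point h
  refine ⟨fun L => L + (2 * C + 2 * O.C), Bd.id.add (Bd.const _), ?_⟩
  intro L p b i j hp hb
  have hs : ∀ l, i ≤ l → l < j → S.nd (S.s (p l)) = O.ν (S'.src (b l)) := by
    intro l h1 h2
    rw [S.nd_s, ← O.src_A, hb.2 l h1 h2]
  have ht : ∀ l, i ≤ l → l < j → S.nd (S.t (p l)) = O.ν (S'.tgt (b l)) := by
    intro l h1 h2
    rw [S.nd_t, ← O.tgt_A, hb.2 l h1 h2]
  have ex : ∀ l, ∃ q : S.P, i ≤ l → l < j → S.arr q = S.arr (p l) ∧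
      S.Cl (C + O.C) (O.V (pr O (S.s (p l)) (S'.src (b l)))) (S.s q) ∧
      S.Cl (C + O.C) (O.V (pr O (S.t (p l)) (S'.tgt (b l)))) (S.t q) := by
    intro l
    by_cases hl : i ≤ l ∧ l < j
    · obtain ⟨q, q1, q2, q3⟩ := hC (p l) (b l) _ _ (hb.2 l hl.1 hl.2).symm
        (pr_spec O (hs l hl.1 hl.2)) (pr_spec O (ht l hl.1 hl.2))
      refine ⟨O.P q, fun _ _ => ⟨?_, (O.cl_V.1 q2).2.trans (O.s_cl q),
        (O.cl_V.1 q3).2.trans (O.t_cl q)⟩⟩
      rw [O.arr_P, q1, hb.2 l hl.1 hl.2]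
    · exact ⟨p l, fun h1 h2 => absurd ⟨h1, h2⟩ hl⟩
  choose q hq using ex
  refine ⟨q, ?_, fun l h1 h2 => ⟨(hq l h1 h2).1, (hq l h1 h2).2.1.mono (by beta_reduce; omega)⟩⟩
  intro l h1 h2
  have e := hb.1 l h1 h2
  have k1 := (hq l h1 (by omega)).2.2
  have k2 := (hq (l + 1) (by omega) h2).2.1
  have k3 := (pr_spec O (ht l h1 (by omega))).lip
    (e ▸ pr_spec O (hs (l + 1) (by omega) h2)) (hp l h1 h2)
  rw [← e] at k2
  exact ((k1.symm.trans (O.cl_V.1 k3).2).trans k2).mono (by beta_reduce; omega)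

end Over

namespace Ox

variable {S : Sys G N} {X : Cx G W} {B : Bx S X} (Q : Ox B)

/-- Step 1.  `x = bar (s (p 0))`, `n = (τ + τs + 1) k`, `nr_chain`, `nr_dist`, `hyp_of_per` with
`t = τ k - τ`, `cover` at time `τ k`, translate by `(u ^ τ)⁻¹`. -/
theorem cover_thread : ∃ Γ, Bd Γ ∧ ∀ (L k : ℕ) (u : G) (p p' : ℤ → S.P), S.Thread L k u p →
    S.Thread L k u p' → (∀ i, S.arr (p i) = S.arr (p' i)) →
    ∃ F : Finset Q.Ω, F.card ≤ Γ L ∧ (∀ ω ∈ F, Q.O.ν ω = S.nd (S.s (p 0))) ∧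
      {z | Btw S.B (S.s (p 0)) z (S.s (p' 0)) ∧ ∀ ω ∈ F, ¬ Q.O.Near 0 z ω}.ncard ≤ Γ L := by
  classical
  obtain ⟨Γc, hΓc, hc⟩ := Q.cover
  obtain ⟨Γh, hΓh, hh⟩ := X.hyp_of_per Q.τs
  obtain ⟨C0, hC0⟩ := B.nr_bar
  obtain ⟨Fd, hFd, hd⟩ := B.nr_dist
  obtain ⟨Fc, hFc, hch⟩ := B.nr_chain
  set J := Q.τ + Q.τs + 1 with hJ
  let L1 : ℕ → ℕ := fun L => L * (J + 1) + C0
  have hL1 : Bd L1 := (Bd.id.mul (Bd.const _)).add (Bd.const _)
  let K : ℕ → ℕ := fun L => Γh (Fd (Fc (L1 L))) + Fc (L1 L)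
  have hK : Bd K := (hΓh.comp (hFd.comp (hFc.comp hL1))).add (hFc.comp hL1)
  refine ⟨fun L => Γc (K L), hΓc.comp hK, ?_⟩
  intro L k u p p' hp hp' ha
  have hk := hp.pos
  have hkL := hp.le
  have near : ∀ (q : ℤ → S.P), S.Thread L k u q → ∀ j ≤ J,
      B.Nr (Fc (L1 L)) (u ^ j • S.s (q 0)) (X.f^[j * k] (B.bar (S.s (q 0)))) := by
    intro q hq j hj
    have h1 : L ≤ L1 L := by simp only [L1]; nlinarith
    have := hch (L1 L) (j * k) q (B.bar (S.s (q 0))) ((hq.mono h1).chain _ _)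
      (by simp only [L1]; nlinarith) (B.nr_mono (hC0 _) (by simp only [L1]; omega))
    have e := hq.zpow j 0
    rw [zero_add, zpow_natCast] at e
    rwa [Nat.cast_mul, e, S.s_smul] at this
  have hnd : S.nd (S.s (p 0)) = S.nd (S.s (p' 0)) := by rw [S.nd_s, S.nd_s, ha]
  have hr : X.T.Reachable (B.bar (S.s (p 0))) (B.bar (S.s (p' 0))) :=
    (B.ν_eq _ _).1 (by rw [B.ν_bar, B.ν_bar, hnd])
  have d1 := hd _ _ _ (near p hp J le_rfl)
  have d2 := hd _ _ _ (near p' hp' J le_rfl)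
  rw [B.bar_smul] at d1 d2
  have ht : Q.τ ≤ Q.τ * k := Nat.le_mul_of_pos_right _ hk
  have hy := hh (Fd (Fc (L1 L))) (J * k) (Q.τ * k - Q.τ) (u ^ J) _ _ hr
    (Nat.mul_pos (by omega) hk) (by
      have : Q.τs ≤ Q.τs * k := Nat.le_mul_of_pos_right _ hk
      have : J * k = Q.τ * k + Q.τs * k + k := by rw [hJ]; ring
      omega) d1.1 d1.2 d2.1 d2.2
  have hy' : X.HYP Q.τs (K L) (X.f^[Q.τ * k - Q.τ] (B.bar (S.s (p 0))))
      (X.f^[Q.τ * k - Q.τ] (B.bar (S.s (p' 0)))) :=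
    ⟨hy.1, fun t ht => (hy.2.1 t ht).trans (Nat.le_add_right _ _),
      hy.2.2.trans (Nat.add_le_add_left (Nat.le_add_right _ _) _)⟩
  have e : ∀ x : W, X.f^[Q.τ] (X.f^[Q.τ * k - Q.τ] x) = X.f^[Q.τ * k] x := by
    intro x
    rw [← Function.iterate_add_apply]; congr 1; omega
  obtain ⟨F, F1, F2, F3⟩ := hc (K L) _ _ (u ^ Q.τ • S.s (p 0)) (u ^ Q.τ • S.s (p' 0)) hy'
    (by rw [e]; exact B.nr_mono (near p hp _ (by omega)) (Nat.le_add_left _ _))
    (by rw [e]; exact B.nr_mono (near p' hp' _ (by omega)) (Nat.le_add_left _ _))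
  refine ⟨F.image fun ω => (u ^ Q.τ)⁻¹ • ω, Finset.card_image_le.trans F1, ?_, ?_⟩
  · intro ω hω
    obtain ⟨ω', h1, rfl⟩ := Finset.mem_image.1 hω
    rw [Q.O.ν_smul, F2 ω' h1, S.nd_smul, inv_smul_smul]
  · refine le_trans (Set.ncard_le_ncard_of_injOn (fun z => u ^ Q.τ • z) ?_
      (fun a _ b _ h => smul_left_cancel _ h) ((btw_finite S.gf.acyc _ _).subset fun z hz => hz.1)) F3
    rintro z ⟨h1, h2⟩
    refine ⟨S.gf.acts.btw _ h1, fun ω hω hn => h2 _ (Finset.mem_image_of_mem _ hω) ?_⟩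
    have := hn.smul (u ^ Q.τ)⁻¹
    rwa [inv_smul_smul] at this

/-- Objects with a long projection are listed. -/
theorem mem_of_lam : ∃ C : ℕ, ∀ (K : ℕ) (p p' : S.V) (F : Finset Q.Ω) (ω : Q.Ω),
    S.nd p = S.nd p' → F.card ≤ K →
    {z | Btw S.B p z p' ∧ ∀ ω ∈ F, ¬ Q.O.Near 0 z ω}.ncard ≤ K → S.nd p = Q.O.ν ω →
    K * C < lam Q.O p p' ω → ω ∈ F := by
  classical
  obtain ⟨C, hC⟩ := Q.ov
  have hT := S.gf.acyc
  refine ⟨2 * C + 2, ?_⟩
  intro K p p' F ω hn hF hU hω hl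
  by_contra hm
  have hl0 : 0 < lam Q.O p p' ω := by omega
  obtain ⟨-, b2, b3⟩ := pr_btw Q.O hω (hn ▸ hω) hl0
  let A : Set S.V := {z | Btw S.B p z p' ∧ Q.O.Near 0 z ω}
  have hA : A.Finite := (btw_finite hT p p').subset fun z hz => hz.1
  have h1 := seg_ge ((S.nd_eq _ _).1 hn) hA (Set.Icc (pos Q.O p ω) (pos Q.O p ω + lam Q.O p p' ω))
    (fun i hi => by have := hi.2; have := b2.2.2; omega)
    (fun z hz hi => ⟨hz, (near_iff Q.O hω hz).2 hl0 hi.1 hi.2⟩)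
  rw [← Finset.coe_Icc, Set.ncard_coe_finset, Nat.card_Icc] at h1
  have h2 := ncard_cover A {z | Btw S.B p z p' ∧ ∀ ω ∈ F, ¬ Q.O.Near 0 z ω}
    ((btw_finite hT p p').subset fun z hz => hz.1) F (fun ω' => {z | z ∈ A ∧ Q.O.Near 0 z ω'})
    (2 * C + 1) (by
      intro ω' hω'
      refine ⟨hA.subset fun z hz => hz.1, ?_⟩
      rcases Set.eq_empty_or_nonempty {z | z ∈ A ∧ Q.O.Near 0 z ω'} with e | ⟨z0, h0⟩
      · rw [e]; simp
      · refine seg_le hT (p := p) (p' := p') _ (S.B.dist p z0 - C) _ fun z hz => ⟨hz.1.1, ?_⟩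
        have := (hC ω ω' 0 z z0 (fun e => hm (e ▸ hω')) hz.1.2 hz.2 h0.1.2 h0.2).2
        rcases le_total (S.B.dist p z) (S.B.dist p z0) with k | k
        · have := dist_on_geod hT hz.1.1 h0.1.1 k
          omega
        · have := dist_on_geod hT h0.1.1 hz.1.1 k
          rw [SimpleGraph.dist_comm (u := z0) (v := z)] at this
          omega) (by
      intro z hz
      by_cases k : ∃ ω' ∈ F, Q.O.Near 0 z ω'
      · obtain ⟨ω', k1, k2⟩ := k
        exact Or.inr ⟨ω', k1, hz, k2⟩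
      · exact Or.inl ⟨hz.1, fun ω' k1 k2 => k ⟨ω', k1, k2⟩⟩)
  have h3 : F.card * (2 * C + 1) ≤ K * (2 * C + 1) := Nat.mul_le_mul_right _ hF
  have : K * (2 * C + 2) = K * (2 * C + 1) + K := by ring
  omega

/-- Separation of the intervals of two distinct objects. -/
theorem sep_pos : ∃ C : ℕ, ∀ (p p' : S.V) (ω ω' : Q.Ω), S.nd p = S.nd p' → S.nd p = Q.O.ν ω →
    S.nd p = Q.O.ν ω' → ω ≠ ω' → C < lam Q.O p p' ω → C < lam Q.O p p' ω' →
    pos Q.O p ω ≤ pos Q.O p ω' → pos Q.O p ω + lam Q.O p p' ω ≤ pos Q.O p ω' + C := by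
  obtain ⟨C, hC⟩ := Q.ov
  have hT := S.gf.acyc
  refine ⟨C, ?_⟩
  intro p p' ω ω' hn h1 h2 hne l1 l2 hp
  by_contra hlt
  obtain ⟨-, b2, b3⟩ := pr_btw Q.O h1 (hn ▸ h1) (by omega)
  have hr := (S.nd_eq _ _).1 hn
  have := b2.2.2
  obtain ⟨z, z1, z2⟩ := exists_btw_dist hr (i := pos Q.O p ω') (by omega)
  obtain ⟨z', z1', z2'⟩ := exists_btw_dist hr (i := pos Q.O p ω' + C + 1) (by omega)
  have := (hC ω ω' 0 z z' hne ((near_iff Q.O h1 z1).2 (by omega) (by omega) (by omega))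
    ((near_iff Q.O h2 z1).2 (by omega) (by omega) (by omega))
    ((near_iff Q.O h1 z1').2 (by omega) (by omega) (by omega))
    ((near_iff Q.O h2 z1').2 (by omega) (by omega) (by omega))).2
  have := dist_on_geod hT z1 z1' (by omega)
  omega

/-- The return map on the objects over the first node. -/
def ret (k : ℕ) (u : G) (ω : Q.Ω) : Q.Ω := u⁻¹ • (Q.sg ^ (k : ℤ)) ω

theorem ret_ν {L k : ℕ} {u : G} {p : ℤ → S.P} (hp : S.Thread L k u p) {ω : Q.Ω}
    (h : S.nd (S.s (p 0)) = Q.O.ν ω) : S.nd (S.s (p 0)) = Q.O.ν (Q.ret k u ω) := by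
  have hpath : ∀ i, S.tgt (S.arr (p i)) = S.src (S.arr (p (i + 1))) := fun i => by
    rw [← S.nd_t, ← S.nd_s]; exact (hp.ch i).1
  have := (Q.lift_A (a := fun i => S.arr (p i)) hpath (ω := ω) (by rw [← h, S.nd_s]) k).2
  have e := hp.per 0
  rw [zero_add] at e
  unfold ret
  rw [Q.O.ν_smul, this]
  show _ = u⁻¹ • S.src (S.arr (p k))
  rw [e, S.arr_smul, S.src_smul, inv_smul_smul, S.nd_s]

theorem ret_pr {L k : ℕ} {u : G} {p : ℤ → S.P} (hp : S.Thread L k u p) {ω : Q.Ω}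
    (h : S.nd (S.s (p 0)) = Q.O.ν ω) : Q.O.IsPr (S.s (p k)) (Q.S'.src (Q.lift ω k))
      (u • pr Q.O (S.s (p 0)) (Q.ret k u ω)) := by
  have := (pr_spec Q.O (Q.ret_ν hp h)).smul u
  have e := hp.per 0
  rw [zero_add] at e
  rw [Q.lift_src, e, S.s_smul]
  unfold ret at this
  rwa [smul_inv_smul] at this

theorem lift_src_zero (ω : Q.Ω) : Q.S'.src (Q.lift ω 0) = ω := by
  rw [Q.lift_src]; simp

theorem thread_lifts {L k : ℕ} {u : G} {p : ℤ → S.P} (hp : S.Thread L k u p) {ω : Q.Ω}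
    (h : S.nd (S.s (p 0)) = Q.O.ν ω) (j : ℤ) :
    Q.O.Lifts (Q.lift ω) (fun m => S.arr (p m)) 0 j :=
  Q.lifts (hp.chain 0 j).path (by rw [← h, S.nd_s])

/-- `lam_lip` backwards along the lift of `ω`. -/
theorem ret_lam : ∃ F, Bd F ∧ ∀ (L k r : ℕ) (u : G) (p p' : ℤ → S.P) (ω : Q.Ω),
    S.Thread L k u p → S.Thread L k u p' → (∀ i, S.arr (p i) = S.arr (p' i)) →
    S.nd (S.s (p 0)) = Q.O.ν ω → lam Q.O (S.s (p 0)) (S.s (p' 0)) (Q.ret k u ω) ≤ r →
    lam Q.O (S.s (p 0)) (S.s (p' 0)) ω ≤ F (L + r) := by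
  obtain ⟨F, hF, h⟩ := Q.O.lam_lip Q.tight
  refine ⟨fun n => F (n + 1), hF.comp (Bd.id.add (Bd.const 1)), ?_⟩
  intro L k r u p p' ω hp hp' ha hω hr
  have hω' : S.nd (S.s (p' 0)) = Q.O.ν ω := by rw [← hω, S.nd_s, S.nd_s, ha]
  have hk := hp.le
  have x1 := Q.ret_pr hp hω
  have x2 := Q.ret_pr hp' hω'
  have y1 := pr_spec Q.O hω
  have y2 := pr_spec Q.O hω'
  rw [← Q.lift_src_zero ω] at y1 y2
  have := h (L + 1) r p p' (Q.lift ω) 0 (k + 1) k 0 _ _ _ _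
    ((hp.mono (Nat.le_succ L)).chain _ _) ((hp'.mono (Nat.le_succ L)).chain _ _)
    (fun m _ _ => ha m) (Q.thread_lifts hp hω _) (by push_cast; omega) (by omega) (by omega)
    le_rfl (by omega) x1 x2 y1 y2 ⟨x1.1.trans x2.1.symm, by rw [Q.S'.gf.acts.dist]; exact hr⟩
  rw [Q.lift_src_zero ω, show L + 1 + r = L + r + 1 by ring] at this
  exact this.2

/-- The order of the projections is coarsely preserved (`proj_chain` twice, `chain_bcc`). -/
theorem ret_pos : ∃ F, Bd F ∧ ∀ (L k : ℕ) (u : G) (p : ℤ → S.P) (ω ω' : Q.Ω),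
    S.Thread L k u p → S.nd (S.s (p 0)) = Q.O.ν ω → S.nd (S.s (p 0)) = Q.O.ν ω' →
    Btw S.B (S.s (p 0)) (Q.O.V (pr Q.O (S.s (p 0)) ω)) (Q.O.V (pr Q.O (S.s (p 0)) ω')) →
    pos Q.O (S.s (p 0)) (Q.ret k u ω) ≤ pos Q.O (S.s (p 0)) (Q.ret k u ω') + F L := by
  obtain ⟨F1, hF1, h1⟩ := proj_chain Q.O Q.tight
  obtain ⟨F2, hF2, h2⟩ := S.chain_bcc
  have hT := S.gf.acyc
  let M : ℕ → ℕ := fun L => 2 * F1 L + L + 1
  have hM : Bd M := (((Bd.const 2).mul hF1).add Bd.id).add (Bd.const 1)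
  refine ⟨fun L => F2 (M L) + 2 * F1 L, (hF2.comp hM).add ((Bd.const 2).mul hF1), ?_⟩
  intro L k u p ω ω' hp hω hω' hb
  have hk := hp.le
  obtain ⟨q, q1, q2⟩ := h1 L p _ 0 (k + 1) (hp.chain _ _) (Q.thread_lifts hp hω _)
  obtain ⟨q', q1', q2'⟩ := h1 L p _ 0 (k + 1) (hp.chain _ _) (Q.thread_lifts hp hω' _)
  have a0 := (q2 0 le_rfl (by omega)).2
  have a0' := (q2' 0 le_rfl (by omega)).2
  rw [Q.lift_src_zero] at a0 a0'
  have ak := (q2 k (by omega) (by omega)).2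
  have ak' := (q2' k (by omega) (by omega)).2
  have hn : ∀ {o : Q.Ω}, S.nd (S.s (p 0)) = Q.O.ν o →
      pr Q.O (S.s (p k)) (Q.S'.src (Q.lift o k)) = u • pr Q.O (S.s (p 0)) (Q.ret k u o) := by
    intro o ho
    have x := Q.ret_pr hp ho
    refine (pr_spec Q.O ?_).unique x
    rw [← x.1, ← Q.O.nd_V]
    exact (Sys.nd_of_btw (x.2 _ x.1)).1
  rw [hn hω] at ak
  rw [hn hω'] at ak'
  obtain ⟨y, y1, y2, y3⟩ := hb.near hT (SimpleGraph.Reachable.refl _) a0'.reach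
    (c := F1 L) (by simp) a0'.2
  have yc : S.Cl (F1 L) y (Q.O.V (pr Q.O (S.s (p 0)) ω)) :=
    Sys.Cl.symm ⟨(S.nd_eq _ _).2 y2, y3⟩
  obtain ⟨z, z1, z2⟩ := h2 (M L) p q' q 0 (k + 1) 0 k
    ((hp.chain _ _).mono (by simp only [M]; omega) le_rfl le_rfl)
    (q1'.mono (by simp only [M]; omega) le_rfl le_rfl)
    (q1.mono (by simp only [M]; omega) le_rfl le_rfl)
    (fun m m1 m2 => ⟨(q2' m m1 m2).1.symm, (q2 m m1 m2).1.symm⟩)
    (by simp only [M]; push_cast; omega) le_rfl (by omega) (by omega) (by omega)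
    ⟨y, y1, (yc.trans a0).mono (by simp only [M]; omega)⟩
  have e := hp.per 0
  rw [zero_add] at e
  have p1 : ∀ o : Q.Ω, pos Q.O (S.s (p 0)) o =
      S.B.dist (S.s (p k)) (Q.O.V (u • pr Q.O (S.s (p 0)) o)) := by
    intro o
    rw [e, S.s_smul, Q.O.V_smul, S.gf.acts.dist]; rfl
  rw [p1, p1]
  have c1 := z2.trans ak.symm
  have t1 := dist_tri z1.1 c1.reach
  have t2 := dist_tri (z1.reach.trans ak'.symm.reach) ak'.reach
  have := c1.2
  have := ak'.2
  have := z1.2.2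
  beta_reduce
  omega

/-- The big objects: threshold gap (`exists_gap`), `fix_of_mono`. -/
theorem big : ∃ Γ, Bd Γ ∧ ∀ (C L k : ℕ) (u : G) (p p' : ℤ → S.P), S.Thread L k u p →
    S.Thread L k u p' → (∀ i, S.arr (p i) = S.arr (p' i)) →
    ∃ F : Finset Q.Ω, F.card ≤ Γ (L + C) ∧
      (∀ ω ∈ F, S.nd (S.s (p 0)) = Q.O.ν ω ∧ Q.ret k u ω = ω ∧
        C < lam Q.O (S.s (p 0)) (S.s (p' 0)) ω) ∧
      {z | Btw S.B (S.s (p 0)) z (S.s (p' 0)) ∧ ∀ ω ∈ F, ¬ Q.O.Near 0 z ω}.ncard ≤ Γ (L + C) := by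
  classical
  obtain ⟨Γ0, hΓ0, h0⟩ := Q.cover_thread
  obtain ⟨Cm, hCm⟩ := Q.mem_of_lam
  obtain ⟨Cs, hCs⟩ := Q.sep_pos
  obtain ⟨Fl, hFl, hl⟩ := Q.ret_lam
  obtain ⟨Fp, hFp, hpos⟩ := Q.ret_pos
  have hT := S.gf.acyc
  let n0 : ℕ → ℕ := fun n => Γ0 n * Cm + n + Cs + Fp n + Γ0 n
  have hn0 : Bd n0 := ((((hΓ0.mul (Bd.const _)).add Bd.id).add (Bd.const _)).add hFp).add hΓ0
  let st : ℕ → ℕ := fun m => Fl (m + m)
  have hst : Bd st := hFl.comp (Bd.id.add Bd.id)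
  let Θ : ℕ → ℕ := fun n => Bd.it st (n0 n)
  have hΘ : Bd Θ := (Bd.it_bd hst).comp hn0
  refine ⟨fun n => Γ0 n + Γ0 n * (Θ n + 1), hΓ0.add (hΓ0.mul (hΘ.add (Bd.const 1))), ?_⟩
  intro C L k u p p' hp hp' ha
  obtain ⟨F0, F1, F2, F3⟩ := h0 L k u p p' hp hp' ha
  have hnd : S.nd (S.s (p 0)) = S.nd (S.s (p' 0)) := by rw [S.nd_s, S.nd_s, ha]
  have m0 : Γ0 L ≤ Γ0 (L + C) := hΓ0.mono (Nat.le_add_right _ _)
  have m1 : Fp L ≤ Fp (L + C) := hFp.mono (Nat.le_add_right _ _)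
  let θ : ℕ → ℕ := fun j => (fun m => st m + m)^[j] (n0 (L + C))
  have hθ : Monotone θ := fun a b hab => Bd.iter_le_iter st hab _
  set lm := lam Q.O (S.s (p 0)) (S.s (p' 0)) with hlm
  obtain ⟨j, hj, hgap⟩ := exists_gap θ hθ (F0.image lm)
  have hj' : j ≤ n0 (L + C) := by
    have := Finset.card_image_le (s := F0) (f := lm)
    simp only [n0]; omega
  have hΘj : θ j ≤ Θ (L + C) := Bd.iter_le_iter st hj' _
  have hθ0 : n0 (L + C) ≤ θ j := Bd.le_iter st j _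
  have hθ1 : Γ0 L * Cm + L + C + Cs + Fp L ≤ θ j := by
    have : Γ0 L * Cm ≤ Γ0 (L + C) * Cm := Nat.mul_le_mul_right _ m0
    simp only [n0] at hθ0; omega
  have hsucc : θ (j + 1) = Fl (θ j + θ j) + θ j := Function.iterate_succ_apply' _ _ _
  let F := F0.filter fun ω => θ j < lm ω
  have memF : ∀ ω ∈ F, S.nd (S.s (p 0)) = Q.O.ν ω ∧ θ j < lm ω := fun ω hω =>
    ⟨(F2 ω (Finset.mem_filter.1 hω).1).symm, (Finset.mem_filter.1 hω).2⟩
  have hmap : ∀ ω ∈ F, Q.ret k u ω ∈ F := by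
    intro ω hω
    obtain ⟨h1, h2⟩ := memF ω hω
    have h3 : θ j < lm (Q.ret k u ω) := by
      by_contra hle
      have a := hl L k (θ j) u p p' ω hp hp' ha h1 (not_lt.1 hle)
      have b : Fl (L + θ j) ≤ Fl (θ j + θ j) := hFl.mono (by omega)
      rcases hgap _ (Finset.mem_image_of_mem lm (Finset.mem_filter.1 hω).1) with c | c
      · omega
      · rw [← hlm] at a; omega
    exact Finset.mem_filter.2 ⟨hCm (Γ0 L) _ _ F0 _ hnd F1 F3 (Q.ret_ν hp h1)
      (by rw [← hlm]; omega), h3⟩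
  have hfix := fix_of_mono F (pos Q.O (S.s (p 0))) (Q.ret k u) hmap (by
    intro ω hω ω' hω' hne hle
    obtain ⟨h1, h2⟩ := memF ω hω
    obtain ⟨h1', h2'⟩ := memF ω' hω'
    have b1 := (pr_btw Q.O h1 (hnd ▸ h1) (by rw [← hlm]; omega)).1
    have b2 := (pr_btw Q.O h1' (hnd ▸ h1') (by rw [← hlm]; omega)).1
    have a := hpos L k u p ω ω' hp h1 h1' (b1.compare hT b2 hle).1
    by_contra hge
    obtain ⟨k1, k2⟩ := memF _ (hmap ω hω)
    obtain ⟨k1', k2'⟩ := memF _ (hmap ω' hω')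
    have := hCs _ _ _ _ hnd k1' k1 (fun e => hne (by
      have e2 := smul_left_cancel _ e
      exact ((Q.sg ^ (k : ℤ)).injective e2).symm)) (by rw [← hlm]; omega) (by rw [← hlm]; omega)
      (not_lt.1 hge)
    rw [← hlm] at this
    omega)
  refine ⟨F, ?_, fun ω hω => ⟨(memF ω hω).1, hfix ω hω, by have := (memF ω hω).2; omega⟩, ?_⟩
  · have : F.card ≤ F0.card := Finset.card_filter_le _ _
    beta_reduce
    omega
  · have := ncard_cover {z | Btw S.B (S.s (p 0)) z (S.s (p' 0)) ∧ ∀ ω ∈ F, ¬ Q.O.Near 0 z ω}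
      {z | Btw S.B (S.s (p 0)) z (S.s (p' 0)) ∧ ∀ ω ∈ F0, ¬ Q.O.Near 0 z ω}
      ((btw_finite hT _ _).subset fun z hz => hz.1) F0
      (fun ω => {z | Btw S.B (S.s (p 0)) z (S.s (p' 0)) ∧ Q.O.Near 0 z ω ∧ lm ω ≤ θ j})
      (θ j + 1) (by
        intro ω hω
        refine ⟨(btw_finite hT _ _).subset fun z hz => hz.1, ?_⟩
        refine seg_le hT (p := S.s (p 0)) (p' := S.s (p' 0)) _ (pos Q.O (S.s (p 0)) ω) _
          fun z hz => ⟨hz.1, ?_⟩
        have := (near_iff Q.O (F2 ω hω).symm hz.1).1 hz.2.1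
        have := hz.2.2
        rw [← hlm] at *
        omega) (by
        intro z hz
        by_cases c : ∃ ω ∈ F0, Q.O.Near 0 z ω
        · obtain ⟨ω, c1, c2⟩ := c
          refine Or.inr ⟨ω, c1, hz.1, c2, ?_⟩
          by_contra hlt
          exact hz.2 ω (Finset.mem_filter.2 ⟨c1, not_le.1 hlt⟩) c2
        · exact Or.inl ⟨hz.1, fun ω c1 c2 => c ⟨ω, c1, c2⟩⟩)
    have h4 : F0.card * (θ j + 1) ≤ Γ0 (L + C) * (Θ (L + C) + 1) :=
      Nat.mul_le_mul (by omega) (by omega)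
    beta_reduce
    omega

include Q in
/-- `list_intervals`, `plift`, `g3_compose`. -/
theorem g3 : S.G3P S.Any := by
  classical
  obtain ⟨Γ, hΓ, hb⟩ := Q.big
  obtain ⟨C, hC⟩ := Q.sep_pos
  obtain ⟨F3, hF3, h3⟩ := Q.O.g3_compose Q.tight Q.gall.2.2
  have hT := S.gf.acyc
  let M : ℕ → ℕ := fun L => Γ (L + C) + L + C + 1
  have hM : Bd M := (((hΓ.comp (Bd.id.add (Bd.const C))).add Bd.id).add (Bd.const C)).add
    (Bd.const 1)
  refine ⟨fun L => F3 (M L) + M L, (hF3.comp hM).add hM, ?_⟩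
  intro L k u p p' hp hp' ha _
  obtain ⟨F, F1, F2, hU⟩ := hb C L k u p p' hp hp' ha
  have hnd : S.nd (S.s (p 0)) = S.nd (S.s (p' 0)) := by rw [S.nd_s, S.nd_s, ha]
  have hr := (S.nd_eq _ _).1 hnd
  set P := S.s (p 0) with hP
  set P' := S.s (p' 0) with hP'
  have hb' : ∀ ω ∈ F, Btw S.B P (Q.O.V (pr Q.O P ω)) P' ∧ Btw S.B P (Q.O.V (pr Q.O P' ω)) P' ∧
      S.B.dist P (Q.O.V (pr Q.O P' ω)) = pos Q.O P ω + lam Q.O P P' ω := fun ω hω =>
    pr_btw Q.O (F2 ω hω).1 (hnd ▸ (F2 ω hω).1) (by have := (F2 ω hω).2.2; omega)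
  have hl := list_intervals F (pos Q.O P) (fun ω => pos Q.O P ω + lam Q.O P P' ω)
    (S.B.dist P P') C (Γ (L + C))
    (fun ω hω => by
      have := (F2 ω hω).2.2
      have := (hb' ω hω).2.1.2.2
      have := (hb' ω hω).2.2
      omega)
    (fun ω hω ω' hω' hne hle => hC _ _ _ _ hnd (F2 ω hω).1 (F2 ω' hω').1 hne (F2 ω hω).2.2
      (F2 ω' hω').2.2 hle)
    (le_trans (seg_ge hr (A := {z | Btw S.B P z P' ∧ ∀ ω ∈ F, ¬ Q.O.Near 0 z ω})
      ((btw_finite hT _ _).subset fun z hz => hz.1) _ (fun i hi => hi.1)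
      (fun z hz hi => ⟨hz, fun ω hω hn => hi.2 ω hω ((near_iff Q.O (F2 ω hω).1 hz).1 hn)⟩)) hU)
  rcases hl with hl | ⟨D, o, o1, o2, o3, o4, o5⟩
  · refine ⟨1, Commute.one_left u, fun i => one_smul _ _, ?_⟩
    rw [one_smul]
    exact ⟨hnd, by simp only [M]; omega⟩
  · have cl : ∀ {z z' : S.V}, Btw S.B P z P' → Btw S.B P z' P' →
        S.B.dist P z ≤ S.B.dist P z' + M L → S.B.dist P z' ≤ S.B.dist P z + M L →
        S.Cl (M L) z z' := by
      intro z z' h1 h2 k1 k2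
      refine ⟨(Sys.nd_of_btw h1).1.symm.trans (Sys.nd_of_btw h2).1, ?_⟩
      rcases le_total (S.B.dist P z) (S.B.dist P z') with c | c
      · have := dist_on_geod hT h1 h2 c
        omega
      · have := dist_on_geod hT h2 h1 c
        rw [SimpleGraph.dist_comm (u := z') (v := z)] at this
        omega
    obtain ⟨e, e1, e2, e3⟩ := h3 (M L) k D u p p' (fun j => Q.lift (o j))
      (fun j => pr Q.O P (o j)) (fun j => pr Q.O P' (o j))
      (hp.mono (by simp only [M]; omega)) (hp'.mono (by simp only [M]; omega)) ha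
      (by simp only [M]; omega)
      (fun j hj => Q.plift hp (F2 _ (o2 j hj)).1.symm (by
        have := (F2 _ (o2 j hj)).2.1
        unfold ret at this
        exact inv_smul_eq_iff.1 this))
      (fun j hj => by
        rw [Q.lift_src_zero]
        exact ⟨pr_spec Q.O (F2 _ (o2 j hj)).1, pr_spec Q.O (hnd ▸ (F2 _ (o2 j hj)).1)⟩)
      (cl (btw_left hr) (hb' _ (o2 0 (by omega))).1
        (by rw [← hP, SimpleGraph.dist_self]; omega)
        (by unfold pos at o3; simp only [M]; omega))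
      (fun j hj => by
        have k1 := hb' _ (o2 j (by omega))
        have k2 := hb' _ (o2 (j + 1) (by omega))
        have k3 := o4 j hj
        refine cl k1.2.1 k2.1 ?_ ?_
        · rw [k1.2.2]; unfold pos at k3 ⊢; simp only [M]; omega
        · rw [k1.2.2]; unfold pos at k3 ⊢; simp only [M]; omega)
      (by
        have k1 := hb' _ (o2 D le_rfl)
        refine cl k1.2.1 (btw_right hr) ?_ ?_
        · have := k1.2.1.2.2
          rw [← hP']
          omega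
        · rw [k1.2.2, ← hP']; simp only [M]; omega)
    exact ⟨e, e1, e2, e3.mono (Nat.le_add_right _ _)⟩

end Ox

end EG
end CPOR
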