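import Pool.Agent.P.MP_2cb329_al.EG.Q

/-! Section F9: finiteness of `Q` and the cut lemma. -/

set_option autoImplicit false

namespace CPOR
namespace EG
open ZT MulAction

variable {G W : Type} [Group G] [MulAction G W] (X : Cx G W)

namespace Cx

/-- All turns `(p, q, r)` at `q`. -/
def Turn : Set (W × W × W) := {τ | X.T.Adj τ.2.1 τ.1 ∧ X.T.Adj τ.2.1 τ.2.2}

theorem ca_third {𝒯 : Set (W × W × W)} (h : FinOrb (⊤ : Subgroup G) 𝒯) {a b : W}
    (hab : X.T.Adj a b) : {c | ∃ g : G, g • (a, b, c) ∈ 𝒯}.Finite := by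
  obtain ⟨F, hF, hF'⟩ := h
  have h1 : ∀ υ : W × W × W, {c | ∃ g : G, g • (a, b, c) = υ}.Subsingleton := by
    rintro υ c ⟨g, hg⟩ c' ⟨g', hg'⟩
    have e := hg.trans hg'.symm
    simp only [Prod.smul_mk, Prod.mk.injEq] at e
    have : g = g' := dart_cancel X.gf (e := (a, b)) hab (Prod.ext e.1 e.2.1)
    subst this
    exact MulAction.injective g e.2.2
  refine (hF.biUnion (fun υ _ => (h1 υ).finite)).subset ?_
  rintro c ⟨g, hg⟩
  obtain ⟨k, -, hk⟩ := hF' _ hg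
  exact Set.mem_biUnion hk ⟨k * g, mul_smul _ _ _⟩

theorem ca_stab_smul (g : G) {w : W} (h : stabilizer G w = ⊥) : stabilizer G (g • w) = ⊥ := by
  rw [stabilizer_smul_eq_stabilizer_map_conj, h, Subgroup.map_bot]

theorem ca_rev {𝒯 : Set (W × W × W)} (h : FinOrb (⊤ : Subgroup G) 𝒯) :
    FinOrb (⊤ : Subgroup G) {τ : W × W × W | (τ.2.2, τ.2.1, τ.1) ∈ 𝒯} := by
  obtain ⟨F, hF, hF'⟩ := h
  refine ⟨(fun τ : W × W × W => (τ.2.2, τ.2.1, τ.1)) '' F, hF.image _, fun τ hτ => ?_⟩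
  obtain ⟨k, hk, h1⟩ := hF' _ hτ
  exact ⟨k, hk, _, h1, rfl⟩

/-- Geodesics of bounded length with turns in a set with finitely many orbits. -/
theorem fo_paths {𝒯 : Set (W × W × W)} (h : FinOrb (⊤ : Subgroup G) 𝒯) (n : ℕ) :
    FinOrb (⊤ : Subgroup G) {p : W × W | X.T.Reachable p.1 p.2 ∧ p.1 ≠ p.2 ∧
      X.T.dist p.1 p.2 ≤ n ∧
      ∀ a b c, Sep X.T (a, b) p.1 p.2 → Sep X.T (b, c) p.1 p.2 → ∃ g : G, g • (a, b, c) ∈ 𝒯} := by
  have hT := X.acyc
  have hA := X.gf.acts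
  induction n with
  | zero =>
    refine ⟨∅, Set.finite_empty, ?_⟩
    rintro p ⟨hr, hne, hd, -⟩
    exact (hne (eq_of_dist_zero hr (by omega))).elim
  | succ n ih =>
    have h2 : FinOrb (⊤ : Subgroup G) {p : W × W | (X.T.Reachable p.1 p.2 ∧ p.1 ≠ p.2 ∧
        X.T.dist p.1 p.2 ≤ n + 1 ∧ ∀ a b c, Sep X.T (a, b) p.1 p.2 → Sep X.T (b, c) p.1 p.2 →
          ∃ g : G, g • (a, b, c) ∈ 𝒯) ∧ ¬ X.T.Adj p.1 p.2} := by
      refine fo_of_fibres ih (fun p => (p.1, nxt X.T p.2 p.1)) ?_ ?_ ?_ ?_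
      · rintro g ⟨x, y⟩ ⟨⟨hr, hne, hd, ht⟩, hna⟩
        refine ⟨⟨hA.reach g hr, fun e => hne (MulAction.injective g e), ?_, ?_⟩,
          fun h' => hna ((adj_smul_iff hA g).1 h')⟩
        · exact (hA.dist g x y).trans_le hd
        · intro a b c h1 h2
          obtain ⟨k, hk⟩ := ht (g⁻¹ • a) (g⁻¹ • b) (g⁻¹ • c)
            ((sep_smul_iff hA g).1 (by simpa using h1)) ((sep_smul_iff hA g).1 (by simpa using h2))
          exact ⟨k * g⁻¹, by rw [mul_smul]; exact hk⟩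
      · rintro g ⟨x, y⟩ -
        exact Prod.ext rfl (nxt_smul X.gf g y x)
      · rintro ⟨x, y⟩ ⟨⟨hr, hne, hd, ht⟩, hna⟩
        have hs := nxt_spec hT hr.symm hne.symm
        have hb : Btw X.T x (nxt X.T y x) y := (sep_right hT hs).symm
        refine ⟨hb.1, fun e => hna ?_, ?_, fun a b c h1 h2 =>
          ht a b c (sep_ext_right hT h1 hb) (sep_ext_right hT h2 hb)⟩
        · have := hs.1.symm
          simp only at e this
          rwa [← e] at this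
        · have := (sep_dist hs).2
          simp only at this hd ⊢
          rw [SimpleGraph.dist_comm] at hd ⊢
          omega
      · rintro ⟨x, b⟩
        by_cases hxb : X.T.Reachable b x ∧ b ≠ x
        · have hs := nxt_spec hT hxb.1 hxb.2
          refine ((Set.finite_singleton x).prod (X.ca_third h hs.1.symm)).subset ?_
          rintro ⟨x', y⟩ ⟨⟨⟨hr, hne, -, ht⟩, -⟩, e⟩
          obtain ⟨rfl, rfl⟩ := Prod.ext_iff.1 e
          have hs' := nxt_spec hT hr.symm hne.symm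
          exact ⟨rfl, ht _ _ _ (sep_ext_right hT (sep_symm hs) (sep_right hT hs').symm)
            (sep_symm hs')⟩
        · refine Set.finite_empty.subset ?_
          rintro ⟨x', y⟩ ⟨⟨⟨hr, hne, -, ht⟩, hna⟩, e⟩
          obtain ⟨rfl, rfl⟩ := Prod.ext_iff.1 e
          have hs' := nxt_spec hT hr.symm hne.symm
          refine hxb ⟨(sep_right hT hs').2.1, fun e' => hna ?_⟩
          have := hs'.1.symm
          simp only at e' this
          rwa [e'] at this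
    refine fo_mono (fo_union X.finE h2) fun p hp => ?_
    by_cases ha : X.T.Adj p.1 p.2
    · exact Or.inl ha
    · exact Or.inr ⟨hp, ha⟩

theorem fo_turn_triv :
    FinOrb (⊤ : Subgroup G) {τ : W × W × W | τ ∈ X.Turn ∧ stabilizer G τ.2.1 = ⊥} := by
  refine fo_of_fibres X.finW (fun τ => τ.2.1) ?_ (fun _ _ _ => rfl) (fun _ _ => trivial) ?_
  · rintro g τ ⟨⟨h1, h2⟩, h3⟩
    exact ⟨⟨X.gf.acts g _ _ h1, X.gf.acts g _ _ h2⟩, ca_stab_smul g h3⟩
  · intro w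
    by_cases hw : stabilizer G w = ⊥
    · refine ((X.triv_finite hw).prod ((Set.finite_singleton w).prod (X.triv_finite hw))).subset ?_
      rintro τ ⟨⟨⟨h1, h2⟩, -⟩, rfl⟩
      exact ⟨h1, rfl, h2⟩
    · refine Set.finite_empty.subset ?_
      rintro τ ⟨⟨-, h3⟩, rfl⟩
      exact hw h3

theorem fo_turn_ill :
    FinOrb (⊤ : Subgroup G) {τ : W × W × W | τ ∈ X.Turn ∧ ¬ Lg X.T X.f τ.1 τ.2.1 τ.2.2} := by
  refine fo_of_fibres X.finE (fun τ => (τ.2.1, τ.1)) ?_ (fun _ _ _ => rfl) (fun _ h => h.1.1) ?_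
  · rintro g τ ⟨⟨h1, h2⟩, h3⟩
    exact ⟨⟨X.gf.acts g _ _ h1, X.gf.acts g _ _ h2⟩, fun h => h3 ((X.lg_smul g).1 h)⟩
  · rintro ⟨q, p⟩
    by_cases hw : X.T.Adj q p
    · refine ((Set.finite_singleton p).prod ((Set.finite_singleton q).prod
        (X.ill_partner_finite hw))).subset ?_
      rintro τ ⟨⟨⟨-, h2⟩, h3⟩, e⟩
      obtain ⟨rfl, rfl⟩ := Prod.ext_iff.1 e
      exact ⟨rfl, rfl, h2, h3⟩
    · refine Set.finite_empty.subset ?_
      rintro τ ⟨⟨⟨h1, -⟩, -⟩, e⟩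
      obtain ⟨rfl, rfl⟩ := Prod.ext_iff.1 e
      exact hw h1

/-- Turns inside the image of a dart. -/
theorem fo_turn_img (s : ℕ) : FinOrb (⊤ : Subgroup G) {τ : W × W × W | ∃ e : W × W,
    X.T.Adj e.1 e.2 ∧ Sep X.T (τ.1, τ.2.1) (X.f^[s] e.1) (X.f^[s] e.2) ∧
      Sep X.T (τ.2.1, τ.2.2) (X.f^[s] e.1) (X.f^[s] e.2)} := by
  obtain ⟨F, hF, hF'⟩ := X.finE
  have hfin : ∀ e : W × W, {τ : W × W × W |
      Sep X.T (τ.1, τ.2.1) (X.f^[s] e.1) (X.f^[s] e.2) ∧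
      Sep X.T (τ.2.1, τ.2.2) (X.f^[s] e.1) (X.f^[s] e.2)}.Finite := by
    intro e
    have h1 := btw_finite X.acyc (X.f^[s] e.1) (X.f^[s] e.2)
    refine (h1.prod (h1.prod h1)).subset ?_
    rintro τ ⟨h2, h3⟩
    exact ⟨sep_left X.acyc h2, sep_left X.acyc h3, sep_right X.acyc h3⟩
  refine ⟨_, hF.biUnion (fun e _ => hfin e), ?_⟩
  rintro τ ⟨e, he, h1, h2⟩
  obtain ⟨k, hk, h3⟩ := hF' e he
  refine ⟨k, hk, Set.mem_biUnion h3 ?_⟩
  simp only [Set.mem_ofPred_eq, Prod.smul_fst, Prod.smul_snd, X.iter_smul]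
  exact ⟨(sep_smul_iff X.gf.acts k).2 h1, (sep_smul_iff X.gf.acts k).2 h2⟩

/-- Preimages under `Df^[s]` of a set of turns with finitely many orbits. -/
theorem fo_turn_pre (s : ℕ) {𝒯 : Set (W × W × W)} (h : FinOrb (⊤ : Subgroup G) 𝒯) :
    FinOrb (⊤ : Subgroup G) {τ : W × W × W | τ ∈ X.Turn ∧ ∃ g : G, ∃ υ ∈ 𝒯,
      (Df X.T X.f)^[s] (τ.2.1, τ.1) = g • (υ.2.1, υ.1) ∧
      (Df X.T X.f)^[s] (τ.2.1, τ.2.2) = g • (υ.2.1, υ.2.2)} := by
  obtain ⟨F, hF, hF'⟩ := h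
  have hfin : ∀ υ : W × W × W, {τ : W × W × W | τ ∈ X.Turn ∧
      (Df X.T X.f)^[s] (τ.2.1, τ.1) = (υ.2.1, υ.1) ∧
      (Df X.T X.f)^[s] (τ.2.1, τ.2.2) = (υ.2.1, υ.2.2)}.Finite := by
    intro υ
    refine Set.Finite.of_finite_image (f := fun τ : W × W × W => ((τ.2.1, τ.1), (τ.2.1, τ.2.2)))
      (((X.df_fibre_finite s (υ.2.1, υ.1)).prod (X.df_fibre_finite s (υ.2.1, υ.2.2))).subset ?_) ?_
    · rintro _ ⟨τ, ⟨⟨h1, h2⟩, h3, h4⟩, rfl⟩
      exact ⟨⟨h1, h3⟩, h2, h4⟩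
    · rintro ⟨a, b, c⟩ - ⟨a', b', c'⟩ - e
      simp only [Prod.mk.injEq] at e
      rw [e.1.1, e.1.2, e.2.2]
  refine ⟨_, hF.biUnion (fun υ _ => hfin υ), ?_⟩
  rintro τ ⟨⟨h1, h2⟩, g, υ, hυ, h3, h4⟩
  obtain ⟨k, -, hk⟩ := hF' υ hυ
  refine ⟨k * g⁻¹, trivial, Set.mem_biUnion hk
    ⟨⟨X.gf.acts _ _ _ h1, X.gf.acts _ _ _ h2⟩, ?_, ?_⟩⟩
  · have := X.df_iter_smul s (k * g⁻¹) (τ.2.1, τ.1)
    rw [h3, ← mul_smul, inv_mul_cancel_right] at this
    exact this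
  · have := X.df_iter_smul s (k * g⁻¹) (τ.2.1, τ.2.2)
    rw [h4, ← mul_smul, inv_mul_cancel_right] at this
    exact this

/-- A turn at an eaten vertex `w` of the left leg is carried into the image of the right leg.
`K` is the constant of `exists_K`. -/
theorem turn_carried {K : ℕ} (hK : ∀ p q r, X.T.Adj q p → X.T.Adj q r → ¬ Lg X.T X.f p q r →
      (Df X.T X.f)^[K] (q, p) = (Df X.T X.f)^[K] (q, r))
    {a y b p w r : W} (h : LL X.T X.f a y b) {th : ℕ} (ha : Al X.T X.f a y b th)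
    (h1 : Sep X.T (p, w) a y) (h2 : Sep X.T (w, r) a y) (he : Eat X.T X.f a y b th w) :
    Sep X.T ((Df X.T X.f)^[K + th] (w, r)).swap (X.f^[K + th] y) (X.f^[K + th] b) ∧
      Sep X.T ((Df X.T X.f)^[K + th] (w, p)) (X.f^[K + th] y) (X.f^[K + th] b) := by
  have hT := X.acyc
  have hw : Btw X.T a w y := sep_left hT h2
  have hwy : LS X.T X.f w y := X.ls_sub h.1 hw (btw_right hw.reach)
  have hwa : LS X.T X.f w a := X.ls_sub h.1 hw (btw_left hw.reach)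
  have hr : Sep X.T (w, r) w y := sep_restr hT h2 (btw_right hw.1) (btw_right (sep_right hT h2).2.1)
  have hp : Sep X.T (w, p) w a :=
    sep_restr hT (sep_symm h1) (btw_right hw.symm.1) (btw_right (sep_left hT h1).1.symm)
  have hs := ((X.eat_iff h (K + th)).1 (X.eat_mono h (Nat.le_add_left th K) he)).2.symm
  refine ⟨sep_ext_right hT (sep_symm (X.df_iter_eq (K + th) hwy hr)) hs, ?_⟩
  refine sep_ext_left hT ?_ hs
  have hd := X.df_iter_eq th hwa hp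
  have hd1 := X.df_iter_fst th (w, p)
  have he' := (X.eat_iff h th).1 he
  obtain ⟨v1, v2, v3⟩ := X.vt_spec h th
  have hls : LS X.T X.f (X.f^[th] w) (X.f^[th] b) :=
    X.ls_sub (X.ls_iter th h.2.1) he'.2.symm (btw_right he'.2.symm.reach)
  have key : ∃ z, Sep X.T (X.f^[th] w, z) (X.f^[th] w) (X.f^[th] b) ∧
      (Df X.T X.f)^[K] ((Df X.T X.f)^[th] (w, p)) = (Df X.T X.f)^[K] (X.f^[th] w, z) := by
    generalize (Df X.T X.f)^[th] (w, p) = d at hd hd1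
    obtain ⟨d1, d2⟩ := d
    simp only at hd1
    subst hd1
    have he0 : Btw X.T (vt X.T X.f a y b th) (X.f^[th] w) (X.f^[th] y) := he
    by_cases hv : X.f^[th] w = vt X.T X.f a y b th
    · obtain ⟨p', r', s1, s2, hn⟩ := ha
      rw [← hv] at s1 s2 hn v3
      refine ⟨r', sep_restr hT s2 (btw_right v3.1) (btw_right (sep_right hT s2).2.1), ?_⟩
      have s3 : Sep X.T (X.f^[th] w, p') (X.f^[th] w) (X.f^[th] a) :=
        sep_restr hT (sep_symm s1) (btw_right v3.symm.1) (btw_right (sep_left hT s1).1.symm)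
      rw [sep_unique hT hd s3 rfl]
      exact hK p' _ r' s1.1.symm s2.1 hn
    · refine ⟨d2, ?_, rfl⟩
      have b1 : Btw X.T (X.f^[th] w) (vt X.T X.f a y b th) (X.f^[th] a) :=
        (v1.trans_right he0).2.symm
      have b2 : Btw X.T (X.f^[th] w) (vt X.T X.f a y b th) (X.f^[th] b) :=
        (v2.symm.trans_right he0).2.symm
      have e1 := nxt_eq hT hd.1 hd.2.2
      rw [nxt_btw hT b1 hv, ← nxt_btw hT b2 hv] at e1
      have := nxt_spec hT b2.reach (fun e => hv (by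
        rw [← e] at b2
        exact b2.eq_of_self.symm))
      rw [e1] at this
      exact this
  obtain ⟨z, hz, e⟩ := key
  have := X.df_iter_eq K hls hz
  rw [← e] at this
  simpa only [Function.iterate_add_apply] using this

theorem ca_len {th : ℕ} {d d' : W × W} {y : W} (h : QT X.T X.f th th d y d') :
    X.T.dist d.1 y ≤ X.c + 1 := by
  obtain ⟨h1, -, h3, -, h5, -, h7, -⟩ := h
  have e := h3.2.2
  rw [SimpleGraph.dist_eq_one_iff_adj.2 h1] at e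
  by_cases hy : d.2 = y
  · rw [hy, SimpleGraph.dist_self] at e
    omega
  · have hn : ¬ Eat X.T X.f d.1 y d'.1 0 d.2 := by
      intro he
      unfold Eat at he
      rw [X.vt_zero h5] at he
      exact hy he.eq_of_self
    by_contra hlt
    refine X.safe h5 h3 (Nat.zero_le th) hn ?_ h7
    rw [X.vt_zero h5]
    refine le_trans ?_ (X.dist_le_len h3.2.1)
    exact_mod_cast (by omega : X.c ≤ X.T.dist d.2 y)

theorem ca_leg {K : ℕ} (hK : ∀ p q r, X.T.Adj q p → X.T.Adj q r → ¬ Lg X.T X.f p q r →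
      (Df X.T X.f)^[K] (q, p) = (Df X.T X.f)^[K] (q, r))
    {th : ℕ} {d d' : W × W} {y : W} (h : QT X.T X.f th th d y d') {p w r : W}
    (h1 : Sep X.T (p, w) d.1 y) (h2 : Sep X.T (w, r) d.1 y) :
    stabilizer G w = ⊥ ∨ ∃ g : G, ∃ υ ∈ ({τ : W × W × W | ∃ e : W × W,
      X.T.Adj e.1 e.2 ∧ Sep X.T (τ.1, τ.2.1) (X.f^[K + th] e.1) (X.f^[K + th] e.2) ∧
        Sep X.T (τ.2.1, τ.2.2) (X.f^[K + th] e.1) (X.f^[K + th] e.2)} ∪
      (fun τ : W × W × W => (((Df X.T X.f)^[K + th] (τ.2.1, τ.1)).2, X.f^[K + th] τ.2.1,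
        ((Df X.T X.f)^[K + th] (τ.2.1, τ.2.2)).2)) ''
        {τ : W × W × W | τ ∈ X.Turn ∧ stabilizer G τ.2.1 = ⊥}),
      (Df X.T X.f)^[K + th] (w, r) = g • (υ.2.1, υ.1) ∧
      (Df X.T X.f)^[K + th] (w, p) = g • (υ.2.1, υ.2.2) := by
  have hT := X.acyc
  obtain ⟨a1, -, h3, -, h5, h6, h7, -⟩ := h
  by_cases hst : stabilizer G w = ⊥
  · exact Or.inl hst
  right
  have hw : Btw X.T d.1 w y := sep_left hT h2
  have hdw : Btw X.T d.2 w y := by
    refine (h3.compare hT hw ?_).2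
    have := (sep_dist h1).1
    rw [SimpleGraph.dist_eq_one_iff_adj.2 a1]
    simp only at this
    omega
  obtain ⟨c1, c2⟩ := X.turn_carried hK h5 (h6 th le_rfl) h1 h2 (X.eat_leg h5 h3 hdw h7)
  have f1 := X.df_iter_fst (K + th) (w, r)
  have f2 := X.df_iter_fst (K + th) (w, p)
  generalize (Df X.T X.f)^[K + th] (w, r) = u at c1 f1 ⊢
  generalize (Df X.T X.f)^[K + th] (w, p) = u' at c2 f2 ⊢
  obtain ⟨q, r1⟩ := u
  obtain ⟨q', p1⟩ := u'
  simp only at f1 f2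
  obtain rfl : q = q' := f1.trans f2.symm
  refine ⟨1, (r1, q, p1), ?_, (one_smul _ _).symm, (one_smul _ _).symm⟩
  rcases X.turn_image (K + th) h5.2.1 c1 c2 with ⟨e, he, t1, t2⟩ | ⟨p', q', r', s1, s2, t1, t2⟩
  · exact Or.inl ⟨e, he.1, t1, t2⟩
  · have f3 := X.df_iter_fst (K + th) (q', p')
    rw [t1] at f3
    simp only at f3
    refine Or.inr ⟨(p', q', r'), ⟨⟨s1.1.symm, s2.1⟩, ?_⟩, ?_⟩
    · by_contra hq
      have e : w = q' := X.vinj_iter (K + th) hst hq (f1.symm.trans f3)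
      subst e
      have e' : w = y := hw.antisymm (h5.2.2.trans_right (sep_left hT s2)).2
      exact (sep_ne h2).2.2 e'
    · simp only [t1, t2, ← f3]

/-- (Q1) `dist d.2 y < c` by `safe` at time `0`; the turn at `y` is illegal; an inner turn of a
leg is at a trivial vertex, or `turn_carried` and `turn_image` apply (`vinj_iter` shows that the
second vertex is trivial). -/
theorem fo_qt (th : ℕ) : FinOrb (⊤ : Subgroup G)
    {ρ : (W × W) × W × (W × W) | QT X.T X.f th th ρ.1 ρ.2.1 ρ.2.2} := by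
  have hT := X.acyc
  obtain ⟨K, hK⟩ := X.exists_K
  have hU := fo_union (X.fo_turn_img (K + th)) (fo_image X.fo_turn_triv
    (fun τ : W × W × W => (((Df X.T X.f)^[K + th] (τ.2.1, τ.1)).2, X.f^[K + th] τ.2.1,
      ((Df X.T X.f)^[K + th] (τ.2.1, τ.2.2)).2)) (by
      intro g τ _
      refine Prod.ext ?_ (Prod.ext (X.iter_smul (K + th) g τ.2.1) ?_)
      · exact congrArg Prod.snd (X.df_iter_smul (K + th) g (τ.2.1, τ.1))
      · have := congrArg Prod.snd (X.df_iter_smul (K + th) g (τ.2.1, τ.2.2))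
        exact this) (by
      rintro g τ ⟨⟨h1, h2⟩, h3⟩
      exact ⟨⟨X.gf.acts g _ _ h1, X.gf.acts g _ _ h2⟩, ca_stab_smul g h3⟩))
  have hP := X.fo_turn_pre (K + th) hU
  have hall := X.fo_paths (fo_union (fo_union X.fo_turn_triv X.fo_turn_ill)
    (fo_union hP (ca_rev hP))) (2 * (X.c + 1))
  refine fo_of_fibres hall (fun ρ => (ρ.1.1, ρ.2.2.1)) (fun g ρ h => X.qt_smul g h)
    (fun _ _ _ => rfl) ?_ ?_
  · rintro ⟨d, y, d'⟩ hq
    have hq' := X.qt_symm hq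
    have l1 := X.ca_len hq
    have l2 := X.ca_len hq'
    have hb : Btw X.T d.1 y d'.1 := hq.2.2.2.2.1.2.2
    refine ⟨hb.reach, fun e => ?_, ?_, fun p w r h1 h2 => ⟨1, ?_⟩⟩
    · simp only at e
      rw [← e] at hb
      have h3 : Btw X.T d.1 d.2 y := hq.2.2.1
      rw [hb.eq_of_self] at h3
      exact hq.1.ne.symm h3.eq_of_self
    · have := hb.2.2
      rw [SimpleGraph.dist_comm] at l2
      simp only at l1 l2 ⊢
      omega
    · rw [one_smul]
      have ht : (p, w, r) ∈ X.Turn := ⟨h1.1.symm, h2.1⟩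
      rcases sep_or hT h1 hb.1 with s1 | s1 <;> rcases sep_or hT h2 hb.1 with s2 | s2
      · rcases X.ca_leg hK hq s1 s2 with h | h
        · exact Or.inl (Or.inl ⟨ht, h⟩)
        · exact Or.inr (Or.inr ⟨⟨ht.2, ht.1⟩, h⟩)
      · have e : w = y :=
          (sep_right hT s1).antisymm (hb.trans_right (sep_left hT s2)).2
        subst e
        have h0 := hq.2.2.2.2.2.1 0 (Nat.zero_le _)
        unfold Al at h0
        rw [X.vt_zero hq.2.2.2.2.1] at h0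
        obtain ⟨p', r', t1, t2, hn⟩ := h0
        have e1 := sep_unique hT h2 t2 rfl
        have e2 := sep_unique hT h1 t1 (by
          have a1 := (sep_dist h1).1
          have a2 := (sep_dist t1).1
          simp only [Function.iterate_zero, id] at a1 a2 ⊢
          omega)
        obtain rfl : r = r' := congrArg Prod.snd e1
        obtain rfl : p = p' := congrArg Prod.fst e2
        exact Or.inl (Or.inr ⟨ht, hn⟩)
      · have e : w = y :=
          (sep_left hT s2).antisymm (hb.trans_right (sep_right hT s1)).2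
        exact ((sep_ne s1).2.1 e.symm).elim
      · rcases X.ca_leg hK hq' (sep_symm s2) (sep_symm s1) with h | h
        · exact Or.inl (Or.inl ⟨ht, h⟩)
        · exact Or.inr (Or.inl ⟨ht, h⟩)
  · rintro ⟨a, b⟩
    have h1 := btw_finite hT a b
    refine (((Set.finite_singleton a).prod h1).prod
      (h1.prod ((Set.finite_singleton b).prod h1))).subset ?_
    rintro ⟨d, y, d'⟩ ⟨hq, e⟩
    obtain ⟨rfl, rfl⟩ := Prod.ext_iff.1 e
    have hb : Btw X.T d.1 y d'.1 := hq.2.2.2.2.1.2.2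
    exact ⟨⟨rfl, (hb.trans_left hq.2.2.1).1⟩, hb, rfl, (hb.symm.trans_left hq.2.2.2.1).1.symm⟩

theorem qt_stab (th : ℕ) : ∃ τ, th ≤ τ ∧ ∀ d y d', QT X.T X.f th τ d y d' → QQ X.T X.f d y d' := by
  obtain ⟨n, hn⟩ := fo_stab (G := G)
    (fun n => {ρ : (W × W) × W × (W × W) | QT X.T X.f th (th + n) ρ.1 ρ.2.1 ρ.2.2}) (X.fo_qt th)
    (fun n g ρ h => X.qt_smul g h) (by
      rintro n ρ ⟨h1, h2, h3, h4, h5, h6, h7⟩
      exact ⟨h1, h2, h3, h4, h5, fun t ht => h6 t (by omega), h7⟩)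
  refine ⟨th + n, Nat.le_add_right _ _, fun d y d' h => ?_⟩
  have hm := hn (d, y, d') h
  obtain ⟨h1, h2, h3, h4, h5, -, h7, h8⟩ := h
  exact ⟨h1, h2, h3, h4, ⟨h5, fun t => (hm t).2.2.2.2.2.1 t (Nat.le_add_left _ _)⟩, ⟨th, h7⟩,
    ⟨th, h8⟩⟩

/-- After a uniform time at most one more vertex of a leg is eaten (`ls_grow`, `safe`). -/
theorem two_eaten : ∃ τ₀ : ℕ, ∀ (a y b w w' : W) (t t' : ℕ), LL X.T X.f a y b →
    Btw X.T a w y → Btw X.T a w' y → τ₀ ≤ t → t ≤ t' →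
    ¬ Eat X.T X.f a y b t w → ¬ Eat X.T X.f a y b t w' →
    Eat X.T X.f a y b t' w → Eat X.T X.f a y b t' w' → w = w' := by
  obtain ⟨τ₀, hτ⟩ := X.ls_grow X.c
  have key : ∀ (a y b w w' : W) (t t' : ℕ), LL X.T X.f a y b →
      Btw X.T a w y → Btw X.T a w' y → τ₀ ≤ t → t ≤ t' →
      ¬ Eat X.T X.f a y b t w → ¬ Eat X.T X.f a y b t w' →
      Eat X.T X.f a y b t' w → X.T.dist a w ≤ X.T.dist a w' → w = w' := by
    intro a y b w w' t t' h hw hw' ht ht' n1 n2 e1 hd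
    by_contra hne
    have b1 := (hw.compare X.acyc hw' hd).1
    have l1 := X.ls_sub h.1 (btw_left h.1.1) hw'
    have b2 := X.ls_btw_iter t l1 b1
    have b3 := ((X.not_eat h hw' n2).1.trans_left b2).2
    have g1 := (hτ t ht w w' (X.ls_sub h.1 hw hw') hne).2
    refine X.safe h hw ht' n1 ?_ e1
    rw [X.len_add b3]
    have := X.len_nonneg (X.f^[t] w') (vt X.T X.f a y b t)
    linarith
  refine ⟨τ₀, fun a y b w w' t t' h hw hw' ht ht' n1 n2 e1 e2 => ?_⟩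
  rcases le_total (X.T.dist a w) (X.T.dist a w') with hd | hd
  · exact key a y b w w' t t' h hw hw' ht ht' n1 n2 e1 hd
  · exact (key a y b w' w t t' h hw' hw ht ht' n2 n1 e2 hd).symm

/-- At a time when the turn is alive there is a last eaten vertex on the leg. -/
theorem exists_front {a y b : W} (h : LL X.T X.f a y b) {t : ℕ} (ha : Al X.T X.f a y b t) :
    ∃ d : W × W, Sep X.T d a y ∧ Eat X.T X.f a y b t d.2 ∧ ¬ Eat X.T X.f a y b t d.1 := by
  obtain ⟨p, h0, hn, hadj, hd, hb⟩ := exists_geod h.1.1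
  have key : ∀ n, n ≤ X.T.dist a y → Eat X.T X.f a y b t (p n) →
      ∃ d : W × W, Sep X.T d a y ∧ Eat X.T X.f a y b t d.2 ∧ ¬ Eat X.T X.f a y b t d.1 := by
    intro n
    induction n with
    | zero =>
      intro _ he
      rw [h0] at he
      exact absurd he (X.not_eat_of_al h ha).1
    | succ n ih =>
      intro hn he
      by_cases he' : Eat X.T X.f a y b t (p n)
      · exact ih (by omega) he'
      · refine ⟨(p n, p (n + 1)), sep_of_btw (e := (p n, p (n + 1))) (hadj n hn) (hb n (by omega)) (hb _ hn) ?_,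
          he, he'⟩
        have e1 := (hd 0 n (Nat.zero_le _) (by omega)).2
        have e2 := (hd 0 (n + 1) (Nat.zero_le _) hn).2
        rw [h0] at e1 e2
        simp only
        omega
  refine key _ le_rfl ?_
  rw [hn]
  exact X.eat_self h t

/-- CUT.  `th 0 = τ₀`, `th (i+1)` from `qt_stab (th i)`, `τc = th 3`, `th = th 2`; in one of the
three intervals no vertex is eaten. -/
theorem cut : ∃ th τc : ℕ, ∀ a y b, LL X.T X.f a y b → (∀ t ≤ τc, Al X.T X.f a y b t) →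
    ∃ d d', QQ X.T X.f d y d' ∧ Btw X.T a d.1 y ∧ Btw X.T b d'.1 y ∧
      ∃ i ≤ th, QT X.T X.f i i d y d' := by
  obtain ⟨t0, h0⟩ := X.two_eaten
  obtain ⟨t1, l1, q1⟩ := X.qt_stab t0
  obtain ⟨t2, l2, q2⟩ := X.qt_stab t1
  obtain ⟨t3, l3, q3⟩ := X.qt_stab t2
  refine ⟨t2, t3, fun a y b h hal => ?_⟩
  have h' := X.ll_symm h
  have once : ∀ (a y b : W), LL X.T X.f a y b → ∀ (s s' u u' : ℕ) (d e : W × W), t0 ≤ s →
      s ≤ s' → s' ≤ u → u ≤ u' → Sep X.T d a y → Sep X.T e a y →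
      ¬ Eat X.T X.f a y b s d.1 → ¬ Eat X.T X.f a y b u e.1 →
      Eat X.T X.f a y b s' d.1 → Eat X.T X.f a y b u' e.1 → False := by
    intro a y b h s s' u u' d e i1 i2 i3 i4 hd he n1 n2 e1 e2
    have := h0 a y b d.1 e.1 s u' h (sep_left X.acyc hd) (sep_left X.acyc he) i1 (by omega) n1
      (fun H => n2 (X.eat_mono h (by omega) H)) (X.eat_mono h (by omega) e1) e2
    rw [this] at e1
    exact n2 (X.eat_mono h i3 e1)
  have good : ∀ (s s' : ℕ) (d d' : W × W), s ≤ s' → s' ≤ t3 → s ≤ t2 →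
      (∀ d y d', QT X.T X.f s s' d y d' → QQ X.T X.f d y d') → Sep X.T d a y → Sep X.T d' b y →
      Eat X.T X.f a y b s d.2 → Eat X.T X.f b y a s d'.2 →
      ¬ Eat X.T X.f a y b s' d.1 → ¬ Eat X.T X.f b y a s' d'.1 →
      ∃ d d', QQ X.T X.f d y d' ∧ Btw X.T a d.1 y ∧ Btw X.T b d'.1 y ∧
        ∃ i ≤ t2, QT X.T X.f i i d y d' := by
    intro s s' d d' i1 i2 i3 hq hd hd' e1 e2 n1 n2
    have hv : ∀ t ≤ s', LL X.T X.f d.1 y d'.1 ∧ vt X.T X.f d.1 y d'.1 t = vt X.T X.f a y b t ∧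
        (Al X.T X.f d.1 y d'.1 t ↔ Al X.T X.f a y b t) := fun t ht =>
      X.vt_sub h (sep_left X.acyc hd) (sep_left X.acyc hd') (fun H => n1 (X.eat_mono h ht H))
        (fun H => n2 (X.eat_mono h' ht (X.eat_symm h H)))
    have e3 := X.eat_symm h' e2
    have hQ : ∀ u ≤ s', QT X.T X.f s u d y d' := by
      intro u hu
      refine ⟨hd.1, hd'.1, hd.2.2, hd'.2.2, (hv s i1).1,
        fun t ht => (hv t (by omega)).2.2.2 (hal t (by omega)), ?_, ?_⟩
      · unfold Eat at e1 ⊢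
        rwa [(hv s i1).2.1]
      · unfold Eat at e3 ⊢
        rwa [(hv s i1).2.1]
    exact ⟨d, d', hq d y d' (hQ s' le_rfl), sep_left X.acyc hd, sep_left X.acyc hd', s, i3,
      hQ s i1⟩
  obtain ⟨d0, s0, e0, n0⟩ := X.exists_front h (hal t0 (by omega))
  obtain ⟨d1, s1, e1, n1⟩ := X.exists_front h (hal t1 (by omega))
  obtain ⟨d2, s2, e2, n2⟩ := X.exists_front h (hal t2 (by omega))
  obtain ⟨c0, s0', e0', n0'⟩ := X.exists_front h' (X.al_symm h (hal t0 (by omega)))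
  obtain ⟨c1, s1', e1', n1'⟩ := X.exists_front h' (X.al_symm h (hal t1 (by omega)))
  obtain ⟨c2, s2', e2', n2'⟩ := X.exists_front h' (X.al_symm h (hal t2 (by omega)))
  have o01 := once a y b h t0 t1 t1 t2 d0 d1 le_rfl l1 le_rfl l2 s0 s1 n0 n1
  have o02 := once a y b h t0 t1 t2 t3 d0 d2 le_rfl l1 l2 l3 s0 s2 n0 n2
  have o12 := once a y b h t1 t2 t2 t3 d1 d2 l1 l2 le_rfl l3 s1 s2 n1 n2
  have p01 := once b y a h' t0 t1 t1 t2 c0 c1 le_rfl l1 le_rfl l2 s0' s1' n0' n1'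
  have p02 := once b y a h' t0 t1 t2 t3 c0 c2 le_rfl l1 l2 l3 s0' s2' n0' n2'
  have p12 := once b y a h' t1 t2 t2 t3 c1 c2 l1 l2 le_rfl l3 s1' s2' n1' n2'
  have g0 := good t0 t1 d0 c0 l1 (by omega) (by omega) q1 s0 s0' e0 e0'
  have g1 := good t1 t2 d1 c1 l2 l3 l2 q2 s1 s1' e1 e1'
  have g2 := good t2 t3 d2 c2 l3 le_rfl le_rfl q3 s2 s2' e2 e2'
  by_cases a0 : Eat X.T X.f a y b t1 d0.1
  · by_cases b1 : Eat X.T X.f b y a t2 c1.1
    · exact g2 (o02 a0) (p12 b1)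
    · exact g1 (o01 a0) b1
  · by_cases b0 : Eat X.T X.f b y a t1 c0.1
    · by_cases a1 : Eat X.T X.f a y b t2 d1.1
      · exact g2 (o12 a1) (p02 b0)
      · exact g1 a1 (p01 b0)
    · exact g0 a0 b0

theorem ai_of_al : ∃ τc : ℕ, ∀ a y b, LL X.T X.f a y b → (∀ t ≤ τc, Al X.T X.f a y b t) →
    AI X.T X.f a y b := by
  obtain ⟨th, τc, h⟩ := X.cut
  refine ⟨τc, fun a y b hl hal => ?_⟩
  obtain ⟨d, d', hq, h1, h2, -⟩ := h a y b hl hal
  exact (X.ai_ext hl h1 h2 hq.2.2.2.2.1).1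

theorem cb_qt : ∃ th : ℕ, ∀ d y d', QQ X.T X.f d y d' → ∃ i ≤ th, QT X.T X.f i i d y d' := by
  obtain ⟨th, τc, h⟩ := X.cut
  refine ⟨th, fun d y d' hq => ?_⟩
  have hl := hq.2.2.2.2.1.1
  obtain ⟨e, e', hq', h1, h2, h3⟩ := h d.1 y d'.1 hl fun t _ => hq.2.2.2.2.1.2 t
  obtain ⟨rfl, rfl⟩ := X.qq_unique hl hq hq' (btw_left hl.1.1) (btw_left hl.2.1.1.symm) h1 h2
  exact h3

theorem fo_qq : FinOrb (⊤ : Subgroup G)
    {ρ : (W × W) × W × (W × W) | QQ X.T X.f ρ.1 ρ.2.1 ρ.2.2} := by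
  obtain ⟨th, h⟩ := X.cb_qt
  refine fo_mono (fo_biUnion (Set.finite_Iic th) (fun i _ => X.fo_qt i)) fun ρ hρ => ?_
  obtain ⟨i, hi, hq⟩ := h _ _ _ hρ
  exact Set.mem_biUnion (show i ∈ Set.Iic th from hi) hq

/-- Uniform eating time and uniform length. -/
theorem qq_unif : ∃ th : ℕ, ∀ d y d', QQ X.T X.f d y d' →
    Eat X.T X.f d.1 y d'.1 th d.2 ∧ Eat X.T X.f d.1 y d'.1 th d'.2 ∧
      X.T.dist d.1 y ≤ th ∧ X.T.dist d'.1 y ≤ th := by
  obtain ⟨th, h⟩ := X.cb_qt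
  refine ⟨th + (X.c + 1), fun d y d' hq => ?_⟩
  obtain ⟨i, hi, ht⟩ := h d y d' hq
  have l1 := X.ca_len ht
  have l2 := X.ca_len (X.qt_symm ht)
  obtain ⟨-, -, -, -, h5, -, h7, h8⟩ := ht
  exact ⟨X.eat_mono h5 (by omega) h7, X.eat_mono h5 (by omega) h8, by omega, by omega⟩

end Cx

end EG
end CPOR
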