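import Pool.Agent.P.MP_2cb329_al.F.Defs

/-! Section F9 (expanding train tracks): definitions of the tree side. -/

set_option autoImplicit false

namespace CPOR
namespace EG
open ZT MulAction

section Tree

variable {V : Type} (T : SimpleGraph V)

open Classical in
/-- The median of three vertices of one component (junk value `x`). -/
noncomputable def med (x y z : V) : V :=
  if h : ∃ m, Btw T x m y ∧ Btw T y m z ∧ Btw T x m z then h.choose else x

/-- The dart `e'` comes strictly after the dart `e` on a geodesic. -/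
def Fwd (e e' : V × V) : Prop :=
  T.Adj e.1 e.2 ∧ T.Adj e'.1 e'.2 ∧ Btw T e.1 e.2 e'.1 ∧ Btw T e.1 e'.1 e'.2

variable (f : V → V)

/-- The first dart of the image of a dart. -/
noncomputable def Df (e : V × V) : V × V := (f e.1, nxt T (f e.1) (f e.2))

/-- The turn at `y` between the neighbours `x` and `z` is legal. -/
def Lg (x y z : V) : Prop := ∀ i : ℕ, (Df T f)^[i] (y, x) ≠ (Df T f)^[i] (y, z)

/-- Legal geodesics. -/
def LS (x y : V) : Prop :=
  T.Reachable x y ∧ ∀ p q r, Sep T (p, q) x y → Sep T (q, r) x y → Lg T f p q r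

/-- The vertices of the geodesic from `x` to `y` where the turn is illegal. -/
def Ill (x y : V) : Set V :=
  {q | ∃ p r, Sep T (p, q) x y ∧ Sep T (q, r) x y ∧ ¬ Lg T f p q r}

/-- A geodesic from `a` to `b` through `y` with two legal legs. -/
def LL (a y b : V) : Prop := LS T f a y ∧ LS T f y b ∧ Btw T a y b

/-- The turning point at time `t`. -/
noncomputable def vt (a y b : V) (t : ℕ) : V := med T (f^[t] a) (f^[t] y) (f^[t] b)

/-- The turn is alive (and illegal) at time `t`. -/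
def Al (a y b : V) (t : ℕ) : Prop := vt T f a y b t ∈ Ill T f (f^[t] a) (f^[t] b)

/-- The vertex `w` is eaten at time `t`. -/
def Eat (a y b : V) (t : ℕ) (w : V) : Prop := Btw T (vt T f a y b t) (f^[t] w) (f^[t] y)

/-- The turn is alive for ever. -/
def AI (a y b : V) : Prop := LL T f a y b ∧ ∀ t, Al T f a y b t

/-- Pairs of darts pointing to the turn `y`, alive up to time `τ`, whose ends are eaten at
time `th`. -/
def QT (th τ : ℕ) (d : V × V) (y : V) (d' : V × V) : Prop :=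
  T.Adj d.1 d.2 ∧ T.Adj d'.1 d'.2 ∧ Btw T d.1 d.2 y ∧ Btw T d'.1 d'.2 y ∧ LL T f d.1 y d'.1 ∧
    (∀ t ≤ τ, Al T f d.1 y d'.1 t) ∧ Eat T f d.1 y d'.1 th d.2 ∧ Eat T f d.1 y d'.1 th d'.2

/-- Pairs of darts pointing to the turn `y`, alive for ever, whose ends are eventually eaten. -/
def QQ (d : V × V) (y : V) (d' : V × V) : Prop :=
  T.Adj d.1 d.2 ∧ T.Adj d'.1 d'.2 ∧ Btw T d.1 d.2 y ∧ Btw T d'.1 d'.2 y ∧ AI T f d.1 y d'.1 ∧
    (∃ t, Eat T f d.1 y d'.1 t d.2) ∧ ∃ t, Eat T f d.1 y d'.1 t d'.2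

/-- The half line of a ray at time `t`. -/
def HL (d : ℤ → V × V) (t : ℤ) (z : V) : Prop :=
  ∃ s : ℕ, Btw T (d t).1 z (f^[s] (d (t - s)).2)

open Classical in
/-- The point of the half line at distance `n` from its origin. -/
noncomputable def hl (d : ℤ → V × V) (t : ℤ) (n : ℕ) : V :=
  if h : ∃ z, HL T f d t z ∧ T.dist (d t).1 z = n then h.choose else (d t).1

/-- The half lines are asymptotic at all times. -/
def Sim (d d' : ℤ → V × V) : Prop :=
  ∀ t : ℤ, ∃ i j : ℕ, ∀ n : ℕ, hl T f d t (i + n) = hl T f d' t (j + n)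

/-- Always the first child. -/
def FC (d : ℤ → V × V) : Prop := ∀ t : ℤ, (d (t + 1)).1 = f (d t).1

open Classical in
/-- The base of a ray. -/
noncomputable def base (d : ℤ → V × V) : ℤ → Set V :=
  if FC f d then fun t => {(d t).1} else fun t => {(d t).1, (d t).2}

variable (G : Type) [Group G] [MulAction G V]

/-- Rays: periodic itineraries of darts that are not always the last child. -/
structure IsRay (N : ℕ) (d : ℤ → V × V) : Prop where
  adj : ∀ t : ℤ, T.Adj (d t).1 (d t).2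
  child : ∀ t : ℤ, Sep T (d (t + 1)) (f (d t).1) (f (d t).2)
  per : ∃ h : G, ∀ t : ℤ, d (t + N) = h • d t
  nl : ∃ t : ℤ, (d (t + 1)).2 ≠ f (d t).2

/-- Orbits of vertices with non-trivial stabiliser. -/
def IsNT (w : ℤ → V) : Prop := ∀ t : ℤ, f (w t) = w (t + 1) ∧ stabilizer G (w t) ≠ ⊥

end Tree

/-- An expanding train track map with all its constants. -/
structure Cx (G W : Type) [Group G] [MulAction G W] where
  T : SimpleGraph W
  f : W → W
  l : W × W → ℝ
  μ : ℝ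
  lm : ℕ
  C : ℕ
  c : ℕ
  gf : GF T G
  finW : FinOrb (⊤ : Subgroup G) (Set.univ : Set W)
  finE : FinOrb (⊤ : Subgroup G) (Darts T)
  smul : ∀ (g : G) (x : W), f (g • x) = g • f x
  nondeg : ∀ x y, T.Adj x y → f x ≠ f y
  tt : ∀ x y, T.Adj x y → LS T f (f x) (f y)
  wt : IsWt T G l
  one_lt : 1 < μ
  exp : ∀ x y, T.Adj x y → μ * l (x, y) ≤ len T l (f x) (f y)
  l_le : ∀ x y, T.Adj x y → l (x, y) ≤ lm
  vinj : ∀ x x', stabilizer G x ≠ ⊥ → stabilizer G x' ≠ ⊥ → f x = f x' → x = x'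
  vsurj : ∀ y, stabilizer G y ≠ ⊥ → ∃ x, f x = y ∧ stabilizer G x = stabilizer G y
  bcc : ∀ x z y, Btw T x z y →
    ∃ w, Btw T (f x) w (f y) ∧ T.Reachable (f z) w ∧ T.dist (f z) w ≤ C
  c_pos : 1 ≤ c
  c_big : (C : ℝ) * lm + c ≤ μ * c

namespace Cx

variable {G W : Type} [Group G] [MulAction G W] (X : Cx G W)

/-- Darts of the geodesic from `x` to `y` that lie deep inside a legal subsegment. -/
def Deep (x y : W) : Set (W × W) :=
  {e | Sep X.T e x y ∧ ∃ a b, Btw X.T x a e.1 ∧ Btw X.T e.2 b y ∧ LS X.T X.f a b ∧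
    (X.c : ℝ) ≤ len X.T X.l a e.1 ∧ (X.c : ℝ) ≤ len X.T X.l e.2 b}

/-- The potential. -/
noncomputable def Pot (x y : W) : ℝ := ∑ᶠ e ∈ X.Deep x y, X.l e

/-- Few deep darts and few vanishing illegal turns up to time `τs`. -/
def HYP (τs K : ℕ) (x x' : W) : Prop :=
  X.T.Reachable x x' ∧ (∀ t ≤ τs, (X.Deep (X.f^[t] x) (X.f^[t] x')).ncard ≤ K) ∧
    (Ill X.T X.f x x').ncard ≤ (Ill X.T X.f (X.f^[τs] x) (X.f^[τs] x')).ncard + K

/-- The rays `d`, `d'` carry the turn of `(a, y, b)` from time `τ` on. -/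
def RayAt (τ : ℕ) (a y b : W) (d d' : ℤ → W × W) : Prop :=
  ∀ s : ℕ, QQ X.T X.f (d s) (vt X.T X.f a y b (τ + s)) (d' s) ∧
    Btw X.T (X.f^[τ + s] a) (d s).1 (vt X.T X.f a y b (τ + s)) ∧
    Btw X.T (X.f^[τ + s] b) (d' s).1 (vt X.T X.f a y b (τ + s))

end Cx

/-- The forest `H` of bases and classes, without the run decomposition. -/
structure YD {G W : Type} [Group G] [MulAction G W] (X : Cx G W) where
  Y : Type
  [act : MulAction G Y]
  H : SimpleGraph Y
  gf : GF H G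
  finV : FinOrb (⊤ : Subgroup G) (Set.univ : Set Y)
  finE : FinOrb (⊤ : Subgroup G) (Darts H)
  σ : Y ≃ Y
  σ_smul : ∀ (g : G) (y : Y), σ (g • y) = g • σ y
  σ_adj : ∀ y y', H.Adj (σ y) (σ y') ↔ H.Adj y y'
  pt : Y → W
  pt_smul : ∀ (g : G) (y : Y), X.T.Reachable (pt (g • y)) (g • pt y)
  pt_adj : ∀ y y', H.Adj y y' → X.T.Reachable (pt y) (pt y')
  pt_σ : ∀ y, X.T.Reachable (pt (σ y)) (X.f (pt y))
  stab : ∀ y : Y, stabilizer G y = ⊥ ∨ ∃ w : W, stabilizer G y = stabilizer G w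
  mal : ∀ (g : G) (y y' : Y), g ≠ 1 → H.Reachable y (g • y) → H.Reachable y' (g • y') →
    X.T.Reachable (pt y) (pt y') → H.Reachable y y'
  Car : W × W → Y → Prop
  car_smul : ∀ (g : G) e y, Car e y → Car (g • e) (g • y)
  car_fin : FinOrb (⊤ : Subgroup G) {p : (W × W) × Y | Car p.1 p.2}
  car_adj : ∀ e y, Car e y → X.T.Adj e.1 e.2 ∧ X.T.Reachable e.1 (pt y)
  vert : ∀ w : W, stabilizer G w ≠ ⊥ → ∃ y : Y, stabilizer G w ≤ stabilizer G y ∧
    X.T.Reachable w (pt y) ∧ ∀ w', X.T.Adj w w' → Car (w, w') y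

attribute [instance] YD.act

namespace YD

variable {G W : Type} [Group G] [MulAction G W] {X : Cx G W} (D : YD X)

/-- One step of a chain of darts. -/
def Step (e e' : W × W) : Prop :=
  e.1 = e'.1 ∨ e' = e.swap ∨ ∃ y y', D.Car e y ∧ D.Car e' y' ∧ D.H.Reachable y y'

/-- A chain of at most `M` steps. -/
def Ch (M : ℕ) (e e' : W × W) : Prop :=
  ∃ n ≤ M, ∃ a : ℕ → W × W, a 0 = e ∧ a n = e' ∧ (∀ i ≤ n, X.T.Adj (a i).1 (a i).2) ∧
    ∀ i < n, D.Step (a i) (a (i + 1))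

/-- All rays of period `N` are carried, compatibly with bases and classes. -/
def Rays (N : ℕ) : Prop :=
  ∃ ι : (d : ℤ → W × W) → IsRay X.T X.f G N d → D.Y, (∀ d h, D.Car (d 0) (ι d h)) ∧
    ∀ d h d' h', (Sim X.T X.f d d' ∨ base X.f d = base X.f d') → D.H.Reachable (ι d h) (ι d' h')

/-- The run decomposition. -/
def RD (τ τs : ℕ) : Prop :=
  ∃ Γ, Bd Γ ∧ ∀ (K : ℕ) (x x' : W), X.HYP τs K x x' → ∀ e e' : W × W,
    X.T.Adj e.1 e.2 → X.T.Adj e'.1 e'.2 → e.1 = X.f^[τ] x → e'.1 = X.f^[τ] x' → D.Ch (Γ K) e e'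

end YD

end EG
end CPOR
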