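import Pool.Agent.P.MP_2cb329_al.EG.P

/-! Section F9: hyperbolic elements that are short at two times. -/

set_option autoImplicit false

namespace CPOR
namespace EG
open ZT MulAction

variable {G W : Type} [Group G] [MulAction G W] (X : Cx G W)

namespace Cx

private theorem h_cnt (P : ℤ → Prop) [DecidablePred P] (l : ℕ) (hP : ∀ k, P (k + l) ↔ P k)
    (M : ℕ) : ((Finset.Ioc (0 : ℤ) (M * l)).filter P).card =
      M * ((Finset.Ioc (0 : ℤ) l).filter P).card := by
  have hP' : ∀ (n : ℕ) k, P (k + n * l) ↔ P k := by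
    intro n
    induction n with
    | zero => simp
    | succ n ih =>
      intro k
      have : k + ((n + 1 : ℕ) : ℤ) * l = (k + n * l) + l := by push_cast; ring
      rw [this, hP, ih]
  induction M with
  | zero => simp
  | succ M ih =>
    have h0 : (0 : ℤ) ≤ M * l := by positivity
    have h1 : (0 : ℤ) ≤ l := by positivity
    have hu : Finset.Ioc (0 : ℤ) (((M + 1 : ℕ) : ℤ) * l) =
        Finset.Ioc (0 : ℤ) (M * l) ∪ Finset.Ioc ((M : ℤ) * l) (M * l + l) := by
      ext k
      simp only [Finset.mem_Ioc, Finset.mem_union]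
      have : ((M + 1 : ℕ) : ℤ) * l = M * l + l := by push_cast; ring
      rw [this]
      omega
    have hd : Disjoint ((Finset.Ioc (0 : ℤ) (M * l)).filter P)
        ((Finset.Ioc ((M : ℤ) * l) (M * l + l)).filter P) := by
      rw [Finset.disjoint_left]
      intro k hk hk'
      simp only [Finset.mem_filter, Finset.mem_Ioc] at hk hk'
      omega
    have hc : ((Finset.Ioc ((M : ℤ) * l) (M * l + l)).filter P).card =
        ((Finset.Ioc (0 : ℤ) l).filter P).card := by
      symm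
      refine Finset.card_bij (fun k _ => k + M * l) ?_ ?_ ?_
      · intro k hk
        simp only [Finset.mem_filter, Finset.mem_Ioc] at hk ⊢
        exact ⟨⟨by omega, by omega⟩, (hP' M k).2 hk.2⟩
      · intro k _ k' _ h
        simpa using h
      · intro k hk
        simp only [Finset.mem_filter, Finset.mem_Ioc] at hk
        refine ⟨k - M * l, ?_, by ring⟩
        simp only [Finset.mem_filter, Finset.mem_Ioc]
        refine ⟨⟨by omega, by omega⟩, (hP' M _).1 ?_⟩
        simpa using hk.2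
    rw [hu, Finset.filter_union, Finset.card_union_of_disjoint hd, ih, hc]
    ring

private theorem h_sep_line {a : ℤ → W} (ha : Line X.T a) {i j : ℤ} (hij : i ≤ j) {e : W × W} :
    Sep X.T e (a i) (a j) ↔ ∃ k, i ≤ k ∧ k < j ∧ e = (a k, a (k + 1)) := by
  constructor
  · intro h
    obtain ⟨k, h1, h2, hk⟩ := ha.of_btw X.acyc hij (sep_left X.acyc h)
    obtain ⟨k', h1', h2', hk'⟩ := ha.of_btw X.acyc hij (sep_right X.acyc h)
    have hd := (sep_dist h).1
    rw [hk, hk', (ha.dist X.acyc i k').2, (ha.dist X.acyc i k).2] at hd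
    have : k' = k + 1 := by omega
    subst this
    exact ⟨k, h1, by omega, Prod.ext hk hk'⟩
  · rintro ⟨k, h1, h2, rfl⟩
    exact ⟨ha.1 k, ha.btw X.acyc h1 (by omega), ha.btw X.acyc (by omega) (by omega)⟩

private theorem h_ill_line {a : ℤ → W} (ha : Line X.T a) {i j : ℤ} (hij : i ≤ j) {v : W} :
    v ∈ Ill X.T X.f (a i) (a j) ↔
      ∃ k, i < k ∧ k < j ∧ ¬ Lg X.T X.f (a (k - 1)) (a k) (a (k + 1)) ∧ a k = v := by
  constructor
  · rintro ⟨p, r, h1, h2, h3⟩
    obtain ⟨k, a1, a2, a3⟩ := (h_sep_line X ha hij).1 h1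
    obtain ⟨k', b1, b2, b3⟩ := (h_sep_line X ha hij).1 h2
    simp only [Prod.mk.injEq] at a3 b3
    have : k + 1 = k' := ha.inj X.acyc (a3.2.symm.trans b3.1)
    subst this
    refine ⟨k + 1, by omega, b2, ?_, a3.2.symm⟩
    rw [add_sub_cancel_right, ← a3.1, ← a3.2, ← b3.2]
    exact h3
  · rintro ⟨k, h1, h2, h3, rfl⟩
    refine ⟨a (k - 1), a (k + 1), (h_sep_line X ha hij).2 ⟨k - 1, by omega, by omega, ?_⟩,
      (h_sep_line X ha hij).2 ⟨k, by omega, h2, rfl⟩, h3⟩
    rw [sub_add_cancel]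

private theorem h_pow_axis {g : G} {a : ℤ → W} {l : ℕ} (ha : IsAxis X.T g a l) (M : ℕ) (i : ℤ) :
    g ^ M • a i = a (i + M * l) := by
  have := ha.zpow_smul (M : ℤ) i
  rwa [zpow_natCast] at this

private theorem h_pow_reach {g : G} {z : W} (hg : X.T.Reachable z (g • z)) (M : ℕ) :
    X.T.Reachable z (g ^ M • z) ∧ X.T.dist z (g ^ M • z) ≤ M * X.T.dist z (g • z) := by
  induction M with
  | zero => simp
  | succ M ih =>
    have h1 : X.T.Reachable (g ^ M • z) (g ^ (M + 1) • z) := by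
      rw [pow_succ, mul_smul]; exact X.gf.acts.reach _ hg
    have h2 : X.T.dist (g ^ M • z) (g ^ (M + 1) • z) = X.T.dist z (g • z) := by
      rw [pow_succ, mul_smul]; exact X.gf.acts.dist _ _ _
    have := dist_tri ih.1 h1
    refine ⟨ih.1.trans h1, ?_⟩
    have h3 := ih.2
    rw [Nat.succ_mul]
    omega

/-- The number of illegal turns per period.  `m` = number of `i ∈ (0, l]` with an illegal turn
at `a i`; count on `[a 0, a (M l)]`, then `ill_cmp`. -/
theorem per_ill {g : G} {a : ℤ → W} {l : ℕ} (ha : IsAxis X.T g a l) {z : W}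
    (hz : X.T.Reachable z (a 0)) : ∃ m R : ℕ, m ≤ l ∧ ∀ M : ℕ,
      M * m ≤ (Ill X.T X.f z (g ^ M • z)).ncard + R ∧
      (Ill X.T X.f z (g ^ M • z)).ncard ≤ M * m + R := by
  classical
  set P : ℤ → Prop := fun k => ¬ Lg X.T X.f (a (k - 1)) (a k) (a (k + 1)) with hPdef
  have hP : ∀ k, P (k + l) ↔ P k := by
    intro k
    simp only [hPdef]
    have e1 : a (k + l - 1) = g • a (k - 1) := by rw [ha.2.2]; congr 1; ring
    have e2 : a (k + l) = g • a k := by rw [ha.2.2]
    have e3 : a (k + l + 1) = g • a (k + 1) := by rw [ha.2.2]; congr 1; ring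
    rw [e1, e2, e3, X.lg_smul]
  refine ⟨((Finset.Ioc (0 : ℤ) l).filter P).card, 2 * (X.T.dist z (a 0) + 1) + 1, ?_, fun M => ?_⟩
  · have := Finset.card_filter_le (Finset.Ioc (0 : ℤ) l) P
    simpa using this
  have h0 : (0 : ℤ) ≤ M * l := by positivity
  have hset : Ill X.T X.f (a 0) (a (M * l)) =
      a '' ↑((Finset.Ioo (0 : ℤ) (M * l)).filter P) := by
    ext v
    rw [h_ill_line X ha.1 h0]
    simp only [Set.mem_image, Finset.coe_filter, Finset.mem_Ioo, Set.mem_setOf_eq, hPdef]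
    constructor
    · rintro ⟨k, h1, h2, h3, h4⟩
      exact ⟨k, ⟨⟨h1, h2⟩, h3⟩, h4⟩
    · rintro ⟨k, ⟨⟨h1, h2⟩, h3⟩, h4⟩
      exact ⟨k, h1, h2, h3, h4⟩
  have hcard : (Ill X.T X.f (a 0) (a (M * l))).ncard =
      ((Finset.Ioo (0 : ℤ) (M * l)).filter P).card := by
    rw [hset, Set.ncard_image_of_injective _ (ha.1.inj X.acyc), Set.ncard_coe_finset]
  have hc := h_cnt P l hP M
  have hle : ((Finset.Ioo (0 : ℤ) (M * l)).filter P).card ≤
      ((Finset.Ioc (0 : ℤ) (M * l)).filter P).card :=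
    Finset.card_le_card (Finset.filter_subset_filter _ Finset.Ioo_subset_Ioc_self)
  have hge : ((Finset.Ioc (0 : ℤ) (M * l)).filter P).card ≤
      ((Finset.Ioo (0 : ℤ) (M * l)).filter P).card + 1 := by
    refine le_trans (Finset.card_le_card (t := insert ((M : ℤ) * l)
      ((Finset.Ioo (0 : ℤ) (M * l)).filter P)) ?_) (Finset.card_insert_le _ _)
    intro k hk
    simp only [Finset.mem_filter, Finset.mem_Ioc, Finset.mem_insert, Finset.mem_Ioo] at hk ⊢
    by_cases hk' : k = M * l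
    · exact Or.inl hk'
    · exact Or.inr ⟨⟨hk.1.1, by omega⟩, hk.2⟩
  have e : g ^ M • a 0 = a (M * l) := by rw [h_pow_axis X ha, zero_add]
  have hr : X.T.Reachable (g ^ M • z) (a (M * l)) := by
    rw [← e]; exact X.gf.acts.reach _ hz
  have hd : X.T.dist (g ^ M • z) (a (M * l)) = X.T.dist z (a 0) := by
    rw [← e]; exact X.gf.acts.dist _ _ _
  have c1 := X.ill_cmp (R := X.T.dist z (a 0)) hz hr le_rfl hd.le
  have c2 := X.ill_cmp (R := X.T.dist z (a 0)) hz.symm hr.symm
    (by rw [SimpleGraph.dist_comm]) (by rw [SimpleGraph.dist_comm]; exact hd.le)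
  constructor <;> omega

/-- Deep darts along an axis: none, or at least one per period. -/
theorem per_deep {g : G} {a : ℤ → W} {l : ℕ} (ha : IsAxis X.T g a l) {z : W}
    (hz : X.T.Reachable z (a 0)) : ∃ R : ℕ,
      (∀ M : ℕ, (X.Deep z (g ^ M • z)).ncard ≤ R) ∨
      ∀ M : ℕ, M ≤ (X.Deep z (g ^ M • z)).ncard + R := by
  have e : ∀ M : ℕ, g ^ M • a 0 = a (M * l) := fun M => by rw [h_pow_axis X ha, zero_add]
  have hr : ∀ M : ℕ, X.T.Reachable (g ^ M • z) (a (M * l)) := fun M => by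
    rw [← e]; exact X.gf.acts.reach _ hz
  have hd : ∀ M : ℕ, X.T.dist (g ^ M • z) (a (M * l)) = X.T.dist z (a 0) := fun M => by
    rw [← e]; exact X.gf.acts.dist _ _ _
  by_cases hex : ∃ (M₀ : ℕ) (d : W × W), d ∈ X.Deep (a 0) (a (M₀ * l))
  · obtain ⟨M₀, d, hdd⟩ := hex
    refine ⟨M₀ + 2 * (X.T.dist z (a 0) + X.c + 1), Or.inr fun M => ?_⟩
    have c2 := X.deep_ncard_cmp (R := X.T.dist z (a 0)) hz.symm (hr M).symm
      (by rw [SimpleGraph.dist_comm]) (by rw [SimpleGraph.dist_comm]; exact (hd M).le)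
    by_cases hM : M ≤ M₀
    · omega
    have hl : (1 : ℤ) ≤ l := by exact_mod_cast ha.2.1
    have h0 : (0 : ℤ) ≤ M₀ * l := by positivity
    obtain ⟨k, -, -, hk⟩ := (h_sep_line X ha.1 h0).1 hdd.1
    have hsub : (fun j : ℕ => g ^ j • d) '' ↑(Finset.range (M - M₀)) ⊆
        X.Deep (a 0) (a (M * l)) := by
      rintro _ ⟨j, hj, rfl⟩
      simp only [Finset.coe_range, Set.mem_Iio] at hj
      have h1 := (X.deep_smul (g ^ j)).2 hdd
      rw [h_pow_axis X ha, h_pow_axis X ha] at h1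
      have hj0 : (0 : ℤ) ≤ j * l := by positivity
      have hjM : (M₀ : ℤ) * l + j * l ≤ M * l := by
        have : (M₀ : ℤ) + j ≤ M := by omega
        nlinarith
      exact X.deep_ext h1 (ha.1.btw X.acyc (by omega) (by omega))
        (ha.1.btw X.acyc (by omega) hjM)
    have hinj : Function.Injective (fun j : ℕ => g ^ j • d) := by
      intro j j' hjj
      have h1 : g ^ j • d.1 = g ^ j' • d.1 := congrArg Prod.fst hjj
      rw [hk] at h1
      simp only at h1
      rw [h_pow_axis X ha, h_pow_axis X ha] at h1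
      have h2 := ha.1.inj X.acyc h1
      have h3 : (j : ℤ) * l = j' * l := by omega
      have h4 : (j : ℤ) = j' := mul_right_cancel₀ (by omega) h3
      exact_mod_cast h4
    have := Set.ncard_le_ncard hsub (X.deep_finite _ _)
    rw [Set.ncard_image_of_injective _ hinj, Set.ncard_coe_finset, Finset.card_range] at this
    omega
  · refine ⟨2 * (X.T.dist z (a 0) + X.c + 1), Or.inl fun M => ?_⟩
    have c1 := X.deep_ncard_cmp (R := X.T.dist z (a 0)) hz (hr M) le_rfl (hd M).le
    have : X.Deep (a 0) (a (M * l)) = ∅ :=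
      Set.eq_empty_of_forall_notMem fun d hdd => hex ⟨M, d, hdd⟩
    rw [this, Set.ncard_empty] at c1
    omega

/-- If there is a deep dart per period at time `0`, then `μ ^ s ≤ lm * L` where `L` is a
displacement at time `s` (`pot_iter`, let `M` tend to infinity). -/
theorem deep_time {g : G} {z z' : W} {R s L : ℕ}
    (h : ∀ M : ℕ, M ≤ (X.Deep z (g ^ M • z)).ncard + R) (hr : X.T.Reachable (X.f^[s] z) z')
    (hg : X.T.Reachable z' (g • z')) (hL : X.T.dist z' (g • z') ≤ L) :
    X.μ ^ s ≤ X.lm * L := by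
  set D := X.T.dist (X.f^[s] z) z' with hD
  have hμ : 0 < X.μ ^ s := pow_pos (lt_trans one_pos X.one_lt) s
  have key : ∀ M : ℕ, X.μ ^ s * ((M : ℝ) - R) ≤ X.lm * (2 * D + M * L) := by
    intro M
    obtain ⟨r1, d1⟩ := h_pow_reach X hg M
    have r2 : X.T.Reachable (g ^ M • z') (g ^ M • X.f^[s] z) := X.gf.acts.reach _ hr.symm
    have d2 : X.T.dist (g ^ M • z') (g ^ M • X.f^[s] z) = D := by
      rw [X.gf.acts.dist, SimpleGraph.dist_comm]
    have t1 := dist_tri hr (r1.trans r2)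
    have t2 := dist_tri r1 r2
    have d3 : M * X.T.dist z' (g • z') ≤ M * L := Nat.mul_le_mul_left _ hL
    have d4 : X.T.dist (X.f^[s] z) (g ^ M • X.f^[s] z) ≤ 2 * D + M * L := by omega
    have c1 := X.deep_ncard_le (hr.trans (r1.trans r2))
    have c2 := X.pot_le_ncard (X.f^[s] z) (g ^ M • X.f^[s] z)
    have c3 := X.pot_iter s z (g ^ M • z)
    rw [X.iter_smul] at c3
    have c4 := X.ncard_le_pot z (g ^ M • z)
    have c5 : (M : ℝ) ≤ (X.Deep z (g ^ M • z)).ncard + R := by exact_mod_cast h M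
    have c6 : ((X.Deep (X.f^[s] z) (g ^ M • X.f^[s] z)).ncard : ℝ) ≤ 2 * D + M * L := by
      exact_mod_cast c1.trans d4
    have c7 : (0 : ℝ) ≤ X.lm := Nat.cast_nonneg _
    calc X.μ ^ s * ((M : ℝ) - R) ≤ X.μ ^ s * X.Pot z (g ^ M • z) :=
          mul_le_mul_of_nonneg_left (by linarith) hμ.le
      _ ≤ _ := c3
      _ ≤ _ := c2
      _ ≤ _ := mul_le_mul_of_nonneg_left c6 c7
  by_contra hlt
  push Not at hlt
  obtain ⟨M, hM⟩ := exists_nat_gt ((X.μ ^ s * R + X.lm * (2 * D)) / (X.μ ^ s - X.lm * L))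
  rw [div_lt_iff₀ (by linarith)] at hM
  have := key M
  nlinarith

/-- Tree side of LL.  If `g` fixes no vertex at any time it has an axis at every time `t`
(`ell_or_hyp`); `m t` (from `per_ill` for `f^[t] z`) is antitone (`ill_iter_le`) and
`m 0 ≤ L` (`IsAxis.disp`); for `t + Γ₁ L < n` there is no deep dart (`deep_time`,
`μ ^ s ≥ 1 + s (μ - 1)`); pigeonhole gives `j ≤ L` with `m (j τs) = m ((j+1) τs)`. -/
theorem llt (τs : ℕ) : ∃ Γ, Bd Γ ∧ ∀ (L n : ℕ) (g : G) (z z' : W),
    X.T.Reachable z (g • z) → X.T.dist z (g • z) ≤ L → X.T.Reachable (X.f^[n] z) z' →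
    X.T.dist z' (g • z') ≤ L →
    n ≤ Γ L ∨ (∃ (t : ℕ) (w : W), X.T.Reachable (X.f^[t] z) w ∧ g • w = w) ∨
      ∃ t K : ℕ, ∀ M : ℕ, X.HYP τs K (X.f^[t] z) (g ^ M • X.f^[t] z) := by
  obtain ⟨κ, hκ⟩ := exists_nat_ge (1 / (X.μ - 1))
  have hμ : 0 < X.μ - 1 := by linarith [X.one_lt]
  rw [div_le_iff₀ hμ] at hκ
  refine ⟨fun L => κ * X.lm * L + (L + 1) * τs,
    ((Bd.const _).mul Bd.id).add ((Bd.id.add (Bd.const 1)).mul (Bd.const _)), ?_⟩
  intro L n g z z' hz hL hr hL'
  by_cases hn : n ≤ κ * X.lm * L + (L + 1) * τs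
  · exact Or.inl hn
  by_cases hfix : ∃ (t : ℕ) (w : W), X.T.Reachable (X.f^[t] z) w ∧ g • w = w
  · exact Or.inr (Or.inl hfix)
  refine Or.inr (Or.inr ?_)
  have hzt : ∀ t : ℕ, X.T.Reachable (X.f^[t] z) (g • X.f^[t] z) := fun t => by
    rw [← X.iter_smul]; exact X.reach_iter t hz
  have hax : ∀ t : ℕ, ∃ (a : ℤ → W) (l : ℕ), IsAxis X.T g a l ∧
      X.T.Reachable (X.f^[t] z) (a 0) := by
    intro t
    rcases ell_or_hyp X.acyc X.gf.acts X.gf.noinv g (hzt t) with ⟨p, hp, hp'⟩ | ⟨a, l, ha, hb⟩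
    · exact absurd ⟨t, p, hp.1, hp'⟩ hfix
    · exact ⟨a, l, ha, (hb 0 le_rfl (by positivity)).1⟩
  choose a l ha har using hax
  choose m R hm hR using fun t => X.per_ill (ha t) (har t)
  choose D hD using fun t => X.per_deep (ha t) (har t)
  have hm0 : m 0 ≤ L := by
    obtain ⟨i, -, h2, -⟩ := (ha 0).disp X.acyc X.gf.acts (har 0)
    have := hm 0
    simp only [Function.iterate_zero, id_eq] at h2
    omega
  have hshift : ∀ t u M : ℕ, X.f^[u] (g ^ M • X.f^[t] z) = g ^ M • X.f^[t + u] z := by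
    intro t u M
    rw [X.iter_smul, add_comm t u, Function.iterate_add_apply]
  have hshift' : ∀ t u : ℕ, X.f^[u] (X.f^[t] z) = X.f^[t + u] z := by
    intro t u
    rw [add_comm t u, Function.iterate_add_apply]
  have hanti : ∀ t u : ℕ, m (t + u) ≤ m t := by
    intro t u
    by_contra hlt
    push Not at hlt
    set M := R t + R (t + u) + 1 with hM
    have c1 := (hR (t + u) M).1
    have c2 := (hR t M).2
    have c3 := X.ill_iter_le u (h_pow_reach X (hzt t) M).1
    rw [hshift, hshift'] at c3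
    have c4 : M * (m t + 1) ≤ M * m (t + u) := Nat.mul_le_mul_left _ hlt
    rw [Nat.mul_succ] at c4
    omega
  have hpig : ∃ j ≤ L, m (j * τs + τs) = m (j * τs) := by
    by_contra hcon
    push Not at hcon
    have : ∀ j ≤ L + 1, m (j * τs) + j ≤ m 0 := by
      intro j
      induction j with
      | zero => simp
      | succ j ih =>
        intro hj
        have h1 := ih (by omega)
        have h2 := hcon j (by omega)
        have h3 := hanti (j * τs) τs
        rw [Nat.succ_mul]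
        omega
    have := this (L + 1) le_rfl
    omega
  obtain ⟨j, hj, hjm⟩ := hpig
  have hg' : X.T.Reachable z' (g • z') :=
    hr.symm.trans ((hzt n).trans (X.gf.acts.reach g hr))
  have hdeep : ∀ t, t ≤ (L + 1) * τs → ∀ M : ℕ,
      (X.Deep (X.f^[t] z) (g ^ M • X.f^[t] z)).ncard ≤ D t := by
    intro t ht
    rcases hD t with h | h
    · exact h
    exfalso
    have hr' : X.T.Reachable (X.f^[n - t] (X.f^[t] z)) z' := by
      rw [hshift']
      have : t + (n - t) = n := by omega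
      rw [this]; exact hr
    have c1 := X.deep_time h hr' hg' hL'
    have c2 := one_add_mul_le_pow (a := X.μ - 1) (by linarith) (n - t)
    rw [add_sub_cancel] at c2
    have c3 : ((κ * X.lm * L : ℕ) : ℝ) ≤ ((n - t : ℕ) : ℝ) := by
      exact_mod_cast (by omega : κ * X.lm * L ≤ n - t)
    push_cast at c3
    have c4 : (0 : ℝ) ≤ (X.lm : ℝ) * L := by positivity
    have c5 : (κ : ℝ) * X.lm * L * (X.μ - 1) ≤ ((n - t : ℕ) : ℝ) * (X.μ - 1) :=
      mul_le_mul_of_nonneg_right c3 hμ.le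
    nlinarith
  refine ⟨j * τs, ∑ u ∈ Finset.range (τs + 1), D (j * τs + u) + R (j * τs) + R (j * τs + τs),
    fun M => ⟨(h_pow_reach X (hzt _) M).1, fun u hu => ?_, ?_⟩⟩
  · rw [hshift, hshift']
    have h1 : j * τs + u ≤ (L + 1) * τs := by
      have := Nat.mul_le_mul_right τs hj
      rw [Nat.succ_mul]
      omega
    have h2 := hdeep _ h1 M
    have h3 := Finset.single_le_sum (f := fun u => D (j * τs + u)) (s := Finset.range (τs + 1))
      (fun _ _ => Nat.zero_le _) (Finset.mem_range.2 (by omega : u < τs + 1))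
    omega
  · rw [hshift, hshift']
    have c1 := (hR (j * τs + τs) M).1
    have c2 := (hR (j * τs) M).2
    rw [hjm] at c1
    omega

end Cx

end EG
end CPOR
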