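import Pool.Agent.P.MP_2cb329_al.EG.D
import Pool.Agent.P.MP_2cb329_al.F.O2

/-! Section F9: sets with finitely many orbits. -/

set_option autoImplicit false

namespace CPOR
namespace EG
open MulAction

variable {G : Type} [Group G] {A B : Type} [MulAction G A] [MulAction G B]

theorem fo_mono {S S' : Set A} (h : FinOrb (⊤ : Subgroup G) S) (hs : S' ⊆ S) :
    FinOrb (⊤ : Subgroup G) S' := by
  exact h.mono hs

theorem fo_union {S S' : Set A} (h : FinOrb (⊤ : Subgroup G) S)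
    (h' : FinOrb (⊤ : Subgroup G) S') : FinOrb (⊤ : Subgroup G) (S ∪ S') := by
  exact h.union h'

theorem fo_biUnion {ι : Type} {I : Set ι} (hI : I.Finite) {S : ι → Set A}
    (h : ∀ i ∈ I, FinOrb (⊤ : Subgroup G) (S i)) : FinOrb (⊤ : Subgroup G) (⋃ i ∈ I, S i) := by
  choose! F hF hc using h
  refine ⟨⋃ i ∈ I, F i, hI.biUnion hF, fun x hx => ?_⟩
  obtain ⟨i, hi, hx⟩ := Set.mem_iUnion₂.1 hx
  obtain ⟨k, hk, hkx⟩ := hc i hi x hx
  exact ⟨k, hk, Set.mem_iUnion₂.2 ⟨i, hi, hkx⟩⟩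

/-- Images under equivariant maps. -/
theorem fo_image {S : Set A} (h : FinOrb (⊤ : Subgroup G) S) (φ : A → B)
    (hφ : ∀ (g : G), ∀ a ∈ S, φ (g • a) = g • φ a) (hS : ∀ (g : G), ∀ a ∈ S, g • a ∈ S) :
    FinOrb (⊤ : Subgroup G) (φ '' S) := by
  have _ := hS
  exact h.image φ fun k _ x hx _ => hφ k x hx

/-- An invariant set that maps equivariantly with finite fibres to a set with finitely many
orbits. -/
theorem fo_of_fibres {S : Set A} {S' : Set B} (h : FinOrb (⊤ : Subgroup G) S') (φ : A → B)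
    (hS : ∀ (g : G), ∀ a ∈ S, g • a ∈ S) (hφ : ∀ (g : G), ∀ a ∈ S, φ (g • a) = g • φ a)
    (hm : ∀ a ∈ S, φ a ∈ S') (hf : ∀ b, {a | a ∈ S ∧ φ a = b}.Finite) :
    FinOrb (⊤ : Subgroup G) S := by
  exact h.of_rel (fun a b => a ∈ S ∧ φ a = b)
    (fun k _ x y hxy => ⟨hS k x hxy.1, by rw [hφ k x hxy.1, hxy.2]⟩)
    (fun a ha => ⟨φ a, hm a ha, ha, rfl⟩) fun b _ => hf b

theorem fo_transversal_aux {S S' : Set A} (h : FinOrb (⊤ : Subgroup G) S) (hs : S' ⊆ S)
    (ht : ∀ a ∈ S', ∀ g : G, g • a ∈ S' → g • a = a) : S'.Finite := by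
  obtain ⟨F, hF, hc⟩ := h
  choose! k _ hk using hc
  refine Set.Finite.of_injOn (f := fun a => k a • a) (t := F) (fun a ha => hk a (hs ha)) ?_ hF
  intro a ha a' ha' e
  have e1 : ((k a')⁻¹ * k a) • a = a' := by
    rw [mul_smul, inv_smul_eq_iff]
    exact e
  rw [← e1]
  exact (ht a ha _ (e1.symm ▸ ha')).symm

/-- Fibres over points with trivial stabiliser are finite. -/
theorem fo_fibre_finite {S : Set A} (h : FinOrb (⊤ : Subgroup G) S) (φ : A → B)
    (hφ : ∀ (g : G), ∀ a ∈ S, φ (g • a) = g • φ a) {b : B} (hb : ∀ g : G, g • b = b → g = 1) :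
    {a | a ∈ S ∧ φ a = b}.Finite := by
  refine fo_transversal_aux h (fun a ha => ha.1) fun a ha g hg => ?_
  have : g = 1 := hb g (by rw [← ha.2, ← hφ g a ha.1, hg.2, ha.2])
  rw [this, one_smul]

/-- A set that meets every orbit at most once is finite. -/
theorem fo_finite_of_transversal {S S' : Set A} (h : FinOrb (⊤ : Subgroup G) S) (hs : S' ⊆ S)
    (ht : ∀ a ∈ S', ∀ g : G, g • a ∈ S' → g • a = a) : S'.Finite := by
  exact fo_transversal_aux h hs ht

/-- Uniform constants. -/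
theorem fo_bound {S : Set A} (h : FinOrb (⊤ : Subgroup G) S) (hS : ∀ (g : G), ∀ a ∈ S, g • a ∈ S)
    (P : A → ℕ → Prop) (hP : ∀ (g : G), ∀ a ∈ S, ∀ n, P a n → P (g • a) n)
    (hm : ∀ a ∈ S, ∀ n n', n ≤ n' → P a n → P a n') (hex : ∀ a ∈ S, ∃ n, P a n) :
    ∃ n, ∀ a ∈ S, P a n := by
  have _ := hS
  exact h.bound P hm (fun k _ x hx c _ hc => hP k x hx c hc) hex

/-- A decreasing sequence of invariant sets with finitely many orbits stabilises. -/
theorem fo_stab (S : ℕ → Set A) (h : FinOrb (⊤ : Subgroup G) (S 0))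
    (hS : ∀ n (g : G), ∀ a ∈ S n, g • a ∈ S n) (hd : ∀ n, S (n + 1) ⊆ S n) :
    ∃ n, ∀ a ∈ S n, ∀ m, a ∈ S m := by
  obtain ⟨n, hn⟩ := FinOrb.stabilises S h (fun n k _ a ha => hS n k a ha) hd
  refine ⟨n, fun a ha m => ?_⟩
  rcases le_total n m with hnm | hmn
  · rw [hn m hnm]; exact ha
  · have : ∀ j, S (m + j) ⊆ S m := by
      intro j
      induction j with
      | zero => exact subset_rfl
      | succ j ih => exact (hd _).trans ih
    obtain ⟨j, rfl⟩ := Nat.exists_eq_add_of_le hmn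
    exact this j ha

/-- Equivariant deterministic dynamics on a set with finitely many orbits are eventually
periodic up to translation, uniformly (pigeonhole, `N` = factorial of the number of orbits). -/
theorem fo_per {S : Set A} (h : FinOrb (⊤ : Subgroup G) S) (R : A → A → Prop)
    (hR : ∀ (g : G) a a', R a a' → R (g • a) (g • a'))
    (hdet : ∀ a ∈ S, ∀ a' a'', R a a' → R a a'' → a' = a'') :
    ∃ τ N : ℕ, 0 < N ∧ ∀ ρ : ℕ → A, (∀ t, ρ t ∈ S) → (∀ t, R (ρ t) (ρ (t + 1))) →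
      ∃ g : G, ∀ t, τ ≤ t → ρ (t + N) = g • ρ t := by
  refine ⟨nOrb (⊤ : Subgroup G) S, (nOrb (⊤ : Subgroup G) S).factorial, Nat.factorial_pos _,
    fun ρ hρ hstep => ?_⟩
  obtain ⟨i, j, hij, hj, k, -, e⟩ := h.pigeon ρ fun i _ => hρ i
  obtain ⟨p, rfl⟩ := Nat.exists_eq_add_of_lt hij
  have e1 : ∀ s, ρ (i + s + (p + 1)) = k • ρ (i + s) := by
    intro s
    induction s with
    | zero => rw [Nat.add_zero, ← add_assoc]; exact e.symm
    | succ s ih =>
      have h1 := hR k _ _ (hstep (i + s))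
      rw [← ih] at h1
      have h2 := hstep (i + s + (p + 1))
      rw [show i + (s + 1) + (p + 1) = i + s + (p + 1) + 1 by omega]
      exact hdet _ (hρ _) _ _ h2 h1
  have e2 : ∀ m s, ρ (i + s + (p + 1) * m) = k ^ m • ρ (i + s) := by
    intro m
    induction m with
    | zero => intro s; simp
    | succ m ih =>
      intro s
      rw [show i + s + (p + 1) * (m + 1) = i + (s + (p + 1) * m) + (p + 1) by ring, e1,
        ← add_assoc, ih, pow_succ', mul_smul]
  obtain ⟨m, hm⟩ : (p + 1) ∣ (nOrb (⊤ : Subgroup G) S).factorial :=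
    Nat.dvd_factorial (Nat.succ_pos p) (by omega)
  refine ⟨k ^ m, fun t ht => ?_⟩
  obtain ⟨s, rfl⟩ := Nat.exists_eq_add_of_le (show i ≤ t by omega)
  rw [hm]
  exact e2 m s

theorem per_zpow_aux {d : ℤ → A} {N : ℕ} {g : G} (h : ∀ t : ℤ, d (t + N) = g • d t) (j t : ℤ) :
    d (t + j * N) = g ^ j • d t := by
  induction j using Int.induction_on with
  | zero => simp
  | succ j ih => rw [add_mul, one_mul, ← add_assoc, h, ih, add_comm, zpow_one_add, mul_smul]
  | pred j ih =>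
    have h1 := h (t + (-(j : ℤ) - 1) * N)
    rw [show t + (-(j : ℤ) - 1) * N + N = t + -(j : ℤ) * N by ring, ih] at h1
    rw [sub_eq_neg_add, zpow_add, zpow_neg_one, mul_smul, eq_inv_smul_iff, ← sub_eq_neg_add]
    exact h1.symm

/-- Extension of a periodic sequence to negative times. -/
theorem per_extend (ρ : ℕ → A) {N : ℕ} (hN : 0 < N) (g : G) (h : ∀ t, ρ (t + N) = g • ρ t) :
    ∃ d : ℤ → A, (∀ t : ℕ, d t = ρ t) ∧ (∀ t : ℤ, d (t + N) = g • d t) ∧
      ∀ t : ℤ, ∃ (k : G) (s : ℕ), ∀ j : ℕ, d (t + j) = k • ρ (s + j) := by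
  have hN' : (N : ℤ) ≠ 0 := by exact_mod_cast hN.ne'
  have e1 : ∀ q r : ℕ, ρ (r + N * q) = g ^ q • ρ r := by
    intro q r
    induction q with
    | zero => simp
    | succ q ih => rw [Nat.mul_succ, ← add_assoc, h, ih, pow_succ', mul_smul]
  let d : ℤ → A := fun t => g ^ (t / N) • ρ (t % N).toNat
  have h1 : ∀ t : ℕ, d t = ρ t := by
    intro t
    have : ((t : ℤ) % N).toNat = t % N := by rw [← Int.natCast_mod, Int.toNat_natCast]
    simp only [d, this]
    rw [← Int.natCast_div, zpow_natCast, ← e1, Nat.mod_add_div]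
  have h2 : ∀ t : ℤ, d (t + N) = g • d t := by
    intro t
    simp only [d]
    rw [Int.add_emod_right, Int.add_ediv_of_dvd_right (dvd_refl _), Int.ediv_self hN',
      add_comm, zpow_one_add, mul_smul]
  refine ⟨d, h1, h2, fun t => ⟨g ^ (t / N), (t % N).toNat, fun j => ?_⟩⟩
  rw [← h1, ← per_zpow_aux h2]
  congr 1
  have h3 := Int.emod_nonneg t hN'
  have h4 := Int.emod_add_ediv_mul t N
  push_cast
  rw [Int.toNat_of_nonneg h3]
  omega

theorem per_zpow {d : ℤ → A} {N : ℕ} {g : G} (h : ∀ t : ℤ, d (t + N) = g • d t) (j t : ℤ) :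
    d (t + j * N) = g ^ j • d t := by
  exact per_zpow_aux h j t

/-- Equivariant choices over free sets. -/
theorem free_choice {S : Set A} (hS : ∀ (g : G), ∀ a ∈ S, g • a ∈ S)
    (hfree : ∀ a ∈ S, ∀ g : G, g • a = a → g = 1) (P : A → B → Prop)
    (hP : ∀ (g : G) a b, P a b → P (g • a) (g • b)) (hex : ∀ a ∈ S, ∃ b, P a b) [Nonempty B] :
    ∃ φ : A → B, (∀ a ∈ S, P a (φ a)) ∧ ∀ (g : G), ∀ a ∈ S, φ (g • a) = g • φ a := by
  refine exists_equiv_choice_on (G := G) (S := S) (fun k _ a ha => hS k a ha) P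
    (fun g x y _ hxy => hP g x y hxy) fun x hx => ?_
  obtain ⟨b, hb⟩ := hex x hx
  refine ⟨b, hb, fun g hg => ?_⟩
  rw [hfree x hx g hg]
  exact one_mem _

end EG
end CPOR
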