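import Pool.Agent.P.MP_2cb329_al.EG.T
import Pool.Agent.P.MP_2cb329_al.EG.O

/-! Section F9: legal geodesics and their images. -/

set_option autoImplicit false

namespace CPOR
namespace EG
open ZT MulAction

variable {G W : Type} [Group G] [MulAction G W] (X : Cx G W)

namespace Cx

theorem acyc : X.T.IsAcyclic := X.gf.acyc

theorem iter_smul (t : ℕ) (g : G) (x : W) : X.f^[t] (g • x) = g • X.f^[t] x := by
  induction t with
  | zero => rfl
  | succ t ih => rw [Function.iterate_succ_apply', Function.iterate_succ_apply', ih, X.smul]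

theorem reach_f {x y : W} (h : X.T.Reachable x y) : X.T.Reachable (X.f x) (X.f y) := by
  obtain ⟨w⟩ := h
  induction w with
  | nil => exact SimpleGraph.Reachable.refl _
  | cons ha _ ih => exact (X.tt _ _ ha).1.trans ih

theorem reach_iter (t : ℕ) {x y : W} (h : X.T.Reachable x y) :
    X.T.Reachable (X.f^[t] x) (X.f^[t] y) := by
  induction t with
  | zero => exact h
  | succ t ih =>
    rw [Function.iterate_succ_apply', Function.iterate_succ_apply']
    exact X.reach_f ih

theorem df_smul (g : G) (e : W × W) : Df X.T X.f (g • e) = g • Df X.T X.f e := by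
  unfold Df
  simp only [Prod.smul_fst, Prod.smul_snd, X.smul, nxt_smul X.gf, Prod.smul_mk]

theorem df_iter_smul (t : ℕ) (g : G) (e : W × W) :
    (Df X.T X.f)^[t] (g • e) = g • (Df X.T X.f)^[t] e := by
  induction t with
  | zero => rfl
  | succ t ih => rw [Function.iterate_succ_apply', Function.iterate_succ_apply', ih, X.df_smul]

theorem df_sep {e : W × W} (h : X.T.Adj e.1 e.2) :
    Sep X.T (Df X.T X.f e) (X.f e.1) (X.f e.2) := by
  exact nxt_spec X.acyc (X.tt _ _ h).1 (X.nondeg _ _ h)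

theorem df_iter_adj (t : ℕ) {e : W × W} (h : X.T.Adj e.1 e.2) :
    X.T.Adj ((Df X.T X.f)^[t] e).1 ((Df X.T X.f)^[t] e).2 := by
  induction t with
  | zero => exact h
  | succ t ih =>
    rw [Function.iterate_succ_apply']
    exact (X.df_sep ih).1

theorem df_iter_fst (t : ℕ) (e : W × W) : ((Df X.T X.f)^[t] e).1 = X.f^[t] e.1 := by
  induction t with
  | zero => rfl
  | succ t ih =>
    rw [Function.iterate_succ_apply', Function.iterate_succ_apply', ← ih]
    rfl

theorem lg_symm {x y z : W} (h : Lg X.T X.f x y z) : Lg X.T X.f z y x := by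
  exact fun i => (h i).symm

theorem lg_smul (g : G) {x y z : W} : Lg X.T X.f (g • x) (g • y) (g • z) ↔ Lg X.T X.f x y z := by
  refine forall_congr' fun i => ?_
  have e1 := X.df_iter_smul i g (y, x)
  have e2 := X.df_iter_smul i g (y, z)
  rw [Prod.smul_mk] at e1 e2
  rw [e1, e2]
  exact (MulAction.injective g).ne_iff

theorem ls_symm {x y : W} (h : LS X.T X.f x y) : LS X.T X.f y x := by
  exact ⟨h.1.symm, fun p q r h1 h2 => X.lg_symm (h.2 r q p (sep_symm h2) (sep_symm h1))⟩

theorem ls_smul (g : G) {x y : W} (h : LS X.T X.f x y) : LS X.T X.f (g • x) (g • y) := by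
  refine ⟨X.gf.acts.reach g h.1, fun p q r h1 h2 => ?_⟩
  have := h.2 (g⁻¹ • p) (g⁻¹ • q) (g⁻¹ • r) ((sep_smul_iff X.gf.acts g).1 (by simpa using h1))
    ((sep_smul_iff X.gf.acts g).1 (by simpa using h2))
  exact (X.lg_smul g⁻¹).1 this

theorem ls_refl (x : W) : LS X.T X.f x x := by
  exact ⟨SimpleGraph.Reachable.refl _, fun _ _ _ h1 _ => ((sep_ne h1).1 rfl).elim⟩

theorem ls_adj {x y : W} (h : X.T.Adj x y) : LS X.T X.f x y := by
  refine ⟨h.reachable, fun p q r h1 h2 => ?_⟩
  rcases (sep_right X.acyc h1).eq_of_adj X.acyc h with e | e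
  · exact ((sep_ne h1).2.1 e.symm).elim
  · exact ((sep_ne h2).2.2 e).elim

theorem ls_sub {x y a b : W} (h : LS X.T X.f x y) (ha : Btw X.T x a y) (hb : Btw X.T x b y) :
    LS X.T X.f a b := by
  have key : ∀ {a b : W}, Btw X.T x a y → Btw X.T x b y → X.T.dist x a ≤ X.T.dist x b →
      LS X.T X.f a b := by
    intro a b ha hb hd
    have h1 := (ha.compare X.acyc hb hd).2
    exact ⟨h1.1, fun p q r s1 s2 =>
      h.2 p q r (sep_ext_left X.acyc (sep_ext_right X.acyc s1 h1) ha)
        (sep_ext_left X.acyc (sep_ext_right X.acyc s2 h1) ha)⟩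
  rcases le_total (X.T.dist x a) (X.T.dist x b) with hd | hd
  · exact key ha hb hd
  · exact X.ls_symm (key hb ha hd)

theorem ls_iff {x y : W} : LS X.T X.f x y ↔ X.T.Reachable x y ∧ Ill X.T X.f x y = ∅ := by
  refine and_congr_right fun _ => ⟨fun h => ?_, fun h p q r h1 h2 => ?_⟩
  · refine Set.eq_empty_of_forall_notMem ?_
    rintro q ⟨p, r, h1, h2, h3⟩
    exact h3 (h p q r h1 h2)
  · by_contra h3
    have : q ∈ Ill X.T X.f x y := ⟨p, r, h1, h2, h3⟩
    rw [h] at this
    exact this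

theorem ill_symm (x y : W) : Ill X.T X.f x y = Ill X.T X.f y x := by
  have key : ∀ x y, Ill X.T X.f x y ⊆ Ill X.T X.f y x := by
    rintro x y q ⟨p, r, h1, h2, h3⟩
    exact ⟨r, p, sep_symm h2, sep_symm h1, fun h => h3 (X.lg_symm h)⟩
  exact Set.Subset.antisymm (key x y) (key y x)

theorem ill_smul (g : G) {x y v : W} :
    g • v ∈ Ill X.T X.f (g • x) (g • y) ↔ v ∈ Ill X.T X.f x y := by
  have key : ∀ (g : G) {x y v : W}, v ∈ Ill X.T X.f x y → g • v ∈ Ill X.T X.f (g • x) (g • y) := by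
    rintro g x y v ⟨p, r, h1, h2, h3⟩
    exact ⟨g • p, g • r, (sep_smul_iff X.gf.acts g).2 h1, (sep_smul_iff X.gf.acts g).2 h2,
      fun h => h3 ((X.lg_smul g).1 h)⟩
  exact ⟨fun h => by simpa using key g⁻¹ h, key g⟩

theorem ill_btw {x y v : W} (h : v ∈ Ill X.T X.f x y) : Btw X.T x v y ∧ v ≠ x ∧ v ≠ y := by
  obtain ⟨p, r, h1, h2, -⟩ := h
  exact ⟨sep_right X.acyc h1, (sep_ne h1).2.1.symm, (sep_ne h2).2.2⟩

theorem ill_finite (x y : W) : (Ill X.T X.f x y).Finite := by
  exact (btw_finite X.acyc x y).subset fun v hv => (X.ill_btw hv).1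

/-- Illegality is local. -/
theorem ill_restr {x y a b v : W} (h : v ∈ Ill X.T X.f x y) (ha : Btw X.T x a v)
    (hb : Btw X.T v b y) (ha' : a ≠ v) (hb' : v ≠ b) : v ∈ Ill X.T X.f a b := by
  obtain ⟨p, r, h1, h2, h3⟩ := h
  refine ⟨p, r, sep_restr X.acyc h1 (ha.compare X.acyc h1.2.1 ?_).1 hb,
    sep_restr X.acyc h2 ha (h2.2.2.compare X.acyc hb ?_).2, h3⟩
  · have e1 := (sep_dist h1).1
    have e2 := ha.2.2
    have e3 : X.T.dist a v ≠ 0 := fun e => ha' (eq_of_dist_zero ha.2.1 e)
    simp only at e1 ⊢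
    omega
  · have e3 : X.T.dist v b ≠ 0 := fun e => hb' (eq_of_dist_zero hb.1 e)
    have e1 : X.T.dist v r = 1 := SimpleGraph.dist_eq_one_iff_adj.2 h2.1
    simp only
    omega

theorem ill_ext {x y a b v : W} (h : v ∈ Ill X.T X.f a b) (ha : Btw X.T x a b)
    (hb : Btw X.T a b y) : v ∈ Ill X.T X.f x y := by
  obtain ⟨p, r, h1, h2, h3⟩ := h
  have hb' := (ha.glue X.acyc hb (sep_ne h1).1).2
  exact ⟨p, r, sep_ext_right X.acyc (sep_ext_left X.acyc h1 ha) hb',
    sep_ext_right X.acyc (sep_ext_left X.acyc h2 ha) hb', h3⟩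

/-- Two legal legs: the only possible illegal vertex is the turn. -/
theorem ill_of_ll {a y b v : W} (h : LL X.T X.f a y b) (hv : v ∈ Ill X.T X.f a b) : v = y := by
  obtain ⟨p, r, h1, h2, h3⟩ := hv
  have hT := X.acyc
  have hb := h.2.2
  rcases sep_or hT h1 hb.1 with s1 | s1 <;> rcases sep_or hT h2 hb.1 with s2 | s2
  · exact (h3 (h.1.2 _ _ _ s1 s2)).elim
  · exact (sep_right hT s1).antisymm (hb.trans_right (sep_left hT s2)).2
  · exact (sep_left hT s2).antisymm (hb.trans_right (sep_right hT s1)).2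
  · exact (h3 (h.2.1.2 _ _ _ s1 s2)).elim

theorem ls_glue {a y b : W} (h : LL X.T X.f a y b) (hy : y ∉ Ill X.T X.f a b) :
    LS X.T X.f a b := by
  refine X.ls_iff.2 ⟨h.2.2.reach, Set.eq_empty_of_forall_notMem fun v hv => hy ?_⟩
  rwa [X.ill_of_ll h hv] at hv

theorem la_btw_of_nxt_ne {V : Type} {T : SimpleGraph V} (hT : T.IsAcyclic) {x y z : V}
    (h1 : T.Reachable y x) (h2 : T.Reachable y z) (h : nxt T y x ≠ nxt T y z) : Btw T x y z := by
  obtain ⟨m, m1, m2, m3⟩ := exists_median hT h1.symm h2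
  by_cases e : y = m
  · rwa [← e] at m3
  · exact (h ((nxt_btw hT m1.symm e).trans (nxt_btw hT m2 e).symm)).elim

/-- Images of legal geodesics (induction on the length; the turn between the images of two
consecutive darts is the image of a legal turn under `Df`). -/
theorem ls_map {x y : W} (h : LS X.T X.f x y) : LS X.T X.f (X.f x) (X.f y) ∧
    (∀ z, Btw X.T x z y → Btw X.T (X.f x) (X.f z) (X.f y)) ∧ (x ≠ y → X.f x ≠ X.f y) ∧
    X.μ * len X.T X.l x y ≤ len X.T X.l (X.f x) (X.f y) ∧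
    X.T.dist x y ≤ X.T.dist (X.f x) (X.f y) := by
  have hT := X.acyc
  generalize hn : X.T.dist x y = n
  induction n generalizing x with
  | zero =>
    obtain rfl := eq_of_dist_zero h.1 hn
    refine ⟨X.ls_refl _, fun z hz => ?_, fun h => (h rfl).elim, ?_, Nat.zero_le _⟩
    · rw [hz.eq_of_self]
      exact btw_left (SimpleGraph.Reachable.refl _)
    · rw [len_self hT, len_self hT, mul_zero]
  | succ n ih =>
    have hne : x ≠ y := by
      rintro rfl
      simp at hn
    have hs := nxt_spec hT h.1 hne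
    generalize nxt X.T x y = x' at hs
    have hadj : X.T.Adj x x' := hs.1
    have hb : Btw X.T x x' y := hs.2.2
    have hd : X.T.dist x' y = n := by
      have := (sep_dist hs).2
      simp only at this
      omega
    have h' : LS X.T X.f x' y := X.ls_sub h hb (btw_right h.1)
    obtain ⟨i1, i2, -, i4, i5⟩ := ih h' hd
    have htt := X.tt _ _ hadj
    have hnd := X.nondeg _ _ hadj
    have key : Btw X.T (X.f x) (X.f x') (X.f y) ∧ X.f x' ∉ Ill X.T X.f (X.f x) (X.f y) := by
      by_cases hy : x' = y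
      · subst hy
        exact ⟨btw_right htt.1, fun hv => (X.ill_btw hv).2.2 rfl⟩
      · have hs' := nxt_spec hT h'.1 hy
        generalize nxt X.T x' y = x'' at hs'
        have hlg := h.2 x x' x'' hs (sep_ext_left hT hs' hb)
        have e : nxt X.T (X.f x') (X.f y) = nxt X.T (X.f x') (X.f x'') :=
          nxt_btw hT (i2 x'' hs'.2.2) (X.nondeg _ _ hs'.1)
        refine ⟨la_btw_of_nxt_ne hT htt.1.symm i1.1 fun e' => hlg 1 ?_, ?_⟩
        · show Df X.T X.f (x', x) = Df X.T X.f (x', x'')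
          unfold Df
          simp only [e', e]
        · rintro ⟨p, r, s1, s2, hn⟩
          refine hn fun i => ?_
          have e1 : Df X.T X.f (x', x) = (X.f x', p) :=
            Prod.ext rfl (nxt_eq hT s1.1.symm s1.2.1.symm)
          have e2 : Df X.T X.f (x', x'') = (X.f x', r) :=
            Prod.ext rfl (e.symm.trans (nxt_eq hT s2.1 s2.2.2))
          have := hlg (i + 1)
          rwa [Function.iterate_succ_apply, Function.iterate_succ_apply, e1, e2] at this
    refine ⟨X.ls_glue ⟨htt, i1, key.1⟩ key.2, fun z hz => ?_, fun _ e => ?_, ?_, ?_⟩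
    · by_cases hz' : x = z
      · subst hz'
        exact btw_left key.1.reach
      · refine (key.1.trans_right (i2 z (hb.compare hT hz ?_).2)).1
        have e3 : X.T.dist x z ≠ 0 := fun e => hz' (eq_of_dist_zero hz.1 e)
        rw [SimpleGraph.dist_eq_one_iff_adj.2 hadj]
        omega
    · have := key.1
      rw [← e] at this
      exact hnd this.eq_of_self.symm
    · rw [EG.len_add hT hb, EG.len_add hT key.1, len_adj hT hadj, mul_add]
      exact add_le_add (X.exp _ _ hadj) i4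
    · have e1 := key.1.2.2
      have e3 : X.T.dist (X.f x) (X.f x') ≠ 0 := fun e => hnd (eq_of_dist_zero htt.1 e)
      omega

theorem ls_iter (t : ℕ) {x y : W} (h : LS X.T X.f x y) : LS X.T X.f (X.f^[t] x) (X.f^[t] y) := by
  induction t with
  | zero => exact h
  | succ t ih =>
    rw [Function.iterate_succ_apply', Function.iterate_succ_apply']
    exact (X.ls_map ih).1

theorem ls_btw_iter (t : ℕ) {x y z : W} (h : LS X.T X.f x y) (hz : Btw X.T x z y) :
    Btw X.T (X.f^[t] x) (X.f^[t] z) (X.f^[t] y) := by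
  induction t with
  | zero => exact hz
  | succ t ih =>
    simp only [Function.iterate_succ_apply']
    exact (X.ls_map (X.ls_iter t h)).2.1 _ ih

theorem ls_ne_iter (t : ℕ) {x y : W} (h : LS X.T X.f x y) (hne : x ≠ y) :
    X.f^[t] x ≠ X.f^[t] y := by
  induction t with
  | zero => exact hne
  | succ t ih =>
    simp only [Function.iterate_succ_apply']
    exact (X.ls_map (X.ls_iter t h)).2.2.1 ih

theorem ls_len_iter (t : ℕ) {x y : W} (h : LS X.T X.f x y) :
    X.μ ^ t * len X.T X.l x y ≤ len X.T X.l (X.f^[t] x) (X.f^[t] y) := by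
  induction t with
  | zero => simp
  | succ t ih =>
    simp only [Function.iterate_succ_apply']
    refine le_trans ?_ (X.ls_map (X.ls_iter t h)).2.2.2.1
    rw [pow_succ', mul_assoc]
    exact mul_le_mul_of_nonneg_left ih (zero_le_one.trans X.one_lt.le)

theorem ls_dist_iter (t : ℕ) {x y : W} (h : LS X.T X.f x y) :
    X.T.dist x y ≤ X.T.dist (X.f^[t] x) (X.f^[t] y) := by
  induction t with
  | zero => exact le_rfl
  | succ t ih =>
    simp only [Function.iterate_succ_apply']
    exact ih.trans (X.ls_map (X.ls_iter t h)).2.2.2.2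

/-- Non-trivial legal geodesics become long, uniformly. -/
theorem ls_grow (n : ℕ) : ∃ τ : ℕ, ∀ t, τ ≤ t → ∀ x y, LS X.T X.f x y → x ≠ y →
    n ≤ X.T.dist (X.f^[t] x) (X.f^[t] y) ∧ (n : ℝ) ≤ len X.T X.l (X.f^[t] x) (X.f^[t] y) := by
  obtain ⟨τ, hτ⟩ := pow_unbounded_of_one_lt ((n : ℝ) * (X.lm + 1)) X.one_lt
  refine ⟨τ, fun t ht x y h hne => ?_⟩
  have h1 : X.μ ^ τ ≤ X.μ ^ t := pow_le_pow_right₀ X.one_lt.le ht
  have h2 : (1 : ℝ) ≤ len X.T X.l x y := by
    refine le_trans ?_ (EG.dist_le_len X.acyc X.wt.one_le h.1)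
    have e3 : X.T.dist x y ≠ 0 := fun e => hne (eq_of_dist_zero h.1 e)
    exact_mod_cast Nat.one_le_iff_ne_zero.2 e3
  have h3 := X.ls_len_iter t h
  have h0 : 0 ≤ X.μ ^ t := pow_nonneg (zero_le_one.trans X.one_lt.le) _
  have h4 : (n : ℝ) * (X.lm + 1) ≤ len X.T X.l (X.f^[t] x) (X.f^[t] y) := by nlinarith
  have h5 := EG.len_le_dist X.acyc X.l_le (X.reach_iter t h.1)
  constructor
  · have h6 : n * (X.lm + 1) ≤ X.lm * X.T.dist (X.f^[t] x) (X.f^[t] y) := by
      exact_mod_cast h4.trans h5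
    by_contra hlt
    have h7 : X.T.dist (X.f^[t] x) (X.f^[t] y) + 1 ≤ n := by omega
    nlinarith
  · refine le_trans ?_ h4
    have : (0 : ℝ) ≤ (n : ℝ) * X.lm := by positivity
    linarith

/-- The iterated first dart of the first dart of a legal geodesic. -/
theorem df_iter_eq (t : ℕ) {x y p : W} (h : LS X.T X.f x y) (hp : Sep X.T (x, p) x y) :
    Sep X.T ((Df X.T X.f)^[t] (x, p)) (X.f^[t] x) (X.f^[t] y) := by
  induction t with
  | zero => exact hp
  | succ t ih =>
    simp only [Function.iterate_succ_apply']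
    have h1 := X.df_sep ih.1
    rw [X.df_iter_fst] at h1
    exact sep_ext_right X.acyc h1 ((X.ls_map (X.ls_iter t h)).2.1 _ (sep_right X.acyc ih))

/-- A turn of the image of a legal geodesic lies in the image of a dart or is the image of a
turn. -/
theorem turn_image (t : ℕ) {x y p q r : W} (h : LS X.T X.f x y)
    (h1 : Sep X.T (p, q) (X.f^[t] x) (X.f^[t] y)) (h2 : Sep X.T (q, r) (X.f^[t] x) (X.f^[t] y)) :
    (∃ e, Sep X.T e x y ∧ Sep X.T (p, q) (X.f^[t] e.1) (X.f^[t] e.2) ∧
      Sep X.T (q, r) (X.f^[t] e.1) (X.f^[t] e.2)) ∨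
    ∃ p' q' r', Sep X.T (p', q') x y ∧ Sep X.T (q', r') x y ∧
      (Df X.T X.f)^[t] (q', p') = (q, p) ∧ (Df X.T X.f)^[t] (q', r') = (q, r) := by
  have hT := X.acyc
  generalize hn : X.T.dist x y = n
  induction n generalizing x with
  | zero =>
    obtain rfl := eq_of_dist_zero h.1 hn
    exact ((sep_ne h1).1 rfl).elim
  | succ n ih =>
    have hne : x ≠ y := by
      rintro rfl
      simp at hn
    have hs := nxt_spec hT h.1 hne
    generalize nxt X.T x y = x' at hs
    have hadj : X.T.Adj x x' := hs.1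
    have hb : Btw X.T x x' y := hs.2.2
    have hd : X.T.dist x' y = n := by
      have := (sep_dist hs).2
      simp only at this
      omega
    have h' : LS X.T X.f x' y := X.ls_sub h hb (btw_right h.1)
    have hB := X.ls_btw_iter t h hb
    rcases sep_or hT h1 hB.1 with s1 | s1 <;> rcases sep_or hT h2 hB.1 with s2 | s2
    · exact Or.inl ⟨(x, x'), hs, s1, s2⟩
    · have e : q = X.f^[t] x' := (sep_right hT s1).antisymm (hB.trans_right (sep_left hT s2)).2
      have hy : x' ≠ y := fun e' => (sep_ne s2).1 (by rw [e'])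
      have hs' := nxt_spec hT h'.1 hy
      refine Or.inr ⟨x, x', _, hs, sep_ext_left hT hs' hb, ?_, ?_⟩
      · refine sep_unique hT (X.df_iter_eq t (X.ls_adj hadj.symm) (sep_self hadj.symm))
          (sep_symm s1) ?_
        rw [X.df_iter_fst, e]
      · refine sep_unique hT (X.df_iter_eq t h' hs') s2 ?_
        rw [X.df_iter_fst, e]
    · have e : q = X.f^[t] x' := (sep_left hT s2).antisymm (hB.trans_right (sep_right hT s1)).2
      exact ((sep_ne s1).2.1 e.symm).elim
    · rcases ih h' s1 s2 hd with ⟨e, he, t1, t2⟩ | ⟨p', q', r', u1, u2, t1, t2⟩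
      · exact Or.inl ⟨e, sep_ext_left hT he hb, t1, t2⟩
      · exact Or.inr ⟨p', q', r', sep_ext_left hT u1 hb, sep_ext_left hT u2 hb, t1, t2⟩

theorem nt_iter (t : ℕ) {x : W} (h : stabilizer G x ≠ ⊥) : stabilizer G (X.f^[t] x) ≠ ⊥ := by
  intro hb
  refine h (eq_bot_iff.2 fun g hg => ?_)
  rw [← hb, mem_stabilizer_iff, ← X.iter_smul, mem_stabilizer_iff.1 hg]

theorem vinj_iter (t : ℕ) {x x' : W} (h : stabilizer G x ≠ ⊥) (h' : stabilizer G x' ≠ ⊥)
    (he : X.f^[t] x = X.f^[t] x') : x = x' := by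
  induction t with
  | zero => exact he
  | succ t ih =>
    rw [Function.iterate_succ_apply', Function.iterate_succ_apply'] at he
    exact ih (X.vinj _ _ (X.nt_iter t h) (X.nt_iter t h') he)

/-- Every non-trivial vertex lies on exactly one bi-infinite orbit of non-trivial vertices. -/
theorem exists_nt {w : W} (h : stabilizer G w ≠ ⊥) : ∃ u, IsNT X.f G u ∧ u 0 = w := by
  have hp : ∀ y : {y : W // stabilizer G y ≠ ⊥}, ∃ x : {y : W // stabilizer G y ≠ ⊥},
      X.f x.1 = y.1 := by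
    intro y
    obtain ⟨x, h1, h2⟩ := X.vsurj y.1 y.2
    exact ⟨⟨x, h2 ▸ y.2⟩, h1⟩
  choose p hp using hp
  refine ⟨fun t => match t with
    | Int.ofNat n => X.f^[n] w
    | Int.negSucc n => (p^[n + 1] ⟨w, h⟩).1, fun t => ?_, rfl⟩
  rcases t with n | n
  · exact ⟨(Function.iterate_succ_apply' X.f n w).symm, X.nt_iter n h⟩
  · refine ⟨?_, (p^[n + 1] ⟨w, h⟩).2⟩
    rcases n with _ | n
    · exact hp ⟨w, h⟩
    · have e : Int.negSucc (n + 1) + 1 = Int.negSucc n := by
        rw [Int.negSucc_eq, Int.negSucc_eq]; push_cast; ring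
      rw [e]
      show X.f (p^[n + 1 + 1] ⟨w, h⟩).1 = (p^[n + 1] ⟨w, h⟩).1
      rw [Function.iterate_succ_apply' p (n + 1)]
      exact hp _

theorem nt_unique {u u' : ℤ → W} (h : IsNT X.f G u) (h' : IsNT X.f G u') {s : ℤ}
    (he : u s = u' s) : u = u' := by
  funext t
  induction t using Int.inductionOn' (b := s) with
  | zero => exact he
  | succ k _ ih => rw [← (h k).1, ← (h' k).1, ih]
  | pred k _ ih =>
    refine X.vinj _ _ (h (k - 1)).2 (h' (k - 1)).2 ?_
    rw [(h (k - 1)).1, (h' (k - 1)).1, sub_add_cancel, ih]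

/-- Vertices with trivial stabiliser have finite valence. -/
theorem triv_finite {w : W} (h : stabilizer G w = ⊥) : {z | X.T.Adj w z}.Finite := by
  have hf := fo_fibre_finite X.finE (Prod.fst : W × W → W) (fun _ _ _ => rfl) (b := w)
    (fun g hg => by
      have : g ∈ stabilizer G w := hg
      rwa [h, Subgroup.mem_bot] at this)
  refine (hf.image Prod.snd).subset fun z hz => ⟨(w, z), ⟨hz, rfl⟩, rfl⟩

/-- `Df^[t]` is finite to one on darts (a fibre meets every orbit at most once). -/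
theorem df_fibre_finite (t : ℕ) (e : W × W) :
    {d : W × W | X.T.Adj d.1 d.2 ∧ (Df X.T X.f)^[t] d = e}.Finite := by
  by_cases he : X.T.Adj e.1 e.2
  · exact fo_fibre_finite X.finE (Df X.T X.f)^[t] (fun g a _ => X.df_iter_smul t g a)
      (fun g hg => dart_free X.gf he hg)
  · refine Set.Finite.subset Set.finite_empty fun d hd => he ?_
    rw [← hd.2]
    exact X.df_iter_adj t hd.1

/-- A dart has finitely many illegal partners (they meet every orbit at most once). -/
theorem ill_partner_finite {p q : W} (h : X.T.Adj q p) :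
    {r | X.T.Adj q r ∧ ¬ Lg X.T X.f p q r}.Finite := by
  have hf : {e : W × W | e.1 = q ∧ X.T.Adj q e.2 ∧ ¬ Lg X.T X.f p q e.2}.Finite := by
    refine fo_finite_of_transversal X.finE ?_ ?_
    · rintro ⟨a, r⟩ ⟨rfl, h1, -⟩
      exact h1
    · rintro ⟨a, r⟩ ⟨rfl, h1, h2⟩ g ⟨g1, g2, g3⟩
      simp only [Lg, not_forall, not_not] at h2 g3
      obtain ⟨i, hi⟩ := h2
      obtain ⟨j, hj⟩ := g3
      have e1 : (Df X.T X.f)^[j + i] (a, p) = (Df X.T X.f)^[j + i] (a, r) := by
        rw [Function.iterate_add_apply, Function.iterate_add_apply, hi]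
      have e2 : (Df X.T X.f)^[j + i] (a, p) = (Df X.T X.f)^[j + i] (g • (a, r)) := by
        have e3 : g • (a, r) = (a, (g • (a, r)).2) := Prod.ext g1 rfl
        rw [e3, Nat.add_comm, Function.iterate_add_apply, Function.iterate_add_apply, hj]
      rw [X.df_iter_smul, e1] at e2
      rw [dart_free X.gf (X.df_iter_adj (j + i) (e := (a, r)) h1) e2.symm, one_smul]
  exact (hf.image Prod.snd).subset fun r hr => ⟨(q, r), ⟨rfl, hr⟩, rfl⟩

/-- Illegal turns degenerate after a uniform time. -/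
theorem exists_K : ∃ K : ℕ, ∀ p q r, X.T.Adj q p → X.T.Adj q r → ¬ Lg X.T X.f p q r →
    (Df X.T X.f)^[K] (q, p) = (Df X.T X.f)^[K] (q, r) := by
  have mono : ∀ (e e' : W × W) (n n' : ℕ), n ≤ n' → (Df X.T X.f)^[n] e = (Df X.T X.f)^[n] e' →
      (Df X.T X.f)^[n'] e = (Df X.T X.f)^[n'] e' := by
    intro e e' n n' hn he
    obtain ⟨k, rfl⟩ := Nat.exists_eq_add_of_le' hn
    rw [Function.iterate_add_apply, Function.iterate_add_apply, he]
  have key := fo_bound X.finE (fun g a ha => X.gf.acts g _ _ ha)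
    (fun e n => ∀ r, X.T.Adj e.1 r → ¬ Lg X.T X.f e.2 e.1 r →
      (Df X.T X.f)^[n] e = (Df X.T X.f)^[n] (e.1, r)) ?_ ?_ ?_
  · obtain ⟨K, hK⟩ := key
    exact ⟨K, fun p q r h1 h2 h3 => hK (q, p) h1 r h2 h3⟩
  · intro g a _ n hP r h1 h2
    have e : r = g • (g⁻¹ • r) := (smul_inv_smul g r).symm
    rw [e] at h1 h2
    have h3 := hP (g⁻¹ • r) ((adj_smul_iff X.gf.acts g).1 h1) (fun h => h2 ((X.lg_smul g).2 h))
    have e2 : ((g • a).1, r) = g • (a.1, g⁻¹ • r) := Prod.ext rfl e
    rw [e2, X.df_iter_smul, X.df_iter_smul, h3]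
  · intro a _ n n' hn hP r h1 h2
    exact mono _ _ n n' hn (hP r h1 h2)
  · intro a ha
    have hf := X.ill_partner_finite (p := a.2) (q := a.1) ha
    have hex : ∀ r, ∃ n, ¬ Lg X.T X.f a.2 a.1 r →
        (Df X.T X.f)^[n] a = (Df X.T X.f)^[n] (a.1, r) := by
      intro r
      by_cases hl : Lg X.T X.f a.2 a.1 r
      · exact ⟨0, fun h => absurd hl h⟩
      · simp only [Lg, not_forall, not_not] at hl
        obtain ⟨i, hi⟩ := hl
        exact ⟨i, fun _ => hi⟩
    choose m hm using hex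
    obtain ⟨n, hn⟩ := (hf.image m).bddAbove
    exact ⟨n, fun r h1 h2 => mono _ _ (m r) n (hn ⟨r, ⟨h1, h2⟩, rfl⟩) (hm r h2)⟩

/-- `f` is Lipschitz. -/
theorem exists_lip : ∃ Λ : ℕ, ∀ x y, X.T.Reachable x y →
    X.T.dist (X.f x) (X.f y) ≤ Λ * X.T.dist x y := by
  obtain ⟨Λ, hΛ⟩ := fo_bound X.finE (fun g a ha => X.gf.acts g _ _ ha)
    (fun e n => X.T.dist (X.f e.1) (X.f e.2) ≤ n) (fun g a _ n hP => by
      show X.T.dist (X.f (g • a.1)) (X.f (g • a.2)) ≤ n
      rw [X.smul, X.smul, X.gf.acts.dist]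
      exact hP) (fun _ _ _ _ hn hP => hP.trans hn) (fun _ _ => ⟨_, le_rfl⟩)
  have key : ∀ {x y : W} (w : X.T.Walk x y), X.T.dist (X.f x) (X.f y) ≤ Λ * w.length := by
    intro x y w
    induction w with
    | nil => simp
    | @cons a b c hab w ih =>
      have h1 := hΛ (a, b) hab
      have h2 := dist_tri (X.reach_f hab.reachable) (X.reach_f w.reachable)
      rw [SimpleGraph.Walk.length_cons, Nat.mul_succ]
      simp only at h1
      omega
  refine ⟨Λ, fun x y h => ?_⟩
  obtain ⟨w, hw⟩ := h.exists_walk_length_eq_dist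
  rw [← hw]
  exact key w

theorem dist_le_len {x y : W} (h : X.T.Reachable x y) : (X.T.dist x y : ℝ) ≤ len X.T X.l x y :=
  EG.dist_le_len X.acyc X.wt.one_le h

theorem len_le_dist {x y : W} (h : X.T.Reachable x y) :
    len X.T X.l x y ≤ X.lm * X.T.dist x y :=
  EG.len_le_dist X.acyc X.l_le h

theorem len_add {x y z : W} (h : Btw X.T x z y) :
    len X.T X.l x y = len X.T X.l x z + len X.T X.l z y :=
  EG.len_add X.acyc h

theorem len_nonneg (x y : W) : 0 ≤ len X.T X.l x y := EG.len_nonneg X.acyc X.wt.one_le x y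

theorem len_symm (x y : W) : len X.T X.l x y = len X.T X.l y x :=
  EG.len_symm X.acyc X.wt.symm x y

end Cx

end EG
end CPOR
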