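import Pool.Agent.P.MP_2cb329_al.EG.S

/-! Section F9: the run decomposition. -/

set_option autoImplicit false

namespace CPOR
namespace EG
open ZT MulAction

variable {G W : Type} [Group G] [MulAction G W] {X : Cx G W}

/-- Counting along a chain in which only the steps in `B` cost something. -/
theorem chain_cost (P : ℕ → ℕ → Prop) (n A k₀ : ℕ) (B : Set ℕ) (hB : B.Finite)
    (hm : ∀ r k k', k ≤ k' → P r k → P r k') (h0 : P 0 k₀)
    (h1 : ∀ r < n, r ∉ B → ∀ k, P r k → P (r + 1) k)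
    (h2 : ∀ r < n, ∀ k, P r k → P (r + 1) (k + A)) : P n (k₀ + A * B.ncard) := by
  have key : ∀ r ≤ n, P r (k₀ + A * (B ∩ Set.Iio r).ncard) := by
    intro r
    induction r with
    | zero => exact fun _ => hm _ _ _ (Nat.le_add_right _ _) h0
    | succ r ih =>
      intro hr
      have h3 := ih (by omega)
      have hf : (B ∩ Set.Iio (r + 1)).Finite := hB.inter_of_left _
      by_cases hrB : r ∈ B
      · refine hm _ _ _ ?_ (h2 r (by omega) _ h3)
        have e : B ∩ Set.Iio (r + 1) = insert r (B ∩ Set.Iio r) := by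
          ext i
          simp only [Set.mem_inter_iff, Set.mem_Iio, Set.mem_insert_iff]
          constructor
          · rintro ⟨a, b⟩
            rcases Nat.lt_succ_iff_lt_or_eq.1 b with b | b
            · exact Or.inr ⟨a, b⟩
            · exact Or.inl b
          · rintro (rfl | ⟨a, b⟩)
            · exact ⟨hrB, Nat.lt_succ_self _⟩
            · exact ⟨a, by omega⟩
        rw [e, Set.ncard_insert_of_notMem (by simp) (hB.inter_of_left _), Nat.mul_succ]
        omega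
      · refine hm _ _ _ ?_ (h1 r (by omega) hrB _ h3)
        refine Nat.add_le_add_left (Nat.mul_le_mul_left _ (Set.ncard_le_ncard ?_ hf)) _
        exact Set.inter_subset_inter_right _ (Set.Iio_subset_Iio (Nat.le_succ r))
  refine hm _ _ _ ?_ (key n le_rfl)
  exact Nat.add_le_add_left (Nat.mul_le_mul_left _ (Set.ncard_le_ncard Set.inter_subset_left hB)) _

/-- If the `m` values `z 1, ..., z m` cover a set with at least `m - K` elements, all but `2 K`
indices are alone in their fibre and map into the set. -/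
theorem bad_count {α : Type} (z : ℕ → α) (m K : ℕ) (I : Set α) (hI : I.Finite)
    (hc : ∀ v ∈ I, ∃ i, 1 ≤ i ∧ i ≤ m ∧ v = z i) (hK : m ≤ I.ncard + K) :
    {r | 1 ≤ r ∧ r ≤ m ∧ ¬ (z r ∈ I ∧ ∀ i, 1 ≤ i → i ≤ m → z i = z r → i = r)}.ncard ≤ 2 * K := by
  classical
  let Q : ℕ → Prop := fun r => z r ∈ I ∧ ∀ i, 1 ≤ i → i ≤ m → z i = z r → i = r
  let J : Finset ℕ := Finset.Icc 1 m
  let Good := J.filter Q
  let Bad := J.filter fun r => ¬ Q r
  have e : {r | 1 ≤ r ∧ r ≤ m ∧ ¬ (z r ∈ I ∧ ∀ i, 1 ≤ i → i ≤ m → z i = z r → i = r)} =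
      (Bad : Set ℕ) := by
    ext r
    simp only [Bad, J, Q, Set.mem_ofPred_eq, Finset.coe_filter, Finset.mem_Icc, and_assoc]
  rw [e, Set.ncard_coe_finset]
  have h1 : Good.card + Bad.card = m := by
    have := Finset.card_filter_add_card_filter_not (s := J) Q
    simpa [J] using this
  let I₂ := hI.toFinset \ Good.image z
  have h2 : I.ncard ≤ I₂.card + Good.card := by
    rw [Set.ncard_eq_toFinset_card I hI]
    exact (Finset.le_card_sdiff _ _ |> Nat.sub_le_iff_le_add.1).trans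
      (Nat.add_le_add_left Finset.card_image_le _)
  have h3 : 2 * I₂.card ≤ (Bad.filter fun r => z r ∈ I₂).card := by
    refine Finset.mul_card_image_le_card_of_maps_to (f := z)
      (fun a ha => (Finset.mem_filter.1 ha).2) 2 fun v hv => ?_
    obtain ⟨hv1, hv2⟩ := Finset.mem_sdiff.1 hv
    have hvI : v ∈ I := hI.mem_toFinset.1 hv1
    obtain ⟨i, i1, i2, rfl⟩ := hc v hvI
    have hb : ∀ j, 1 ≤ j → j ≤ m → z j = z i → ¬ Q j := fun j j1 j2 j3 hq =>
      hv2 (Finset.mem_image.2 ⟨j, Finset.mem_filter.2 ⟨Finset.mem_Icc.2 ⟨j1, j2⟩, hq⟩, j3⟩)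
    have hm : ∀ j, 1 ≤ j → j ≤ m → z j = z i →
        j ∈ (Bad.filter fun r => z r ∈ I₂).filter fun a => z a = z i := fun j j1 j2 j3 =>
      Finset.mem_filter.2 ⟨Finset.mem_filter.2 ⟨Finset.mem_filter.2
        ⟨Finset.mem_Icc.2 ⟨j1, j2⟩, hb j j1 j2 j3⟩, j3 ▸ hv⟩, j3⟩
    have h4 : ∃ j, 1 ≤ j ∧ j ≤ m ∧ z j = z i ∧ j ≠ i := by
      by_contra h
      push Not at h
      exact hb i i1 i2 rfl ⟨hvI, h⟩
    obtain ⟨j, j1, j2, j3, j4⟩ := h4
    exact Finset.one_lt_card.2 ⟨j, hm j j1 j2 j3, i, hm i i1 i2 rfl, j4⟩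
  have h4 := Finset.card_filter_le Bad fun r => z r ∈ I₂
  omega

namespace YD

variable (D : YD X)

theorem ch_mono {M M' : ℕ} {e e' : W × W} (h : D.Ch M e e') (hM : M ≤ M') : D.Ch M' e e' := by
  obtain ⟨n, hn, h⟩ := h
  exact ⟨n, hn.trans hM, h⟩

theorem ch_trans {M M' : ℕ} {e e' e'' : W × W} (h : D.Ch M e e') (h' : D.Ch M' e' e'') :
    D.Ch (M + M') e e'' := by
  obtain ⟨n, hn, a, a0, an, a1, a2⟩ := h
  obtain ⟨n', hn', b, b0, bn, b1, b2⟩ := h'
  have hb : ∀ i, n ≤ i → (if i ≤ n then a i else b (i - n)) = b (i - n) := by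
    intro i hi
    split_ifs with h
    · rw [le_antisymm h hi, Nat.sub_self, an, b0]
    · rfl
  refine ⟨n + n', by omega, fun i => if i ≤ n then a i else b (i - n), by simpa using a0, ?_,
    fun i hi => ?_, fun i hi => ?_⟩
  · beta_reduce
    rw [hb _ (by omega), Nat.add_sub_cancel_left, bn]
  · beta_reduce
    split_ifs with h
    · exact a1 i h
    · exact b1 _ (by omega)
  · beta_reduce
    by_cases h : i < n
    · rw [if_pos h.le, if_pos (by omega)]
      exact a2 i h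
    · rw [hb _ (by omega), hb _ (by omega), show i + 1 - n = i - n + 1 by omega]
      exact b2 _ (by omega)

theorem ch_step {e e' : W × W} (h : X.T.Adj e.1 e.2) (h' : X.T.Adj e'.1 e'.2)
    (hs : D.Step e e') : D.Ch 1 e e' := by
  refine ⟨1, le_rfl, fun i => if i = 0 then e else e', by simp, by simp, fun i _ => ?_,
    fun i hi => ?_⟩
  · beta_reduce
    split_ifs
    · exact h
    · exact h'
  · obtain rfl : i = 0 := by omega
    simpa using hs

theorem ch_dist {e e' : W × W} (h : X.T.Adj e.1 e.2) (h' : X.T.Adj e'.1 e'.2)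
    (hr : X.T.Reachable e.1 e'.1) {n : ℕ} (hn : X.T.dist e.1 e'.1 ≤ n) :
    D.Ch (2 * n + 1) e e' := by
  induction n generalizing e with
  | zero => exact D.ch_step h h' (Or.inl (eq_of_dist_zero hr (by omega)))
  | succ n ih =>
    by_cases h0 : X.T.dist e.1 e'.1 ≤ n
    · exact D.ch_mono (ih h hr h0) (by omega)
    obtain ⟨p, hp, hd⟩ := exists_btw_dist hr (i := 1) (by omega)
    have ha : X.T.Adj e.1 p := adj_of_dist_one hd
    have c1 := D.ch_step (e' := (e.1, p)) h ha (Or.inl rfl)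
    have c2 := D.ch_step (e := (e.1, p)) (e' := (p, e.1)) ha ha.symm (Or.inr (Or.inl rfl))
    have c3 := ih (e := (p, e.1)) ha.symm hp.2.1 (by
      have := hp.2.2
      show X.T.dist p e'.1 ≤ n
      omega)
    exact D.ch_mono (D.ch_trans (D.ch_trans c1 c2) c3) (by omega)

end YD

/-- A junction between two non-empty consecutive pieces is the median. -/
theorem junction {q q' q'' z z' z'' x x' : W} (h1 : Btw X.T q z z') (h2 : Btw X.T z z' q')
    (h3 : Btw X.T q' z' z'') (h4 : Btw X.T z' z'' q'') (h5 : Btw X.T x z z')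
    (h6 : Btw X.T x z' z'') (h7 : Btw X.T x z'' x') (hne : z ≠ z') (hne' : z' ≠ z'')
    (hi : z' ∈ Ill X.T X.f x x') : med X.T q q' q'' = z' ∧ z' ∈ Ill X.T X.f q q'' := by
  have hT := X.acyc
  have a1 := (h6.trans_left h5).2
  obtain ⟨a2, a3⟩ := h1.glue hT a1 hne
  refine ⟨med_eq hT (h1.glue hT h2 hne).2 (h3.glue hT h4 hne').1 (a3.glue hT h4 hne').1, ?_⟩
  exact X.ill_ext (X.ill_restr hi h5 (h7.trans_left h6).2 hne hne') a2 (a1.glue hT h4 hne').2

theorem nb_union (S : ℕ → Set ℕ) (k n : ℕ) (h : ∀ t < n, (S t).Finite ∧ (S t).ncard ≤ k) :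
    ∃ B : Set ℕ, B.Finite ∧ B.ncard ≤ n * k ∧ ∀ t < n, S t ⊆ B := by
  induction n with
  | zero => exact ⟨∅, Set.finite_empty, by simp, fun t ht => absurd ht (Nat.not_lt_zero _)⟩
  | succ n ih =>
    obtain ⟨B, h1, h2, h3⟩ := ih fun t ht => h t (Nat.lt_succ_of_lt ht)
    obtain ⟨h4, h5⟩ := h n (Nat.lt_succ_self n)
    refine ⟨B ∪ S n, h1.union h4, (Set.ncard_union_le _ _).trans ?_, fun t ht => ?_⟩
    · rw [Nat.succ_mul]
      omega
    · rcases Nat.lt_succ_iff_lt_or_eq.1 ht with ht | rfl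
      · exact (h3 t ht).trans Set.subset_union_left
      · exact Set.subset_union_right

/-- A dart lies in at most one piece. -/
theorem nb_deep (z : ℕ → W) (n : ℕ) {x : W} (hz : ∀ i j, i ≤ j → j ≤ n → Btw X.T x (z i) (z j))
    (S : Set (W × W)) (hS : S.Finite) :
    {r | r < n ∧ ∃ e ∈ S, Sep X.T e (z r) (z (r + 1))}.ncard ≤ S.ncard := by
  classical
  have key : ∀ r r' e, r < r' → r' < n → Sep X.T e (z r) (z (r + 1)) →
      Sep X.T e (z r') (z (r' + 1)) → False := by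
    intro r r' e h1 h2 h3 h4
    have h5 := sep_ext_left X.acyc h3 (hz r (r + 1) (by omega) (by omega))
    exact sep_not_both (sep_ext_right X.acyc h5 (hz (r + 1) r' (by omega) (by omega))) h4
  let φ : ℕ → W × W := fun r =>
    if h : ∃ e ∈ S, Sep X.T e (z r) (z (r + 1)) then h.choose else (x, x)
  have hφ : ∀ r, (∃ e ∈ S, Sep X.T e (z r) (z (r + 1))) →
      φ r ∈ S ∧ Sep X.T (φ r) (z r) (z (r + 1)) := by
    intro r h
    simp only [φ, dif_pos h]
    exact h.choose_spec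
  refine Set.ncard_le_ncard_of_injOn φ (fun r hr => (hφ r hr.2).1) (fun r hr r' hr' he => ?_) hS
  have h1 := (hφ r hr.2).2
  have h2 := (hφ r' hr'.2).2
  rw [← he] at h2
  rcases lt_trichotomy r r' with h | h | h
  · exact (key r r' _ h hr'.1 h1 h2).elim
  · exact h
  · exact (key r' r _ h hr.1 h2 h1).elim

/-- The pieces at one time. -/
theorem nb_time {K m : ℕ} (q : ℕ → W) (hq : ∀ i ≤ m, LS X.T X.f (q i) (q (i + 1)))
    (hD : (X.Deep (q 0) (q (m + 1))).ncard ≤ K)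
    (hI : m ≤ (Ill X.T X.f (q 0) (q (m + 1))).ncard + K) :
    ∃ (z : ℕ → W) (S : Set ℕ), S.Finite ∧ S.ncard ≤ 5 * K ∧ z 0 = q 0 ∧ z (m + 1) = q (m + 1) ∧
      (∀ r ≤ m, X.T.Reachable (z r) (z (r + 1)) ∧ X.T.dist (z r) (z (r + 1)) ≤ K + 2 * X.c) ∧
      ∀ k, k + 2 ≤ m → k + 1 ∉ S →
        med X.T (q k) (q (k + 1)) (q (k + 2)) = z (k + 1) ∧
        z (k + 1) ∈ Ill X.T X.f (q k) (q (k + 2)) ∧
        med X.T (q (k + 1)) (q (k + 2)) (q (k + 3)) = z (k + 2) ∧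
        z (k + 2) ∈ Ill X.T X.f (q (k + 1)) (q (k + 3)) ∧
        Btw X.T (q (k + 1)) (z (k + 1)) (z (k + 2)) ∧ z (k + 1) ≠ z (k + 2) ∧
        X.T.dist (z (k + 1)) (z (k + 2)) ≤ 2 * X.c := by
  obtain ⟨z, h0, hn, hb, hmono, hp⟩ := exists_dec X.acyc q (m + 1)
    fun i hi => (hq i (by omega)).1
  have hdist : ∀ r ≤ m, X.T.dist (z r) (z (r + 1)) ≤
      {e | e ∈ X.Deep (q 0) (q (m + 1)) ∧ Sep X.T e (z r) (z (r + 1))}.ncard + 2 * X.c := by
    intro r hr
    by_cases he : z r = z (r + 1)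
    · rw [he, SimpleGraph.dist_self]
      exact Nat.zero_le _
    rcases hp r (by omega) with h | ⟨h1, h2⟩
    · exact absurd h he
    obtain ⟨h3, h4⟩ := h1.glue X.acyc h2 he
    have h5 := hmono r (r + 1) (by omega) (by omega)
    have h6 := hb (r + 1) (by omega)
    exact X.dist_le_deep h5 (h6.trans_left h5).2 h6 (X.ls_sub (hq r hr) h3 h4)
  let Bad : Set ℕ := {r | 1 ≤ r ∧ r ≤ m ∧ ¬ (z r ∈ Ill X.T X.f (q 0) (q (m + 1)) ∧
    ∀ i, 1 ≤ i → i ≤ m → z i = z r → i = r)}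
  let DP : Set ℕ := {r | r < m + 1 ∧ ∃ e ∈ X.Deep (q 0) (q (m + 1)), Sep X.T e (z r) (z (r + 1))}
  have hBf : Bad.Finite := (Set.finite_Iic m).subset fun r hr => hr.2.1
  have hBc : Bad.ncard ≤ 2 * K := bad_count z m K _ (X.ill_finite _ _)
    (fun v hv => X.ill_sub_junction q z m hq h0 hn hmono hp hv) hI
  have hDf : DP.Finite := (Set.finite_Iio (m + 1)).subset fun r hr => hr.1
  have hDc : DP.ncard ≤ K := (nb_deep z (m + 1) hmono _ (X.deep_finite _ _)).trans hD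
  refine ⟨z, Bad ∪ (fun r => r - 1) '' Bad ∪ DP, (hBf.union (hBf.image _)).union hDf, ?_, h0, hn,
    fun r hr => ⟨?_, ?_⟩, fun k hk hS => ?_⟩
  · have a1 := Set.ncard_union_le (Bad ∪ (fun r => r - 1) '' Bad) DP
    have a2 := Set.ncard_union_le Bad ((fun r => r - 1) '' Bad)
    have a3 := Set.ncard_image_le (f := fun r : ℕ => r - 1) hBf
    omega
  · exact (hmono r (r + 1) (by omega) (by omega)).2.1
  · refine (hdist r hr).trans (Nat.add_le_add_right (le_trans ?_ hD) _)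
    exact Set.ncard_le_ncard (fun e he => he.1) (X.deep_finite _ _)
  have g1 : z (k + 1) ∈ Ill X.T X.f (q 0) (q (m + 1)) ∧
      ∀ i, 1 ≤ i → i ≤ m → z i = z (k + 1) → i = k + 1 := by
    by_contra h
    exact hS (Or.inl (Or.inl ⟨by omega, by omega, h⟩))
  have g2 : z (k + 2) ∈ Ill X.T X.f (q 0) (q (m + 1)) ∧
      ∀ i, 1 ≤ i → i ≤ m → z i = z (k + 2) → i = k + 2 := by
    by_contra h
    exact hS (Or.inl (Or.inr ⟨k + 2, ⟨by omega, by omega, h⟩, rfl⟩))
  have n1 : z k ≠ z (k + 1) := by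
    intro h
    rcases Nat.eq_zero_or_pos k with rfl | hk0
    · exact (X.ill_btw g1.1).2.1 (h.symm.trans h0)
    · have := g1.2 k hk0 (by omega) h
      omega
  have n2 : z (k + 1) ≠ z (k + 2) := by
    intro h
    have := g2.2 (k + 1) (by omega) (by omega) h
    omega
  have n3 : z (k + 2) ≠ z (k + 3) := by
    intro h
    by_cases hk0 : k + 3 = m + 1
    · exact (X.ill_btw g2.1).2.2 (h.trans (hk0 ▸ hn))
    · have := g2.2 (k + 3) (by omega) (by omega) h.symm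
      omega
  obtain ⟨p1, p1'⟩ := (hp k (by omega)).resolve_left n1
  obtain ⟨p2, p2'⟩ := (hp (k + 1) (by omega)).resolve_left n2
  obtain ⟨p3, p3'⟩ := (hp (k + 2) (by omega)).resolve_left n3
  obtain ⟨j1, j1'⟩ := junction p1 p1' p2 p2' (hmono k (k + 1) (by omega) (by omega))
    (hmono (k + 1) (k + 2) (by omega) (by omega)) (hb (k + 2) (by omega)) n1 n2 g1.1
  obtain ⟨j2, j2'⟩ := junction p2 p2' p3 p3' (hmono (k + 1) (k + 2) (by omega) (by omega))
    (hmono (k + 2) (k + 3) (by omega) (by omega)) (hb (k + 3) (by omega)) n2 n3 g2.1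
  refine ⟨j1, j1', j2, j2', p2, n2, ?_⟩
  have e : {e | e ∈ X.Deep (q 0) (q (m + 1)) ∧ Sep X.T e (z (k + 1)) (z (k + 1 + 1))} = ∅ :=
    Set.eq_empty_of_forall_notMem fun e he => hS (Or.inr ⟨by omega, e, he.1, he.2⟩)
  have := hdist (k + 1) (by omega)
  rw [e, Set.ncard_empty, Nat.zero_add] at this
  exact this

/-- The pieces at all times.  `y` from `exists_pieces`, `z t` from `exists_dec` applied to
`f^[t] (y i)`; `B` collects `0`, `m`, the indices `r` such that `r` or `r + 1` is bad at some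
time (`ill_sub_junction`, `bad_count`, `ill_iter_le`) and the pieces that contain a deep dart at
some time (`dist_le_deep`); for the other indices use `junction`. -/
theorem pieces (τs : ℕ) : ∃ Γ, Bd Γ ∧ ∀ (K : ℕ) (x x' : W), X.HYP τs K x x' →
    ∃ (m : ℕ) (y : ℕ → W) (z : ℕ → ℕ → W) (B : Set ℕ), B.Finite ∧ B.ncard ≤ Γ K ∧
      (∀ t ≤ τs, z t 0 = X.f^[t] x ∧ z t (m + 1) = X.f^[t] x' ∧
        ∀ r ≤ m, X.T.Reachable (z t r) (z t (r + 1)) ∧ X.T.dist (z t r) (z t (r + 1)) ≤ Γ K) ∧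
      ∀ r ≤ m, r ∉ B → 1 ≤ r ∧ r + 1 ≤ m ∧
        LL X.T X.f (y (r - 1)) (y r) (y (r + 1)) ∧ LL X.T X.f (y r) (y (r + 1)) (y (r + 2)) ∧
        ∀ t ≤ τs, Al X.T X.f (y (r - 1)) (y r) (y (r + 1)) t ∧
          Al X.T X.f (y r) (y (r + 1)) (y (r + 2)) t ∧
          vt X.T X.f (y (r - 1)) (y r) (y (r + 1)) t = z t r ∧
          vt X.T X.f (y r) (y (r + 1)) (y (r + 2)) t = z t (r + 1) ∧
          Btw X.T (X.f^[t] (y r)) (z t r) (z t (r + 1)) ∧ z t r ≠ z t (r + 1) ∧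
          X.T.dist (z t r) (z t (r + 1)) ≤ 2 * X.c := by
  refine ⟨fun K => (τs + 1) * (5 * K) + 2 + (K + 2 * X.c),
    (((Bd.const _).mul ((Bd.const 5).mul Bd.id)).add (Bd.const 2)).add (Bd.id.add (Bd.const _)),
    fun K x x' ⟨hr, hD, hI⟩ => ?_⟩
  obtain ⟨y, y0, yn, ymono, yls⟩ := X.exists_pieces hr
  set m := (Ill X.T X.f x x').ncard with hm
  have key : ∀ t, t ≤ τs → _ := fun t ht => nb_time (X := X) (K := K) (m := m)
    (fun i => X.f^[t] (y i)) (fun i hi => X.ls_iter t (yls i hi))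
    (by
      show (X.Deep (X.f^[t] (y 0)) (X.f^[t] (y (m + 1)))).ncard ≤ K
      rw [y0, yn]
      exact hD t ht)
    (by
      show m ≤ (Ill X.T X.f (X.f^[t] (y 0)) (X.f^[t] (y (m + 1)))).ncard + K
      rw [y0, yn]
      have h1 := X.ill_iter_le (τs - t) (X.reach_iter t hr)
      rw [← Function.iterate_add_apply, ← Function.iterate_add_apply,
        Nat.sub_add_cancel ht] at h1
      omega)
  have : Nonempty W := ⟨x⟩
  choose! z S hSf hSc z0 zn zd zg using key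
  obtain ⟨B, hBf, hBc, hB⟩ := nb_union S (5 * K) (τs + 1)
    fun t ht => ⟨hSf t (by omega), hSc t (by omega)⟩
  refine ⟨m, y, z, B ∪ {0, m}, hBf.union (Set.toFinite _), ?_, fun t ht => ⟨?_, ?_, ?_⟩,
    fun r hr hrB => ?_⟩
  · have a1 := Set.ncard_union_le B {0, m}
    have a2 := Set.ncard_insert_le 0 ({m} : Set ℕ)
    rw [Set.ncard_singleton] at a2
    show _ ≤ (τs + 1) * (5 * K) + 2 + (K + 2 * X.c)
    omega
  · rw [z0 t ht, y0]
  · rw [zn t ht, yn]
  · intro r hr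
    refine ⟨(zd t ht r hr).1, (zd t ht r hr).2.trans ?_⟩
    show _ ≤ (τs + 1) * (5 * K) + 2 + (K + 2 * X.c)
    omega
  have r0 : r ≠ 0 := fun h => hrB (Or.inr (Or.inl h))
  have rm : r ≠ m := fun h => hrB (Or.inr (Or.inr h))
  obtain ⟨k, rfl⟩ := Nat.exists_eq_succ_of_ne_zero r0
  have hll : ∀ i, i + 1 ≤ m → LL X.T X.f (y i) (y (i + 1)) (y (i + 2)) := fun i hi =>
    ⟨yls i (by omega), yls (i + 1) hi,
      ((ymono (i + 1) (i + 2) (by omega) (by omega)).trans_left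
        (ymono i (i + 1) (by omega) (by omega))).2⟩
  refine ⟨by omega, by omega, hll k hr, hll (k + 1) (by omega), fun t ht => ?_⟩
  obtain ⟨j1, j1', j2, j2', j3, j4, j5⟩ := zg t ht k (by omega)
    fun h => hrB (Or.inl (hB t (by omega) h))
  refine ⟨?_, ?_, j1, j2, j3, j4, j5⟩
  · show med X.T (X.f^[t] (y k)) (X.f^[t] (y (k + 1))) (X.f^[t] (y (k + 2))) ∈ _
    rw [j1]
    exact j1'
  · show med X.T (X.f^[t] (y (k + 1))) (X.f^[t] (y (k + 2))) (X.f^[t] (y (k + 3))) ∈ _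
    rw [j2]
    exact j2'

theorem nb_dart {a : W × W} (h : X.T.Adj a.1 a.2) {w : W} (hr : X.T.Reachable a.1 w) :
    ∃ w', X.T.Adj w w' := by
  by_cases e : w = a.1
  · exact ⟨a.2, e ▸ h⟩
  · exact ⟨_, (nxt_spec X.acyc hr.symm e).1⟩

/-- (RD) Call `r` alive if `AI (y (r-1)) (y r) (y (r+1))` and the turning point at time `τ` is
`z τ r`; choose rays `d r`, `d' r` once for every alive `r`.  `chain_cost` with the invariant:
for alive `r` some dart reached by the chain is carried by a vertex in the component of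
`ι (d r)`, otherwise every dart at `z τ r` is reached. -/
theorem rd : ∃ τ τs N : ℕ, 0 < N ∧ ∀ D : YD X, D.Rays N → D.RD τ τs := by
  obtain ⟨τ, N, hN, hray⟩ := X.exists_rays
  obtain ⟨τc, hτc⟩ := X.ai_of_al
  obtain ⟨τ₁, hlink⟩ := X.link (2 * X.c) τ hN
  obtain ⟨th, hth⟩ := X.qq_unif
  obtain ⟨Γ, hΓ, hp⟩ := pieces (X := X) (τ + τc + τ₁)
  refine ⟨τ, τ + τc + τ₁, N, hN, fun D ⟨ι, hcar, hre⟩ =>
    ⟨fun K => 2 * th + 2 + (4 * th + 4 + 2 * Γ K) * Γ K + (2 * th + 3),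
      ((Bd.const _).add (((Bd.const _).add ((Bd.const 2).mul hΓ)).mul hΓ)).add (Bd.const _),
      fun K x x' hyp e e' he he' e1 e1' => ?_⟩⟩
  obtain ⟨m, y, z, B, hBf, hBc, hz, hg⟩ := hp K x x' hyp
  obtain ⟨z0, zn, zd⟩ := hz τ (by omega)
  let Alive : ℕ → Prop := fun r => AI X.T X.f (y (r - 1)) (y r) (y (r + 1)) ∧
    vt X.T X.f (y (r - 1)) (y r) (y (r + 1)) τ = z τ r
  have hex : ∀ r, Alive r → _ := fun r h => hray _ _ _ h.1
  choose d d' hd hd' hs hra using hex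
  have hnear : ∀ r (h : Alive r), X.T.Adj (d r h 0).1 (d r h 0).2 ∧
      X.T.Reachable (d r h 0).1 (z τ r) ∧ X.T.dist (d r h 0).1 (z τ r) ≤ th := by
    intro r h
    have h1 : QQ X.T X.f (d r h 0) (vt X.T X.f (y (r - 1)) (y r) (y (r + 1)) τ) (d' r h 0) :=
      (hra r h 0).1
    rw [h.2] at h1
    exact ⟨h1.1, h1.2.2.1.reach, (hth _ _ _ h1).2.2.1⟩
  let Near : ℕ → ℕ → Prop := fun r k => ∃ a : W × W, X.T.Adj a.1 a.2 ∧ a.1 = z τ r ∧ D.Ch k e a
  let P : ℕ → ℕ → Prop := fun r k =>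
    (∀ h : Alive r, ∃ a w, D.Ch k e a ∧ D.Car a w ∧ D.H.Reachable w (ι (d r h) (hd r h))) ∧
      (¬ Alive r → Near r k)
  have hPN : ∀ r k, P r k → Near r (k + (2 * th + 2)) := by
    intro r k hP
    by_cases h : Alive r
    · obtain ⟨a, w, c1, c2, c3⟩ := hP.1 h
      obtain ⟨n1, n2, n3⟩ := hnear r h
      obtain ⟨w', hw'⟩ := nb_dart n1 n2
      have c4 := D.ch_step (D.car_adj a w c2).1 n1
        (Or.inr (Or.inr ⟨w, _, c2, hcar _ (hd r h), c3⟩))
      have c5 := D.ch_dist (e' := (z τ r, w')) n1 hw' n2 n3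
      exact ⟨(z τ r, w'), hw', rfl,
        D.ch_mono (D.ch_trans (D.ch_trans c1 c4) c5) (by omega)⟩
    · obtain ⟨a, c1, c2, c3⟩ := hP.2 h
      exact ⟨a, c1, c2, D.ch_mono c3 (by omega)⟩
  have hNP : ∀ r k, Near r k → P r (k + (2 * th + 1)) := by
    rintro r k ⟨a, c1, c2, c3⟩
    refine ⟨fun h => ?_, fun _ => ⟨a, c1, c2, D.ch_mono c3 (by omega)⟩⟩
    obtain ⟨n1, n2, n3⟩ := hnear r h
    have c5 := D.ch_dist c1 n1 (c2 ▸ n2.symm) (n := th) (by
      rw [c2, SimpleGraph.dist_comm]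
      exact n3)
    exact ⟨_, _, D.ch_trans c3 c5, hcar _ (hd r h), SimpleGraph.Reachable.refl _⟩
  have hNN : ∀ r ≤ m, ∀ k, Near r k → Near (r + 1) (k + (2 * Γ K + 1)) := by
    rintro r hr k ⟨a, c1, c2, c3⟩
    obtain ⟨n2, n3⟩ := zd r hr
    rw [← c2] at n2 n3
    obtain ⟨w', hw'⟩ := nb_dart c1 n2
    exact ⟨(z τ (r + 1), w'), hw', rfl, D.ch_trans c3 (D.ch_dist c1 hw' n2 n3)⟩
  have hmono : ∀ r k k', k ≤ k' → P r k → P r k' := by
    intro r k k' hk hP
    refine ⟨fun h => ?_, fun h => ?_⟩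
    · obtain ⟨a, w, c1, c2, c3⟩ := hP.1 h
      exact ⟨a, w, D.ch_mono c1 hk, c2, c3⟩
    · obtain ⟨a, c1, c2, c3⟩ := hP.2 h
      exact ⟨a, c1, c2, D.ch_mono c3 hk⟩
  have hfin := chain_cost P (m + 1) (4 * th + 4 + 2 * Γ K) (2 * th + 2) B hBf hmono
    (hmono _ _ _ (by omega) (hNP 0 1 ⟨e, he, e1.trans z0.symm, D.ch_step he he (Or.inl rfl)⟩))
    (by
      intro r hr hrB k hP
      obtain ⟨-, -, l1, l2, ht⟩ := hg r (by omega) hrB
      have a1 : Alive r := ⟨hτc _ _ _ l1 fun t h => (ht t (by omega)).1, (ht τ (by omega)).2.2.1⟩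
      have a2 : Alive (r + 1) :=
        ⟨hτc _ _ _ l2 fun t h => (ht t (by omega)).2.1, (ht τ (by omega)).2.2.2.1⟩
      refine ⟨fun h => ?_, fun h => absurd a2 h⟩
      obtain ⟨a, w, c1, c2, c3⟩ := hP.1 a1
      refine ⟨a, w, c1, c2, (c3.trans (hre _ _ _ (hd' r a1) (Or.inl (hs r a1)))).trans
        (hre _ _ _ _ (Or.inr ?_))⟩
      refine hlink _ _ _ _ _ _ _ _ a1.1 h.1 (hra r a1) (hra (r + 1) h) (hd' r a1) (hd (r + 1) h)
        fun t h' => ?_
      obtain ⟨-, -, v1, v2, v3, v4, v5⟩ := ht t (by omega)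
      have v2' : vt X.T X.f (y r) (y (r + 1)) (y (r + 1 + 1)) t = z t (r + 1) := v2
      rw [v1, v2']
      exact ⟨v3, v4, v5⟩)
    (fun r hr k hP => hmono _ _ _ (by omega) (hNP _ _ (hNN r (by omega) _ (hPN r k hP))))
  obtain ⟨a, c1, c2, c3⟩ := hPN _ _ hfin
  have c4 := D.ch_step c1 he' (Or.inl (c2.trans (zn.trans e1'.symm)))
  refine D.ch_mono (D.ch_trans c3 c4) ?_
  have := Nat.mul_le_mul_left (4 * th + 4 + 2 * Γ K) hBc
  show _ ≤ 2 * th + 2 + (4 * th + 4 + 2 * Γ K) * Γ K + (2 * th + 3)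
  omega

end EG
end CPOR
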