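import Pool.Agent.P.MP_2cb329_al.EG.L

/-! Section F9: the potential (deep darts) and the number of illegal turns. -/

set_option autoImplicit false

namespace CPOR
namespace EG
open ZT MulAction

variable {G W : Type} [Group G] [MulAction G W] (X : Cx G W)

namespace Cx

theorem pa_pos {x y a b : W} {e : W × W} (h : Sep X.T e x y) (ha : Btw X.T x a e.1)
    (hb : Btw X.T e.2 b y) : Btw X.T a e.1 b ∧ Btw X.T a e.2 b ∧ Btw X.T x a b ∧ Btw X.T a b y ∧
      Btw X.T a e.1 e.2 ∧ Btw X.T e.1 e.2 b := by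
  have hs := sep_restr X.acyc h ha hb
  have k1 := Btw.trans_right (sep_right X.acyc h) hb
  have k2 := Btw.trans_left h.2.1 ha
  have k3 := Btw.trans_left k1.2 k2.1
  exact ⟨sep_left X.acyc hs, sep_right X.acyc hs, k3.1, (Btw.trans_left k1.1 k3.1).2, hs.2.1,
    hs.2.2⟩

theorem pa_smul (g : G) {x y : W} {e : W × W} (h : e ∈ X.Deep x y) :
    g • e ∈ X.Deep (g • x) (g • y) := by
  obtain ⟨hs, a, b, ha, hb, hl, h1, h2⟩ := h
  refine ⟨(sep_smul_iff X.gf.acts g).2 hs, g • a, g • b, X.gf.acts.btw g ha, X.gf.acts.btw g hb,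
    X.ls_smul g hl, ?_, ?_⟩
  · rw [Prod.smul_fst, len_smul X.gf X.wt]; exact h1
  · rw [Prod.smul_snd, len_smul X.gf X.wt]; exact h2

theorem pa_short {a p : W} (h : X.T.Reachable a p) (hc : (X.c : ℝ) ≤ len X.T X.l a p) :
    ∃ a', Btw X.T a a' p ∧ (X.c : ℝ) ≤ len X.T X.l a' p ∧ X.T.dist a' p ≤ X.c := by
  rcases le_total (X.T.dist p a) X.c with h1 | h1
  · exact ⟨a, btw_left h, hc, by rwa [SimpleGraph.dist_comm]⟩
  · obtain ⟨a', k1, k2⟩ := exists_btw_dist h.symm h1
    rw [SimpleGraph.dist_comm] at k2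
    refine ⟨a', k1.symm, ?_, k2.le⟩
    rw [← k2]
    exact X.dist_le_len k1.1.symm

theorem deep_finite (x y : W) : (X.Deep x y).Finite := by
  exact (sep_finite X.acyc x y).subset fun e he => he.1

theorem deep_smul (g : G) {x y : W} {e : W × W} :
    g • e ∈ X.Deep (g • x) (g • y) ↔ e ∈ X.Deep x y := by
  refine ⟨fun h => ?_, X.pa_smul g⟩
  have := X.pa_smul g⁻¹ h
  rwa [inv_smul_smul, inv_smul_smul, inv_smul_smul] at this

theorem pa_image (g : G) (x y : W) :
    X.Deep (g • x) (g • y) = (fun e => g • e) '' X.Deep x y := by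
  ext e
  constructor
  · intro h
    refine ⟨g⁻¹ • e, (X.deep_smul g).1 ?_, smul_inv_smul g e⟩
    rwa [smul_inv_smul]
  · rintro ⟨e, he, rfl⟩
    exact X.pa_smul g he

theorem pa_pot (x y : W) : X.Pot x y = ∑ e ∈ (X.deep_finite x y).toFinset, X.l e :=
  finsum_mem_eq_finite_toFinset_sum _ _

theorem deep_ncard_smul (g : G) (x y : W) :
    (X.Deep (g • x) (g • y)).ncard = (X.Deep x y).ncard := by
  rw [X.pa_image, Set.ncard_image_of_injective _ (MulAction.injective g)]

theorem pot_smul (g : G) (x y : W) : X.Pot (g • x) (g • y) = X.Pot x y := by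
  unfold Pot
  rw [X.pa_image, finsum_mem_image (MulAction.injective g).injOn]
  exact finsum_mem_congr rfl fun e he => X.wt.smul g e he.1.1

theorem ill_ncard_smul (g : G) (x y : W) :
    (Ill X.T X.f (g • x) (g • y)).ncard = (Ill X.T X.f x y).ncard := by
  have : Ill X.T X.f (g • x) (g • y) = (fun v => g • v) '' Ill X.T X.f x y := by
    ext v
    constructor
    · intro h
      refine ⟨g⁻¹ • v, (X.ill_smul g).1 ?_, smul_inv_smul g v⟩
      rwa [smul_inv_smul]
    · rintro ⟨v, hv, rfl⟩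
      exact (X.ill_smul g).2 hv
  rw [this, Set.ncard_image_of_injective _ (MulAction.injective g)]

theorem ncard_le_pot (x y : W) : ((X.Deep x y).ncard : ℝ) ≤ X.Pot x y := by
  rw [X.pa_pot, Set.ncard_eq_toFinset_card _ (X.deep_finite x y), Finset.card_eq_sum_ones]
  push_cast
  refine Finset.sum_le_sum fun e he => ?_
  exact X.wt.one_le _ _ ((Set.Finite.mem_toFinset _).1 he).1.1

theorem pot_le_ncard (x y : W) : X.Pot x y ≤ X.lm * (X.Deep x y).ncard := by
  rw [X.pa_pot, Set.ncard_eq_toFinset_card _ (X.deep_finite x y), mul_comm, ← nsmul_eq_mul]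
  refine Finset.sum_le_card_nsmul _ _ _ fun e he => ?_
  exact X.l_le _ _ ((Set.Finite.mem_toFinset _).1 he).1.1

theorem deep_ncard_le {x y : W} (h : X.T.Reachable x y) : (X.Deep x y).ncard ≤ X.T.dist x y := by
  rw [← sep_ncard X.acyc h]
  exact Set.ncard_le_ncard (fun e he => he.1) (sep_finite X.acyc x y)

theorem deep_ext {x y a b : W} {e : W × W} (h : e ∈ X.Deep a b) (ha : Btw X.T x a b)
    (hb : Btw X.T a b y) : e ∈ X.Deep x y := by
  obtain ⟨hs, a', b', ha', hb', hl, h1, h2⟩ := h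
  have hxb := (Btw.glue X.acyc ha hb (sep_ne hs).1).2
  refine ⟨sep_ext_right X.acyc (sep_ext_left X.acyc hs ha) hxb, a', b', ?_, ?_, hl, h1, h2⟩
  · exact (Btw.trans_right (Btw.trans_right ha (sep_left X.acyc hs)).2 ha').1
  · exact (Btw.trans_left (Btw.trans_left hb (sep_right X.acyc hs)).2 hb').1

/-- The legal segment of a deep dart can be taken short. -/
theorem deep_short {x y : W} {e : W × W} (h : e ∈ X.Deep x y) :
    ∃ a b, Btw X.T x a e.1 ∧ Btw X.T e.2 b y ∧ LS X.T X.f a b ∧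
      (X.c : ℝ) ≤ len X.T X.l a e.1 ∧ (X.c : ℝ) ≤ len X.T X.l e.2 b ∧
      X.T.dist a e.1 ≤ X.c ∧ X.T.dist e.2 b ≤ X.c := by
  obtain ⟨hs, a, b, ha, hb, hl, h1, h2⟩ := h
  obtain ⟨p1, p2, -, -, -, -⟩ := X.pa_pos hs ha hb
  obtain ⟨a', a1, a2, a3⟩ := X.pa_short ha.2.1 h1
  obtain ⟨b', b1, b2, b3⟩ := X.pa_short hb.1.symm (by rwa [X.len_symm])
  refine ⟨a', b', (Btw.trans_right ha a1).1, (Btw.trans_left hb b1.symm).1,
    X.ls_sub hl (Btw.trans_left p1 a1).1 (Btw.trans_right p2 b1.symm).1, a2,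
    by rwa [X.len_symm], a3, by rwa [SimpleGraph.dist_comm]⟩

/-- All but `2 c` darts of a legal subsegment are deep. -/
theorem dist_le_deep {x y a b : W} (ha : Btw X.T x a b) (hb : Btw X.T a b y)
    (hb' : Btw X.T x b y) (h : LS X.T X.f a b) :
    X.T.dist a b ≤ {e | e ∈ X.Deep x y ∧ Sep X.T e a b}.ncard + 2 * X.c := by
  have hsub : {e | Sep X.T e a b} ⊆ ({e | e ∈ X.Deep x y ∧ Sep X.T e a b} ∪
      {e | Sep X.T e a b ∧ X.T.dist a e.1 < X.c}) ∪ {e | Sep X.T e a b ∧ X.T.dist e.2 b < X.c} := by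
    intro e he
    by_cases c1 : X.T.dist a e.1 < X.c
    · exact Or.inl (Or.inr ⟨he, c1⟩)
    by_cases c2 : X.T.dist e.2 b < X.c
    · exact Or.inr ⟨he, c2⟩
    refine Or.inl (Or.inl ⟨X.deep_ext ⟨he, a, b, btw_left he.2.1.1, btw_right he.2.2.2.1, h,
      ?_, ?_⟩ ha hb, he⟩)
    · exact le_trans (by exact_mod_cast not_lt.1 c1) (X.dist_le_len he.2.1.1)
    · exact le_trans (by exact_mod_cast not_lt.1 c2) (X.dist_le_len he.2.2.2.1)
  have hf := sep_finite X.acyc a b
  have f1 : {e | e ∈ X.Deep x y ∧ Sep X.T e a b}.Finite := hf.subset fun e he => he.2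
  have f2 : {e | Sep X.T e a b ∧ X.T.dist a e.1 < X.c}.Finite := hf.subset fun e he => he.1
  have f3 : {e | Sep X.T e a b ∧ X.T.dist e.2 b < X.c}.Finite := hf.subset fun e he => he.1
  have k1 := Set.ncard_le_ncard hsub ((f1.union f2).union f3)
  have k2 := Set.ncard_union_le ({e | e ∈ X.Deep x y ∧ Sep X.T e a b} ∪
      {e | Sep X.T e a b ∧ X.T.dist a e.1 < X.c}) {e | Sep X.T e a b ∧ X.T.dist e.2 b < X.c}
  have k3 := Set.ncard_union_le {e | e ∈ X.Deep x y ∧ Sep X.T e a b}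
      {e | Sep X.T e a b ∧ X.T.dist a e.1 < X.c}
  obtain ⟨k4, k5⟩ := sep_near_ncard X.acyc a b X.c
  rw [sep_ncard X.acyc h.1] at k1
  omega

/-- Bounded cancellation at the left end of a legal subsegment: with `a' = med (f x) (f a) (f b)`
one has `dist (f a) a' ≤ C`. -/
theorem bcc_med {x a b : W} (h : Btw X.T x a b) :
    X.T.dist (X.f a) (med X.T (X.f x) (X.f a) (X.f b)) ≤ X.C := by
  obtain ⟨w, w1, w2, w3⟩ := X.bcc x a b h
  obtain ⟨m1, m2, m3⟩ := med_spec X.acyc (X.reach_f h.1) (X.reach_f h.2.1)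
  have key : Btw X.T (X.f a) (med X.T (X.f x) (X.f a) (X.f b)) w := by
    rcases le_total (X.T.dist (X.f x) w) (X.T.dist (X.f x) (med X.T (X.f x) (X.f a) (X.f b)))
      with c | c
    · exact (Btw.trans_left m1 (Btw.compare X.acyc w1 m3 c).1).2.symm
    · exact (Btw.trans_right m2 (Btw.compare X.acyc m3 w1 c).2).2
  have := key.2.2
  omega

theorem pa_half {x a p b : W} (hl : LS X.T X.f a b) (hx : Btw X.T x a b) (hp : Btw X.T a p b)
    (hc : (X.c : ℝ) ≤ len X.T X.l a p) :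
    ∃ a', Btw X.T (X.f a) a' (X.f b) ∧ Btw X.T (X.f x) a' (X.f p) ∧
      Btw X.T (X.f x) (X.f p) (X.f b) ∧ (X.c : ℝ) ≤ len X.T X.l a' (X.f p) := by
  obtain ⟨m1, m2, m3⟩ := med_spec X.acyc (X.reach_f hx.1) (X.reach_f hx.2.1)
  have hd := X.bcc_med hx
  set m := med X.T (X.f x) (X.f a) (X.f b) with hm
  have hfp := (X.ls_map hl).2.1 p hp
  have hlp := (X.ls_map (X.ls_sub hl (btw_left hl.1) hp)).2.2.2.1
  have hμ : (0 : ℝ) ≤ X.μ := le_trans zero_le_one X.one_lt.le
  have l1 : (X.C : ℝ) * X.lm + X.c ≤ len X.T X.l (X.f a) (X.f p) :=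
    X.c_big.trans ((mul_le_mul_of_nonneg_left hc hμ).trans hlp)
  have l2 : len X.T X.l (X.f a) m ≤ (X.C : ℝ) * X.lm := by
    refine (X.len_le_dist m2.1).trans ?_
    rw [mul_comm]
    exact mul_le_mul_of_nonneg_right (by exact_mod_cast hd) (Nat.cast_nonneg _)
  have hc1 : (1 : ℝ) ≤ X.c := by exact_mod_cast X.c_pos
  have key : Btw X.T (X.f a) m (X.f p) ∧ Btw X.T m (X.f p) (X.f b) := by
    rcases le_total (X.T.dist (X.f a) m) (X.T.dist (X.f a) (X.f p)) with c | c
    · exact Btw.compare X.acyc m2 hfp c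
    · have k := X.len_add (Btw.compare X.acyc hfp m2 c).1
      have := X.len_nonneg (X.f p) m
      exfalso
      linarith
  have k := X.len_add key.1
  have t := Btw.trans_right m3 key.2
  exact ⟨m, m2, t.2, t.1, by linarith⟩

/-- The image of a deep dart consists of deep darts.  With `a' = med (f x) (f a) (f b)`,
`b' = med (f a) (f b) (f y)`: `len (f a) a' ≤ C lm`, `len (f a) (f e.1) ≥ μ c ≥ C lm + c`, so
`a'` is before `f e.1`, `b'` after `f e.2`; glue. -/
theorem deep_map {x y : W} {e d : W × W} (h : e ∈ X.Deep x y)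
    (hd : Sep X.T d (X.f e.1) (X.f e.2)) : d ∈ X.Deep (X.f x) (X.f y) := by
  obtain ⟨hs, a, b, ha, hb, hl, h1, h2⟩ := h
  obtain ⟨p1, p2, p3, p4, p5, p6⟩ := X.pa_pos hs ha hb
  obtain ⟨a', a1, a2, a3, a4⟩ := X.pa_half hl p3 p1 h1
  obtain ⟨b', b1, b2, b3, b4⟩ := X.pa_half (X.ls_symm hl) p4.symm p2.symm (by rwa [X.len_symm])
  have q1 := (X.ls_map (X.ls_sub hl (btw_left hl.1) p2)).2.1 _ p5
  have q2 := (X.ls_map (X.ls_sub hl p1 (btw_right hl.1))).2.1 _ p6
  have r1 := (Btw.trans_right a3 q2).2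
  have r2 := (Btw.trans_right b3 q1.symm).2
  have r3 := (Btw.glue X.acyc r1 r2.symm (sep_ne hd).1).2
  have s1 := Btw.trans_left (Btw.trans_right r1 (sep_left X.acyc hd)).2 a2
  have s2 := Btw.trans_left (Btw.trans_right r2 (sep_right X.acyc hd).symm).2 b2
  refine ⟨sep_ext_right X.acyc (sep_ext_left X.acyc hd r1) r3, a', b', s1.1, s2.1.symm,
    X.ls_sub (X.ls_map hl).1 a1 b1.symm, ?_, ?_⟩
  · have := X.len_nonneg (X.f e.1) d.1
    rw [X.len_add s1.2]
    linarith
  · have := X.len_nonneg (X.f e.2) d.2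
    rw [X.len_symm, X.len_add s2.2]
    linarith

theorem pa_disj {x y : W} {e e' d : W × W} (h : e ∈ X.Deep x y) (h' : Sep X.T e' x y)
    (hd : Sep X.T d (X.f e.1) (X.f e.2)) (hd' : Sep X.T d (X.f e'.1) (X.f e'.2))
    (hlt : X.T.dist x e.1 < X.T.dist x e'.1) : False := by
  obtain ⟨hs, a, b, ha, hb, hl, h1, h2⟩ := h
  obtain ⟨p1, p2, -, -, -, -⟩ := X.pa_pos hs ha hb
  have hdist := (sep_dist hs).1
  obtain ⟨c1, c2⟩ := Btw.compare X.acyc (sep_right X.acyc hs) (sep_left X.acyc h') (by omega)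
  have c3 := (Btw.trans_left c1 hs.2.1).2
  rcases le_total (X.T.dist e.2 e'.1) (X.T.dist e.2 b) with c | c
  · have k1 := (Btw.compare X.acyc c2 hb c).1
    have k2 := X.ls_sub hl p1 (Btw.trans_right p2 k1).1
    exact sep_not_both (sep_ext_right X.acyc hd ((X.ls_map k2).2.1 _ c3)) hd'
  · have k1 := (Btw.compare X.acyc hb c2 c).1
    have k2 : e ∈ X.Deep x e'.1 := ⟨⟨hs.1, hs.2.1, c3⟩, a, b, ha, k1, hl, h1, h2⟩
    exact sep_not_both (X.deep_map k2 hd).1 hd'

/-- Images of distinct deep darts are disjoint.  Say `e` is before `e'`, `[a, b]` the legal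
segment of `e`.  If `e'.1` is before `b`, then `[a, e'.1]` is legal and `d` separates `f a`,
`f e'.1`; else `e` is deep in `[x, e'.1]` and `d` separates `f x`, `f e'.1`; `sep_not_both`. -/
theorem deep_disj {x y : W} {e e' d : W × W} (h : e ∈ X.Deep x y) (h' : e' ∈ X.Deep x y)
    (hd : Sep X.T d (X.f e.1) (X.f e.2)) (hd' : Sep X.T d (X.f e'.1) (X.f e'.2)) : e = e' := by
  rcases lt_trichotomy (X.T.dist x e.1) (X.T.dist x e'.1) with c | c | c
  · exact (X.pa_disj h h'.1 hd hd' c).elim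
  · exact sep_unique X.acyc h.1 h'.1 c
  · exact (X.pa_disj h' h.1 hd' hd c).elim

theorem pot_step (x y : W) : X.μ * X.Pot x y ≤ X.Pot (X.f x) (X.f y) := by
  classical
  rw [X.pa_pot, X.pa_pot, Finset.mul_sum]
  have h1 : ∀ e ∈ (X.deep_finite x y).toFinset, X.μ * X.l e ≤
      ∑ d ∈ (sep_finite X.acyc (X.f e.1) (X.f e.2)).toFinset, X.l d := by
    intro e he
    rw [← finsum_mem_eq_finite_toFinset_sum]
    exact X.exp _ _ ((Set.Finite.mem_toFinset _).1 he).1.1
  refine (Finset.sum_le_sum h1).trans ?_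
  rw [← Finset.sum_biUnion]
  · refine Finset.sum_le_sum_of_subset_of_nonneg (fun d hd => ?_) fun d hd _ => ?_
    · obtain ⟨e, he, hd⟩ := Finset.mem_biUnion.1 hd
      exact (Set.Finite.mem_toFinset _).2 (X.deep_map ((Set.Finite.mem_toFinset _).1 he)
        ((sep_finite X.acyc _ _).mem_toFinset.1 hd))
    · exact le_trans zero_le_one (X.wt.one_le _ _ ((Set.Finite.mem_toFinset _).1 hd).1.1)
  · intro e he e' he' hne
    refine Finset.disjoint_left.2 fun d hd hd' => hne ?_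
    exact X.deep_disj ((Set.Finite.mem_toFinset _).1 he) ((Set.Finite.mem_toFinset _).1 he')
      ((sep_finite X.acyc _ _).mem_toFinset.1 hd) ((sep_finite X.acyc _ _).mem_toFinset.1 hd')

theorem pot_iter (t : ℕ) (x y : W) : X.μ ^ t * X.Pot x y ≤ X.Pot (X.f^[t] x) (X.f^[t] y) := by
  induction t with
  | zero => simp
  | succ t ih =>
    rw [Function.iterate_succ_apply', Function.iterate_succ_apply', pow_succ', mul_assoc]
    exact (mul_le_mul_of_nonneg_left ih (le_trans zero_le_one X.one_lt.le)).trans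
      (X.pot_step _ _)

/-- Moving the end points. -/
theorem deep_cmp {x y x' y' : W} {R : ℕ} (hx : X.T.Reachable x x') (hy : X.T.Reachable y y')
    (h1 : X.T.dist x x' ≤ R) (h2 : X.T.dist y y' ≤ R) :
    (X.Deep x y \ X.Deep x' y').ncard ≤ 2 * (R + X.c + 1) := by
  have hsub : X.Deep x y \ X.Deep x' y' ⊆
      {e | Sep X.T e x y ∧ X.T.dist x e.1 < R + X.c + 1} ∪
        {e | Sep X.T e x y ∧ X.T.dist e.2 y < R + X.c + 1} := by
    rintro e ⟨he, hn⟩
    by_contra hc
    simp only [Set.mem_union, Set.mem_ofPred_eq, not_or, not_and, not_lt] at hc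
    have c1 := hc.1 he.1
    have c2 := hc.2 he.1
    obtain ⟨a, b, b1, b2, l, l1, l2, d1, d2⟩ := X.deep_short he
    have e1 := b1.2.2
    have e2 := b2.2.2
    refine hn ⟨sep_move_right X.acyc (sep_move_left X.acyc he.1 hx (by omega)) hy (by omega),
      a, b, btw_move_left X.acyc b1 hx (by omega), ?_, l, l1, l2⟩
    refine (btw_move_left X.acyc b2.symm hy ?_).symm
    rw [SimpleGraph.dist_comm (u := y) (v := b)]
    omega
  have f1 : {e | Sep X.T e x y ∧ X.T.dist x e.1 < R + X.c + 1}.Finite :=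
    (sep_finite X.acyc x y).subset fun e he => he.1
  have f2 : {e | Sep X.T e x y ∧ X.T.dist e.2 y < R + X.c + 1}.Finite :=
    (sep_finite X.acyc x y).subset fun e he => he.1
  have k1 := Set.ncard_le_ncard hsub (f1.union f2)
  have k2 := Set.ncard_union_le {e | Sep X.T e x y ∧ X.T.dist x e.1 < R + X.c + 1}
    {e | Sep X.T e x y ∧ X.T.dist e.2 y < R + X.c + 1}
  have k3 := sep_near_ncard X.acyc x y (R + X.c + 1)
  omega

theorem deep_ncard_cmp {x y x' y' : W} {R : ℕ} (hx : X.T.Reachable x x')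
    (hy : X.T.Reachable y y') (h1 : X.T.dist x x' ≤ R) (h2 : X.T.dist y y' ≤ R) :
    (X.Deep x y).ncard ≤ (X.Deep x' y').ncard + 2 * (R + X.c + 1) := by
  have k1 := X.deep_cmp hx hy h1 h2
  have k2 := Set.ncard_le_ncard_sdiff_add_ncard (X.Deep x y) _ (X.deep_finite x' y')
  omega

private theorem pb_sum_le {S : Set (W × W)} (hS : S.Finite) (ha : ∀ e ∈ S, X.T.Adj e.1 e.2) :
    0 ≤ ∑ᶠ e ∈ S, X.l e ∧ ∑ᶠ e ∈ S, X.l e ≤ X.lm * S.ncard := by
  rw [finsum_mem_eq_finite_toFinset_sum _ hS, Set.ncard_eq_toFinset_card S hS]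
  refine ⟨Finset.sum_nonneg fun e he => ?_, ?_⟩
  · exact zero_le_one.trans (X.wt.one_le e.1 e.2 (ha e (hS.mem_toFinset.1 he)))
  · have := Finset.sum_le_card_nsmul hS.toFinset X.l (X.lm : ℝ)
      fun e he => X.l_le e.1 e.2 (ha e (hS.mem_toFinset.1 he))
    rw [nsmul_eq_mul, mul_comm] at this
    exact this

theorem pot_cmp {x y x' y' : W} {R : ℕ} (hx : X.T.Reachable x x') (hy : X.T.Reachable y y')
    (h1 : X.T.dist x x' ≤ R) (h2 : X.T.dist y y' ≤ R) :
    X.Pot x y ≤ X.Pot x' y' + X.lm * (2 * (R + X.c + 1)) := by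
  have k1 := X.deep_cmp hx hy h1 h2
  have e1 := finsum_mem_inter_add_sdiff (f := X.l) (X.Deep x' y') (X.deep_finite x y)
  have e2 := finsum_mem_inter_add_sdiff (f := X.l) (X.Deep x y) (X.deep_finite x' y')
  rw [Set.inter_comm] at e2
  have a1 := (X.pb_sum_le ((X.deep_finite x y).subset (Set.sdiff_subset (t := X.Deep x' y')))
    fun e he => he.1.1.1).2
  have a2 := (X.pb_sum_le ((X.deep_finite x' y').subset (Set.sdiff_subset (t := X.Deep x y)))
    fun e he => he.1.1.1).1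
  have k2 : ((X.Deep x y \ X.Deep x' y').ncard : ℝ) ≤ 2 * (R + X.c + 1) := by exact_mod_cast k1
  have k3 := mul_le_mul_of_nonneg_left k2 (Nat.cast_nonneg (α := ℝ) X.lm)
  unfold Pot
  linarith

theorem ill_cmp {x y x' y' : W} {R : ℕ} (hx : X.T.Reachable x x') (hy : X.T.Reachable y y')
    (h1 : X.T.dist x x' ≤ R) (h2 : X.T.dist y y' ≤ R) :
    (Ill X.T X.f x y).ncard ≤ (Ill X.T X.f x' y').ncard + 2 * (R + 1) := by
  have hsub : Ill X.T X.f x y \ Ill X.T X.f x' y' ⊆
      {z | Btw X.T x z y ∧ X.T.dist x z ≤ R} ∪ {z | Btw X.T x z y ∧ X.T.dist z y ≤ R} := by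
    rintro v ⟨hv, hn⟩
    by_contra hc
    simp only [Set.mem_union, Set.mem_ofPred_eq, not_or, not_and, not_le] at hc
    have c1 := hc.1 (X.ill_btw hv).1
    have c2 := hc.2 (X.ill_btw hv).1
    obtain ⟨p, r, s1, s2, hl⟩ := hv
    have e1 := (sep_dist s1).1
    have e2 := (sep_dist s2).2
    dsimp only at e1 e2
    refine hn ⟨p, r, sep_move_right X.acyc (sep_move_left X.acyc s1 hx ?_) hy ?_,
      sep_move_right X.acyc (sep_move_left X.acyc s2 hx ?_) hy ?_, hl⟩ <;> dsimp only <;> omega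
  have f1 : {z | Btw X.T x z y ∧ X.T.dist x z ≤ R}.Finite :=
    (btw_finite X.acyc x y).subset fun e he => he.1
  have f2 : {z | Btw X.T x z y ∧ X.T.dist z y ≤ R}.Finite :=
    (btw_finite X.acyc x y).subset fun e he => he.1
  have k1 := Set.ncard_le_ncard hsub (f1.union f2)
  have k2 := Set.ncard_union_le {z | Btw X.T x z y ∧ X.T.dist x z ≤ R}
    {z | Btw X.T x z y ∧ X.T.dist z y ≤ R}
  have k3 := btw_near_ncard X.acyc x y R
  have k4 := Set.ncard_le_ncard_sdiff_add_ncard (Ill X.T X.f x y) _ (X.ill_finite x' y')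
  omega

private theorem pb_pieces (x : W) (m : ℕ) : ∀ x' : W, X.T.Reachable x x' →
    (Ill X.T X.f x x').ncard = m → ∃ y : ℕ → W, y 0 = x ∧ y (m + 1) = x' ∧
      (∀ i j, i ≤ j → j ≤ m + 1 → Btw X.T x (y i) (y j)) ∧
      ∀ i ≤ m, LS X.T X.f (y i) (y (i + 1)) := by
  induction m with
  | zero =>
    intro x' h hm
    have l : LS X.T X.f x x' := X.ls_iff.2 ⟨h, (Set.ncard_eq_zero (X.ill_finite x x')).1 hm⟩
    refine ⟨fun i => if i = 0 then x else x', rfl, rfl, fun i j hij _ => ?_, fun i hi => ?_⟩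
    · by_cases h1 : i = 0
      · by_cases h2 : j = 0
        · simp only [h1, h2, if_true]
          exact btw_left (SimpleGraph.Reachable.refl x)
        · simp only [h1, h2, if_true, if_false]
          exact btw_left h
      · have h2 : j ≠ 0 := by omega
        simp only [h1, h2, if_false]
        exact btw_right h
    · obtain rfl : i = 0 := by omega
      exact l
  | succ m ih =>
    intro x' h hm
    have hne : (Ill X.T X.f x x').Nonempty := Set.nonempty_of_ncard_ne_zero (by omega)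
    obtain ⟨v, hv, hmax⟩ := Set.exists_max_image _ (X.T.dist x) (X.ill_finite x x') hne
    obtain ⟨bv, -, -⟩ := X.ill_btw hv
    have l : LS X.T X.f v x' := by
      refine X.ls_iff.2 ⟨bv.2.1, Set.eq_empty_of_forall_notMem fun w hw => ?_⟩
      obtain ⟨b, n1, -⟩ := X.ill_btw hw
      have k1 := hmax w (X.ill_ext hw bv (btw_right bv.2.1))
      have k2 := (bv.trans_right b).2.2.2
      exact n1 (eq_of_dist_zero b.1 (by omega)).symm
    have e : Ill X.T X.f x v = Ill X.T X.f x x' \ {v} := by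
      ext w
      constructor
      · intro hw
        exact ⟨X.ill_ext hw (btw_left bv.1) bv, (X.ill_btw hw).2.2⟩
      · rintro ⟨hw, n⟩
        obtain ⟨b, n1, -⟩ := X.ill_btw hw
        exact X.ill_restr hw (btw_left b.1) (b.compare X.acyc bv (hmax w hw)).2 n1.symm n
    have hc : (Ill X.T X.f x v).ncard = m := by
      rw [e, Set.ncard_sdiff_singleton_of_mem hv]
      omega
    obtain ⟨y, y0, y1, y2, y3⟩ := ih v bv.1 hc
    refine ⟨fun i => if i ≤ m + 1 then y i else x', ?_, ?_, fun i j hij hj => ?_,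
      fun i hi => ?_⟩
    · simp only [Nat.zero_le, if_true, y0]
    · simp only [show ¬ m + 1 + 1 ≤ m + 1 by omega, if_false]
    · by_cases h2 : j ≤ m + 1
      · simp only [h2, hij.trans h2, if_true]
        exact y2 i j hij h2
      · by_cases h1 : i ≤ m + 1
        · simp only [h1, h2, if_true, if_false]
          have := y2 i (m + 1) h1 le_rfl
          rw [y1] at this
          exact (bv.trans_left this).1
        · simp only [h1, h2, if_false]
          exact btw_right h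
    · by_cases h2 : i + 1 ≤ m + 1
      · simp only [h2, hi, if_true]
        exact y3 i (by omega)
      · obtain rfl : i = m + 1 := by omega
        simp only [h2, le_refl, if_true, if_false, y1]
        exact l

/-- The illegal vertices `y 1, ..., y m` cut a geodesic into legal pieces. -/
theorem exists_pieces {x x' : W} (h : X.T.Reachable x x') :
    ∃ y : ℕ → W, y 0 = x ∧ y ((Ill X.T X.f x x').ncard + 1) = x' ∧
      (∀ i j, i ≤ j → j ≤ (Ill X.T X.f x x').ncard + 1 → Btw X.T x (y i) (y j)) ∧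
      ∀ i ≤ (Ill X.T X.f x x').ncard, LS X.T X.f (y i) (y (i + 1)) :=
  X.pb_pieces x _ x' h rfl

/-- The illegal vertices of a tightened concatenation of legal pieces are junctions. -/
theorem ill_sub_junction (q z : ℕ → W) (m : ℕ) (hq : ∀ i ≤ m, LS X.T X.f (q i) (q (i + 1)))
    (h0 : z 0 = q 0) (hn : z (m + 1) = q (m + 1))
    (hz : ∀ i j, i ≤ j → j ≤ m + 1 → Btw X.T (q 0) (z i) (z j))
    (hp : ∀ i < m + 1, z i = z (i + 1) ∨
      (Btw X.T (q i) (z i) (z (i + 1)) ∧ Btw X.T (z i) (z (i + 1)) (q (i + 1))))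
    {v : W} (hv : v ∈ Ill X.T X.f (q 0) (q (m + 1))) : ∃ i, 1 ≤ i ∧ i ≤ m ∧ v = z i := by
  obtain ⟨bv, n1, n2⟩ := X.ill_btw hv
  rcases dec_locate X.acyc z (m + 1) (by rw [h0]; exact hz) (v := v) (by rw [h0, hn]; exact bv)
    with ⟨i, hi, e⟩ | ⟨i, hi, b, m1, m2⟩
  · refine ⟨i, ?_, ?_, e⟩
    · by_contra hc
      obtain rfl : i = 0 := by omega
      exact n1 (e.trans h0)
    · by_contra hc
      obtain rfl : i = m + 1 := by omega
      exact n2 (e.trans hn)
  · exfalso
    have hne : z i ≠ z (i + 1) := fun e => by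
      rw [← e] at b
      exact m1 b.eq_of_self
    obtain ⟨c1, c2⟩ := (hp i hi).resolve_left hne
    obtain ⟨c3, c4⟩ := c1.glue X.acyc c2 hne
    have l := X.ls_sub (hq i (by omega)) c3 c4
    obtain ⟨c5, c6⟩ := (hz i (i + 1) (by omega) (by omega)).trans_right b
    have c7 := ((hz (i + 1) (m + 1) (by omega) le_rfl).trans_left c5).2
    rw [hn] at c7
    have k := X.ill_restr hv c6 c7 m1.symm m2
    rw [(X.ls_iff.1 l).2] at k
    exact k

theorem ill_iter_le (t : ℕ) {x y : W} (h : X.T.Reachable x y) :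
    (Ill X.T X.f (X.f^[t] x) (X.f^[t] y)).ncard ≤ (Ill X.T X.f x y).ncard := by
  obtain ⟨p, p0, p1, -, p3⟩ := X.exists_pieces h
  generalize (Ill X.T X.f x y).ncard = m at p1 p3 ⊢
  have hq : ∀ i ≤ m, LS X.T X.f (X.f^[t] (p i)) (X.f^[t] (p (i + 1))) :=
    fun i hi => X.ls_iter t (p3 i hi)
  obtain ⟨z, z0, z1, -, z3, z4⟩ := exists_dec X.acyc (fun i => X.f^[t] (p i)) (m + 1)
    fun i hi => (hq i (by omega)).1
  have hsub : Ill X.T X.f (X.f^[t] x) (X.f^[t] y) ⊆ z '' Set.Icc 1 m := by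
    intro v hv
    rw [← p0, ← p1] at hv
    obtain ⟨i, i1, i2, e⟩ := X.ill_sub_junction (fun i => X.f^[t] (p i)) z m hq z0 z1 z3 z4 hv
    exact ⟨i, ⟨i1, i2⟩, e.symm⟩
  have k1 := Set.ncard_le_ncard hsub ((Set.finite_Icc 1 m).image z)
  have k2 := Set.ncard_image_le (f := z) (Set.finite_Icc 1 m)
  have k3 : (Set.Icc 1 m).ncard = m := by
    rw [← Finset.coe_Icc, Set.ncard_coe_finset, Nat.card_Icc]
    omega
  omega

/-- Almost periodic geodesics satisfy the hypothesis of the run decomposition: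
`μ ^ n Pot ≤ Pot (time n) ≤ Pot + const`, so `Pot ≤ const / (μ - 1)`; `Pot` is monotone in time,
the number of illegal turns is antitone in time. -/
theorem hyp_of_per (τs : ℕ) : ∃ Γ, Bd Γ ∧ ∀ (R n t : ℕ) (u : G) (x x' : W),
    X.T.Reachable x x' → 1 ≤ n → t + τs ≤ n →
    X.T.Reachable (X.f^[n] x) (u • x) → X.T.dist (X.f^[n] x) (u • x) ≤ R →
    X.T.Reachable (X.f^[n] x') (u • x') → X.T.dist (X.f^[n] x') (u • x') ≤ R →
    X.HYP τs (Γ R) (X.f^[t] x) (X.f^[t] x') := by
  have hμ := X.one_lt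
  obtain ⟨M, hM⟩ := exists_nat_ge (1 / (X.μ - 1))
  have hM' : 1 ≤ M * (X.μ - 1) := by
    rwa [div_le_iff₀ (by linarith)] at hM
  have p0 : ∀ x y, 0 ≤ X.Pot x y := fun x y => (Nat.cast_nonneg _).trans (X.ncard_le_pot x y)
  refine ⟨fun R => (M + 1) * (X.lm * (2 * (R + (X.c + 1)))) + 2 * (R + 1),
    ((Bd.const _).mul ((Bd.const _).mul ((Bd.const _).mul (Bd.id.add (Bd.const _))))).add
      ((Bd.const _).mul (Bd.id.add (Bd.const _))), ?_⟩
  intro R n t u x x' hr hn ht r1 d1 r2 d2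
  refine ⟨X.reach_iter t hr, fun s hs => ?_, ?_⟩
  · have a1 := X.pot_cmp r1 r2 d1 d2
    rw [X.pot_smul] at a1
    have a2 := X.pot_iter n x x'
    have a3 : X.μ ≤ X.μ ^ n := le_self_pow₀ hμ.le (by omega)
    have a4 := mul_le_mul_of_nonneg_right a3 (p0 x x')
    have a5 := X.pot_iter (n - (s + t)) (X.f^[s + t] x) (X.f^[s + t] x')
    rw [← Function.iterate_add_apply, ← Function.iterate_add_apply,
      show n - (s + t) + (s + t) = n by omega] at a5
    have a6 : 1 ≤ X.μ ^ (n - (s + t)) := one_le_pow₀ hμ.le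
    have a7 := mul_le_mul_of_nonneg_right a6 (p0 (X.f^[s + t] x) (X.f^[s + t] x'))
    have a8 := X.ncard_le_pot (X.f^[s + t] x) (X.f^[s + t] x')
    have a9 := mul_le_mul_of_nonneg_right hM' (p0 x x')
    have a10 : (X.μ - 1) * X.Pot x x' ≤ X.lm * (2 * (R + X.c + 1)) := by linarith
    have a11 := mul_le_mul_of_nonneg_left a10 (Nat.cast_nonneg (α := ℝ) M)
    have a12 : ((X.Deep (X.f^[s + t] x) (X.f^[s + t] x')).ncard : ℝ) ≤
        (M + 1) * (X.lm * (2 * (R + (X.c + 1)))) := by linarith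
    have a13 : (X.Deep (X.f^[s + t] x) (X.f^[s + t] x')).ncard ≤
        (M + 1) * (X.lm * (2 * (R + (X.c + 1)))) := by exact_mod_cast a12
    rw [← Function.iterate_add_apply, ← Function.iterate_add_apply]
    exact a13.trans (Nat.le_add_right _ _)
  · have a1 := X.ill_iter_le t hr
    have a2 := X.ill_cmp (R := R) r1.symm r2.symm (by rwa [SimpleGraph.dist_comm])
      (by rwa [SimpleGraph.dist_comm])
    rw [X.ill_ncard_smul] at a2
    have a3 := X.ill_iter_le (n - (τs + t)) (X.reach_iter (τs + t) hr)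
    rw [← Function.iterate_add_apply, ← Function.iterate_add_apply,
      show n - (τs + t) + (τs + t) = n by omega] at a3
    rw [← Function.iterate_add_apply, ← Function.iterate_add_apply]
    dsimp only
    omega

end Cx

end EG
end CPOR
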