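import Pool.Agent.P.MP_2cb329_al.EG.P

/-! Section F9: a turn with two legal legs; eaten vertices; the set `Q`. -/

set_option autoImplicit false

namespace CPOR
namespace EG
open ZT MulAction

variable {G W : Type} [Group G] [MulAction G W] (X : Cx G W)

namespace Cx

theorem ll_symm {a y b : W} (h : LL X.T X.f a y b) : LL X.T X.f b y a := by
  exact ⟨X.ls_symm h.2.1, X.ls_symm h.1, h.2.2.symm⟩

theorem vt_spec {a y b : W} (h : LL X.T X.f a y b) (t : ℕ) :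
    Btw X.T (X.f^[t] a) (vt X.T X.f a y b t) (X.f^[t] y) ∧
      Btw X.T (X.f^[t] y) (vt X.T X.f a y b t) (X.f^[t] b) ∧
      Btw X.T (X.f^[t] a) (vt X.T X.f a y b t) (X.f^[t] b) := by
  exact med_spec X.acyc (X.reach_iter t h.1.1) (X.reach_iter t h.2.1.1)

theorem vt_symm {a y b : W} (h : LL X.T X.f a y b) (t : ℕ) :
    vt X.T X.f b y a t = vt X.T X.f a y b t := by
  exact (med_comm X.acyc (X.reach_iter t h.1.1) (X.reach_iter t h.2.1.1)).symm

theorem vt_zero {a y b : W} (h : LL X.T X.f a y b) : vt X.T X.f a y b 0 = y := by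
  exact med_eq X.acyc (btw_right h.1.1) (btw_left h.2.1.1) h.2.2

theorem al_symm {a y b : W} (h : LL X.T X.f a y b) {t : ℕ} (ha : Al X.T X.f a y b t) :
    Al X.T X.f b y a t := by
  unfold Al at ha ⊢
  rw [X.vt_symm h, X.ill_symm]
  exact ha

theorem eat_symm {a y b w : W} (h : LL X.T X.f a y b) {t : ℕ} (he : Eat X.T X.f a y b t w) :
    Eat X.T X.f b y a t w := by
  unfold Eat at he ⊢
  rw [X.vt_symm h]
  exact he

theorem ai_symm {a y b : W} (h : AI X.T X.f a y b) : AI X.T X.f b y a := by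
  exact ⟨X.ll_symm h.1, fun t => X.al_symm h.1 (h.2 t)⟩

theorem qq_symm {d d' : W × W} {y : W} (h : QQ X.T X.f d y d') : QQ X.T X.f d' y d := by
  obtain ⟨q1, q2, q3, q4, q5, ⟨t, q6⟩, ⟨t', q7⟩⟩ := h
  exact ⟨q2, q1, q4, q3, X.ai_symm q5, ⟨t', X.eat_symm q5.1 q7⟩, ⟨t, X.eat_symm q5.1 q6⟩⟩

theorem qt_symm {th τ : ℕ} {d d' : W × W} {y : W} (h : QT X.T X.f th τ d y d') :
    QT X.T X.f th τ d' y d := by
  obtain ⟨q1, q2, q3, q4, q5, q6, q7, q8⟩ := h
  exact ⟨q2, q1, q4, q3, X.ll_symm q5, fun t ht => X.al_symm q5 (q6 t ht), X.eat_symm q5 q8,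
    X.eat_symm q5 q7⟩

theorem vt_smul (g : G) (a y b : W) (t : ℕ) :
    vt X.T X.f (g • a) (g • y) (g • b) t = g • vt X.T X.f a y b t := by
  unfold vt
  rw [X.iter_smul, X.iter_smul, X.iter_smul, med_smul X.gf]

theorem qa_ll_smul (g : G) {a y b : W} (h : LL X.T X.f a y b) :
    LL X.T X.f (g • a) (g • y) (g • b) :=
  ⟨X.ls_smul g h.1, X.ls_smul g h.2.1, (btw_smul_iff X.gf.acts g).2 h.2.2⟩

theorem qa_al_smul (g : G) {a y b : W} {t : ℕ} (h : Al X.T X.f a y b t) :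
    Al X.T X.f (g • a) (g • y) (g • b) t := by
  unfold Al at h ⊢
  rw [X.vt_smul, X.iter_smul, X.iter_smul]
  exact (X.ill_smul g).2 h

theorem qa_eat_smul (g : G) {a y b w : W} {t : ℕ} (h : Eat X.T X.f a y b t w) :
    Eat X.T X.f (g • a) (g • y) (g • b) t (g • w) := by
  unfold Eat at h ⊢
  rw [X.vt_smul, X.iter_smul, X.iter_smul]
  exact (btw_smul_iff X.gf.acts g).2 h

theorem qq_smul (g : G) {d d' : W × W} {y : W} (h : QQ X.T X.f d y d') :
    QQ X.T X.f (g • d) (g • y) (g • d') := by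
  obtain ⟨q1, q2, q3, q4, q5, ⟨t, q6⟩, ⟨t', q7⟩⟩ := h
  exact ⟨(adj_smul_iff X.gf.acts g).2 q1, (adj_smul_iff X.gf.acts g).2 q2,
    (btw_smul_iff X.gf.acts g).2 q3, (btw_smul_iff X.gf.acts g).2 q4,
    ⟨X.qa_ll_smul g q5.1, fun t => X.qa_al_smul g (q5.2 t)⟩, ⟨t, X.qa_eat_smul g q6⟩,
    ⟨t', X.qa_eat_smul g q7⟩⟩

theorem qt_smul (g : G) {th τ : ℕ} {d d' : W × W} {y : W} (h : QT X.T X.f th τ d y d') :
    QT X.T X.f th τ (g • d) (g • y) (g • d') := by
  obtain ⟨q1, q2, q3, q4, q5, q6, q7, q8⟩ := h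
  exact ⟨(adj_smul_iff X.gf.acts g).2 q1, (adj_smul_iff X.gf.acts g).2 q2,
    (btw_smul_iff X.gf.acts g).2 q3, (btw_smul_iff X.gf.acts g).2 q4,
    X.qa_ll_smul g q5, fun t ht => X.qa_al_smul g (q6 t ht), X.qa_eat_smul g q7,
    X.qa_eat_smul g q8⟩

theorem eat_iff {a y b w : W} (h : LL X.T X.f a y b) (t : ℕ) : Eat X.T X.f a y b t w ↔
    Btw X.T (X.f^[t] a) (X.f^[t] w) (X.f^[t] y) ∧ Btw X.T (X.f^[t] b) (X.f^[t] w) (X.f^[t] y) := by
  exact btw_med_iff X.acyc (X.reach_iter t h.1.1) (X.reach_iter t h.2.1.1)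

theorem eat_self {a y b : W} (h : LL X.T X.f a y b) (t : ℕ) : Eat X.T X.f a y b t y := by
  exact btw_right (X.vt_spec h t).1.2.1

/-- Eaten vertices stay eaten (`eat_iff`, `ls_map` for both image legs). -/
theorem eat_mono {a y b w : W} (h : LL X.T X.f a y b) {t t' : ℕ} (ht : t ≤ t')
    (he : Eat X.T X.f a y b t w) : Eat X.T X.f a y b t' w := by
  obtain ⟨n, rfl⟩ := Nat.exists_eq_add_of_le' ht
  rw [X.eat_iff h] at he ⊢
  simp only [Function.iterate_add_apply]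
  exact ⟨X.ls_btw_iter n (X.ls_iter t h.1) he.1,
    X.ls_btw_iter n (X.ls_iter t (X.ls_symm h.2.1)) he.2⟩

theorem eat_leg {a y b w w' : W} (h : LL X.T X.f a y b) (hw : Btw X.T a w y)
    (hw' : Btw X.T w w' y) {t : ℕ} (he : Eat X.T X.f a y b t w) : Eat X.T X.f a y b t w' := by
  have hl : LS X.T X.f w y := X.ls_sub h.1 hw (btw_right h.1.1)
  have m := X.ls_btw_iter t hl hw'
  exact (Btw.trans_right he m).1

theorem not_eat {a y b w : W} (h : LL X.T X.f a y b) (hw : Btw X.T a w y) {t : ℕ}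
    (he : ¬ Eat X.T X.f a y b t w) :
    Btw X.T (X.f^[t] a) (X.f^[t] w) (vt X.T X.f a y b t) ∧ X.f^[t] w ≠ vt X.T X.f a y b t := by
  have v1 := (X.vt_spec h t).1
  have m := X.ls_btw_iter t h.1 hw
  have hne : X.f^[t] w ≠ vt X.T X.f a y b t := by
    intro e
    apply he
    unfold Eat
    rw [e]
    exact btw_left v1.2.1
  refine ⟨?_, hne⟩
  rcases le_total (X.T.dist (X.f^[t] a) (X.f^[t] w))
      (X.T.dist (X.f^[t] a) (vt X.T X.f a y b t)) with hd | hd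
  · exact (Btw.compare X.acyc m v1 hd).1
  · exact absurd (Btw.compare X.acyc v1 m hd).2 he

theorem not_eat_of_al {a y b : W} (h : LL X.T X.f a y b) {t : ℕ} (ha : Al X.T X.f a y b t) :
    ¬ Eat X.T X.f a y b t a ∧ ¬ Eat X.T X.f a y b t b := by
  obtain ⟨-, n1, n2⟩ := X.ill_btw ha
  obtain ⟨v1, v2, -⟩ := X.vt_spec h t
  exact ⟨fun H => n1 (Btw.antisymm v1.symm (Btw.symm H)),
    fun H => n2 (Btw.antisymm v2 (Btw.symm H))⟩

/-- The image of the turning point is eaten, at bounded distance (`bcc`). -/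
theorem vt_succ {a y b : W} (h : LL X.T X.f a y b) (t : ℕ) :
    Btw X.T (vt X.T X.f a y b (t + 1)) (X.f (vt X.T X.f a y b t)) (X.f^[t + 1] y) ∧
      X.T.dist (vt X.T X.f a y b (t + 1)) (X.f (vt X.T X.f a y b t)) ≤ X.C := by
  obtain ⟨v1, v2, v3⟩ := X.vt_spec h t
  obtain ⟨u1, u2, u3⟩ := X.vt_spec h (t + 1)
  have m1 := (X.ls_map (X.ls_iter t h.1)).2.1 _ v1
  have m2 := (X.ls_map (X.ls_iter t (X.ls_symm h.2.1))).2.1 _ v2.symm
  have hb := X.bcc_med v3
  simp only [← Function.iterate_succ_apply' X.f t, Nat.succ_eq_add_one] at m1 m2 hb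
  have k : Btw X.T (vt X.T X.f a y b (t + 1)) (X.f (vt X.T X.f a y b t)) (X.f^[t + 1] y) :=
    (btw_med_iff X.acyc (X.reach_iter (t + 1) h.1.1) (X.reach_iter (t + 1) h.2.1.1)).2 ⟨m1, m2⟩
  refine ⟨k, ?_⟩
  rw [med_eq X.acyc (u1.trans_right k).2 (u2.symm.trans_right k).2.symm u3,
    SimpleGraph.dist_comm] at hb
  exact hb

theorem vt_iter {a y b : W} (h : LL X.T X.f a y b) (t s : ℕ) :
    Btw X.T (vt X.T X.f a y b (s + t)) (X.f^[s] (vt X.T X.f a y b t)) (X.f^[s + t] y) := by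
  obtain ⟨v1, v2, -⟩ := X.vt_spec h t
  have m1 := X.ls_btw_iter s (X.ls_iter t h.1) v1
  have m2 := X.ls_btw_iter s (X.ls_iter t (X.ls_symm h.2.1)) v2.symm
  rw [← Function.iterate_add_apply, ← Function.iterate_add_apply] at m1 m2
  exact (btw_med_iff X.acyc (X.reach_iter (s + t) h.1.1) (X.reach_iter (s + t) h.2.1.1)).2
    ⟨m1, m2⟩

theorem qb_ll_sub {a y b a' b' : W} (h : LL X.T X.f a y b) (ha : Btw X.T a a' y)
    (hb : Btw X.T b b' y) : LL X.T X.f a' y b' :=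
  ⟨X.ls_sub h.1 ha (btw_right h.1.1), X.ls_sub h.2.1 (btw_left h.2.1.1) hb.symm,
    ((h.2.2.trans_left ha).2.trans_right hb.symm).2⟩

theorem qb_safe_step {a y b w : W} (h : LL X.T X.f a y b) (hw : Btw X.T a w y) {t : ℕ}
    (he : ¬ Eat X.T X.f a y b t w)
    (hc : (X.c : ℝ) ≤ len X.T X.l (X.f^[t] w) (vt X.T X.f a y b t)) :
    ¬ Eat X.T X.f a y b (t + 1) w ∧
      (X.c : ℝ) ≤ len X.T X.l (X.f^[t + 1] w) (vt X.T X.f a y b (t + 1)) := by
  have hT := X.acyc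
  obtain ⟨h1, -⟩ := X.not_eat h hw he
  obtain ⟨v1, -, -⟩ := X.vt_spec h t
  obtain ⟨u1, -, -⟩ := X.vt_spec h (t + 1)
  obtain ⟨s1, s2⟩ := X.vt_succ h t
  have hl := X.ls_iter t h.1
  have hAV : LS X.T X.f (X.f^[t] a) (vt X.T X.f a y b t) := X.ls_sub hl (btw_left hl.1) v1
  have hWV : LS X.T X.f (X.f^[t] w) (vt X.T X.f a y b t) :=
    X.ls_sub hAV h1 (btw_right hAV.1)
  have m1 := (X.ls_map hAV).2.1 _ h1
  have m2 := (X.ls_map hWV).2.2.2.1
  rw [← Function.iterate_succ_apply' X.f t a, ← Function.iterate_succ_apply' X.f t w] at m1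
  rw [← Function.iterate_succ_apply' X.f t w] at m2
  have m3 := (u1.trans_right s1).2
  have hlen : len X.T X.l (vt X.T X.f a y b (t + 1)) (X.f (vt X.T X.f a y b t)) ≤ X.lm * X.C := by
    refine (X.len_le_dist s1.1).trans ?_
    have : (X.T.dist (vt X.T X.f a y b (t + 1)) (X.f (vt X.T X.f a y b t)) : ℝ) ≤ X.C := by
      exact_mod_cast s2
    exact mul_le_mul_of_nonneg_left this (Nat.cast_nonneg _)
  have hμ : X.μ * X.c ≤ X.μ * len X.T X.l (X.f^[t] w) (vt X.T X.f a y b t) :=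
    mul_le_mul_of_nonneg_left hc (by linarith [X.one_lt])
  have hbig := X.c_big
  have hc1 : (1 : ℝ) ≤ X.c := by exact_mod_cast X.c_pos
  rcases le_total (X.T.dist (X.f^[t + 1] a) (X.f^[t + 1] w))
      (X.T.dist (X.f^[t + 1] a) (vt X.T X.f a y b (t + 1))) with hd | hd
  · obtain ⟨c1, c2⟩ := Btw.compare hT m1 m3 hd
    have e := X.len_add c2
    have hlen2 : (X.c : ℝ) ≤ len X.T X.l (X.f^[t + 1] w) (vt X.T X.f a y b (t + 1)) := by
      simp only [Nat.succ_eq_add_one] at m2 e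
      nlinarith
    refine ⟨fun hE => ?_, hlen2⟩
    have c3 := (u1.trans_left c1).2
    have e2 : X.f^[t + 1] w = vt X.T X.f a y b (t + 1) := Btw.antisymm hE.symm c3.symm
    rw [e2, EG.len_self hT] at hlen2
    linarith
  · exfalso
    obtain ⟨c1, c2⟩ := Btw.compare hT m3 m1 hd
    have e := X.len_add c2
    have := X.len_nonneg (vt X.T X.f a y b (t + 1)) (X.f^[t + 1] w)
    simp only [Nat.succ_eq_add_one] at m2 e
    nlinarith

/-- A vertex far from the turning point is never eaten: `μ c - C lm ≥ c`. -/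
theorem safe {a y b w : W} (h : LL X.T X.f a y b) (hw : Btw X.T a w y) {t t' : ℕ} (ht : t ≤ t')
    (he : ¬ Eat X.T X.f a y b t w)
    (hc : (X.c : ℝ) ≤ len X.T X.l (X.f^[t] w) (vt X.T X.f a y b t)) :
    ¬ Eat X.T X.f a y b t' w := by
  have key : ∀ n : ℕ, ¬ Eat X.T X.f a y b (t + n) w ∧
      (X.c : ℝ) ≤ len X.T X.l (X.f^[t + n] w) (vt X.T X.f a y b (t + n)) := by
    intro n
    induction n with
    | zero => exact ⟨he, hc⟩
    | succ n ih => exact X.qb_safe_step h hw ih.1 ih.2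
  obtain ⟨n, rfl⟩ := Nat.exists_eq_add_of_le ht
  exact (key n).1

/-- Shortening the legs to uneaten vertices does not change the turning point. -/
theorem vt_sub {a y b a' b' : W} (h : LL X.T X.f a y b) (ha : Btw X.T a a' y)
    (hb : Btw X.T b b' y) {t : ℕ} (h1 : ¬ Eat X.T X.f a y b t a') (h2 : ¬ Eat X.T X.f a y b t b') :
    LL X.T X.f a' y b' ∧ vt X.T X.f a' y b' t = vt X.T X.f a y b t ∧
      (Al X.T X.f a' y b' t ↔ Al X.T X.f a y b t) := by
  have hT := X.acyc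
  have hs := X.ll_symm h
  obtain ⟨a1, a2⟩ := X.not_eat h ha h1
  obtain ⟨b1, b2⟩ := X.not_eat hs hb (fun H => h2 (X.eat_symm hs H))
  rw [X.vt_symm h] at b1 b2
  obtain ⟨v1, v2, v3⟩ := X.vt_spec h t
  have p1 := (v3.trans_left a1).2
  have p2 := p1.trans_right b1.symm
  have p3 := (v3.trans_right b1.symm).2
  have e : vt X.T X.f a' y b' t = vt X.T X.f a y b t :=
    med_eq hT (v1.trans_left a1).2 (v2.symm.trans_left b1).2.symm p2.2
  refine ⟨X.qb_ll_sub h ha hb, e, ?_⟩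
  unfold Al
  rw [e]
  exact ⟨fun H => X.ill_ext H (p3.trans_left a1).1 p2.1,
    fun H => X.ill_restr H a1 b1.symm a2 (Ne.symm b2)⟩

/-- Extending the legs of a living turn. -/
theorem vt_ext {a y b a' b' : W} (h : LL X.T X.f a y b) (ha : Btw X.T a a' y)
    (hb : Btw X.T b b' y) {t : ℕ} (h1 : Al X.T X.f a' y b' t) :
    vt X.T X.f a' y b' t = vt X.T X.f a y b t ∧ Al X.T X.f a y b t ∧
      ¬ Eat X.T X.f a y b t a' ∧ ¬ Eat X.T X.f a y b t b' := by
  have hT := X.acyc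
  have h' := X.qb_ll_sub h ha hb
  obtain ⟨v1, v2, v3⟩ := X.vt_spec h' t
  obtain ⟨-, n1, n2⟩ := X.ill_btw h1
  have a1 := (X.ls_btw_iter t h.1 ha).trans_right v1
  have b1 := (X.ls_btw_iter t (X.ls_symm h.2.1) hb).trans_right v2.symm
  have g1 := Btw.glue hT a1.2 v3 (Ne.symm n1)
  have g2 := Btw.glue hT g1.2 b1.2.symm n2
  have g3 := Btw.glue hT v3 b1.2.symm n2
  have e : vt X.T X.f a y b t = vt X.T X.f a' y b' t := med_eq hT a1.1 b1.1.symm g2.1
  refine ⟨e.symm, ?_, ?_, ?_⟩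
  · unfold Al
    rw [e]
    exact X.ill_ext h1 g1.1 g3.2
  · intro H
    unfold Eat at H
    rw [e] at H
    exact n1 (Btw.antisymm v1.symm H.symm)
  · intro H
    unfold Eat at H
    rw [e] at H
    exact n2 (Btw.antisymm v2 H.symm)

theorem ai_ext {a y b a' b' : W} (h : LL X.T X.f a y b) (ha : Btw X.T a a' y)
    (hb : Btw X.T b b' y) (h1 : AI X.T X.f a' y b') : AI X.T X.f a y b ∧
      ∀ t, vt X.T X.f a' y b' t = vt X.T X.f a y b t := by
  exact ⟨⟨h, fun t => (X.vt_ext h ha hb (h1.2 t)).2.1⟩, fun t => (X.vt_ext h ha hb (h1.2 t)).1⟩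

/-- Shifting time. -/
theorem ai_shift {a y b : W} (h : AI X.T X.f a y b) (t : ℕ) :
    AI X.T X.f (X.f^[t] a) (vt X.T X.f a y b t) (X.f^[t] b) ∧
      ∀ s, vt X.T X.f (X.f^[t] a) (vt X.T X.f a y b t) (X.f^[t] b) s = vt X.T X.f a y b (s + t) := by
  have hT := X.acyc
  obtain ⟨v1, v2, v3⟩ := X.vt_spec h.1 t
  have l1 := X.ls_iter t h.1.1
  have l2 := X.ls_iter t h.1.2.1
  have hl : LL X.T X.f (X.f^[t] a) (vt X.T X.f a y b t) (X.f^[t] b) :=
    ⟨X.ls_sub l1 (btw_left l1.1) v1, X.ls_sub l2 v2 (btw_right l2.1), v3⟩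
  have e : ∀ s, vt X.T X.f (X.f^[t] a) (vt X.T X.f a y b t) (X.f^[t] b) s =
      vt X.T X.f a y b (s + t) := by
    intro s
    obtain ⟨u1, u2, u3⟩ := X.vt_spec h.1 (s + t)
    have w := X.vt_iter h.1 t s
    show med X.T (X.f^[s] (X.f^[t] a)) _ (X.f^[s] (X.f^[t] b)) = _
    rw [← Function.iterate_add_apply, ← Function.iterate_add_apply]
    exact med_eq hT (u1.trans_right w).2 (u2.symm.trans_right w).2.symm u3
  refine ⟨⟨hl, fun s => ?_⟩, e⟩
  unfold Al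
  rw [e, ← Function.iterate_add_apply, ← Function.iterate_add_apply]
  exact h.2 (s + t)

/-- An element of `Q` seen in a larger geodesic with legal legs. -/
theorem qb_qq_amb {a y b : W} (h : LL X.T X.f a y b) {d d' : W × W}
    (h1 : QQ X.T X.f d y d') (hd : Btw X.T a d.1 y) (hd' : Btw X.T b d'.1 y) :
    Sep X.T d a y ∧ (∀ t, ¬ Eat X.T X.f a y b t d.1) ∧ ∃ t, Eat X.T X.f a y b t d.2 := by
  obtain ⟨q1, -, q3, -, q5, ⟨t, q6⟩, -⟩ := h1
  refine ⟨⟨q1, (hd.trans_right q3).2, q3⟩, fun t => (X.vt_ext h hd hd' (q5.2 t)).2.2.1, t, ?_⟩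
  unfold Eat at q6 ⊢
  rwa [(X.vt_ext h hd hd' (q5.2 t)).1] at q6

theorem qb_not_lt {a y b : W} (h : LL X.T X.f a y b) {d e : W × W} (hd : Sep X.T d a y)
    (he : Sep X.T e a y) (h1 : ∃ t, Eat X.T X.f a y b t d.2)
    (h2 : ∀ t, ¬ Eat X.T X.f a y b t e.1) : X.T.dist a e.1 ≤ X.T.dist a d.1 := by
  by_contra hlt
  obtain ⟨t, ht⟩ := h1
  have e1 := (sep_dist hd).1
  have := Btw.compare X.acyc (sep_right X.acyc hd) (sep_left X.acyc he) (by omega)
  exact h2 t (X.eat_leg h (sep_right X.acyc hd) this.2 ht)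

theorem qb_unique_left {a y b : W} (h : LL X.T X.f a y b) {d d' e e' : W × W}
    (h1 : QQ X.T X.f d y d') (h2 : QQ X.T X.f e y e') (hd : Btw X.T a d.1 y)
    (hd' : Btw X.T b d'.1 y) (he : Btw X.T a e.1 y) (he' : Btw X.T b e'.1 y) : d = e := by
  obtain ⟨p1, p2, p3⟩ := X.qb_qq_amb h h1 hd hd'
  obtain ⟨r1, r2, r3⟩ := X.qb_qq_amb h h2 he he'
  exact sep_unique X.acyc p1 r1
    (le_antisymm (X.qb_not_lt h r1 p1 r3 p2) (X.qb_not_lt h p1 r1 p3 r2))

/-- (U) Two elements of `Q` inside one geodesic with legal legs are equal. -/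
theorem qq_unique {a y b : W} (h : LL X.T X.f a y b) {d d' e e' : W × W}
    (h1 : QQ X.T X.f d y d') (h2 : QQ X.T X.f e y e') (hd : Btw X.T a d.1 y)
    (hd' : Btw X.T b d'.1 y) (he : Btw X.T a e.1 y) (he' : Btw X.T b e'.1 y) :
    d = e ∧ d' = e' := by
  exact ⟨X.qb_unique_left h h1 h2 hd hd' he he',
    X.qb_unique_left (X.ll_symm h) (X.qq_symm h1) (X.qq_symm h2) hd' hd he' he⟩

theorem qb_far {a y p q : W} (hp : Btw X.T a p y) (hq : Btw X.T a q y) (lp : LS X.T X.f p y)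
    (lq : LS X.T X.f q y) :
    ∃ a', Btw X.T a a' y ∧ LS X.T X.f a' y ∧ Btw X.T a' p y ∧ Btw X.T a' q y := by
  rcases le_total (X.T.dist a p) (X.T.dist a q) with hd | hd
  · exact ⟨p, hp, lp, btw_left lp.1, (Btw.compare X.acyc hp hq hd).2⟩
  · exact ⟨q, hq, lq, (Btw.compare X.acyc hq hp hd).2, btw_left lq.1⟩

/-- (U) without the ambient geodesic being legal: nested legs suffice. -/
theorem qq_unique' {a y b : W} (h : Btw X.T a y b) {d d' e e' : W × W}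
    (h1 : QQ X.T X.f d y d') (h2 : QQ X.T X.f e y e') (hd : Btw X.T a d.1 y)
    (hd' : Btw X.T b d'.1 y) (he : Btw X.T a e.1 y) (he' : Btw X.T b e'.1 y) :
    d = e ∧ d' = e' := by
  obtain ⟨a', a1, a2, a3, a4⟩ := X.qb_far hd he h1.2.2.2.2.1.1.1 h2.2.2.2.2.1.1.1
  obtain ⟨b', b1, b2, b3, b4⟩ := X.qb_far hd' he' (X.ls_symm h1.2.2.2.2.1.1.2.1)
    (X.ls_symm h2.2.2.2.2.1.1.2.1)
  exact X.qq_unique ⟨a2, X.ls_symm b2, ((h.trans_left a1).2.trans_right b1.symm).2⟩ h1 h2 a3 b3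
    a4 b4

/-- The turn of an element of `Q` is the only illegal vertex. -/
theorem qq_turn {d d' : W × W} {y : W} (h : QQ X.T X.f d y d') :
    Ill X.T X.f d.1 d'.1 = {y} := by
  have hA := h.2.2.2.2.1
  ext v
  constructor
  · intro hv
    exact X.ill_of_ll hA.1 hv
  · intro hv
    have := hA.2 0
    unfold Al at this
    rw [X.vt_zero hA.1] at this
    rw [Set.mem_singleton_iff.1 hv]
    exact this

theorem qb_switch (P : W → Prop) {y : W} (hy : P y) (n : ℕ) :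
    ∀ a, X.T.Reachable a y → X.T.dist a y = n → ¬ P a →
      ∃ d : W × W, Sep X.T d a y ∧ ¬ P d.1 ∧ P d.2 := by
  induction n with
  | zero =>
    intro a hr h0 ha
    rw [eq_of_dist_zero hr h0] at ha
    exact absurd hy ha
  | succ n ih =>
    intro a hr hn ha
    have hne : a ≠ y := fun e => ha (e ▸ hy)
    have hs := nxt_spec X.acyc hr hne
    by_cases hz : P (nxt X.T a y)
    · exact ⟨_, hs, ha, hz⟩
    · have e := (sep_dist hs).2
      simp only at e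
      obtain ⟨d, d1, d2, d3⟩ := ih (nxt X.T a y) hs.2.2.2.1 (by omega) hz
      exact ⟨d, sep_ext_left X.acyc d1 hs.2.2, d2, d3⟩

theorem qb_exists_left {a y b : W} (h : AI X.T X.f a y b) : ∃ d : W × W, Sep X.T d a y ∧
    (∀ t, ¬ Eat X.T X.f a y b t d.1) ∧ ∃ t, Eat X.T X.f a y b t d.2 := by
  obtain ⟨d, d1, d2, d3⟩ := X.qb_switch (fun w => ∃ t, Eat X.T X.f a y b t w)
    ⟨0, X.eat_self h.1 0⟩ _ a h.1.1.1 rfl
    (fun ⟨t, ht⟩ => (X.not_eat_of_al h.1 (h.2 t)).1 ht)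
  exact ⟨d, d1, fun t ht => d2 ⟨t, ht⟩, d3⟩

/-- A turn that is alive for ever contains an element of `Q`: on each leg take the dart whose
end is eventually eaten and whose origin is not. -/
theorem ai_exists_qq {a y b : W} (h : AI X.T X.f a y b) :
    ∃ d d', QQ X.T X.f d y d' ∧ Btw X.T a d.1 y ∧ Btw X.T b d'.1 y := by
  have hT := X.acyc
  obtain ⟨d, d1, d2, t, d3⟩ := X.qb_exists_left h
  obtain ⟨d', e1, e2, t', e3⟩ := X.qb_exists_left (X.ai_symm h)
  have hs := X.ll_symm h.1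
  have p1 := sep_left hT d1
  have p2 := sep_left hT e1
  have key := fun t => X.vt_sub h.1 p1 p2 (d2 t) (fun H => e2 t (X.eat_symm h.1 H))
  refine ⟨d, d', ⟨d1.1, e1.1, d1.2.2, e1.2.2, ⟨(key 0).1, fun t => (key t).2.2.2 (h.2 t)⟩,
    ⟨t, ?_⟩, ⟨t', ?_⟩⟩, p1, p2⟩
  · unfold Eat at d3 ⊢
    rwa [(key t).2.1]
  · have e4 := X.eat_symm hs e3
    unfold Eat at e4 ⊢
    rwa [(key t').2.1]

theorem qb_child_left {d d' e e' : W × W} {y : W} (h : QQ X.T X.f d y d')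
    (he : QQ X.T X.f e (vt X.T X.f d.1 y d'.1 1) e')
    (h1 : Btw X.T (X.f d.1) e.1 (vt X.T X.f d.1 y d'.1 1))
    (h2 : Btw X.T (X.f d'.1) e'.1 (vt X.T X.f d.1 y d'.1 1)) :
    Sep X.T e (X.f d.1) (X.f d.2) := by
  have hT := X.acyc
  obtain ⟨q1, -, q3, -, q5, ⟨t, q6⟩, -⟩ := h
  obtain ⟨hs, hv⟩ := X.ai_shift q5 1
  simp only [Function.iterate_one] at hs hv
  obtain ⟨p1, p2, -⟩ := X.qb_qq_amb hs.1 he h1 h2
  have v1 := (X.vt_spec q5.1 1).1
  simp only [Function.iterate_one] at v1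
  have m1 := (X.ls_map q5.1.1).2.1 _ q3
  have s1 := (v1.trans_left (sep_left hT p1)).1
  have s2 := (v1.trans_left (sep_right hT p1)).1
  have e1 := (sep_dist p1).1
  by_cases hd : X.T.dist (X.f d.1) e.2 ≤ X.T.dist (X.f d.1) (X.f d.2)
  · have c := (Btw.compare hT s2 m1 hd).1
    exact ⟨p1.1, p1.2.1, (c.trans_left p1.2.1).2⟩
  · exfalso
    have c := (Btw.compare hT m1 s1 (by omega)).1
    have c2 := (sep_left hT p1).trans_left c
    refine p2 t (X.eat_leg hs.1 c2.1 c2.2 ?_)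
    have q7 := X.eat_mono q5.1 (Nat.le_succ t) q6
    unfold Eat at q7 ⊢
    rw [hv t, ← Function.iterate_succ_apply X.f t d.2]
    have u1 := (X.vt_spec q5.1 (t + 1)).1
    have w := X.vt_iter q5.1 1 t
    have m2 := X.ls_btw_iter t hs.1.1 c2.1
    rw [← Function.iterate_succ_apply X.f t d.2, ← Function.iterate_succ_apply X.f t d.1] at m2
    have k1 := (u1.trans_right q7).2
    have k2 := (u1.trans_right w).2
    refine ⟨q7.1, m2.2.1, ?_⟩
    have := k1.2.2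
    have := k2.2.2
    have := m2.2.2
    simp only [Nat.succ_eq_add_one] at *
    omega

/-- The successor of an element of `Q` consists of children. -/
theorem qq_child {d d' e e' : W × W} {y : W} (h : QQ X.T X.f d y d')
    (he : QQ X.T X.f e (vt X.T X.f d.1 y d'.1 1) e')
    (h1 : Btw X.T (X.f d.1) e.1 (vt X.T X.f d.1 y d'.1 1))
    (h2 : Btw X.T (X.f d'.1) e'.1 (vt X.T X.f d.1 y d'.1 1)) :
    Sep X.T e (X.f d.1) (X.f d.2) ∧ Sep X.T e' (X.f d'.1) (X.f d'.2) := by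
  refine ⟨X.qb_child_left h he h1 h2, ?_⟩
  have e1 := X.vt_symm h.2.2.2.2.1.1 1
  rw [← e1] at he h1 h2
  exact X.qb_child_left (X.qq_symm h) (X.qq_symm he) h2 h1

/-- An eaten vertex is strictly eaten later: the illegal turn at the turning point degenerates. -/
theorem eat_strict {a y b w : W} (h : AI X.T X.f a y b) {t : ℕ} (he : Eat X.T X.f a y b t w) :
    ∃ s, ∀ s', s ≤ s' → X.f^[s'] w ≠ vt X.T X.f a y b s' := by
  have hT := X.acyc
  obtain ⟨p, r, h1, h2, h3⟩ := h.2 t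
  obtain ⟨hs, -⟩ := X.ai_shift h t
  obtain ⟨v1, v2, v3⟩ := X.vt_spec h.1 t
  unfold Lg at h3
  push Not at h3
  obtain ⟨i, hi⟩ := h3
  refine ⟨i + t, fun s' hs' H => ?_⟩
  obtain ⟨j, rfl⟩ := Nat.exists_eq_add_of_le hs'
  have hj : (Df X.T X.f)^[j + i] (vt X.T X.f a y b t, p) =
      (Df X.T X.f)^[j + i] (vt X.T X.f a y b t, r) := by
    rw [Function.iterate_add_apply, Function.iterate_add_apply, hi]
  have s1 : Sep X.T (vt X.T X.f a y b t, p) (vt X.T X.f a y b t) (X.f^[t] a) :=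
    ⟨h1.1.symm, btw_left h1.1.symm.reachable, h1.2.1.symm⟩
  have s2 : Sep X.T (vt X.T X.f a y b t, r) (vt X.T X.f a y b t) (X.f^[t] b) :=
    ⟨h2.1, btw_left h2.1.reachable, h2.2.2⟩
  have t1 := X.df_iter_eq (j + i) (X.ls_symm hs.1.1) s1
  have t2 := X.df_iter_eq (j + i) hs.1.2.1 s2
  rw [hj] at t1
  have l2 := X.ls_iter t h.1.1
  have hl : LS X.T X.f (vt X.T X.f a y b t) (X.f^[t] y) := X.ls_sub l2 v1 (btw_right l2.1)
  have m := X.ls_btw_iter (j + i) hl he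
  have w := X.vt_iter h.1 t (j + i)
  have u3 := (X.vt_spec h.1 (j + i + t)).2.2
  rw [← Function.iterate_add_apply] at t1 t2
  rw [← Function.iterate_add_apply, ← Function.iterate_add_apply] at m
  rw [show i + t + j = j + i + t by ring] at H
  rw [H] at m
  have e : X.f^[j + i] (vt X.T X.f a y b t) = vt X.T X.f a y b (j + i + t) :=
    Btw.antisymm w.symm m.symm
  rw [e] at t1 t2
  have k1 := sep_right hT t1
  have k2 := sep_right hT t2
  have k3 := (u3.trans_left k1.symm).2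
  exact (sep_ne t1).2.1 (Btw.antisymm k3.symm k2.symm)

end Cx

end EG
end CPOR
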