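import Pool.Agent.P.MP_2cb329_al.EG.L

/-! Section F9: rays and their half lines. -/

set_option autoImplicit false

namespace CPOR
namespace EG
open ZT MulAction
open scoped Pointwise

variable {G W : Type} [Group G] [MulAction G W] (X : Cx G W)

namespace Cx

variable {N : ℕ} {d d' : ℤ → W × W}

theorem ray_smul (h : IsRay X.T X.f G N d) (g : G) : IsRay X.T X.f G N (g • d) := by
  refine ⟨fun t => X.gf.acts g _ _ (h.adj t), fun t => ?_, ?_, ?_⟩
  · have := (sep_smul_iff X.gf.acts g).2 (h.child t)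
    rw [← X.smul, ← X.smul] at this
    exact this
  · obtain ⟨k, hk⟩ := h.per
    refine ⟨g * k * g⁻¹, fun t => ?_⟩
    show g • d (t + N) = (g * k * g⁻¹) • g • d t
    rw [hk, mul_smul, inv_smul_smul, mul_smul]
  · obtain ⟨t, ht⟩ := h.nl
    refine ⟨t, fun e => ht ?_⟩
    have e' : g • (d (t + 1)).2 = X.f (g • (d t).2) := e
    rw [X.smul] at e'
    exact smul_left_cancel g e'

theorem ray_shift (h : IsRay X.T X.f G N d) (k : ℤ) :
    IsRay X.T X.f G N (fun t => d (t + k)) := by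
  refine ⟨fun t => h.adj _, fun t => ?_, ?_, ?_⟩
  · have := h.child (t + k)
    rwa [show t + k + 1 = t + 1 + k by ring] at this
  · obtain ⟨g, hg⟩ := h.per
    refine ⟨g, fun t => ?_⟩
    have := hg (t + k)
    rwa [show t + k + N = t + N + k by ring] at this
  · obtain ⟨t, ht⟩ := h.nl
    refine ⟨t - k, ?_⟩
    show (d (t - k + 1 + k)).2 ≠ X.f (d (t - k + k)).2
    rwa [show t - k + 1 + k = t + 1 by ring, show t - k + k = t by ring]

theorem ray_free (h : IsRay X.T X.f G N d) {g : G} (hg : g • d = d) : g = 1 := by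
  exact dart_free X.gf (h.adj 0) (congrFun hg 0)

theorem sep_child_ra {x y : W} {e e' : W × W} (h : LS X.T X.f x y) (he : Sep X.T e x y)
    (he' : Sep X.T e' (X.f e.1) (X.f e.2)) : Sep X.T e' (X.f x) (X.f y) := by
  have l1 := X.ls_sub h (btw_left h.1) (sep_right X.acyc he)
  exact sep_ext_right X.acyc (sep_ext_left X.acyc he' ((X.ls_map l1).2.1 _ he.2.1))
    ((X.ls_map h).2.1 _ (sep_right X.acyc he))

theorem ray_desc (h : IsRay X.T X.f G N d) (t : ℤ) (s : ℕ) :
    Sep X.T (d (t + s)) (X.f^[s] (d t).1) (X.f^[s] (d t).2) := by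
  induction s with
  | zero => simpa using sep_self (h.adj t)
  | succ s ih =>
    rw [Function.iterate_succ_apply', Function.iterate_succ_apply',
      show t + ((s + 1 : ℕ) : ℤ) = t + s + 1 by push_cast; ring]
    exact X.sep_child_ra (X.ls_iter s (X.ls_adj (h.adj t))) ih (h.child _)

/-- Rays that agree from some time on are equal (the periods agree since darts are free). -/
theorem ray_ext (hN : 0 < N) (h : IsRay X.T X.f G N d) (h' : IsRay X.T X.f G N d') {s : ℤ}
    (he : ∀ t, s ≤ t → d t = d' t) : d = d' := by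
  obtain ⟨g, hg⟩ := h.per
  obtain ⟨g', hg'⟩ := h'.per
  have e : g = g' := by
    refine dart_cancel X.gf (h.adj s) ?_
    rw [← hg, he _ (by omega), hg', he s le_rfl]
  subst e
  funext t
  have h1 := per_zpow hg ((s - t).natAbs : ℤ) t
  have h2 := per_zpow hg' ((s - t).natAbs : ℤ) t
  have h3 : s ≤ t + ((s - t).natAbs : ℤ) * N := by
    have a1 : s - t ≤ ((s - t).natAbs : ℤ) := Int.le_natAbs
    have a2 : (1 : ℤ) ≤ N := by exact_mod_cast hN
    have a3 : (0 : ℤ) ≤ ((s - t).natAbs : ℤ) := Int.natCast_nonneg _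
    nlinarith
  rw [he _ h3, h2] at h1
  exact (smul_left_cancel _ h1).symm

/-- A ray is determined by `d 0, ..., d N`; finitely many choices over `d 0`. -/
theorem fo_ray (hN : 0 < N) : FinOrb (⊤ : Subgroup G) {d | IsRay X.T X.f G N d} := by
  refine fo_of_fibres X.finE (fun d => d 0) (fun g d hd => X.ray_smul hd g) (fun g d _ => rfl)
    (fun d hd => hd.adj 0) (fun b => ?_)
  have hfin : (Set.univ.pi fun i : Fin (N + 1) =>
      {e | Sep X.T e (X.f^[i] b.1) (X.f^[i] b.2)}).Finite :=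
    Set.Finite.pi' (fun i => sep_finite X.acyc _ _) |>.subset fun x hx i => hx i trivial
  refine Set.Finite.of_injOn (f := fun (d : ℤ → W × W) (i : Fin (N + 1)) => d (i : ℕ)) ?_ ?_ hfin
  · rintro d ⟨hd, hb⟩ i -
    have := X.ray_desc hd 0 i
    rw [zero_add] at this
    rw [← hb]
    exact this
  · rintro d ⟨hd, -⟩ d' ⟨hd', -⟩ e
    have he : ∀ i : ℕ, i ≤ N → d i = d' i := fun i hi => congrFun e ⟨i, by omega⟩
    obtain ⟨g, hg⟩ := hd.per
    obtain ⟨g', hg'⟩ := hd'.per
    have e0 : d 0 = d' 0 := he 0 (Nat.zero_le _)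
    have e : g = g' := by
      refine dart_cancel X.gf (hd.adj 0) ?_
      rw [← hg, zero_add, he N le_rfl, e0, ← hg', zero_add]
    subst e
    funext t
    have a0 : (0 : ℤ) < N := by exact_mod_cast hN
    have a1 := Int.emod_nonneg t a0.ne'
    have a2 := Int.emod_lt_of_pos t a0
    have a3 : t = t % N + t / N * N := (Int.emod_add_ediv_mul t N).symm
    obtain ⟨r, hr⟩ := Int.eq_ofNat_of_zero_le a1
    rw [a3, per_zpow hg, per_zpow hg', hr, he r (by omega)]

/-- The part of `f^[s] (d t)` after `d (t + s)` grows: once in every period the ray is not the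
last child, and legal geodesics do not shrink. -/
theorem ray_grow (hN : 0 < N) (h : IsRay X.T X.f G N d) (t : ℤ) {n s : ℕ} (hs : n * N ≤ s) :
    n ≤ X.T.dist (d (t + s)).2 (X.f^[s] (d t).2) := by
  have step : ∀ s : ℕ, X.T.dist (d (t + s)).2 (X.f^[s] (d t).2) +
      X.T.dist (d (t + s + 1)).2 (X.f (d (t + s)).2) ≤
      X.T.dist (d (t + (s + 1 : ℕ))).2 (X.f^[s + 1] (d t).2) := by
    intro s
    rw [Function.iterate_succ_apply', show t + ((s + 1 : ℕ) : ℤ) = t + s + 1 by push_cast; ring]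
    have h1 := X.ray_desc h t s
    have hl := X.ls_iter s (X.ls_adj (h.adj t))
    have l1 := X.ls_sub hl (sep_left X.acyc h1) (btw_right hl.1)
    have l2 := X.ls_sub hl (sep_right X.acyc h1) (btw_right hl.1)
    have b1 := (X.ls_map l1).2.1 _ h1.2.2
    have b2 := (b1.trans_left (sep_right X.acyc (h.child (t + s)))).2
    have e1 := b2.2.2
    have e2 := (X.ls_map l2).2.2.2.2
    omega
  have mono : Monotone fun s : ℕ => X.T.dist (d (t + s)).2 (X.f^[s] (d t).2) :=
    monotone_nat_of_le_succ fun s => le_trans (Nat.le_add_right _ _) (step s)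
  obtain ⟨g, hg⟩ := h.per
  obtain ⟨t0, ht0⟩ := h.nl
  have a0 : (0 : ℤ) < N := by exact_mod_cast hN
  have nl : ∀ u : ℤ, ∃ r : ℕ, r < N ∧ (d (u + r + 1)).2 ≠ X.f (d (u + r)).2 := by
    intro u
    have a1 := Int.emod_nonneg (t0 - u) a0.ne'
    have a2 := Int.emod_lt_of_pos (t0 - u) a0
    have a3 := Int.emod_add_ediv_mul (t0 - u) N
    obtain ⟨r, hr⟩ := Int.eq_ofNat_of_zero_le a1
    refine ⟨r, by omega, fun e => ht0 ?_⟩
    have b1 := per_zpow hg ((t0 - u) / N) (u + r)
    have b2 := per_zpow hg ((t0 - u) / N) (u + r + 1)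
    rw [show u + r + (t0 - u) / N * N = t0 by omega] at b1
    rw [show u + r + 1 + (t0 - u) / N * N = t0 + 1 by omega] at b2
    rw [b1, b2, Prod.smul_snd, Prod.smul_snd, X.smul, e]
  have key : ∀ n : ℕ, n ≤ X.T.dist (d (t + (n * N : ℕ))).2 (X.f^[n * N] (d t).2) := by
    intro n
    induction n with
    | zero => exact Nat.zero_le _
    | succ n ih =>
      obtain ⟨r, hr, hne⟩ := nl (t + (n * N : ℕ))
      have c1 := step (n * N + r)
      have c2 := mono (show n * N ≤ n * N + r by omega)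
      have c3 := mono (show n * N + r + 1 ≤ (n + 1) * N by rw [Nat.succ_mul]; omega)
      have c4 : X.T.dist (d (t + (n * N + r : ℕ) + 1)).2 (X.f (d (t + (n * N + r : ℕ))).2) ≠ 0 := by
        intro e
        have := eq_of_dist_zero (sep_right X.acyc (h.child _)).2.1 e
        rw [show t + ((n * N + r : ℕ) : ℤ) = t + (n * N : ℕ) + r by push_cast; ring] at this
        exact hne this
      simp only at c2 c3
      omega
  exact (key n).trans (mono hs)

theorem ray_nest (h : IsRay X.T X.f G N d) (t : ℤ) {s s' : ℕ} (hs : s ≤ s') :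
    Btw X.T (d t).1 (X.f^[s] (d (t - s)).2) (X.f^[s'] (d (t - s')).2) := by
  obtain ⟨k, rfl⟩ := Nat.exists_eq_add_of_le hs
  have h1 := X.ray_desc h (t - (s + k : ℕ)) k
  rw [show t - ((s + k : ℕ) : ℤ) + k = t - s by push_cast; ring] at h1
  have h2 := X.ray_desc h (t - s) s
  rw [sub_add_cancel] at h2
  have hl := X.ls_iter k (X.ls_adj (h.adj (t - (s + k : ℕ))))
  have l1 := X.ls_sub hl (sep_left X.acyc h1) (btw_right hl.1)
  have b1 := X.ls_btw_iter s l1 h1.2.2
  rw [Function.iterate_add_apply]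
  exact (b1.trans_left (sep_left X.acyc h2)).2

theorem hl_spec (hN : 0 < N) (h : IsRay X.T X.f G N d) (t : ℤ) (n : ℕ) :
    HL X.T X.f d t (hl X.T X.f d t n) ∧ X.T.dist (d t).1 (hl X.T X.f d t n) = n := by
  have h1 := X.ray_grow hN h (t - (n * N : ℕ)) (n := n) le_rfl
  have h2 := X.ray_desc h (t - (n * N : ℕ)) (n * N)
  rw [sub_add_cancel] at h1 h2
  have h3 := (sep_dist h2).2
  obtain ⟨z, hz, e⟩ := exists_btw_dist h2.2.2.reach (i := n) (by omega)
  have hex : ∃ z, HL X.T X.f d t z ∧ X.T.dist (d t).1 z = n := ⟨z, ⟨n * N, hz⟩, e⟩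
  have e' : hl X.T X.f d t n = hex.choose := by
    unfold hl
    rw [dif_pos hex]
  rw [e']
  exact hex.choose_spec

theorem hl_common_ra (h : IsRay X.T X.f G N d) {t : ℤ} {z z' : W} (hz : HL X.T X.f d t z)
    (hz' : HL X.T X.f d t z') :
    ∃ y, LS X.T X.f (d t).1 y ∧ Btw X.T (d t).1 z y ∧ Btw X.T (d t).1 z' y := by
  obtain ⟨s, hs⟩ := hz
  obtain ⟨s', hs'⟩ := hz'
  have h3 := X.ray_desc h (t - (max s s' : ℕ)) (max s s')
  rw [sub_add_cancel] at h3
  have hl := X.ls_iter (max s s') (X.ls_adj (h.adj (t - (max s s' : ℕ))))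
  exact ⟨_, X.ls_sub hl (sep_left X.acyc h3) (btw_right hl.1),
    ((X.ray_nest h t (le_max_left s s')).trans_left hs).1,
    ((X.ray_nest h t (le_max_right s s')).trans_left hs').1⟩

theorem hl_eq (hN : 0 < N) (h : IsRay X.T X.f G N d) {t : ℤ} {z : W} (hz : HL X.T X.f d t z) :
    hl X.T X.f d t (X.T.dist (d t).1 z) = z := by
  obtain ⟨h1, h2⟩ := X.hl_spec hN h t (X.T.dist (d t).1 z)
  obtain ⟨y, -, b1, b2⟩ := X.hl_common_ra h h1 hz
  exact b1.unique X.acyc b2 h2

theorem hl_zero (hN : 0 < N) (h : IsRay X.T X.f G N d) (t : ℤ) : hl X.T X.f d t 0 = (d t).1 := by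
  obtain ⟨⟨s, h1⟩, h2⟩ := X.hl_spec hN h t 0
  exact (eq_of_dist_zero h1.1 h2).symm

theorem hl_one (hN : 0 < N) (h : IsRay X.T X.f G N d) (t : ℤ) : hl X.T X.f d t 1 = (d t).2 := by
  have h1 : HL X.T X.f d t (d t).2 := ⟨0, by simpa using btw_right (h.adj t).reachable⟩
  have := X.hl_eq hN h h1
  rwa [SimpleGraph.dist_eq_one_iff_adj.2 (h.adj t)] at this

theorem hl_geod (hN : 0 < N) (h : IsRay X.T X.f G N d) (t : ℤ) {i j : ℕ} (hij : i ≤ j) :
    Btw X.T (d t).1 (hl X.T X.f d t i) (hl X.T X.f d t j) ∧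
      X.T.dist (hl X.T X.f d t i) (hl X.T X.f d t j) = j - i ∧
      LS X.T X.f (hl X.T X.f d t i) (hl X.T X.f d t j) := by
  obtain ⟨h1, h2⟩ := X.hl_spec hN h t i
  obtain ⟨h3, h4⟩ := X.hl_spec hN h t j
  obtain ⟨y, hl, b1, b2⟩ := X.hl_common_ra h h1 h3
  have b3 := (b1.compare X.acyc b2 (by omega)).1
  have e := b3.2.2
  exact ⟨b3, by omega, X.ls_sub hl b1 b2⟩

theorem hl_adj (hN : 0 < N) (h : IsRay X.T X.f G N d) (t : ℤ) (i : ℕ) :
    X.T.Adj (hl X.T X.f d t i) (hl X.T X.f d t (i + 1)) := by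
  refine adj_of_dist_one ?_
  rw [(X.hl_geod hN h t (Nat.le_succ i)).2.1]
  omega

theorem hl_smul (hN : 0 < N) (h : IsRay X.T X.f G N d) (g : G) (t : ℤ) (n : ℕ) :
    hl X.T X.f (g • d) t n = g • hl X.T X.f d t n := by
  obtain ⟨⟨s, h1⟩, h2⟩ := X.hl_spec hN h t n
  have h3 : HL X.T X.f (g • d) t (g • hl X.T X.f d t n) := by
    refine ⟨s, ?_⟩
    have := X.gf.acts.btw g h1
    rw [← X.iter_smul] at this
    exact this
  have h4 := X.hl_eq hN (X.ray_smul h g) h3
  have h5 : X.T.dist ((g • d) t).1 (g • hl X.T X.f d t n) = n :=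
    (X.gf.acts.dist g _ _).trans h2
  rwa [h5] at h4

theorem hl_shift (d : ℤ → W × W) (k t : ℤ) (n : ℕ) :
    hl X.T X.f (fun t => d (t + k)) t n = hl X.T X.f d (t + k) n := by
  have e : HL X.T X.f (fun t => d (t + k)) t = HL X.T X.f d (t + k) := by
    funext z
    unfold HL
    have : ∀ s : ℕ, t - s + k = t + k - s := fun s => by ring
    simp only [this]
  unfold hl
  rw [e]

theorem hl_per (hN : 0 < N) (h : IsRay X.T X.f G N d) {g : G} (hg : ∀ t : ℤ, d (t + N) = g • d t)
    (t : ℤ) (n : ℕ) : hl X.T X.f d (t + N) n = g • hl X.T X.f d t n := by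
  rw [← X.hl_shift, ← X.hl_smul hN h, show (fun t : ℤ => d (t + N)) = g • d from funext hg]

/-- `f` maps the half line (without its origin) into the next half line, not closer to the
origin. -/
theorem hl_map (hN : 0 < N) (h : IsRay X.T X.f G N d) (t : ℤ) (s : ℕ) {n : ℕ} (hn : 1 ≤ n) :
    ∃ m, n ≤ m ∧ X.f^[s] (hl X.T X.f d t n) = hl X.T X.f d (t + s) m := by
  obtain ⟨h1, h2⟩ := X.hl_spec hN h t n
  obtain ⟨b0, e0, l0⟩ := X.hl_geod hN h t hn
  rw [X.hl_one hN h] at b0 e0 l0
  obtain ⟨r, hr⟩ := h1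
  have h3 := X.ray_desc h (t - r) r
  rw [sub_add_cancel] at h3
  have hl := X.ls_iter r (X.ls_adj (h.adj (t - r)))
  have l1 := X.ls_sub hl (sep_left X.acyc h3) (btw_right hl.1)
  have l2 := X.ls_sub l1 (btw_left l1.1) hr
  have b1 := X.ls_btw_iter s l1 hr
  have b2 := X.ls_btw_iter s l2 b0
  have h4 := X.ray_desc h t s
  obtain ⟨b3, b4⟩ := b2.trans_left (sep_left X.acyc h4)
  have b5 := (b1.trans_left b3).2
  have h5 : HL X.T X.f d (t + s) (X.f^[s] (EG.hl X.T X.f d t n)) := by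
    refine ⟨s + r, ?_⟩
    rw [Function.iterate_add_apply, show t + s - ((s + r : ℕ) : ℤ) = t - r by push_cast; ring]
    exact b5
  refine ⟨_, ?_, (X.hl_eq hN h h5).symm⟩
  have e1 := b4.2.2
  have e2 := (sep_dist h4).2
  have e3 := X.ls_dist_iter s l0
  omega

theorem sim_refl (d : ℤ → W × W) : Sim X.T X.f d d := by
  exact fun _ => ⟨0, 0, fun _ => rfl⟩

theorem sim_symm (h : Sim X.T X.f d d') : Sim X.T X.f d' d := by
  intro t
  obtain ⟨i, j, k⟩ := h t
  exact ⟨j, i, fun n => (k n).symm⟩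

theorem sim_trans {d'' : ℤ → W × W} (h : Sim X.T X.f d d') (h' : Sim X.T X.f d' d'') :
    Sim X.T X.f d d'' := by
  intro t
  obtain ⟨i, j, k⟩ := h t
  obtain ⟨i', j', k'⟩ := h' t
  refine ⟨i + i', j' + j, fun n => ?_⟩
  rw [Nat.add_assoc, k, Nat.add_assoc, ← k']
  congr 1
  omega

theorem sim_smul (hN : 0 < N) (h : IsRay X.T X.f G N d) (h' : IsRay X.T X.f G N d') (g : G)
    (hs : Sim X.T X.f d d') : Sim X.T X.f (g • d) (g • d') := by
  intro t
  obtain ⟨i, j, k⟩ := hs t
  exact ⟨i, j, fun n => by rw [X.hl_smul hN h, X.hl_smul hN h', k]⟩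

theorem sim_shift (k : ℤ) (hs : Sim X.T X.f d d') :
    Sim X.T X.f (fun t => d (t + k)) (fun t => d' (t + k)) := by
  intro t
  obtain ⟨i, j, e⟩ := hs (t + k)
  exact ⟨i, j, fun n => by rw [X.hl_shift, X.hl_shift, e]⟩

theorem sim_reach (hN : 0 < N) (h : IsRay X.T X.f G N d) (h' : IsRay X.T X.f G N d')
    (hs : Sim X.T X.f d d') (t : ℤ) : X.T.Reachable (d t).1 (d' t).1 := by
  obtain ⟨i, j, k⟩ := hs t
  have h1 := (X.hl_geod hN h t (le_refl (i + 0))).1.1
  have h2 := (X.hl_geod hN h' t (le_refl (j + 0))).1.1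
  rw [k 0] at h1
  exact h1.trans h2.symm

/-- (NF) No non-trivial element fixes the ends of all half lines.  At time `t` let
`hl (i + n) = g • hl (j + n)`.  If `i = j` then `g` fixes a dart.  Otherwise, for `z` far out on
the half line at time `0 - s`, `[z, g z]` is a non-trivial legal geodesic whose image under
`f^[s]` has length `|i 0 - j 0|` (`hl_map`); `ls_grow` gives a contradiction. -/
theorem sim_nofix (hN : 0 < N) (h : IsRay X.T X.f G N d) {g : G} (hs : Sim X.T X.f d (g • d)) :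
    g = 1 := by
  have key : ∀ (t : ℤ) (p q : ℕ), LS X.T X.f (hl X.T X.f d t p) (hl X.T X.f d t q) ∧
      X.T.dist (hl X.T X.f d t p) (hl X.T X.f d t q) = (p - q) + (q - p) := by
    intro t p q
    rcases le_total p q with hpq | hpq
    · obtain ⟨-, k1, k2⟩ := X.hl_geod hN h t hpq
      exact ⟨k2, by omega⟩
    · obtain ⟨-, k1, k2⟩ := X.hl_geod hN h t hpq
      exact ⟨X.ls_symm k2, by rw [SimpleGraph.dist_comm]; omega⟩
  obtain ⟨i₀, j₀, k₀⟩ := hs 0
  obtain ⟨s, hs'⟩ := X.ls_grow ((i₀ - j₀) + (j₀ - i₀) + 1)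
  obtain ⟨i, j, k⟩ := hs (-s)
  simp only [X.hl_smul hN h] at k k₀
  by_cases hij : i = j
  · subst hij
    exact X.gf.etriv g _ _ (X.hl_adj hN h (-s) i) (k 0).symm (k 1).symm
  exfalso
  obtain ⟨m, m1, m2⟩ := X.hl_map hN h (-s) s (n := j + (j₀ + 1)) (by omega)
  rw [neg_add_cancel] at m2
  obtain ⟨l1, l2⟩ := key (-s) (j + (j₀ + 1)) (i + (j₀ + 1))
  have l3 := (hs' s le_rfl _ _ l1 (fun e => by
    rw [e, SimpleGraph.dist_self] at l2; omega)).1
  obtain ⟨r, rfl⟩ : ∃ r, m = j₀ + r := ⟨m - j₀, by omega⟩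
  rw [k, X.iter_smul, m2, ← k₀, (key 0 _ _).2] at l3
  omega

theorem sim_per (hN : 0 < N) (h : IsRay X.T X.f G N d) (h' : IsRay X.T X.f G N d')
    (hs : Sim X.T X.f d d') :
    ∃ g : G, (∀ t : ℤ, d (t + N) = g • d t) ∧ ∀ t : ℤ, d' (t + N) = g • d' t := by
  obtain ⟨g, hg⟩ := h.per
  obtain ⟨g', hg'⟩ := h'.per
  have e1 : (fun t => d (t + N)) = g • d := funext hg
  have e2 : (fun t => d' (t + N)) = g' • d' := funext hg'
  have k1 := X.sim_shift N hs
  rw [e1, e2] at k1
  have k2 := X.sim_trans k1 (X.sim_symm (X.sim_smul hN h h' g' hs))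
  have k3 := X.sim_smul hN (X.ray_smul h g) (X.ray_smul h g') g⁻¹ k2
  rw [inv_smul_smul, smul_smul] at k3
  have k4 : g = g' := inv_mul_eq_one.1 (X.sim_nofix hN h k3)
  exact ⟨g, hg, by rw [k4]; exact hg'⟩

theorem sim_bdd (hN : 0 < N) (h : IsRay X.T X.f G N d) (h' : IsRay X.T X.f G N d')
    (hs : Sim X.T X.f d d') : ∃ D : ℕ, ∀ t : ℤ, X.T.dist (d t).1 (d' t).1 ≤ D := by
  obtain ⟨g, h1, h2⟩ := X.sim_per hN h h' hs
  refine ⟨(Finset.range N).sup fun r : ℕ => X.T.dist (d r).1 (d' r).1, fun t => ?_⟩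
  have e : t = ((t % N).toNat : ℤ) + t / N * N := by
    have := Int.emod_nonneg t (show (N : ℤ) ≠ 0 by omega)
    have := Int.emod_add_ediv_mul t N
    omega
  have hr : (t % N).toNat < N := by
    have := Int.emod_lt_of_pos t (show (0 : ℤ) < N by omega)
    omega
  rw [e, per_zpow h1, per_zpow h2, Prod.smul_fst, Prod.smul_fst, X.gf.acts.dist]
  exact Finset.le_sup (f := fun r : ℕ => X.T.dist (d r).1 (d' r).1) (Finset.mem_range.2 hr)

theorem base_smul (g : G) (d : ℤ → W × W) : base X.f (g • d) = g • base X.f d := by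
  have e : FC X.f (g • d) ↔ FC X.f d := by
    refine forall_congr' fun t => ?_
    change g • (d (t + 1)).1 = X.f (g • (d t).1) ↔ _
    rw [X.smul, smul_left_cancel_iff]
  unfold base
  by_cases hf : FC X.f d
  · rw [if_pos hf, if_pos (e.2 hf)]
    funext t
    simp [Set.smul_set_singleton]
  · rw [if_neg hf, if_neg (fun k => hf (e.1 k))]
    funext t
    simp [Set.smul_set_insert, Set.smul_set_singleton]

theorem base_shift (d : ℤ → W × W) (k : ℤ) :
    base X.f (fun t => d (t + k)) = fun t => base X.f d (t + k) := by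
  have e : FC X.f (fun t => d (t + k)) ↔ FC X.f d := by
    refine ⟨fun h t => ?_, fun h t => ?_⟩
    · have := h (t - k)
      beta_reduce at this
      rwa [show t - k + 1 + k = t + 1 by ring, sub_add_cancel] at this
    · beta_reduce
      rw [show t + 1 + k = t + k + 1 by ring]
      exact h _
  unfold base
  by_cases hf : FC X.f d
  · rw [if_pos hf, if_pos (e.2 hf)]
  · rw [if_neg hf, if_neg (fun k => hf (e.1 k))]

theorem fc_df (h : IsRay X.T X.f G N d) (hf : FC X.f d) (t : ℤ) (s : ℕ) :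
    (Df X.T X.f)^[s] (d t) = d (t + s) := by
  induction s with
  | zero => simp
  | succ s ih =>
    rw [Function.iterate_succ_apply', ih, Nat.cast_add, Nat.cast_one, ← add_assoc]
    exact sep_unique X.acyc (X.df_sep (h.adj _)) (h.child _) (by rw [hf]; rfl)

/-- Distinct rays with the same base. -/
theorem base_cases (hN : 0 < N) (h : IsRay X.T X.f G N d) (h' : IsRay X.T X.f G N d')
    (hne : d ≠ d') (hb : base X.f d = base X.f d') :
    (∀ t, d' t = (d t).swap) ∨
      (∀ t, (d t).1 = (d' t).1 ∧ d t ≠ d' t ∧ Lg X.T X.f (d t).2 (d t).1 (d' t).2) := by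
  have up : ∀ t, d t = d' t → (∀ r, d r = d' r → d (r + 1) = d' (r + 1)) → False :=
    fun t h0 hs => hne (X.ray_ext hN h h' (s := t) fun r hr => by
      induction r, hr using Int.le_induction with
      | base => exact h0
      | succ r _ ih => exact hs r ih)
  have one : ∀ {p q r : W}, ({p} : Set W) = {q, r} → q = r := fun {p q r} e => by
    have h1 : q ∈ ({p} : Set W) := by rw [e]; simp
    have h2 : r ∈ ({p} : Set W) := by rw [e]; simp
    exact h1.trans h2.symm
  unfold base at hb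
  by_cases hf : FC X.f d <;> by_cases hf' : FC X.f d'
  · rw [if_pos hf, if_pos hf'] at hb
    have e1 : ∀ t, (d t).1 = (d' t).1 := fun t => Set.singleton_injective (congrFun hb t)
    have e2 : ∀ t, d t ≠ d' t := fun t h0 => up t h0 fun r hr => by
      have k1 := X.fc_df h hf r 1
      have k2 := X.fc_df h' hf' r 1
      rw [Nat.cast_one] at k1 k2
      rw [← k1, ← k2, hr]
    refine Or.inr fun t => ⟨e1 t, e2 t, fun i hi => e2 (t + i) ?_⟩
    rw [← X.fc_df h hf, ← X.fc_df h' hf']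
    refine hi.trans ?_
    rw [e1]
  · rw [if_pos hf, if_neg hf'] at hb
    exact ((h'.adj 0).ne (one (congrFun hb 0))).elim
  · rw [if_neg hf, if_pos hf'] at hb
    exact ((h.adj 0).ne (one (congrFun hb 0).symm)).elim
  · rw [if_neg hf, if_neg hf'] at hb
    have e1 : ∀ t, d t = d' t ∨ d' t = (d t).swap := fun t => by
      rcases Set.pair_eq_pair_iff.1 (congrFun hb t) with k | k
      · exact Or.inl (Prod.ext k.1 k.2)
      · exact Or.inr (Prod.ext k.2.symm k.1.symm)
    refine Or.inl fun t => (e1 t).resolve_left fun h0 => up t h0 fun r hr => ?_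
    refine (e1 (r + 1)).resolve_right fun k => ?_
    have c1 := h.child r
    have c2 := h'.child r
    rw [k, ← hr] at c2
    exact sep_not_both (sep_symm c1) c2

/-- Equal bases from finite data: edge case. -/
theorem base_eq_edge (hN : 0 < N) (h : IsRay X.T X.f G N d) (h' : IsRay X.T X.f G N d')
    (h0 : d' 0 = (d 0).swap) (h1 : d' N = (d N).swap) : base X.f d = base X.f d' := by
  have hT := X.acyc
  obtain ⟨g, hg⟩ := h.per
  obtain ⟨g', hg'⟩ := h'.per
  have gg : g' = g := by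
    have k1 := hg 0
    have k2 := hg' 0
    rw [zero_add] at k1 k2
    rw [h1, k1, h0] at k2
    exact (dart_cancel X.gf (e := (d 0).swap) (h.adj 0).symm k2).symm
  subst gg
  have par : ∀ {x y : W} {e e' c : W × W}, LS X.T X.f x y → Sep X.T e x y → Sep X.T e' x y →
      Sep X.T c (X.f e.1) (X.f e.2) → Sep X.T c (X.f e'.1) (X.f e'.2) →
      ¬ X.T.dist x e.1 < X.T.dist x e'.1 := by
    intro x y e e' c l s1 s2 c1 c2 hlt
    have b1 := sep_right hT s1
    have b2 := sep_left hT s2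
    have b3 := sep_right hT s2
    have d1 := (sep_dist s1).1
    have d2 := (sep_dist s2).1
    have m : Btw X.T e.2 e'.1 e'.2 :=
      ((b2.compare hT b3 (by omega)).1.trans_left (b1.compare hT b2 (by omega)).1).2
    exact sep_not_both c1 (sep_ext_left hT c2 ((X.ls_map (X.ls_sub l b1 b3)).2.1 _ m))
  have back : ∀ k r : ℕ, r + k = N → d' r = (d r).swap := by
    intro k
    induction k with
    | zero => intro r hr; rw [show r = N by omega]; exact h1
    | succ k ih =>
      intro r hr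
      have k1 := ih (r + 1) (by omega)
      rw [Nat.cast_add, Nat.cast_one] at k1
      have s1 := X.ray_desc h 0 r
      have s2 := sep_symm (X.ray_desc h' 0 r)
      rw [zero_add] at s1 s2
      rw [h0] at s2
      have c1 := h.child r
      have c2 := sep_symm (h'.child r)
      rw [k1, Prod.swap_swap] at c2
      have l := X.ls_iter r (X.ls_adj (h.adj 0))
      have e := sep_unique hT s1 s2
        (le_antisymm (not_lt.1 (par l s2 s1 c2 c1)) (not_lt.1 (par l s1 s2 c1 c2)))
      rw [e, Prod.swap_swap]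
  have all : ∀ t, d' t = (d t).swap := fun t => by
    have e : t = ((t % N).toNat : ℤ) + t / N * N := by
      have := Int.emod_nonneg t (show (N : ℤ) ≠ 0 by omega)
      have := Int.emod_add_ediv_mul t N
      omega
    have hr : (t % N).toNat < N := by
      have := Int.emod_lt_of_pos t (show (0 : ℤ) < N by omega)
      omega
    rw [e, per_zpow hg, per_zpow hg', back (N - (t % N).toNat) _ (by omega)]
    rfl
  have n1 : ¬ FC X.f d := fun hf => by
    obtain ⟨t, ht⟩ := h'.nl
    rw [all, all] at ht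
    exact ht (hf t)
  have n2 : ¬ FC X.f d' := fun hf => by
    obtain ⟨t, ht⟩ := h.nl
    have := hf t
    rw [all, all] at this
    exact ht this
  unfold base
  rw [if_neg n1, if_neg n2]
  funext t
  rw [all]
  exact Set.pair_comm _ _

/-- A vertex base at a non-trivial vertex is an orbit of non-trivial vertices. -/
theorem fc_nt (hN : 0 < N) (h : IsRay X.T X.f G N d) (hf : FC X.f d) {s : ℤ}
    (hs : stabilizer G (d s).1 ≠ ⊥) : IsNT X.f G (fun t => (d t).1) := by
  obtain ⟨g, hg⟩ := h.per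
  refine fun t => ⟨(hf t).symm, fun hb => ?_⟩
  obtain ⟨n, hn⟩ : ∃ n : ℕ, s + n = t + ((s - t).natAbs : ℤ) * N := by
    refine ⟨(t + ((s - t).natAbs : ℤ) * N - s).toNat, ?_⟩
    have : ((s - t).natAbs : ℤ) ≤ ((s - t).natAbs : ℤ) * N :=
      le_mul_of_one_le_right (by omega) (by omega)
    omega
  have k1 := X.nt_iter n hs
  rw [← X.df_iter_fst, X.fc_df h hf, hn, per_zpow hg, Prod.smul_fst,
    stabilizer_smul_eq_stabilizer_map_conj] at k1
  beta_reduce at hb
  rw [hb, Subgroup.map_bot] at k1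
  exact k1 rfl

/-- Equal bases from finite data: vertex case. -/
theorem base_eq_vert (hN : 0 < N) (h : IsRay X.T X.f G N d) (h' : IsRay X.T X.f G N d') {s : ℤ}
    (h0 : (d s).1 = (d' s).1)
    (h1 : ∀ t, s ≤ t → t < s + N → (d (t + 1)).1 = X.f (d t).1 ∧ (d' (t + 1)).1 = X.f (d' t).1) :
    base X.f d = base X.f d' := by
  have loc : ∀ t : ℤ, ∃ r j : ℤ, s ≤ r ∧ r < s + N ∧ t = r + j * N := fun t => by
    refine ⟨s + (t - s) % N, (t - s) / N, ?_, ?_, ?_⟩
    · have := Int.emod_nonneg (t - s) (show (N : ℤ) ≠ 0 by omega)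
      omega
    · have := Int.emod_lt_of_pos (t - s) (show (0 : ℤ) < N by omega)
      omega
    · have := Int.emod_add_ediv_mul (t - s) N
      omega
  have fc : ∀ {c : ℤ → W × W}, IsRay X.T X.f G N c →
      (∀ t, s ≤ t → t < s + N → (c (t + 1)).1 = X.f (c t).1) → FC X.f c := by
    intro c hc k t
    obtain ⟨g, hg⟩ := hc.per
    obtain ⟨r, j, r1, r2, rfl⟩ := loc t
    rw [show r + j * N + 1 = r + 1 + j * N by ring, per_zpow hg, per_zpow hg, Prod.smul_fst,
      Prod.smul_fst, X.smul, k r r1 r2]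
  have f1 := fc h fun t a b => (h1 t a b).1
  have f2 := fc h' fun t a b => (h1 t a b).2
  have up : ∀ t, s ≤ t → (d t).1 = (d' t).1 := fun t ht => by
    induction t, ht using Int.le_induction with
    | base => exact h0
    | succ r _ ih => rw [f1, f2, ih]
  have all : ∀ t, (d t).1 = (d' t).1 := by
    by_cases hb : stabilizer G (d s).1 = ⊥
    · obtain ⟨g, hg⟩ := h.per
      obtain ⟨g', hg'⟩ := h'.per
      have k := up (s + N) (by omega)
      rw [hg, hg', Prod.smul_fst, Prod.smul_fst, ← h0, ← inv_smul_eq_iff, smul_smul,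
        ← mem_stabilizer_iff, hb, Subgroup.mem_bot, inv_mul_eq_one] at k
      subst k
      intro t
      obtain ⟨r, j, r1, r2, rfl⟩ := loc t
      rw [per_zpow hg, per_zpow hg', Prod.smul_fst, Prod.smul_fst, up r r1]
    · exact congrFun (X.nt_unique (X.fc_nt hN h f1 hb) (X.fc_nt hN h' f2 (h0 ▸ hb)) h0)
  unfold base
  rw [if_pos f1, if_pos f2]
  funext t
  rw [all]

end Cx

end EG
end CPOR
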