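import Pool.Agent.P.MP_2cb329_al.EG.C
import Pool.Agent.P.MP_2cb329_al.EG.R

/-! Section F9: rays and the set `Q`: tripods, existence of rays at a turn, links. -/

set_option autoImplicit false

namespace CPOR
namespace EG
open ZT MulAction

variable {G W : Type} [Group G] [MulAction G W] (X : Cx G W)

namespace Cx

variable {N : ℕ} {d d' : ℤ → W × W}

/-- A descendant dart lies on the image of a legal geodesic. -/
private theorem sa_desc (h : IsRay X.T X.f G N d) {t : ℤ} {x y : W} (hL : LS X.T X.f x y)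
    (h1 : Sep X.T (d t) x y) (s : ℕ) : Sep X.T (d (t + s)) (X.f^[s] x) (X.f^[s] y) := by
  have a1 := sep_left X.acyc h1
  have a2 := sep_right X.acyc h1
  have l1 : LS X.T X.f x (d t).2 := X.ls_sub hL (btw_left hL.1) a2
  have b1 := X.ls_btw_iter s l1 h1.2.1
  have b2 := X.ls_btw_iter s hL a2
  exact sep_ext_right X.acyc (sep_ext_left X.acyc (X.ray_desc h t s) b1) b2

private theorem sa_strict (hN : 0 < N) (h : IsRay X.T X.f G N d) (h' : IsRay X.T X.f G N d')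
    (hs : Sim X.T X.f d d') {t : ℤ} {x y : W} (hL : LS X.T X.f x y)
    (h1 : Sep X.T (d t) x y) (h2 : Sep X.T (d' t) x y)
    (hlt : X.T.dist x (d t).1 < X.T.dist x (d' t).1) : False := by
  obtain ⟨D, hD⟩ := X.sim_bdd hN h h' hs
  have hg := X.ray_grow hN h t (n := D + 1) (s := (D + 1) * N) le_rfl
  generalize (D + 1) * N = s at hg
  have a2 := sep_right X.acyc h1
  have a3 := sep_left X.acyc h2
  have a4 := sep_right X.acyc h2
  have e1 := (sep_dist h1).1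
  have c1 := a2.compare X.acyc a3 (by omega)
  -- positions at time `t + s`
  have s1 := X.sa_desc h hL h1 s
  have s2 := X.sa_desc h' hL h2 s
  have r1 := X.ray_desc h t s
  have r2 := X.ray_desc h' t s
  have l1 : LS X.T X.f x (d' t).1 := X.ls_sub hL (btw_left hL.1) a3
  have l2 : LS X.T X.f x (d' t).2 := X.ls_sub hL (btw_left hL.1) a4
  have l3 : LS X.T X.f x (d t).2 := X.ls_sub hL (btw_left hL.1) a2
  have b1 := X.ls_btw_iter s l1 c1.1
  have b2 := X.ls_btw_iter s l2 h2.2.1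
  have b3 := X.ls_btw_iter s l3 h1.2.1
  have g1 := sep_ext_left X.acyc r1 b3
  have g2 := (b2.trans_right (sep_left X.acyc r2)).2
  have g3 := sep_left X.acyc g1
  have g4 := (g2.trans_left b1).1
  have g5 := (g4.trans_left g3).1
  have g6 := (g4.trans_left g3).2
  have g7 := g6.trans_right (g2.trans_left b1).2 |>.1
  have k1 := g1.2.2.2.2
  have k2 := g3.2.2
  have k3 := g4.2.2
  have k4 := g5.2.2
  have k5 := hD (t + s)
  omega

/-- Two distinct asymptotic rays never point in the same direction of a legal geodesic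
(`ray_grow`, `sim_bdd`; if they are equal at one time they stay equal, `ray_ext`). -/
theorem sim_not_nested (hN : 0 < N) (h : IsRay X.T X.f G N d) (h' : IsRay X.T X.f G N d')
    (hs : Sim X.T X.f d d') (hne : d ≠ d') {t : ℤ} {x y : W} (hl : LS X.T X.f x y)
    (h1 : Sep X.T (d t) x y) (h2 : Sep X.T (d' t) x y) : False := by
  refine hne (X.ray_ext hN h h' (s := t) fun u hu => ?_)
  obtain ⟨s, rfl⟩ : ∃ s : ℕ, u = t + s := ⟨(u - t).toNat, by omega⟩
  have s1 := X.sa_desc h hl h1 s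
  have s2 := X.sa_desc h' hl h2 s
  have l := X.ls_iter s hl
  rcases lt_trichotomy (X.T.dist (X.f^[s] x) (d (t + s)).1)
    (X.T.dist (X.f^[s] x) (d' (t + s)).1) with c | c | c
  · exact (X.sa_strict hN h h' hs l s1 s2 c).elim
  · exact sep_unique X.acyc s1 s2 c
  · exact (X.sa_strict hN h' h (X.sim_symm hs) l s2 s1 c).elim

private theorem sa_zero (hN : 0 < N) (h : IsRay X.T X.f G N d) (h' : IsRay X.T X.f G N d')
    (hs : Sim X.T X.f d d') (hne : d ≠ d') (t : ℤ) {j : ℕ}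
    (he : ∀ n, hl X.T X.f d t (0 + n) = hl X.T X.f d' t (j + n)) : False := by
  have e0 := he 0
  have e1 := he 1
  rw [Nat.add_zero, X.hl_zero hN h, Nat.add_zero] at e0
  rw [Nat.zero_add, X.hl_one hN h] at e1
  have g1 := X.hl_geod hN h' t (Nat.zero_le (j + 1))
  rw [X.hl_zero hN h'] at g1
  have g2 := (X.hl_geod hN h' t (Nat.le_succ j)).1
  have g3 := (X.hl_geod hN h' t (show 1 ≤ j + 1 by omega)).1
  rw [X.hl_one hN h'] at g3
  refine X.sim_not_nested hN h h' hs hne (t := t) g1.2.2 ⟨h.adj t, ?_, ?_⟩ ⟨h'.adj t, ?_, g3⟩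
  · rw [e0, e1]; exact g2
  · rw [← e1]; exact btw_right (h.adj t).reachable
  · exact btw_left (h'.adj t).reachable

/-- The merge points of the half lines. -/
theorem sim_merge (hN : 0 < N) (h : IsRay X.T X.f G N d) (h' : IsRay X.T X.f G N d')
    (hs : Sim X.T X.f d d') (hne : d ≠ d') (t : ℤ) : ∃ i j : ℕ, 1 ≤ i ∧ 1 ≤ j ∧
      (∀ n, hl X.T X.f d t (i + n) = hl X.T X.f d' t (j + n)) ∧
      Btw X.T (d t).1 (hl X.T X.f d t i) (d' t).1 := by
  classical
  have hex : ∃ i, ∃ j : ℕ, ∀ n, hl X.T X.f d t (i + n) = hl X.T X.f d' t (j + n) := hs t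
  obtain ⟨j, hj⟩ := Nat.find_spec hex
  have hmin := fun m => Nat.find_min hex (m := m)
  generalize Nat.find hex = i at hj hmin
  rcases i with _ | i
  · exact (X.sa_zero hN h h' hs hne t hj).elim
  rcases j with _ | j
  · exact (X.sa_zero hN h' h (X.sim_symm hs) hne.symm t (fun n => (hj n).symm)).elim
  refine ⟨i + 1, j + 1, by omega, by omega, hj, ?_⟩
  have hd : hl X.T X.f d t i ≠ hl X.T X.f d' t j := by
    intro e
    refine hmin i (by omega) ⟨j, fun n => ?_⟩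
    rcases n with _ | n
    · exact e
    · have := hj n
      rwa [show i + 1 + n = i + (n + 1) by omega, show j + 1 + n = j + (n + 1) by omega] at this
  have e0 : hl X.T X.f d t (i + 1) = hl X.T X.f d' t (j + 1) := hj 0
  have a1 := X.hl_adj hN h t i
  have a2 := X.hl_adj hN h' t j
  rw [← e0] at a2
  have b1 := btw_of_adj X.acyc a1 a2.symm hd
  have b2 := (X.hl_geod hN h t (Nat.le_succ i)).1
  have b3 := (X.hl_geod hN h' t (Nat.le_succ j)).1
  rw [Nat.succ_eq_add_one, ← e0] at b3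
  have b4 := (b2.glue X.acyc b1 a1.ne).2
  exact (b4.glue X.acyc b3.symm a2.ne.symm).1

/-- `v` is the merge point of the half lines at time `t`. -/
private def Mg (d d' : ℤ → W × W) (t : ℤ) (v : W) : Prop :=
  ∃ i j : ℕ, 1 ≤ i ∧ 1 ≤ j ∧ (∀ n, hl X.T X.f d t (i + n) = hl X.T X.f d' t (j + n)) ∧
    v = hl X.T X.f d t i ∧ Btw X.T (d t).1 v (d' t).1

private theorem mg_symm {t : ℤ} {v : W} (h : X.Mg d d' t v) : X.Mg d' d t v := by
  obtain ⟨i, j, h1, h2, h3, h4, h5⟩ := h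
  exact ⟨j, i, h2, h1, fun n => (h3 n).symm, h4.trans (h3 0), h5.symm⟩

private theorem mg_basic (hN : 0 < N) (h : IsRay X.T X.f G N d) {t : ℤ} {v : W}
    (m : X.Mg d d' t v) :
    LS X.T X.f (d t).1 v ∧ Btw X.T (d t).1 (d t).2 v ∧ (d t).1 ≠ v := by
  obtain ⟨i, j, h1, -, -, h4, -⟩ := m
  have g1 := X.hl_geod hN h t (Nat.zero_le i)
  rw [X.hl_zero hN h, ← h4] at g1
  have g2 := (X.hl_geod hN h t h1).1
  rw [X.hl_one hN h, ← h4] at g2
  refine ⟨g1.2.2, g2, fun e => ?_⟩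
  have := g1.2.1
  rw [← e, SimpleGraph.dist_self] at this
  omega

private theorem mg_step (hN : 0 < N) (h : IsRay X.T X.f G N d) (h' : IsRay X.T X.f G N d')
    {t : ℤ} {s : ℕ} {v v' : W} (m : X.Mg d d' t v) (m' : X.Mg d d' (t + s) v') :
    Btw X.T (d (t + s)).1 v' (X.f^[s] v) := by
  obtain ⟨i, j, h1, h2, h3, h4, -⟩ := m
  obtain ⟨i', j', k1, k2, k3, k4, k5⟩ := m'
  obtain ⟨a, -, ha⟩ := X.hl_map hN h t s h1
  obtain ⟨b, -, hb⟩ := X.hl_map hN h' t s h2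
  have e0 : hl X.T X.f d t i = hl X.T X.f d' t j := h3 0
  rw [← e0, ha] at hb
  rw [h4, ha, k4]
  rcases le_or_gt i' a with c | c
  · exact (X.hl_geod hN h _ c).1
  exfalso
  have da := (X.hl_spec hN h (t + s) a).2
  rcases le_total b j' with c' | c'
  · have g1 := (X.hl_geod hN h (t + s) c.le).1
    have g2 := (X.hl_geod hN h' (t + s) c').1
    have e1 : hl X.T X.f d (t + s) i' = hl X.T X.f d' (t + s) j' := k3 0
    rw [← hb, ← e1] at g2
    rw [k4] at k5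
    have g3 := (k5.trans_left g1).2
    have g4 := g2.antisymm g3.symm
    have di := (X.hl_spec hN h (t + s) i').2
    rw [← g4] at di
    omega
  · have e1 := k3 (b - j')
    rw [show j' + (b - j') = b by omega, ← hb] at e1
    have di := (X.hl_spec hN h (t + s) (i' + (b - j'))).2
    rw [e1] at di
    omega

private theorem mg_side (hN : 0 < N) (h : IsRay X.T X.f G N d) (h' : IsRay X.T X.f G N d')
    {t : ℤ} {s : ℕ} {v v' : W} (m : X.Mg d d' t v) (m' : X.Mg d d' (t + s) v') :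
    Btw X.T (X.f^[s] (d t).1) v' (X.f^[s] v) ∧ Btw X.T (X.f^[s] (d t).1) (d (t + s)).1 v' ∧
      Btw X.T (d (t + s)).1 (X.f^[s] (d t).2) (X.f^[s] v) := by
  obtain ⟨l1, b1, -⟩ := X.mg_basic hN h m
  have b2 := X.mg_step hN h h' m m'
  have b3 := X.ls_btw_iter s l1 b1
  have r := X.ray_desc h t s
  have b4 := sep_left X.acyc (sep_ext_right X.acyc r b3)
  exact ⟨(b4.trans_right b2).1, (b4.trans_right b2).2, (b3.trans_left (sep_left X.acyc r)).2⟩

private theorem mg_vt (hN : 0 < N) (h : IsRay X.T X.f G N d) (h' : IsRay X.T X.f G N d')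
    {t : ℤ} {s : ℕ} {v v' : W} (m : X.Mg d d' t v) (m' : X.Mg d d' (t + s) v') :
    vt X.T X.f (d t).1 v (d' t).1 s = v' ∧
      Btw X.T (X.f^[s] (d t).1) (d (t + s)).1 (d' (t + s)).1 ∧
      Btw X.T (d (t + s)).1 (d' (t + s)).1 (X.f^[s] (d' t).1) := by
  obtain ⟨a1, a2, -⟩ := X.mg_side hN h h' m m'
  obtain ⟨b1, b2, -⟩ := X.mg_side hN h' h (X.mg_symm m) (X.mg_symm m')
  have n1 := (X.mg_basic hN h m').2.2
  have n2 := (X.mg_basic hN h' (X.mg_symm m')).2.2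
  obtain ⟨-, -, -, -, -, -, k⟩ := m'
  have c1 := a2.glue X.acyc k n1
  have c2 := c1.2.glue X.acyc b2.symm n2.symm
  have c3 := k.glue X.acyc b2.symm n2.symm
  exact ⟨med_eq X.acyc a1 b1.symm c2.1, c1.1, c3.2⟩

private theorem mg_ill (hN : 0 < N) (h : IsRay X.T X.f G N d) (h' : IsRay X.T X.f G N d')
    (hs : Sim X.T X.f d d') {V : ℤ → W} (m : ∀ t, X.Mg d d' t (V t)) (t : ℤ) :
    LL X.T X.f (d t).1 (V t) (d' t).1 ∧ V t ∈ Ill X.T X.f (d t).1 (d' t).1 := by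
  have hk : ∀ u, Btw X.T (d u).1 (V u) (d' u).1 := fun u => by
    obtain ⟨-, -, -, -, -, -, k⟩ := m u
    exact k
  have ll : LL X.T X.f (d t).1 (V t) (d' t).1 :=
    ⟨(X.mg_basic hN h (m t)).1, X.ls_symm (X.mg_basic hN h' (X.mg_symm (m t))).1, hk t⟩
  refine ⟨ll, ?_⟩
  by_contra hc
  have l := X.ls_glue ll hc
  obtain ⟨D, hD⟩ := X.sim_bdd hN h h' hs
  have hg := X.ray_grow hN h t (n := D + 1) (s := (D + 1) * N) le_rfl
  generalize (D + 1) * N = s at hg
  have b1 := X.ls_btw_iter s l (hk t)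
  have e1 := (X.mg_vt hN h h' (m t) (m (t + s))).1
  have e2 : vt X.T X.f (d t).1 (V t) (d' t).1 s = X.f^[s] (V t) :=
    med_eq X.acyc (btw_right b1.1) (btw_left b1.2.1) b1
  have b2 := (X.mg_side hN h h' (m t) (m (t + s))).2.2
  rw [← e2, e1] at b2
  have k1 := b2.2.2
  have k2 := (hk (t + s)).2.2
  have k3 := (X.ray_desc h t s).2.2.2.2
  have k4 := hD (t + s)
  omega

private theorem mg_eat (hN : 0 < N) (h : IsRay X.T X.f G N d) (h' : IsRay X.T X.f G N d')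
    (hs : Sim X.T X.f d d') {V : ℤ → W} (m : ∀ t, X.Mg d d' t (V t)) (t : ℤ) :
    ∃ s : ℕ, Btw X.T (V (t + s)) (X.f^[s] (d t).2) (X.f^[s] (V t)) := by
  obtain ⟨D, hD⟩ := X.sim_bdd hN h h' hs
  have hg := X.ray_grow hN h t (n := D) (s := D * N) le_rfl
  generalize D * N = s at hg
  refine ⟨s, ?_⟩
  have b1 := X.mg_step hN h h' (m t) (m (t + s))
  have b2 := (X.mg_side hN h h' (m t) (m (t + s))).2.2
  obtain ⟨-, -, -, -, -, -, k⟩ := m (t + s)
  have k2 := k.2.2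
  have k3 := (X.ray_desc h t s).2.2.2.2
  have k4 := hD (t + s)
  exact (b1.compare X.acyc b2 (by omega)).2

/-- (TRI) Two distinct asymptotic rays form an element of `Q` at every time. -/
theorem sim_tripod (hN : 0 < N) (h : IsRay X.T X.f G N d) (h' : IsRay X.T X.f G N d')
    (hs : Sim X.T X.f d d') (hne : d ≠ d') : ∃ V : ℤ → W, ∀ t : ℤ,
      QQ X.T X.f (d t) (V t) (d' t) ∧
      ∀ s : ℕ, vt X.T X.f (d t).1 (V t) (d' t).1 s = V (t + s) := by
  have hex : ∀ t, ∃ v, X.Mg d d' t v := fun t => by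
    obtain ⟨i, j, h1, h2, h3, h4⟩ := X.sim_merge hN h h' hs hne t
    exact ⟨_, i, j, h1, h2, h3, rfl, h4⟩
  choose V m using hex
  have hv : ∀ (t : ℤ) (s : ℕ), vt X.T X.f (d t).1 (V t) (d' t).1 s = V (t + s) :=
    fun t s => (X.mg_vt hN h h' (m t) (m (t + s))).1
  refine ⟨V, fun t => ⟨⟨h.adj t, h'.adj t, (X.mg_basic hN h (m t)).2.1,
    (X.mg_basic hN h' (X.mg_symm (m t))).2.1, ⟨(X.mg_ill hN h h' hs m t).1, fun s => ?_⟩,
    ?_, ?_⟩, hv t⟩⟩
  · obtain ⟨-, b1, b2⟩ := X.mg_vt hN h h' (m t) (m (t + s))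
    unfold Al
    rw [hv]
    exact X.ill_ext (X.mg_ill hN h h' hs m (t + s)).2 b1 b2
  · obtain ⟨s, b⟩ := X.mg_eat hN h h' hs m t
    refine ⟨s, ?_⟩
    unfold Eat
    rw [hv]
    exact b
  · obtain ⟨s, b⟩ := X.mg_eat hN h' h (X.sim_symm hs) (fun u => X.mg_symm (m u)) t
    refine ⟨s, ?_⟩
    unfold Eat
    rw [hv]
    exact b

private theorem sa_child (h : IsRay X.T X.f G N d) {t : ℤ} {v : W}
    (b : Btw X.T (d (t + 1)).1 (d (t + 1)).2 v) : Btw X.T (X.f (d t).1) (d (t + 1)).1 v :=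
  ((h.child t).2.1.glue X.acyc b (h.adj _).ne).1

/-- Two such pairs with the same darts at time `0` are equal (`qq_turn`, `qq_unique'` at every
time `s ≥ 0`, `ray_ext`). -/
theorem pair_ext (hN : 0 < N) {e e' : ℤ → W × W} (h : IsRay X.T X.f G N d)
    (h' : IsRay X.T X.f G N d') (hs : Sim X.T X.f d d') (hne : d ≠ d')
    (k : IsRay X.T X.f G N e) (k' : IsRay X.T X.f G N e') (ks : Sim X.T X.f e e') (kne : e ≠ e')
    (h0 : d 0 = e 0) (h0' : d' 0 = e' 0) : d = e := by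
  obtain ⟨V, hV⟩ := X.sim_tripod hN h h' hs hne
  obtain ⟨U, hU⟩ := X.sim_tripod hN k k' ks kne
  have key : ∀ s : ℕ, d s = e s ∧ d' s = e' s := by
    intro s
    induction s with
    | zero => exact ⟨h0, h0'⟩
    | succ s ih =>
      obtain ⟨e1, e2⟩ := ih
      have q1 := X.qq_turn (hV s).1
      have q2 := X.qq_turn (hU s).1
      rw [e1, e2, q2] at q1
      have e3 : U s = V s := Set.singleton_injective q1
      have v1 := (hV s).2 1
      have v2 := (hU s).2 1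
      rw [← e1, ← e2, e3, v1] at v2
      have p1 := (hV (s + 1)).1
      have p2 := (hU (s + 1)).1
      rw [Nat.cast_one] at v1 v2
      rw [← v2] at p2
      have b := (X.vt_spec (hV s).1.2.2.2.2.1.1 1).2.2
      rw [v1] at b
      have c1 := X.sa_child k p2.2.2.1
      have c2 := X.sa_child k' p2.2.2.2.1
      rw [← e1] at c1
      rw [← e2] at c2
      push_cast
      exact X.qq_unique' b p1 p2 (X.sa_child h p1.2.2.1) (X.sa_child h' p1.2.2.2.1) c1 c2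
  refine X.ray_ext hN h k (s := 0) fun t ht => ?_
  obtain ⟨s, rfl⟩ := Int.eq_ofNat_of_zero_le ht
  exact (key s).1

private theorem sa_far (hN : 0 < N) (h : IsRay X.T X.f G N d) {t : ℤ} {s n : ℕ} {v p : W}
    (b0 : Btw X.T (d t).1 (d t).2 v) (b1 : Btw X.T (X.f^[s] (d (t - s)).1) v p)
    (b2 : Btw X.T v (X.f^[s] (d (t - s)).2) p) (hs : (X.T.dist (d t).1 v + n) * N ≤ s) :
    n ≤ X.T.dist v p ∧ ∀ z, Btw X.T v z p → X.T.dist v z = n →
      hl X.T X.f d t (X.T.dist (d t).1 v + n) = z := by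
  have r := X.ray_desc h (t - s) s
  have hg := X.ray_grow hN h (t - s) hs
  rw [sub_add_cancel] at r hg
  have c1 := (b1.trans_right b2).2
  have c2 := (r.2.1.glue X.acyc b0 (h.adj t).ne).1
  have c3 := (c1.trans_left c2).2
  have k1 := c3.2.2
  have k2 := r.2.2.2.2
  have k3 := b2.2.2
  refine ⟨by omega, fun z hz hd => ?_⟩
  have c4 := (hz.compare X.acyc b2 (by omega)).1
  have c5 := c3.trans_right c4
  have k4 := c5.2.2.2
  have := X.hl_eq hN h (t := t) (z := z) ⟨s, c5.1⟩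
  rwa [← k4, hd] at this

/-- A bi-infinite consistent sequence of elements of `Q` is asymptotic (`qq_unif`: the ends
`f^[s] (d (t-s)).2`, `f^[s] (d' (t-s)).2` both lie on `[V t, f^[s] (V (t-s))]`). -/
theorem sim_of_qq (hN : 0 < N) (h : IsRay X.T X.f G N d) (h' : IsRay X.T X.f G N d') (V : ℤ → W)
    (hq : ∀ t : ℤ, QQ X.T X.f (d t) (V t) (d' t))
    (hv : ∀ (t : ℤ) (s : ℕ), vt X.T X.f (d t).1 (V t) (d' t).1 s = V (t + s)) :
    Sim X.T X.f d d' := by
  obtain ⟨th, hth⟩ := X.qq_unif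
  intro t
  refine ⟨X.T.dist (d t).1 (V t), X.T.dist (d' t).1 (V t), fun n => ?_⟩
  obtain ⟨s, s1, s2, s3⟩ : ∃ s : ℕ, th ≤ s ∧ (X.T.dist (d t).1 (V t) + n) * N ≤ s ∧
      (X.T.dist (d' t).1 (V t) + n) * N ≤ s :=
    ⟨th + (X.T.dist (d t).1 (V t) + n) * N + (X.T.dist (d' t).1 (V t) + n) * N,
      by omega, by omega, by omega⟩
  have q := hq (t - s)
  have ll := q.2.2.2.2.1.1
  obtain ⟨e1, e2, -, -⟩ := hth _ _ _ q
  have f1 := X.eat_mono ll s1 e1
  have f2 := X.eat_mono ll s1 e2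
  have vs := X.vt_spec ll s
  unfold Eat at f1 f2
  rw [hv, sub_add_cancel] at f1 f2 vs
  obtain ⟨n1, z1⟩ := X.sa_far hN h (hq t).2.2.1 vs.1 f1 s2
  obtain ⟨-, z2⟩ := X.sa_far hN h' (hq t).2.2.2.1 vs.2.1.symm f2 s3
  obtain ⟨z, hz, hd⟩ := exists_btw_dist vs.1.2.1 n1
  rw [z1 z hz hd, z2 z hz hd]

/-- Facts on an element of `Q` that sits at the turning point at time `t` (left leg). -/
theorem sb_at {a y b : W} (h : AI X.T X.f a y b) (t : ℕ) {e e' : W × W}
    (hq : QQ X.T X.f e (vt X.T X.f a y b t) e')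
    (h1 : Btw X.T (X.f^[t] a) e.1 (vt X.T X.f a y b t))
    (h2 : Btw X.T (X.f^[t] b) e'.1 (vt X.T X.f a y b t)) :
    (∀ r, vt X.T X.f e.1 (vt X.T X.f a y b t) e'.1 r = vt X.T X.f a y b (r + t)) ∧
    (∀ r, Btw X.T (X.f^[r + t] a) (X.f^[r] e.1) (vt X.T X.f a y b (r + t))) ∧
    ∀ r, Eat X.T X.f e.1 (vt X.T X.f a y b t) e'.1 r e.2 →
      Btw X.T (vt X.T X.f a y b (r + t)) (X.f^[r] e.2) (X.f^[r + t] y) := by
  obtain ⟨s1, s2⟩ := X.ai_shift h t
  have e1 : ∀ r, vt X.T X.f e.1 (vt X.T X.f a y b t) e'.1 r = vt X.T X.f a y b (r + t) :=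
    fun r => ((X.ai_ext s1.1 h1 h2 hq.2.2.2.2.1).2 r).trans (s2 r)
  refine ⟨e1, fun r => ?_, fun r he => ?_⟩
  · have := (X.not_eat s1.1 h1 (X.vt_ext s1.1 h1 h2 (hq.2.2.2.2.1.2 r)).2.2.1).1
    rwa [s2, ← Function.iterate_add_apply] at this
  · unfold Eat at he
    rw [e1] at he
    exact ((X.vt_iter h.1 t r).trans_left he).1

/-- The same for the right leg. -/
theorem sb_at' {a y b : W} (h : AI X.T X.f a y b) (t : ℕ) {e e' : W × W}
    (hq : QQ X.T X.f e (vt X.T X.f a y b t) e')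
    (h1 : Btw X.T (X.f^[t] a) e.1 (vt X.T X.f a y b t))
    (h2 : Btw X.T (X.f^[t] b) e'.1 (vt X.T X.f a y b t)) :
    (∀ r, Btw X.T (X.f^[r + t] b) (X.f^[r] e'.1) (vt X.T X.f a y b (r + t))) ∧
    ∀ r, Eat X.T X.f e.1 (vt X.T X.f a y b t) e'.1 r e'.2 →
      Btw X.T (vt X.T X.f a y b (r + t)) (X.f^[r] e'.2) (X.f^[r + t] y) := by
  have hv := X.vt_symm h.1
  have k := X.sb_at (X.ai_symm h) t (e := e') (e' := e) (by rw [hv]; exact X.qq_symm hq)
    (by rw [hv]; exact h2) (by rw [hv]; exact h1)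
  simp only [hv] at k
  exact ⟨k.2.1, fun r he => k.2.2 r (X.eat_symm hq.2.2.2.2.1.1 he)⟩

/-- The successor relation on `Q`. -/
def SbR (ρ ρ' : (W × W) × W × (W × W)) : Prop :=
  ρ'.2.1 = vt X.T X.f ρ.1.1 ρ.2.1 ρ.2.2.1 1 ∧ QQ X.T X.f ρ'.1 ρ'.2.1 ρ'.2.2 ∧
    Btw X.T (X.f ρ.1.1) ρ'.1.1 ρ'.2.1 ∧ Btw X.T (X.f ρ.2.2.1) ρ'.2.2.1 ρ'.2.1

theorem sbR_smul (g : G) {ρ ρ' : (W × W) × W × (W × W)} (h : X.SbR ρ ρ') :
    X.SbR (g • ρ) (g • ρ') := by
  obtain ⟨h1, h2, h3, h4⟩ := h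
  refine ⟨?_, X.qq_smul g h2, ?_, ?_⟩
  · change g • ρ'.2.1 = vt X.T X.f (g • ρ.1.1) (g • ρ.2.1) (g • ρ.2.2.1) 1
    rw [X.vt_smul, h1]
  · change Btw X.T (X.f (g • ρ.1.1)) (g • ρ'.1.1) (g • ρ'.2.1)
    rw [X.smul]; exact X.gf.acts.btw g h3
  · change Btw X.T (X.f (g • ρ.2.2.1)) (g • ρ'.2.2.1) (g • ρ'.2.1)
    rw [X.smul]; exact X.gf.acts.btw g h4

theorem sbR_det {ρ ρ' ρ'' : (W × W) × W × (W × W)} (hq : QQ X.T X.f ρ.1 ρ.2.1 ρ.2.2)
    (h : X.SbR ρ ρ') (h' : X.SbR ρ ρ'') : ρ' = ρ'' := by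
  obtain ⟨h1, h2, h3, h4⟩ := h
  obtain ⟨k1, k2, k3, k4⟩ := h'
  rw [h1] at h2 h3 h4
  rw [k1] at k2 k3 k4
  obtain ⟨e1, e2⟩ := X.qq_unique (X.ai_shift hq.2.2.2.2.1 1).1.1 h2 k2 h3 h4 k3 k4
  exact Prod.ext e1 (Prod.ext (h1.trans k1.symm) e2)

theorem sbR_of_at {a y b : W} (h : AI X.T X.f a y b) (t : ℕ) {e e' c c' : W × W}
    (hq : QQ X.T X.f e (vt X.T X.f a y b t) e')
    (h1 : Btw X.T (X.f^[t] a) e.1 (vt X.T X.f a y b t))
    (h2 : Btw X.T (X.f^[t] b) e'.1 (vt X.T X.f a y b t))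
    (kq : QQ X.T X.f c (vt X.T X.f a y b (t + 1)) c')
    (k1 : Btw X.T (X.f^[t + 1] a) c.1 (vt X.T X.f a y b (t + 1)))
    (k2 : Btw X.T (X.f^[t + 1] b) c'.1 (vt X.T X.f a y b (t + 1))) :
    X.SbR (e, vt X.T X.f a y b t, e') (c, vt X.T X.f a y b (t + 1), c') := by
  obtain ⟨a1, a2, -⟩ := X.sb_at h t hq h1 h2
  have a3 := (X.sb_at' h t hq h1 h2).1 1
  have a4 := a2 1
  have a5 := a1 1
  rw [Nat.add_comm 1 t] at a3 a4 a5
  obtain ⟨p, p', m1, m2, m3⟩ := X.ai_exists_qq (X.ai_shift hq.2.2.2.2.1 1).1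
  rw [a5] at m1 m2 m3
  obtain ⟨rfl, rfl⟩ := X.qq_unique (X.ai_shift h (t + 1)).1.1 kq m1 k1 k2
    (a4.trans_right m2).1 (a3.trans_right m3).1
  exact ⟨a5.symm, kq, m2, m3⟩

theorem sb_nl {a y b : W} (h : AI X.T X.f a y b) (e : ℕ → W × W) {t : ℕ}
    (he : Eat X.T X.f a y b t (e 0).2)
    (h1 : ∀ s, Btw X.T (X.f^[s] a) (e s).2 (vt X.T X.f a y b s)) :
    ∃ s, (e (s + 1)).2 ≠ X.f (e s).2 := by
  by_contra hc
  have hc' : ∀ s, (e s).2 = X.f^[s] (e 0).2 := fun s => by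
    induction s with
    | zero => rfl
    | succ s ih =>
      rw [Function.iterate_succ_apply', ← ih]
      by_contra h0
      exact hc ⟨s, h0⟩
  obtain ⟨s, hs⟩ := X.eat_strict h he
  have k1 := h1 (s + t)
  rw [hc'] at k1
  have k2 : Btw X.T _ _ _ := X.eat_mono h.1 (Nat.le_add_left t s) he
  exact hs (s + t) (Nat.le_add_right _ _)
    (k1.antisymm ((X.vt_spec h.1 (s + t)).1.trans_right k2).2)

/-- (RAY) `ρ t` = the element of `Q` at the turning point at time `t` (`ai_shift`,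
`ai_exists_qq`); `fo_per` for the successor relation (deterministic by `qq_unique`);
`per_extend`; children by `qq_child`; not always the last child by `eat_strict`. -/
theorem exists_rays : ∃ τ N : ℕ, 0 < N ∧ ∀ a y b, AI X.T X.f a y b →
    ∃ d d', IsRay X.T X.f G N d ∧ IsRay X.T X.f G N d' ∧ Sim X.T X.f d d' ∧
      X.RayAt τ a y b d d' := by
  obtain ⟨τ, N, hN, H⟩ := fo_per X.fo_qq X.SbR (fun g _ _ h => X.sbR_smul g h)
    (fun ρ hρ _ _ h h' => X.sbR_det hρ h h')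
  refine ⟨τ, N, hN, fun a y b h => ?_⟩
  choose e e' hq h1 h2 using fun t => X.ai_exists_qq (X.ai_shift h t).1
  let ρ : ℕ → (W × W) × W × (W × W) := fun t => (e t, vt X.T X.f a y b t, e' t)
  have hR : ∀ t, X.SbR (ρ t) (ρ (t + 1)) := fun t =>
    X.sbR_of_at h t (hq t) (h1 t) (h2 t) (hq _) (h1 _) (h2 _)
  obtain ⟨g, hg⟩ := H ρ hq hR
  obtain ⟨D, D1, D2, D3⟩ := per_extend (fun t => ρ (τ + t)) hN g
    (fun t => by rw [← Nat.add_assoc]; exact hg _ (Nat.le_add_right _ _))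
  have Dq : ∀ t, QQ X.T X.f (D t).1 (D t).2.1 (D t).2.2 := fun t => by
    obtain ⟨k, s, hk⟩ := D3 t
    have := hk 0
    rw [Nat.cast_zero, add_zero] at this
    rw [this]
    exact X.qq_smul k (hq _)
  have DR : ∀ t, X.SbR (D t) (D (t + 1)) := fun t => by
    obtain ⟨k, s, hk⟩ := D3 t
    have k0 := hk 0
    have k1 := hk 1
    rw [Nat.cast_zero, add_zero] at k0
    rw [Nat.cast_one] at k1
    rw [k0, k1]
    exact X.sbR_smul k (hR _)
  have Dv : ∀ (t : ℤ) (r : ℕ),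
      vt X.T X.f (D t).1.1 (D t).2.1 (D t).2.2.1 r = (D (t + r)).2.1 := fun t r => by
    obtain ⟨k, s, hk⟩ := D3 t
    have k0 := hk 0
    rw [Nat.cast_zero, add_zero] at k0
    rw [k0, hk r]
    change vt X.T X.f (k • (e _).1) (k • vt X.T X.f a y b _) (k • (e' _).1) r =
      k • vt X.T X.f a y b _
    rw [X.vt_smul, (X.sb_at h _ (hq _) (h1 _) (h2 _)).1 r]
    congr 2
    omega
  have Dc : ∀ t, Sep X.T (D (t + 1)).1 (X.f (D t).1.1) (X.f (D t).1.2) ∧
      Sep X.T (D (t + 1)).2.2 (X.f (D t).2.2.1) (X.f (D t).2.2.2) := fun t => by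
    obtain ⟨k1, k2, k3, k4⟩ := DR t
    rw [k1] at k2 k3 k4
    exact X.qq_child (Dq t) k2 k3 k4
  obtain ⟨s1, s2⟩ := X.ai_shift h τ
  have hx := (X.ai_ext s1.1 (h1 τ) (h2 τ) (hq τ).2.2.2.2.1).2
  have r1 : IsRay X.T X.f G N (fun t => (D t).1) := by
    refine ⟨fun t => (Dq t).1, fun t => (Dc t).1, ⟨g, fun t => by rw [D2]; rfl⟩, ?_⟩
    obtain ⟨t, ht⟩ := (hq τ).2.2.2.2.2.1
    unfold Eat at ht
    rw [hx] at ht
    obtain ⟨s, hs⟩ := X.sb_nl s1 (fun s => e (τ + s)) ht fun s => by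
      rw [s2, ← Function.iterate_add_apply, Nat.add_comm s τ]
      exact ((h1 _).trans_right (hq _).2.2.1).1
    refine ⟨s, ?_⟩
    have k1 := D1 (s + 1)
    rw [Nat.cast_add, Nat.cast_one] at k1
    rw [k1, D1 s]
    exact hs
  have r2 : IsRay X.T X.f G N (fun t => (D t).2.2) := by
    refine ⟨fun t => (Dq t).2.1, fun t => (Dc t).2, ⟨g, fun t => by rw [D2]; rfl⟩, ?_⟩
    obtain ⟨t, ht⟩ := (hq τ).2.2.2.2.2.2
    unfold Eat at ht
    rw [hx] at ht
    obtain ⟨s, hs⟩ := X.sb_nl (X.ai_symm s1) (fun s => e' (τ + s)) (X.eat_symm s1.1 ht) fun s => by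
      rw [X.vt_symm s1.1, s2, ← Function.iterate_add_apply, Nat.add_comm s τ]
      exact ((h2 _).trans_right (hq _).2.2.2.1).1
    refine ⟨s, ?_⟩
    have k1 := D1 (s + 1)
    rw [Nat.cast_add, Nat.cast_one] at k1
    rw [k1, D1 s]
    exact hs
  refine ⟨_, _, r1, r2, X.sim_of_qq hN r1 r2 (fun t => (D t).2.1) Dq Dv, fun s => ?_⟩
  beta_reduce
  rw [D1 s]
  exact ⟨hq _, h1 _, h2 _⟩

/-- Relative position of two consecutive elements of `Q` at time `t = τ + s`: both darts lie on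
the legal geodesic `[f^[t] y, f^[t] y']`; the origin of `(d' s).swap` is strictly before
`(e s).2` (both are eaten at time `th`, the piece is not empty then), and `(e s).1` is not
after `(d' s).1` (else the piece is long at time `τ₁`). -/
theorem link_pos (c₁ : ℕ) : ∃ κ : ℕ, ∀ (τ s : ℕ) (a y y' b : W) (d d' e e' : ℤ → W × W),
    AI X.T X.f a y y' → AI X.T X.f y y' b → X.RayAt τ a y y' d d' → X.RayAt τ y y' b e e' →
    (∀ t ≤ τ + s + κ, Btw X.T (X.f^[t] y) (vt X.T X.f a y y' t) (vt X.T X.f y y' b t) ∧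
      vt X.T X.f a y y' t ≠ vt X.T X.f y y' b t ∧
      X.T.dist (vt X.T X.f a y y' t) (vt X.T X.f y y' b t) ≤ c₁) →
    Sep X.T (d' s).swap (X.f^[τ + s] y) (X.f^[τ + s] y') ∧
      Sep X.T (e s) (X.f^[τ + s] y) (X.f^[τ + s] y') ∧
      (e s = (d' s).swap ∨ (e s).1 = (d' s).1) := by
  obtain ⟨th, hth⟩ := X.qq_unif
  obtain ⟨τ₁, hτ₁⟩ := X.ls_grow (c₁ + 1)
  refine ⟨th + τ₁, fun τ s a y y' b d d' e e' A B RA RB H => ?_⟩
  obtain ⟨q1, q2, q3⟩ := RA s
  obtain ⟨p1, p2, p3⟩ := RB s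
  generalize τ + s = t at *
  have hT := X.acyc
  have hI : LS X.T X.f (X.f^[t] y) (X.f^[t] y') := X.ls_iter t A.1.2.1
  have u1 := fun r => (X.vt_spec A.1 r).2.1
  have w1 := fun r => (X.vt_spec B.1 r).1
  have S1 : Sep X.T (d' s).swap (X.f^[t] y) (X.f^[t] y') := by
    have k : Sep X.T (d' s) (d' s).1 (vt X.T X.f a y y' t) :=
      ⟨q1.2.1, btw_left q1.2.1.reachable, q1.2.2.2.1⟩
    exact sep_ext_left hT (sep_symm (sep_ext_left hT k q3)) (u1 t)
  have S2 : Sep X.T (e s) (X.f^[t] y) (X.f^[t] y') := by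
    have k : Sep X.T (e s) (e s).1 (vt X.T X.f y y' b t) :=
      ⟨p1.1, btw_left p1.1.reachable, p1.2.2.1⟩
    exact sep_ext_right hT (sep_ext_left hT k p2) (w1 t)
  refine ⟨S1, S2, ?_⟩
  have d1 := (sep_dist S1).1
  have d2 := (sep_dist S2).1
  have b1 : Btw X.T _ (d' s).2 _ := sep_left hT S1
  have b2 : Btw X.T _ (d' s).1 _ := sep_right hT S1
  have b3 := sep_left hT S2
  have b4 := sep_right hT S2
  simp only [Prod.fst_swap, Prod.snd_swap] at d1
  obtain ⟨A1, A2⟩ := X.sb_at' A t q1 q2 q3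
  obtain ⟨-, B1, B2⟩ := X.sb_at B t p1 p2 p3
  have c1 : X.T.dist (X.f^[t] y) (d' s).2 < X.T.dist (X.f^[t] y) (e s).2 := by
    by_contra hc
    have k0 := (b4.compare hT b1 (by omega)).1
    have k1 := X.ls_btw_iter th (X.ls_sub hI (btw_left hI.1) b1) k0
    rw [← Function.iterate_add_apply] at k1
    have k2 := (A2 th (hth _ _ _ q1).2.1).symm
    have k3 := ((w1 (th + t)).trans_right (B2 th (hth _ _ _ p1).1)).2
    obtain ⟨k4, k5, -⟩ := H (th + t) (by omega)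
    have k6 := k4.2.1.pos_dist_of_ne k5
    have := k1.2.2
    have := k2.2.2
    have := k3.2.2
    have := k4.2.2
    omega
  have c2 : X.T.dist (X.f^[t] y) (e s).1 ≤ X.T.dist (X.f^[t] y) (d' s).1 := by
    by_contra hc
    have k0 := (b2.compare hT b3 (by omega)).1
    have k1 := X.ls_btw_iter τ₁ (X.ls_sub hI (btw_left hI.1) b3) k0
    rw [← Function.iterate_add_apply] at k1
    have k2 := ((u1 (τ₁ + t)).trans_right (A1 τ₁).symm).2
    have k3 := B1 τ₁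
    obtain ⟨k4, -, k5⟩ := H (τ₁ + t) (by omega)
    have k6 := (hτ₁ τ₁ le_rfl _ _ (X.ls_sub hI b2 b3) (fun h => hc (by rw [h]))).1
    have := k1.2.2
    have := k2.2.2
    have := k3.2.2
    have := k4.2.2
    omega
  rcases Nat.lt_or_ge (X.T.dist (X.f^[t] y) (e s).1) (X.T.dist (X.f^[t] y) (d' s).1) with k | k
  · exact Or.inl (sep_unique hT S2 S1 (by simp only [Prod.fst_swap]; omega))
  · exact Or.inr (b3.unique hT b2 (by omega))

/-- (LINK) Either the edge case holds at times `0` and `N` (`base_eq_edge`), or the vertex case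
holds at a time `s ≤ N`, persists, and forces first children (`base_eq_vert`). -/
theorem link (c₁ τ : ℕ) (hN : 0 < N) : ∃ τs : ℕ, ∀ (a y y' b : W) (d d' e e' : ℤ → W × W),
    AI X.T X.f a y y' → AI X.T X.f y y' b → X.RayAt τ a y y' d d' → X.RayAt τ y y' b e e' →
    IsRay X.T X.f G N d' → IsRay X.T X.f G N e →
    (∀ t ≤ τs, Btw X.T (X.f^[t] y) (vt X.T X.f a y y' t) (vt X.T X.f y y' b t) ∧
      vt X.T X.f a y y' t ≠ vt X.T X.f y y' b t ∧
      X.T.dist (vt X.T X.f a y y' t) (vt X.T X.f y y' b t) ≤ c₁) →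
    base X.f d' = base X.f e := by
  obtain ⟨κ, hκ⟩ := X.link_pos c₁
  refine ⟨τ + 2 * N + κ, fun a y y' b d d' e e' A B RA RB r1 r2 H => ?_⟩
  have hT := X.acyc
  have P := fun (s : ℕ) (hs : s ≤ 2 * N) =>
    hκ τ s a y y' b d d' e e' A B RA RB fun t ht => H t (by omega)
  have step : ∀ s : ℕ, s + 1 ≤ 2 * N → (e s).1 = (d' s).1 →
      (d' (s + 1)).1 = X.f (d' s).1 ∧ (e (s + 1)).1 = X.f (e s).1 := by
    intro s hs hv
    obtain ⟨S1, S2, -⟩ := P s (by omega)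
    obtain ⟨-, -, hc⟩ := P (s + 1) hs
    rw [Nat.cast_add, Nat.cast_one] at hc
    have hI := X.ls_iter (τ + s) A.1.2.1
    have b1 : Btw X.T _ (d' s).2 _ := sep_left hT S1
    have b4 := sep_right hT S2
    have d1 := (sep_dist S1).1
    have d2 := (sep_dist S2).1
    simp only [Prod.fst_swap, Prod.snd_swap] at d1
    have b2 : Btw X.T _ (d' s).1 _ := sep_right hT S1
    have m1 : Btw X.T (d' s).2 (d' s).1 (e s).2 :=
      ((b2.compare hT b4 (by rw [← hv]; omega)).1.trans_left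
        (b1.compare hT b2 (by omega)).1).2
    have m2 := (X.ls_map (X.ls_sub hI b1 b4)).2.1 _ m1
    have c1 := r1.child s
    have c2 := r2.child s
    rw [hv] at c2
    rcases hc with hc | hc
    · rw [hc] at c2
      exact (sep_not_both (sep_symm c1) c2).elim
    · have z1 := sep_left hT c1
      have z2 := sep_left hT c2
      rw [hc] at z2
      have z3 : (d' (s + 1)).1 = X.f (d' s).1 :=
        z1.symm.antisymm (m2.trans_right z2).2
      exact ⟨z3, by rw [hc, z3, hv]⟩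
  have vert : ∀ s : ℕ, s ≤ N → (e s).1 = (d' s).1 → base X.f d' = base X.f e := by
    intro s hs hv
    have pers : ∀ j : ℕ, j ≤ N → (e ((s + j : ℕ) : ℤ)).1 = (d' ((s + j : ℕ) : ℤ)).1 := by
      intro j
      induction j with
      | zero => intro _; exact hv
      | succ j ih =>
        intro hj
        have k := ih (by omega)
        obtain ⟨k1, k2⟩ := step (s + j) (by omega) k
        rw [← Nat.add_assoc, Nat.cast_add (s + j) 1, Nat.cast_one, k1, k2, k]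
    refine X.base_eq_vert hN r1 r2 hv.symm fun t h1 h2 => ?_
    obtain ⟨j, rfl⟩ : ∃ j : ℕ, t = ((s + j : ℕ) : ℤ) := ⟨(t - s).toNat, by omega⟩
    exact step (s + j) (by omega) (pers j (by omega))
  rcases (P 0 (by omega)).2.2 with k0 | k0
  · rcases (P N (by omega)).2.2 with k1 | k1
    · exact X.base_eq_edge hN r1 r2 k0 k1
    · exact vert N le_rfl k1
  · exact vert 0 (by omega) k0

end Cx

end EG
end CPOR
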