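import Pool.Agent.P.MP_2cb329_al.EG.D

/-! Section F9: tree lemmas (medians, darts of a geodesic, weighted lengths). -/

set_option autoImplicit false

namespace CPOR
namespace EG
open ZT MulAction

variable {V : Type} {T : SimpleGraph V}

theorem ta_sep_btw {e : V × V} {x y : V} (hT : T.IsAcyclic) (h : Sep T e x y) :
    Btw T x e.1 y ∧ Btw T x e.2 y :=
  Btw.glue hT h.2.1 h.2.2 h.1.ne

theorem sep_dist {e : V × V} {x y : V} (h : Sep T e x y) :
    T.dist x e.2 = T.dist x e.1 + 1 ∧ T.dist e.1 y = T.dist e.2 y + 1 := by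
  have e1 := SimpleGraph.dist_eq_one_iff_adj.2 h.1
  have e2 := h.2.1.2.2
  have e3 := h.2.2.2.2
  omega

theorem sep_symm {e : V × V} {x y : V} (h : Sep T e x y) : Sep T e.swap y x := by
  exact ⟨h.1.symm, h.2.2.symm, h.2.1.symm⟩

theorem sep_ne {e : V × V} {x y : V} (h : Sep T e x y) : x ≠ y ∧ x ≠ e.2 ∧ e.1 ≠ y := by
  obtain ⟨e1, e2⟩ := sep_dist h
  refine ⟨fun H => ?_, fun H => ?_, fun H => ?_⟩
  · subst H
    rw [SimpleGraph.dist_comm (u := e.1), SimpleGraph.dist_comm (u := e.2)] at e2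
    omega
  · rw [H, SimpleGraph.dist_self] at e1
    omega
  · rw [H, SimpleGraph.dist_self] at e2
    omega

theorem sep_self {x y : V} (h : T.Adj x y) : Sep T (x, y) x y := by
  exact ⟨h, btw_left h.reachable, btw_right h.reachable⟩

theorem sep_not_both {e : V × V} {x y z : V} (h : Sep T e x z) (h' : Sep T e z y) : False := by
  have e1 := (sep_dist h).2
  have e2 := (sep_dist h').1
  rw [SimpleGraph.dist_comm (u := e.1), SimpleGraph.dist_comm (u := e.2)] at e1
  omega

theorem sep_of_btw {e : V × V} {x y : V} (ha : T.Adj e.1 e.2) (h1 : Btw T x e.1 y)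
    (h2 : Btw T x e.2 y) (hd : T.dist x e.1 < T.dist x e.2) : Sep T e x y := by
  have e1 := SimpleGraph.dist_eq_one_iff_adj.2 ha
  have a1 := h1.2.2
  have a2 := h2.2.2
  have t1 := dist_tri h1.1 ha.reachable
  exact ⟨ha, ⟨h1.1, ha.reachable, by omega⟩, ⟨ha.reachable, h2.2.1, by omega⟩⟩

section Acyclic

variable (hT : T.IsAcyclic)
include hT

theorem sep_left {e : V × V} {x y : V} (h : Sep T e x y) : Btw T x e.1 y := by
  exact (ta_sep_btw hT h).1

theorem sep_right {e : V × V} {x y : V} (h : Sep T e x y) : Btw T x e.2 y := by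
  exact (ta_sep_btw hT h).2

theorem med_spec {x y z : V} (h1 : T.Reachable x y) (h2 : T.Reachable y z) :
    Btw T x (med T x y z) y ∧ Btw T y (med T x y z) z ∧ Btw T x (med T x y z) z := by
  have h := exists_median hT h1 h2
  unfold med
  rw [dif_pos h]
  exact h.choose_spec

theorem med_eq {x y z m : V} (h1 : Btw T x m y) (h2 : Btw T y m z) (h3 : Btw T x m z) :
    med T x y z = m := by
  obtain ⟨m1, m2, m3⟩ := med_spec hT h1.reach h2.reach
  exact median_unique hT m1 m2 m3 h1 h2 h3

theorem med_comm {x y z : V} (h1 : T.Reachable x y) (h2 : T.Reachable y z) :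
    med T x y z = med T z y x := by
  obtain ⟨m1, m2, m3⟩ := med_spec hT h2.symm h1.symm
  exact med_eq hT m2.symm m1.symm m3.symm

/-- The common part of `[y, x]` and `[y, z]` is `[y, med]`. -/
theorem btw_med_iff {x y z w : V} (h1 : T.Reachable x y) (h2 : T.Reachable y z) :
    Btw T (med T x y z) w y ↔ Btw T x w y ∧ Btw T z w y := by
  obtain ⟨m1, m2, m3⟩ := med_spec hT h1 h2
  constructor
  · intro h
    exact ⟨(m1.trans_right h).1, (m2.symm.trans_right h).1⟩
  · rintro ⟨a1, a2⟩
    rcases le_total (T.dist y w) (T.dist y (med T x y z)) with hd | hd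
    · exact (Btw.compare hT a1.symm m1.symm hd).1.symm
    · have c1 := (Btw.compare hT m1.symm a1.symm hd).2
      have c2 := (Btw.compare hT m2 a2.symm hd).2
      have c3 := (m3.trans_left c1.symm).2
      have e : w = med T x y z := Btw.antisymm c2.symm c3.symm
      rw [e]
      exact btw_left m1.2.1

theorem nxt_spec {x y : V} (h : T.Reachable x y) (hne : x ≠ y) : Sep T (x, nxt T x y) x y := by
  have hp := h.pos_dist_of_ne hne
  obtain ⟨z, hz, hd⟩ := exists_btw_dist h (i := 1) hp
  have hex : ∃ z, T.Adj x z ∧ Btw T x z y := ⟨z, adj_of_dist_one hd, hz⟩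
  have _ := hT
  unfold nxt
  rw [dif_pos hex]
  exact ⟨hex.choose_spec.1, btw_left hex.choose_spec.1.reachable, hex.choose_spec.2⟩

theorem nxt_eq {x y z : V} (h : T.Adj x z) (hb : Btw T x z y) : nxt T x y = z := by
  have hex : ∃ z, T.Adj x z ∧ Btw T x z y := ⟨z, h, hb⟩
  unfold nxt
  rw [dif_pos hex]
  refine Btw.unique hT hex.choose_spec.2 hb ?_
  rw [SimpleGraph.dist_eq_one_iff_adj.2 hex.choose_spec.1, SimpleGraph.dist_eq_one_iff_adj.2 h]

theorem nxt_btw {x y z : V} (hb : Btw T x z y) (hne : x ≠ z) : nxt T x y = nxt T x z := by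
  have h := nxt_spec hT hb.1 hne
  exact nxt_eq hT h.1 (hb.trans_left h.2.2).1

theorem sep_unique {e e' : V × V} {x y : V} (h : Sep T e x y) (h' : Sep T e' x y)
    (hd : T.dist x e.1 = T.dist x e'.1) : e = e' := by
  have e1 := Btw.unique hT (sep_left hT h) (sep_left hT h') hd
  have d1 := (sep_dist h).1
  have d2 := (sep_dist h').1
  have e2 := Btw.unique hT (sep_right hT h) (sep_right hT h') (by omega)
  exact Prod.ext e1 e2

theorem exists_sep {x y : V} (h : T.Reachable x y) {i : ℕ} (hi : i < T.dist x y) :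
    ∃ e, Sep T e x y ∧ T.dist x e.1 = i := by
  have _ := hT
  obtain ⟨a, h0, -, h2, h3, h4⟩ := exists_geod h
  have d1 := (h3 0 i (Nat.zero_le _) hi.le).2
  have d2 := (h3 0 (i + 1) (Nat.zero_le _) hi).2
  rw [h0] at d1 d2
  exact ⟨(a i, a (i + 1)), sep_of_btw (h2 i hi) (h4 i hi.le) (h4 (i + 1) hi)
    (by simp only; omega), by simpa using d1⟩

/-- The darts of a geodesic that start or end at a given vertex. -/
theorem exists_sep_at {x y z : V} (h : Btw T x z y) :
    (z ≠ y → ∃ r, Sep T (z, r) x y) ∧ (x ≠ z → ∃ p, Sep T (p, z) x y) := by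
  have e := h.2.2
  constructor
  · intro hne
    have hp := h.2.1.pos_dist_of_ne hne
    obtain ⟨⟨p, r⟩, h1, h2⟩ := exists_sep hT h.reach (i := T.dist x z) (by omega)
    have : p = z := Btw.unique hT (sep_left hT h1) h h2
    exact ⟨r, this ▸ h1⟩
  · intro hne
    have hp := h.1.pos_dist_of_ne hne
    obtain ⟨⟨p, r⟩, h1, h2⟩ := exists_sep hT h.reach (i := T.dist x z - 1) (by omega)
    have d1 := (sep_dist h1).1
    have : r = z := Btw.unique hT (sep_right hT h1) h (by simp only at d1 h2 ⊢; omega)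
    exact ⟨p, this ▸ h1⟩

theorem sep_ext_left {e : V × V} {x a b : V} (h : Sep T e a b) (hx : Btw T x a b) :
    Sep T e x b := by
  have a1 := (hx.trans_right (sep_left hT h)).1
  exact ⟨h.1, (a1.trans_right h.2.2).2, h.2.2⟩

theorem sep_ext_right {e : V × V} {a b y : V} (h : Sep T e a b) (hy : Btw T a b y) :
    Sep T e a y := by
  exact sep_symm (sep_ext_left hT (sep_symm h) hy.symm)

theorem sep_restr {e : V × V} {x y a b : V} (h : Sep T e x y) (ha : Btw T x a e.1)
    (hb : Btw T e.2 b y) : Sep T e a b := by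
  have _ := hT
  exact ⟨h.1, (h.2.1.trans_left ha).2, (h.2.2.trans_right hb).2⟩

theorem sep_or {e : V × V} {x y z : V} (h : Sep T e x y) (hz : T.Reachable x z) :
    Sep T e x z ∨ Sep T e z y := by
  have hr : T.Reachable e.1 z := h.2.1.1.symm.trans hz
  rcases adj_btw hT h.1 hr with k | k
  · exact Or.inl ⟨h.1, h.2.1, k⟩
  · exact Or.inr ⟨h.1, k.symm, h.2.2⟩

theorem sep_move_left {e : V × V} {x y x' : V} (h : Sep T e x y) (hr : T.Reachable x x')
    (hd : T.dist x x' ≤ T.dist x e.1) : Sep T e x' y := by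
  rcases sep_or hT h hr with k | k
  · exfalso
    have d1 := (sep_dist k).1
    have d2 := (sep_right hT k).2.2
    omega
  · exact k

theorem sep_move_right {e : V × V} {x y y' : V} (h : Sep T e x y) (hr : T.Reachable y y')
    (hd : T.dist y y' ≤ T.dist e.2 y) : Sep T e x y' := by
  refine sep_symm (sep_move_left hT (sep_symm h) hr ?_)
  rw [SimpleGraph.dist_comm (v := e.swap.1)]
  exact hd

theorem btw_move_left {x y z x' : V} (h : Btw T x z y) (hr : T.Reachable x x')
    (hd : T.dist x x' < T.dist x z) : Btw T x' z y := by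
  rcases h.or hT hr with k | k
  · exfalso
    have := k.2.2
    omega
  · exact k

theorem ta_sep_injOn (x y : V) :
    Set.InjOn (fun e : V × V => T.dist x e.1) {e | Sep T e x y} :=
  fun _ h _ h' hd => sep_unique hT h h' hd

theorem ta_sep_lt {e : V × V} {x y : V} (h : Sep T e x y) : T.dist x e.1 < T.dist x y := by
  have d1 := (sep_dist h).1
  have d2 := (sep_right hT h).2.2
  omega

theorem ta_btw_injOn (x y : V) : Set.InjOn (fun z : V => T.dist x z) {z | Btw T x z y} :=
  fun _ h _ h' hd => Btw.unique hT h h' hd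

theorem sep_finite (x y : V) : {e | Sep T e x y}.Finite := by
  refine Set.Finite.of_finite_image ((Set.finite_Iio (T.dist x y)).subset ?_) (ta_sep_injOn hT x y)
  rintro _ ⟨e, he, rfl⟩
  exact ta_sep_lt hT he

theorem sep_ncard {x y : V} (h : T.Reachable x y) : {e | Sep T e x y}.ncard = T.dist x y := by
  rw [← Set.InjOn.ncard_image (ta_sep_injOn hT x y)]
  have : (fun e : V × V => T.dist x e.1) '' {e | Sep T e x y} = ↑(Finset.range (T.dist x y)) := by
    ext i
    simp only [Set.mem_image, Set.mem_ofPred_eq, Finset.coe_range, Set.mem_Iio]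
    constructor
    · rintro ⟨e, he, rfl⟩
      exact ta_sep_lt hT he
    · intro hi
      exact exists_sep hT h hi
  rw [this, Set.ncard_coe_finset, Finset.card_range]

theorem btw_finite (x y : V) : {z | Btw T x z y}.Finite := by
  refine Set.Finite.of_finite_image ((Set.finite_Iic (T.dist x y)).subset ?_) (ta_btw_injOn hT x y)
  rintro _ ⟨z, hz, rfl⟩
  have := hz.2.2
  simp only [Set.mem_Iic]
  omega

theorem btw_ncard {x y : V} (h : T.Reachable x y) :
    {z | Btw T x z y}.ncard = T.dist x y + 1 := by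
  rw [← Set.InjOn.ncard_image (ta_btw_injOn hT x y)]
  have : (fun z : V => T.dist x z) '' {z | Btw T x z y} = ↑(Finset.range (T.dist x y + 1)) := by
    ext i
    simp only [Set.mem_image, Set.mem_ofPred_eq, Finset.coe_range, Set.mem_Iio]
    constructor
    · rintro ⟨z, hz, rfl⟩
      have := hz.2.2
      omega
    · intro hi
      exact exists_btw_dist h (by omega)
  rw [this, Set.ncard_coe_finset, Finset.card_range]

omit hT in
theorem ta_ncard_le {α : Type} {S : Set α} (φ : α → ℕ) (hi : Set.InjOn φ S) {R : ℕ}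
    (h : ∀ a ∈ S, φ a < R) : S.ncard ≤ R := by
  have := Set.ncard_le_ncard_of_injOn (t := ↑(Finset.range R)) φ
    (fun a ha => by simpa using h a ha) hi (Finset.finite_toSet _)
  rwa [Set.ncard_coe_finset, Finset.card_range] at this

/-- Few darts of a geodesic start near its origin. -/
theorem sep_near_ncard (x y : V) (R : ℕ) :
    {e | Sep T e x y ∧ T.dist x e.1 < R}.ncard ≤ R ∧
      {e | Sep T e x y ∧ T.dist e.2 y < R}.ncard ≤ R := by
  refine ⟨ta_ncard_le (fun e => T.dist x e.1) (fun e h e' h' hd => sep_unique hT h.1 h'.1 hd)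
    (fun e he => he.2), ta_ncard_le (fun e => T.dist e.2 y) (fun e h e' h' hd => ?_)
    (fun e he => he.2)⟩
  have d1 := (sep_dist h.1).1
  have d2 := (sep_dist h'.1).1
  have d3 := (sep_right hT h.1).2.2
  have d4 := (sep_right hT h'.1).2.2
  simp only at hd
  exact sep_unique hT h.1 h'.1 (by omega)

theorem btw_near_ncard (x y : V) (R : ℕ) :
    {z | Btw T x z y ∧ T.dist x z ≤ R}.ncard ≤ R + 1 ∧
      {z | Btw T x z y ∧ T.dist z y ≤ R}.ncard ≤ R + 1 := by
  refine ⟨ta_ncard_le (fun z => T.dist x z) (fun e h e' h' hd => Btw.unique hT h.1 h'.1 hd)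
    (fun e he => Nat.lt_succ_of_le he.2), ta_ncard_le (fun z => T.dist z y)
    (fun e h e' h' hd => ?_) (fun e he => Nat.lt_succ_of_le he.2)⟩
  have d1 := h.1.2.2
  have d2 := h'.1.2.2
  simp only at hd
  exact Btw.unique hT h.1 h'.1 (by omega)

theorem fwd_irrefl (e : V × V) : ¬ Fwd T e e := by
  intro h
  exact h.1.ne (Btw.eq_of_self h.2.2.1).symm

theorem fwd_trans {e e' e'' : V × V} (h : Fwd T e e') (h' : Fwd T e' e'') : Fwd T e e'' := by
  obtain ⟨a1, a2, a3, a4⟩ := h
  obtain ⟨-, b2, b3, b4⟩ := h'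
  have k := (Btw.glue hT a4 b3 a2.ne).1
  have hne : e'.1 ≠ e''.1 := fun he => by
    rw [← he] at b3
    exact a2.ne (Btw.eq_of_self b3).symm
  exact ⟨a1, b2, (Btw.trans_left k a3).1, (Btw.glue hT k b4 hne).2⟩

theorem fwd_swap {e e' : V × V} (h : Fwd T e e') : Fwd T e'.swap e.swap := by
  obtain ⟨a1, a2, a3, a4⟩ := h
  have k := Btw.trans_left a4 a3
  exact ⟨a2.symm, a1.symm, k.2.symm, k.1.symm⟩

theorem fwd_sep {e e' : V × V} (h : Fwd T e e') : Sep T e e.1 e'.2 ∧ Sep T e' e.1 e'.2 := by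
  obtain ⟨a1, a2, a3, a4⟩ := h
  exact ⟨⟨a1, btw_left a1.reachable, (Btw.trans_left a4 a3).1⟩,
    ⟨a2, a4, btw_right a2.reachable⟩⟩

theorem fwd_of_sep {e e' : V × V} {x y : V} (h : Sep T e x y) (h' : Sep T e' x y)
    (hd : T.dist x e.1 < T.dist x e'.1) : Fwd T e e' := by
  have h1 := (sep_dist h).1
  have k := (Btw.compare hT (sep_right hT h) (sep_left hT h') (by omega)).1
  have k' := Btw.trans_left k h.2.1
  exact ⟨h.1, h'.1, k'.2, (Btw.trans_left h'.2.1 k'.1).2⟩

/-- Two distinct darts with the same origin. -/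
theorem fwd_turn {e e' : V × V} (h : T.Adj e.1 e.2) (h' : T.Adj e'.1 e'.2) (ho : e.1 = e'.1)
    (hne : e ≠ e') : Fwd T e.swap e' := by
  have ha : T.Adj e.2 e'.1 := ho ▸ h.symm
  refine ⟨h.symm, h', ?_, btw_of_adj hT ha h' fun he => hne (Prod.ext ho he)⟩
  change Btw T e.2 e.1 e'.1
  rw [← ho]
  exact btw_right h.symm.reachable

/-- Two darts pointing to an inner vertex of a geodesic from the two sides. -/
theorem fwd_of_tripod {d d' : V × V} {y : V} (h : T.Adj d.1 d.2) (h' : T.Adj d'.1 d'.2)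
    (h1 : Btw T d.1 d.2 y) (h2 : Btw T d'.1 d'.2 y) (h3 : Btw T d.1 y d'.1) :
    Fwd T d d'.swap := by
  have k := Btw.trans_right h3 h2.symm
  exact ⟨h, h'.symm, (Btw.trans_left k.2 h1).1, k.1⟩

/-- Tightening of a broken geodesic `q 0, ..., q n`.  Construction: `z (r+1)` is the projection
of `q (r+1)` to `[q 0, q n]` if that is beyond `z r`, else `z r`; invariant: the projection of
`q r` is before `z r`. -/
theorem exists_dec (q : ℕ → V) (n : ℕ) (h : ∀ i < n, T.Reachable (q i) (q (i + 1))) :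
    ∃ z : ℕ → V, z 0 = q 0 ∧ z n = q n ∧ (∀ i ≤ n, Btw T (q 0) (z i) (q n)) ∧
      (∀ i j, i ≤ j → j ≤ n → Btw T (q 0) (z i) (z j)) ∧
      ∀ i < n, z i = z (i + 1) ∨
        (Btw T (q i) (z i) (z (i + 1)) ∧ Btw T (z i) (z (i + 1)) (q (i + 1))) := by
  have r0 : ∀ i ≤ n, T.Reachable (q 0) (q i) := by
    intro i hi
    induction i with
    | zero => exact SimpleGraph.Reachable.refl _
    | succ i ih => exact (ih (by omega)).trans (h i (by omega))
  have hm : ∀ i ≤ n, Btw T (q 0) (med T (q 0) (q i) (q n)) (q i) ∧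
      Btw T (q i) (med T (q 0) (q i) (q n)) (q n) ∧ Btw T (q 0) (med T (q 0) (q i) (q n)) (q n) :=
    fun i hi => med_spec hT (r0 i hi) ((r0 i hi).symm.trans (r0 n le_rfl))
  obtain ⟨z, z0, zs⟩ : ∃ z : ℕ → V, z 0 = q 0 ∧ ∀ r, z (r + 1) =
      if T.dist (q 0) (z r) ≤ T.dist (q 0) (med T (q 0) (q (r + 1)) (q n))
        then med T (q 0) (q (r + 1)) (q n) else z r :=
    ⟨fun r => Nat.rec (q 0) (fun r w => if T.dist (q 0) w ≤
      T.dist (q 0) (med T (q 0) (q (r + 1)) (q n)) then med T (q 0) (q (r + 1)) (q n) else w) r,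
      rfl, fun _ => rfl⟩
  have hon : ∀ i ≤ n, Btw T (q 0) (z i) (q n) := by
    intro i hi
    induction i with
    | zero => rw [z0]; exact btw_left (r0 n le_rfl)
    | succ i ih =>
      rw [zs]
      split_ifs
      · exact (hm _ hi).2.2
      · exact ih (by omega)
  have hmono : Monotone fun i => T.dist (q 0) (z i) := by
    refine monotone_nat_of_le_succ fun i => ?_
    rw [zs]
    split_ifs with c
    · exact c
    · exact le_rfl
  have hinv : ∀ i ≤ n, T.dist (q 0) (med T (q 0) (q i) (q n)) ≤ T.dist (q 0) (z i) := by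
    intro i hi
    cases i with
    | zero =>
      rw [Btw.eq_of_self (hm 0 hi).1, z0]
    | succ i =>
      rw [zs]
      split_ifs with c
      · exact le_rfl
      · exact (not_le.1 c).le
  refine ⟨z, z0, ?_, hon, fun i j hij hj =>
    (Btw.compare hT (hon i (hij.trans hj)) (hon j hj) (hmono hij)).1, fun i hi => ?_⟩
  · have k1 := hinv n le_rfl
    rw [Btw.eq_of_self (hm n le_rfl).2.1] at k1
    have k2 := (hon n le_rfl).2.2
    exact eq_of_dist_zero (hon n le_rfl).2.1 (by omega)
  · rw [zs]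
    split_ifs with c
    · right
      have k1 := Btw.compare hT (hon i hi.le) (hm (i + 1) hi).2.2 c
      have k2 := Btw.compare hT (hm i hi.le).2.2 (hon i hi.le) (hinv i hi.le)
      exact ⟨(Btw.trans_right (Btw.trans_right (hm i hi.le).2.1 k2.2).1 k1.2).2,
        (Btw.trans_left (hm (i + 1) hi).1 k1.1).2⟩
    · exact Or.inl rfl

/-- A vertex of a geodesic with marked monotone points is marked or strictly inside a piece. -/
theorem dec_locate (z : ℕ → V) (n : ℕ) (h : ∀ i j, i ≤ j → j ≤ n → Btw T (z 0) (z i) (z j))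
    {v : V} (hv : Btw T (z 0) v (z n)) :
    (∃ i ≤ n, v = z i) ∨ ∃ i < n, Btw T (z i) v (z (i + 1)) ∧ v ≠ z i ∧ v ≠ z (i + 1) := by
  induction n with
  | zero => exact Or.inl ⟨0, le_rfl, Btw.eq_of_self hv⟩
  | succ n ih =>
    have hn := h n (n + 1) (Nat.le_succ n) le_rfl
    rcases le_total (T.dist (z 0) v) (T.dist (z 0) (z n)) with c | c
    · rcases ih (fun i j hij hj => h i j hij (by omega)) (Btw.compare hT hv hn c).1 with
        ⟨i, hi, he⟩ | ⟨i, hi, he⟩
      · exact Or.inl ⟨i, by omega, he⟩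
      · exact Or.inr ⟨i, by omega, he⟩
    · by_cases c1 : v = z n
      · exact Or.inl ⟨n, Nat.le_succ n, c1⟩
      by_cases c2 : v = z (n + 1)
      · exact Or.inl ⟨n + 1, le_rfl, c2⟩
      exact Or.inr ⟨n, Nat.lt_succ_self n, (Btw.compare hT hn hv c).2, c1, c2⟩

section Len

variable {l : V × V → ℝ}

theorem tb_len (x y : V) : len T l x y = ∑ e ∈ (sep_finite hT x y).toFinset, l e :=
  finsum_mem_eq_finite_toFinset_sum _ _

theorem len_self (x : V) : len T l x x = 0 := by
  have : {e | Sep T e x x} = ∅ := Set.eq_empty_of_forall_notMem fun e he => (sep_ne he).1 rfl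
  unfold ZT.len
  rw [this, finsum_mem_empty]

theorem len_adj {x y : V} (h : T.Adj x y) : len T l x y = l (x, y) := by
  have : {e | Sep T e x y} = {(x, y)} := by
    refine Set.eq_singleton_iff_unique_mem.2 ⟨sep_self h, fun e he => ?_⟩
    refine sep_unique hT he (sep_self h) ?_
    have k1 := (sep_dist he).2
    have k2 := (sep_left hT he).2.2
    have k3 : T.dist x y = 1 := SimpleGraph.dist_eq_one_iff_adj.2 h
    have k4 : T.dist x x = 0 := SimpleGraph.dist_self
    change T.dist x e.1 = T.dist x x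
    omega
  unfold ZT.len
  rw [this, finsum_mem_singleton]

theorem len_add {x y z : V} (h : Btw T x z y) : len T l x y = len T l x z + len T l z y := by
  have : {e | Sep T e x y} = {e | Sep T e x z} ∪ {e | Sep T e z y} := by
    ext e
    constructor
    · intro he
      exact sep_or hT he h.1
    · rintro (he | he)
      · exact sep_ext_right hT he h
      · exact sep_ext_left hT he h
  have hd : Disjoint {e | Sep T e x z} {e | Sep T e z y} :=
    Set.disjoint_left.2 fun e h1 h2 => sep_not_both h1 h2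
  unfold ZT.len
  rw [this, finsum_mem_union hd (sep_finite hT x z) (sep_finite hT z y)]

theorem dist_le_len (h1 : ∀ x y, T.Adj x y → 1 ≤ l (x, y)) {x y : V} (h : T.Reachable x y) :
    (T.dist x y : ℝ) ≤ len T l x y := by
  rw [tb_len hT, ← sep_ncard hT h, Set.ncard_eq_toFinset_card _ (sep_finite hT x y),
    Finset.card_eq_sum_ones]
  push_cast
  exact Finset.sum_le_sum fun e he => h1 _ _ ((sep_finite hT x y).mem_toFinset.1 he).1

theorem len_le_dist {m : ℝ} (h1 : ∀ x y, T.Adj x y → l (x, y) ≤ m) {x y : V}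
    (h : T.Reachable x y) : len T l x y ≤ m * T.dist x y := by
  rw [tb_len hT, ← sep_ncard hT h, Set.ncard_eq_toFinset_card _ (sep_finite hT x y), mul_comm,
    ← nsmul_eq_mul]
  exact Finset.sum_le_card_nsmul _ _ _ fun e he =>
    h1 _ _ ((sep_finite hT x y).mem_toFinset.1 he).1

theorem len_symm (h1 : ∀ x y, T.Adj x y → l (x, y) = l (y, x)) (x y : V) :
    len T l x y = len T l y x := by
  have : {e | Sep T e y x} = Prod.swap '' {e | Sep T e x y} := by
    ext e
    constructor
    · intro he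
      exact ⟨e.swap, sep_symm he, Prod.swap_swap e⟩
    · rintro ⟨e, he, rfl⟩
      exact sep_symm he
  unfold ZT.len
  rw [this, finsum_mem_image Prod.swap_injective.injOn]
  exact finsum_mem_congr rfl fun e he => h1 _ _ he.1

theorem len_nonneg (h1 : ∀ x y, T.Adj x y → 1 ≤ l (x, y)) (x y : V) : 0 ≤ len T l x y := by
  rw [tb_len hT]
  exact Finset.sum_nonneg fun e he =>
    le_trans zero_le_one (h1 _ _ ((sep_finite hT x y).mem_toFinset.1 he).1)

end Len

end Acyclic

section Action

variable {G : Type} [Group G] [MulAction G V]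

theorem btw_smul_iff (hA : Acts T G) (g : G) {x y z : V} :
    Btw T (g • x) (g • y) (g • z) ↔ Btw T x y z := by
  refine ⟨fun h => ?_, hA.btw g⟩
  have := hA.btw g⁻¹ h
  rwa [inv_smul_smul, inv_smul_smul, inv_smul_smul] at this

theorem adj_smul_iff (hA : Acts T G) (g : G) {x y : V} : T.Adj (g • x) (g • y) ↔ T.Adj x y := by
  refine ⟨fun h => ?_, hA g x y⟩
  have := hA g⁻¹ _ _ h
  rwa [inv_smul_smul, inv_smul_smul] at this

theorem reach_smul_iff (hA : Acts T G) (g : G) {x y : V} :
    T.Reachable (g • x) (g • y) ↔ T.Reachable x y := by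
  refine ⟨fun h => ?_, hA.reach g⟩
  have := hA.reach g⁻¹ h
  rwa [inv_smul_smul, inv_smul_smul] at this

theorem sep_smul_iff (hA : Acts T G) (g : G) {e : V × V} {x y : V} :
    Sep T (g • e) (g • x) (g • y) ↔ Sep T e x y := by
  unfold Sep
  rw [Prod.smul_fst, Prod.smul_snd, adj_smul_iff hA, btw_smul_iff hA, btw_smul_iff hA]

theorem nxt_smul (h : GF T G) (g : G) (x y : V) : nxt T (g • x) (g • y) = g • nxt T x y := by
  by_cases c : ∃ z, T.Adj x z ∧ Btw T x z y
  · obtain ⟨z, h1, h2⟩ := c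
    rw [nxt_eq h.acyc h1 h2, nxt_eq h.acyc (h.acts g _ _ h1) (h.acts.btw g h2)]
  · have c' : ¬ ∃ z, T.Adj (g • x) z ∧ Btw T (g • x) z (g • y) := by
      rintro ⟨z, h1, h2⟩
      rw [← smul_inv_smul g z] at h1 h2
      exact c ⟨_, (adj_smul_iff h.acts g).1 h1, (btw_smul_iff h.acts g).1 h2⟩
    unfold nxt
    rw [dif_neg c, dif_neg c']

theorem med_smul (h : GF T G) (g : G) (x y z : V) :
    med T (g • x) (g • y) (g • z) = g • med T x y z := by
  by_cases c : ∃ m, Btw T x m y ∧ Btw T y m z ∧ Btw T x m z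
  · obtain ⟨m, h1, h2, h3⟩ := c
    rw [med_eq h.acyc h1 h2 h3,
      med_eq h.acyc (h.acts.btw g h1) (h.acts.btw g h2) (h.acts.btw g h3)]
  · have c' : ¬ ∃ m, Btw T (g • x) m (g • y) ∧ Btw T (g • y) m (g • z) ∧
        Btw T (g • x) m (g • z) := by
      rintro ⟨m, h1, h2, h3⟩
      rw [← smul_inv_smul g m] at h1 h2 h3
      exact c ⟨_, (btw_smul_iff h.acts g).1 h1, (btw_smul_iff h.acts g).1 h2,
        (btw_smul_iff h.acts g).1 h3⟩
    unfold med
    rw [dif_neg c, dif_neg c']

theorem len_smul (h : GF T G) {l : V × V → ℝ} (hl : IsWt T G l) (g : G) (x y : V) :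
    len T l (g • x) (g • y) = len T l x y := by
  have : {e | Sep T e (g • x) (g • y)} = (fun e => g • e) '' {e | Sep T e x y} := by
    ext e
    constructor
    · intro he
      refine ⟨g⁻¹ • e, (sep_smul_iff h.acts g).1 ?_, smul_inv_smul g e⟩
      rwa [smul_inv_smul]
    · rintro ⟨e, he, rfl⟩
      exact (sep_smul_iff h.acts g).2 he
  unfold ZT.len
  rw [this, finsum_mem_image (MulAction.injective g).injOn]
  exact finsum_mem_congr rfl fun e he => hl.smul g e he.1

theorem dart_free (h : GF T G) {g : G} {e : V × V} (he : T.Adj e.1 e.2) (hg : g • e = e) :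
    g = 1 := by
  exact h.etriv g e.1 e.2 he (congrArg Prod.fst hg) (congrArg Prod.snd hg)

theorem dart_cancel (h : GF T G) {g g' : G} {e : V × V} (he : T.Adj e.1 e.2)
    (hg : g • e = g' • e) : g = g' := by
  have := dart_free h (g := g'⁻¹ * g) he (by rw [mul_smul, hg, inv_smul_smul])
  exact (inv_mul_eq_one.1 this).symm

/-- A non-trivial element fixes at most one vertex of a component. -/
theorem fix_unique (h : GF T G) {g : G} (hg : g ≠ 1) {x y : V} (hr : T.Reachable x y)
    (hx : g • x = x) (hy : g • y = y) : x = y := by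
  by_contra hne
  have k := nxt_spec h.acyc hr hne
  exact hg (h.etriv g _ _ k.1 hx (fix_btw h.acyc h.acts hx hy k.2.2))

end Action

end EG
end CPOR
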