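import Pool.Agent.P.MP_2cb329_al.EG.B1
import Pool.Agent.P.MP_2cb329_al.EG.B3

/-! Section F9: the exponentially growing case. -/

set_option autoImplicit false

namespace CPOR
open ZT MulAction

theorem s_eg (hneg : S_neg) : S_eg := by
  intro G _ N _ S ρ hA hIH W _ Z φ hφ
  obtain ⟨X, hT, hf⟩ := EG.exists_cx φ hφ
  obtain ⟨B, hν⟩ := EG.exists_bx hA.toBij φ hφ X hT hf
  have hb : ∀ w : W, beta (stabilizer G w) < ρ := by
    intro w
    by_contra hlt
    have hle : stabilizer G w ≤ stabilizer G (Z.ν w) := fun g hg => by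
      show g • Z.ν w = Z.ν w
      rw [← Z.ν_smul]; exact congrArg Z.ν hg
    refine hφ.nofix w (S.le_stab_of_beta_le (S.node_fg (Z.ν w)) le_rfl Z.gf ?_ ?_)
    · intro k hk
      refine (Z.ν_eq _ _).1 ?_
      rw [Z.ν_smul]; exact hk.symm
    · rw [inf_eq_right.2 hle, hA.bN]; omega
  obtain ⟨Q⟩ := EG.exists_ox hneg (by have := hA.two; omega) hIH B hb
  exact ⟨Q.g1, Q.g2, Q.g3⟩

end CPOR
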