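import Pool.Agent.P.MP_2cb329_al.EG.S

/-! Section F9: the graph of bases and classes (definitions). -/

set_option autoImplicit false

namespace CPOR
namespace EG
open ZT MulAction
open scoped Pointwise

variable {G W : Type} [Group G] [MulAction G W] (X : Cx G W)

namespace Cx

/-- The class of a ray. -/
def cls (N : ℕ) (d : ℤ → W × W) : Set (ℤ → W × W) :=
  {d' | IsRay X.T X.f G N d' ∧ Sim X.T X.f d d'}

/-- The shift of sequences. -/
def sh {A : Type} (k : ℤ) (d : ℤ → A) : ℤ → A := fun t => d (t + k)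

variable {N : ℕ}

theorem cls_smul (hN : 0 < N) {d : ℤ → W × W} (h : IsRay X.T X.f G N d) (g : G) :
    X.cls N (g • d) = g • X.cls N d := by
  ext d'
  rw [Set.mem_smul_set_iff_inv_smul_mem]
  constructor
  · rintro ⟨h1, h2⟩
    refine ⟨X.ray_smul h1 _, ?_⟩
    have := X.sim_smul hN (X.ray_smul h g) h1 g⁻¹ h2
    rwa [inv_smul_smul] at this
  · rintro ⟨h1, h2⟩
    have h3 := X.ray_smul h1 g
    have := X.sim_smul hN h h1 g h2
    rw [smul_inv_smul] at this h3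
    exact ⟨h3, this⟩

theorem cls_eq_iff {d d' : ℤ → W × W} (h' : IsRay X.T X.f G N d') :
    X.cls N d = X.cls N d' ↔ Sim X.T X.f d d' := by
  constructor
  · intro e
    have : d' ∈ X.cls N d' := ⟨h', X.sim_refl d'⟩
    rw [← e] at this
    exact this.2
  · intro e
    ext d''
    exact ⟨fun h => ⟨h.1, X.sim_trans (X.sim_symm e) h.2⟩, fun h => ⟨h.1, X.sim_trans e h.2⟩⟩

theorem cls_sh (k : ℤ) (d : ℤ → W × W) : X.cls N (sh k d) = sh k '' X.cls N d := by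
  ext d'
  constructor
  · rintro ⟨h1, h2⟩
    refine ⟨sh (-k) d', ⟨X.ray_shift h1 _, ?_⟩, ?_⟩
    · have := X.sim_shift (-k) h2
      have e : (fun t => sh k d (t + -k)) = d := by funext t; simp [sh]
      rwa [e] at this
    · funext t; simp [sh]
  · rintro ⟨d'', ⟨h1, h2⟩, rfl⟩
    exact ⟨X.ray_shift h1 k, X.sim_shift k h2⟩

theorem nt_smul {u : ℤ → W} (h : IsNT X.f G u) (g : G) : IsNT X.f G (g • u) := by
  intro t
  refine ⟨?_, ?_⟩
  · show X.f (g • u t) = g • u (t + 1)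
    rw [X.smul, (h t).1]
  · show stabilizer G (g • u t) ≠ ⊥
    rw [stabilizer_smul_eq_stabilizer_map_conj]
    intro e
    exact (h t).2 ((Subgroup.map_eq_bot_iff_of_injective _ (MulAut.conj g).injective).1 e)

theorem nt_sh {u : ℤ → W} (h : IsNT X.f G u) (k : ℤ) : IsNT X.f G (sh k u) := by
  intro t
  refine ⟨?_, (h _).2⟩
  show X.f (u (t + k)) = u (t + 1 + k)
  rw [(h _).1]; congr 1; ring

/-- The base of an orbit of vertices. -/
def sing (u : ℤ → W) : ℤ → Set W := fun t => {u t}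

/-- The ambient type of the vertices. -/
abbrev Amb (W : Type) : Type := (ℤ → Set W) ⊕ Set (ℤ → W × W)

/-- Bases and classes. -/
def YS (hN : 0 < N) : SubMulAction G (Amb W) where
  carrier := {v | (∃ d, IsRay X.T X.f G N d ∧ v = Sum.inl (base X.f d)) ∨
    (∃ u, IsNT X.f G u ∧ v = Sum.inl (sing u)) ∨
    ∃ d, IsRay X.T X.f G N d ∧ v = Sum.inr (X.cls N d)}
  smul_mem' := by
    rintro g v (⟨d, h, rfl⟩ | ⟨u, h, rfl⟩ | ⟨d, h, rfl⟩)
    · exact Or.inl ⟨g • d, X.ray_smul h g, by rw [X.base_smul]; rfl⟩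
    · refine Or.inr (Or.inl ⟨g • u, X.nt_smul h g, ?_⟩)
      rw [Sum.smul_inl]
      congr 1
      funext t
      simp [sing]
    · exact Or.inr (Or.inr ⟨g • d, X.ray_smul h g, by rw [X.cls_smul hN h]; rfl⟩)

/-- The ray `d` joins the base `v` to the class `v'`. -/
def Joins (hN : 0 < N) (d : ℤ → W × W) (v v' : X.YS hN) : Prop :=
  IsRay X.T X.f G N d ∧ v.1 = Sum.inl (base X.f d) ∧ v'.1 = Sum.inr (X.cls N d)

/-- The graph of bases and classes. -/
def YH (hN : 0 < N) : SimpleGraph (X.YS hN) where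
  Adj v v' := ∃ d, X.Joins hN d v v' ∨ X.Joins hN d v' v
  symm := ⟨fun _ _ ⟨d, h⟩ => ⟨d, h.symm⟩⟩
  loopless := ⟨by
    rintro v ⟨d, h | h⟩ <;>
    · have := h.2.1.symm.trans h.2.2
      cases this⟩

/-- The shift on the ambient type. -/
def shA (k : ℤ) : Amb W → Amb W := Sum.map (sh k) (fun κ => sh k '' κ)

theorem shA_mem (hN : 0 < N) (k : ℤ) {v : Amb W} (h : v ∈ X.YS hN) : shA k v ∈ X.YS hN := by
  rcases h with ⟨d, h, rfl⟩ | ⟨u, h, rfl⟩ | ⟨d, h, rfl⟩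
  · exact Or.inl ⟨sh k d, X.ray_shift h k, congrArg Sum.inl (X.base_shift d k).symm⟩
  · exact Or.inr (Or.inl ⟨sh k u, X.nt_sh h k, rfl⟩)
  · exact Or.inr (Or.inr ⟨sh k d, X.ray_shift h k, congrArg Sum.inr (X.cls_sh k d).symm⟩)

theorem shA_shA (k k' : ℤ) (hk : k + k' = 0) (v : Amb W) : shA k (shA k' v) = v := by
  have e : ∀ {A : Type} (d : ℤ → A), sh k (sh k' d) = d := by
    intro A d; funext t; simp [sh, add_assoc, hk]
  rcases v with β | κ
  · simp [shA, e]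
  · simp [shA, Set.image_image, e]

/-- The shift automorphism. -/
def Yσ (hN : 0 < N) : X.YS hN ≃ X.YS hN where
  toFun v := ⟨shA 1 v.1, X.shA_mem hN 1 v.2⟩
  invFun v := ⟨shA (-1) v.1, X.shA_mem hN (-1) v.2⟩
  left_inv v := Subtype.ext (shA_shA _ _ (by ring) v.1)
  right_inv v := Subtype.ext (shA_shA _ _ (by ring) v.1)

/-- `w` is a vertex of the tree at which the vertex `v` of the graph is located at time `t`. -/
def Loc (t : ℤ) (v : Amb W) (w : W) : Prop :=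
  (∃ β, v = Sum.inl β ∧ w ∈ β t) ∨ ∃ κ, v = Sum.inr κ ∧ ∃ d ∈ κ, w = (d t).1

theorem exists_loc (hN : 0 < N) (t : ℤ) (v : X.YS hN) : ∃ w, Loc t v.1 w := by
  obtain ⟨v, ⟨d, h, rfl⟩ | ⟨u, h, rfl⟩ | ⟨d, h, rfl⟩⟩ := v
  · refine ⟨(d t).1, Or.inl ⟨_, rfl, ?_⟩⟩
    unfold base; split_ifs <;> simp
  · exact ⟨u t, Or.inl ⟨_, rfl, rfl⟩⟩
  · exact ⟨(d t).1, Or.inr ⟨_, rfl, d, ⟨h, X.sim_refl d⟩, rfl⟩⟩

/-- A location at time `0`. -/
noncomputable def Ypt (hN : 0 < N) (v : X.YS hN) : W := (X.exists_loc hN 0 v).choose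

theorem loc_pt (hN : 0 < N) (v : X.YS hN) : Loc 0 v.1 (X.Ypt hN v) :=
  (X.exists_loc hN 0 v).choose_spec

/-- Darts carried by a base. -/
def YCar (hN : 0 < N) (e : W × W) (v : X.YS hN) : Prop :=
  (∃ d, IsRay X.T X.f G N d ∧ e = d 0 ∧ v.1 = Sum.inl (base X.f d)) ∨
    ∃ u, IsNT X.f G u ∧ X.T.Adj e.1 e.2 ∧ e.1 = u 0 ∧ v.1 = Sum.inl (sing u)

/-- The dart of the tree that realises a dart of the graph at time `0`. -/
def Real (hN : 0 < N) (v v' : X.YS hN) (e : W × W) : Prop :=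
  ∃ d, (X.Joins hN d v v' ∧ e = d 0) ∨ (X.Joins hN d v' v ∧ e = (d 0).swap)

end Cx

end EG
end CPOR
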