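import Pool.Agent.P.MP_2cb329_al.EG.Y0

/-! Section F9: the graph of bases and classes is a forest; malnormality. -/

set_option autoImplicit false

namespace CPOR
namespace EG
open ZT MulAction
open scoped Pointwise

variable {G W : Type} [Group G] [MulAction G W] (X : Cx G W)

namespace Cx

variable {N : ℕ} (hN : 0 < N)

theorem ya_loc_base {t : ℤ} {d : ℤ → W × W} (h : IsRay X.T X.f G N d) {w : W}
    (hw : Loc t (Sum.inl (base X.f d)) w) : X.T.Reachable (d t).1 w := by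
  rcases hw with ⟨β, e, hw⟩ | ⟨κ, e, -⟩
  · obtain rfl := Sum.inl_injective e
    unfold base at hw
    split_ifs at hw
    · rw [Set.mem_singleton_iff.1 hw]
    · rcases hw with hw | hw
      · rw [hw]
      · rw [Set.mem_singleton_iff.1 hw]
        exact (h.adj t).reachable
  · cases e

theorem ya_base_loc (t : ℤ) (d : ℤ → W × W) : Loc t (Sum.inl (base X.f d)) (d t).1 := by
  refine Or.inl ⟨_, rfl, ?_⟩
  unfold base
  split_ifs <;> simp

theorem ya_cls_loc (t : ℤ) {d : ℤ → W × W} (h : IsRay X.T X.f G N d) :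
    Loc t (Sum.inr (X.cls N d)) (d t).1 :=
  Or.inr ⟨_, rfl, d, ⟨h, X.sim_refl d⟩, rfl⟩

theorem ya_loc_smul (g : G) {t : ℤ} {v : Amb W} {w : W} (h : Loc t v w) :
    Loc t (g • v) (g • w) := by
  rcases h with ⟨β, rfl, hw⟩ | ⟨κ, rfl, d, hd, rfl⟩
  · exact Or.inl ⟨g • β, rfl, Set.smul_mem_smul_set hw⟩
  · exact Or.inr ⟨g • κ, rfl, g • d, Set.smul_mem_smul_set hd, rfl⟩

theorem loc_reach {t : ℤ} {v : X.YS hN} {w w' : W} (h : Loc t v.1 w) (h' : Loc t v.1 w') :
    X.T.Reachable w w' := by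
  obtain ⟨v, ⟨d, hd, rfl⟩ | ⟨u, hu, rfl⟩ | ⟨d, hd, rfl⟩⟩ := v
  · exact (X.ya_loc_base hd h).symm.trans (X.ya_loc_base hd h')
  · have key : ∀ w, Loc t (Sum.inl (sing u)) w → w = u t := by
      rintro w (⟨β, e, hw⟩ | ⟨κ, e, -⟩)
      · obtain rfl := Sum.inl_injective e
        exact hw
      · cases e
    rw [key w h, key w' h']
  · have key : ∀ w, Loc t (Sum.inr (X.cls N d)) w → X.T.Reachable (d t).1 w := by
      rintro w (⟨β, e, -⟩ | ⟨κ, e, d', hd', rfl⟩)
      · cases e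
      · obtain rfl := Sum.inr_injective e
        exact X.sim_reach hN hd hd'.1 hd'.2 t
    exact (key w h).symm.trans (key w' h')

theorem ypt_smul (g : G) (v : X.YS hN) :
    X.T.Reachable (X.Ypt hN (g • v)) (g • X.Ypt hN v) := by
  exact X.loc_reach hN (X.loc_pt hN (g • v)) (ya_loc_smul g (X.loc_pt hN v))

theorem ya_joins_reach {d : ℤ → W × W} {v v' : X.YS hN} (h : X.Joins hN d v v') :
    X.T.Reachable (d 0).1 (X.Ypt hN v) ∧ X.T.Reachable (d 0).1 (X.Ypt hN v') := by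
  constructor
  · refine X.loc_reach hN (t := 0) (v := v) ?_ (X.loc_pt hN v)
    rw [h.2.1]
    exact X.ya_base_loc 0 d
  · refine X.loc_reach hN (t := 0) (v := v') ?_ (X.loc_pt hN v')
    rw [h.2.2]
    exact X.ya_cls_loc 0 h.1

theorem ypt_adj {v v' : X.YS hN} (h : (X.YH hN).Adj v v') :
    X.T.Reachable (X.Ypt hN v) (X.Ypt hN v') := by
  obtain ⟨d, h | h⟩ := h
  · exact (X.ya_joins_reach hN h).1.symm.trans (X.ya_joins_reach hN h).2
  · exact (X.ya_joins_reach hN h).2.symm.trans (X.ya_joins_reach hN h).1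

theorem ypt_reach {v v' : X.YS hN} (h : (X.YH hN).Reachable v v') :
    X.T.Reachable (X.Ypt hN v) (X.Ypt hN v') := by
  obtain ⟨p⟩ := h
  induction p with
  | nil => exact SimpleGraph.Reachable.refl _
  | cons ha _ ih => exact (X.ypt_adj hN ha).trans ih

/-- No double edges (`base_cases`, `sim_tripod`, `fwd_of_tripod`). -/
theorem joins_unique {d d' : ℤ → W × W} {v v' : X.YS hN} (h : X.Joins hN d v v')
    (h' : X.Joins hN d' v v') : d = d' := by
  by_contra hne
  have hb : base X.f d = base X.f d' := Sum.inl_injective (h.2.1.symm.trans h'.2.1)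
  have hc : X.cls N d = X.cls N d' := Sum.inr_injective (h.2.2.symm.trans h'.2.2)
  obtain ⟨V, hV⟩ := X.sim_tripod hN h.1 h'.1 ((X.cls_eq_iff h'.1).1 hc) hne
  obtain ⟨q1, q2, q3, q4, q5, -⟩ := (hV 0).1
  rcases X.base_cases hN h.1 h'.1 hne hb with k | k
  · have hf := fwd_of_tripod X.acyc q1 q2 q3 q4 q5.1.2.2
    rw [k 0, Prod.swap_swap] at hf
    exact fwd_irrefl X.acyc _ hf
  · have h1 := q5.1.2.2
    rw [← (k 0).1] at h1
    rw [h1.eq_of_self] at q3
    exact q1.ne' q3.eq_of_self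

theorem joins_smul (g : G) {d : ℤ → W × W} {v v' : X.YS hN} (h : X.Joins hN d v v') :
    X.Joins hN (g • d) (g • v) (g • v') := by
  refine ⟨X.ray_smul h.1 g, ?_, ?_⟩
  · show g • v.1 = _
    rw [h.2.1, X.base_smul]
    rfl
  · show g • v'.1 = _
    rw [h.2.2, X.cls_smul hN h.1]
    rfl

theorem exists_real {v v' : X.YS hN} (h : (X.YH hN).Adj v v') : ∃ e, X.Real hN v v' e := by
  obtain ⟨d, h | h⟩ := h
  · exact ⟨_, d, Or.inl ⟨h, rfl⟩⟩
  · exact ⟨_, d, Or.inr ⟨h, rfl⟩⟩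

theorem real_unique {v v' : X.YS hN} {e e' : W × W} (h : X.Real hN v v' e)
    (h' : X.Real hN v v' e') : e = e' := by
  obtain ⟨d, ⟨h, rfl⟩ | ⟨h, rfl⟩⟩ := h <;> obtain ⟨d', ⟨h', rfl⟩ | ⟨h', rfl⟩⟩ := h'
  · rw [X.joins_unique hN h h']
  · cases h.2.1.symm.trans h'.2.2
  · cases h'.2.1.symm.trans h.2.2
  · rw [X.joins_unique hN h h']

theorem real_smul (g : G) {v v' : X.YS hN} {e : W × W} (h : X.Real hN v v' e) :
    X.Real hN (g • v) (g • v') (g • e) := by
  obtain ⟨d, ⟨h, rfl⟩ | ⟨h, rfl⟩⟩ := h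
  · exact ⟨g • d, Or.inl ⟨X.joins_smul hN g h, rfl⟩⟩
  · exact ⟨g • d, Or.inr ⟨X.joins_smul hN g h, rfl⟩⟩

theorem real_adj {v v' : X.YS hN} {e : W × W} (h : X.Real hN v v' e) : X.T.Adj e.1 e.2 := by
  obtain ⟨d, ⟨h, rfl⟩ | ⟨h, rfl⟩⟩ := h
  · exact h.1.adj 0
  · exact (h.1.adj 0).symm

theorem real_reach {v v' : X.YS hN} {e : W × W} (h : X.Real hN v v' e) :
    X.T.Reachable e.1 (X.Ypt hN v) := by
  obtain ⟨d, ⟨h, rfl⟩ | ⟨h, rfl⟩⟩ := h
  · exact (X.ya_joins_reach hN h).1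
  · exact (h.1.adj 0).reachable.symm.trans (X.ya_joins_reach hN h).2

/-- Realisation of a reduced path of length two: at a class one gets an element of `Q`; at a
base the darts are equal or form a legal turn. -/
theorem real_step {v v' v'' : X.YS hN} {e e' : W × W} (h : X.Real hN v v' e)
    (h' : X.Real hN v' v'' e') (hne : v ≠ v'') :
    (∃ d d' y, X.Joins hN d v v' ∧ X.Joins hN d' v'' v' ∧ d ≠ d' ∧ e = d 0 ∧ e' = (d' 0).swap ∧
      QQ X.T X.f e y e'.swap ∧ Fwd X.T e e') ∨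
    ((∃ β, v'.1 = Sum.inl β) ∧
      (e = e' ∨ (e.2 = e'.1 ∧ Lg X.T X.f e.1 e.2 e'.2 ∧ Fwd X.T e e'))) := by
  obtain ⟨d, ⟨j, rfl⟩ | ⟨j, rfl⟩⟩ := h <;> obtain ⟨d', ⟨j', rfl⟩ | ⟨j', rfl⟩⟩ := h'
  · have := j.2.2.symm.trans j'.2.1
    cases this
  · have hd : d ≠ d' := by
      rintro rfl
      exact hne (Subtype.ext (j.2.1.trans j'.2.1.symm))
    have hs : Sim X.T X.f d d' :=
      (X.cls_eq_iff j'.1).1 (Sum.inr_injective (j.2.2.symm.trans j'.2.2))
    obtain ⟨V, hV⟩ := X.sim_tripod hN j.1 j'.1 hs hd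
    have q := (hV 0).1
    exact Or.inl ⟨d, d', V 0, j, j', hd, rfl, rfl, q,
      fwd_of_tripod X.acyc q.1 q.2.1 q.2.2.1 q.2.2.2.1 q.2.2.2.2.1.1.2.2⟩
  · have hd : d ≠ d' := by
      rintro rfl
      exact hne (Subtype.ext (j.2.2.trans j'.2.2.symm))
    have hb : base X.f d = base X.f d' := Sum.inl_injective (j.2.1.symm.trans j'.2.1)
    refine Or.inr ⟨⟨_, j.2.1⟩, ?_⟩
    rcases X.base_cases hN j.1 j'.1 hd hb with k | k
    · exact Or.inl (k 0).symm
    · obtain ⟨k1, k2, k3⟩ := k 0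
      exact Or.inr ⟨k1, k3, fwd_turn X.acyc (j.1.adj 0) (j'.1.adj 0) k1 k2⟩
  · have := j.2.1.symm.trans j'.2.2
    cases this

private theorem yb_weak {v v' v'' : X.YS hN} {e e' : W × W} (h : X.Real hN v v' e)
    (h' : X.Real hN v' v'' e') (hne : v ≠ v'') : e = e' ∨ Fwd X.T e e' := by
  rcases X.real_step hN h h' hne with ⟨-, -, -, -, -, -, -, -, -, k⟩ | ⟨-, k | k⟩
  · exact Or.inr k
  · exact Or.inl k
  · exact Or.inr k.2.2

private theorem yb_not_both {v v' : X.YS hN} {e : W × W} (h : X.Real hN v v' e)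
    (h1 : ∃ β, v.1 = Sum.inl β) (h2 : ∃ β, v'.1 = Sum.inl β) : False := by
  obtain ⟨β, h1⟩ := h1
  obtain ⟨β', h2⟩ := h2
  obtain ⟨d, ⟨j, -⟩ | ⟨j, -⟩⟩ := h
  · have := j.2.2.symm.trans h2
    cases this
  · have := j.2.2.symm.trans h1
    cases this

private theorem yb_two {v0 v1 v2 v3 : X.YS hN} {e0 e1 e2 : W × W} (h0 : X.Real hN v0 v1 e0)
    (h1 : X.Real hN v1 v2 e1) (h2 : X.Real hN v2 v3 e2) (n0 : v0 ≠ v2) (n1 : v1 ≠ v3) :
    Fwd X.T e0 e2 := by
  rcases X.real_step hN h0 h1 n0 with ⟨-, -, -, -, -, -, -, -, -, k⟩ | ⟨b, -⟩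
  · rcases X.yb_weak hN h1 h2 n1 with rfl | k'
    · exact k
    · exact fwd_trans X.acyc k k'
  · rcases X.real_step hN h1 h2 n1 with ⟨-, -, -, -, -, -, -, -, -, k'⟩ | ⟨b', -⟩
    · rcases X.yb_weak hN h0 h1 n0 with rfl | k
      · exact k'
      · exact fwd_trans X.acyc k k'
    · exact (X.yb_not_both hN h1 b b').elim

private theorem yb_chain (a : ℕ → X.YS hN) (ψ : ℕ → W × W) (m : ℕ)
    (hψ : ∀ i ≤ m + 2, X.Real hN (a i) (a (i + 1)) (ψ i))
    (hb : ∀ i < m + 2, a i ≠ a (i + 2)) : Fwd X.T (ψ 0) (ψ (m + 2)) := by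
  induction m with
  | zero =>
    exact X.yb_two hN (hψ 0 (by omega)) (hψ 1 (by omega)) (hψ 2 (by omega)) (hb 0 (by omega))
      (hb 1 (by omega))
  | succ m ih =>
    have k := ih (fun i hi => hψ i (by omega)) (fun i hi => hb i (by omega))
    rcases X.yb_weak hN (hψ (m + 2) (by omega)) (hψ (m + 2 + 1) (by omega))
      (hb (m + 2) (by omega)) with k' | k'
    · rw [k'] at k
      exact k
    · exact fwd_trans X.acyc k k'

/-- A cycle would give a dart that is strictly after itself (of two consecutive vertices one is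
a class). -/
theorem yh_acyc : (X.YH hN).IsAcyclic := by
  classical
  intro v c hc
  have h3 := hc.three_le_length
  obtain ⟨m, hm⟩ : ∃ m, c.length = m + 2 := ⟨c.length - 2, by omega⟩
  let a : ℕ → X.YS hN := fun i => if i ≤ m + 2 then c.getVert i else c.getVert 1
  have a1 : ∀ i ≤ m + 2, a i = c.getVert i := fun i hi => if_pos hi
  have a2 : a (m + 2 + 1) = c.getVert 1 := if_neg (by omega)
  have a3 : c.getVert (m + 2) = c.getVert 0 := by
    rw [← hm, c.getVert_length, c.getVert_zero]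
  have adj : ∀ i, ∃ e, i ≤ m + 2 → X.Real hN (a i) (a (i + 1)) e := by
    intro i
    by_cases hi : i ≤ m + 2
    · suffices h : (X.YH hN).Adj (a i) (a (i + 1)) by
        obtain ⟨e, he⟩ := X.exists_real hN h
        exact ⟨e, fun _ => he⟩
      rcases Nat.lt_or_eq_of_le hi with hi' | rfl
      · rw [a1 i hi, a1 (i + 1) hi']
        exact c.adj_getVert_succ (by omega)
      · rw [a1 _ le_rfl, a2, a3]
        exact c.adj_getVert_succ (by omega)
    · exact ⟨(X.Ypt hN v, X.Ypt hN v), fun h => (hi h).elim⟩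
  choose ψ hψ using adj
  have nb : ∀ i < m + 2, a i ≠ a (i + 2) := by
    intro i hi e
    rcases Nat.lt_or_ge i (m + 1) with h | h
    · rw [a1 i hi.le, a1 (i + 2) (by omega)] at e
      rcases Nat.eq_zero_or_pos i with rfl | h0
      · have := hc.getVert_injOn' (show 0 ≤ c.length - 1 by omega)
          (show 0 + 2 ≤ c.length - 1 by omega) e
        omega
      · have := hc.getVert_injOn (show 1 ≤ i ∧ i ≤ c.length by omega)
          (show 1 ≤ i + 2 ∧ i + 2 ≤ c.length by omega) e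
        omega
    · obtain rfl : i = m + 1 := by omega
      rw [a1 _ hi.le, show m + 1 + 2 = m + 2 + 1 by omega, a2] at e
      have := hc.getVert_injOn (show 1 ≤ m + 1 ∧ m + 1 ≤ c.length by omega)
        (show 1 ≤ 1 ∧ 1 ≤ c.length by omega) e
      omega
  have k := X.yb_chain hN a ψ m hψ nb
  have r1 := hψ 0 (by omega)
  have r2 := hψ (m + 2) le_rfl
  rw [a2, a1 _ le_rfl, a3] at r2
  rw [a1 0 (by omega), a1 (0 + 1) (by omega)] at r1
  rw [X.real_unique hN r2 r1] at k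
  exact fwd_irrefl X.acyc _ k

theorem yh_gf : GF (X.YH hN) G := by
  refine ⟨X.yh_acyc hN, ?_, ?_, ?_⟩
  · rintro g x y ⟨d, h | h⟩
    · exact ⟨g • d, Or.inl (X.joins_smul hN g h)⟩
    · exact ⟨g • d, Or.inr (X.joins_smul hN g h)⟩
  · rintro g x y ⟨d, h | h⟩ h1 h2
    · have k := (X.joins_smul hN g h).2.1
      rw [h1, h.2.2] at k
      cases k
    · have k := (X.joins_smul hN g h).2.1
      rw [h2, h.2.2] at k
      cases k
  · intro g x y h h1 h2
    obtain ⟨e, he⟩ := X.exists_real hN h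
    have k := X.real_smul hN g he
    rw [h1, h2] at k
    exact dart_free X.gf (X.real_adj hN he) (X.real_unique hN k he)

/-- An axis in the graph realises the axis in the tree: the darts `ψ i` are ordered, and
`ψ (i + 2)` is strictly after `ψ i`. -/
theorem real_line {a : ℤ → X.YS hN} (ha : Line (X.YH hN) a) {ψ : ℤ → W × W}
    (hψ : ∀ i, X.Real hN (a i) (a (i + 1)) (ψ i)) {i j : ℤ} (hij : i + 2 ≤ j) :
    Fwd X.T (ψ i) (ψ j) := by
  obtain ⟨m, rfl⟩ : ∃ m : ℕ, j = i + ((m + 2 : ℕ) : ℤ) := ⟨(j - i - 2).toNat, by omega⟩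
  have k := X.yb_chain hN (fun n => a (i + n)) (fun n => ψ (i + n)) m
    (fun n _ => by
      have := hψ (i + n)
      rwa [add_assoc, ← Nat.cast_add_one] at this)
    (fun n _ => by
      have := ha.2 (i + n)
      rwa [add_assoc, show (n : ℤ) + 2 = ((n + 2 : ℕ) : ℤ) by omega] at this)
  simpa only [Nat.cast_zero, add_zero] using k

private theorem yb_nofix {g : G} {e : W × W} (he : Fwd X.T e (g • e)) {w : W}
    (hr : X.T.Reachable e.1 w) : g • w ≠ w := by
  intro hw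
  have hT := X.acyc
  have hA := X.gf.acts
  obtain ⟨a1, a2, b1, b2⟩ := he
  rw [Prod.smul_fst] at a2 b1 b2
  rw [Prod.smul_snd] at a2 b2
  have d1 := hA.dist g e.1 w
  have d2 := hA.dist g e.2 w
  rw [hw] at d1 d2
  have o1 := SimpleGraph.dist_eq_one_iff_adj.2 a1
  have o2 := SimpleGraph.dist_eq_one_iff_adj.2 a2
  rcases adj_btw hT a1 hr with k | k
  · have k1 := hA.btw g k
    rw [hw] at k1
    have k2 := (b2.trans_left b1).2
    have k3 := (k2.glue hT k1 a2.ne).2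
    have := k2.2.2
    have := k3.2.2
    omega
  · have k1 := (b1.symm.glue hT k a1.ne.symm).2
    have := k1.2.2
    have := b1.2.2
    have := SimpleGraph.dist_comm (G := X.T) (u := g • e.1) (v := e.1)
    omega

private theorem yb_real {a : ℤ → X.YS hN} (ha : Line (X.YH hN) a) :
    ∃ ψ : ℤ → W × W, ∀ i, X.Real hN (a i) (a (i + 1)) (ψ i) := by
  choose ψ hψ using fun i => X.exists_real hN (ha.1 i)
  exact ⟨ψ, hψ⟩

private theorem yb_fwd {g : G} {a : ℤ → X.YS hN} {l : ℕ} (ha : IsAxis (X.YH hN) g a l)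
    (hl : 2 ≤ l) {ψ : ℤ → W × W} (hψ : ∀ i, X.Real hN (a i) (a (i + 1)) (ψ i)) (i : ℤ) :
    Fwd X.T (ψ i) (g • ψ i) := by
  have k := X.real_smul hN g (hψ i)
  rw [ha.2.2, ha.2.2, add_right_comm] at k
  rw [X.real_unique hN k (hψ (i + l))]
  exact X.real_line hN ha.1 hψ (by omega)

/-- An element that translates a line of the graph fixes no vertex of the tree component. -/
theorem axis_nofix {g : G} {a : ℤ → X.YS hN} {l : ℕ} (ha : IsAxis (X.YH hN) g a l) {w : W}
    (hw : X.T.Reachable (X.Ypt hN (a 0)) w) : g • w ≠ w := by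
  intro h
  obtain ⟨ψ, hψ⟩ := X.yb_real hN ha.1
  have hl := ha.2.1
  have k := X.yb_fwd hN (ha.pow (n := 2) (by omega)) (by omega) hψ 0
  refine X.yb_nofix k ((X.real_reach hN (hψ 0)).trans hw) ?_
  rw [pow_two, mul_smul, h, h]

/-- A dart that is strictly before its translate lies on the axis (`IsAxis.disp`). -/
theorem dart_on_axis {g : G} {A : ℤ → W} {l : ℕ} (hA : IsAxis X.T g A l) {e : W × W}
    (he : Fwd X.T e (g • e)) (hr : X.T.Reachable e.1 (A 0)) : ∃ n : ℤ, e = (A n, A (n + 1)) := by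
  have hT := X.acyc
  have hG := X.gf.acts
  obtain ⟨i, -, -, h3, h4⟩ := hA.disp hT hG hr
  obtain ⟨a1, a2, b1, b2⟩ := he
  rw [Prod.smul_fst] at a2 b1 b2
  rw [Prod.smul_snd] at a2 b2
  have o1 := SimpleGraph.dist_eq_one_iff_adj.2 a1
  have e1 : e.1 = A i := by
    by_contra hc
    have p := h3.1.pos_dist_of_ne hc
    have k1 := hG.btw g (b1.compare hT h3 (by omega)).1
    rw [hA.2.2] at k1
    exact a2.ne ((b2.trans_left h4).2.antisymm k1.symm)
  refine ⟨i, Prod.ext e1 ?_⟩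
  show e.2 = A (i + 1)
  have hl := hA.2.1
  have k1 := hA.1.btw hT (i := i) (j := i + 1) (k := i + l) (by omega) (by omega)
  have o2 := SimpleGraph.dist_eq_one_iff_adj.2 (hA.1.1 i)
  rw [e1, hA.2.2] at b1
  rw [e1] at o1
  exact b1.unique hT k1 (by omega)

private theorem yb_cross (n : ℤ → ℤ) (h : ∀ i, n i < n (i + 2)) (m : ℤ) :
    ∃ i, n i < m ∧ m ≤ n (i + 1) := by
  have up : ∀ (j : ℕ) (i : ℤ), n i + j ≤ n (i + 2 * j) := by
    intro j
    induction j with
    | zero => intro i; simp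
    | succ j ih =>
      intro i
      have k1 := ih i
      have k2 := h (i + 2 * j)
      rw [show i + 2 * ((j + 1 : ℕ) : ℤ) = i + 2 * j + 2 by omega]
      omega
  by_contra hc
  have st : ∀ i, n i < m → n (i + 1) < m := fun i hi => by
    by_contra k
    exact hc ⟨i, hi, by omega⟩
  have st' : ∀ (k : ℕ) (i : ℤ), n i < m → n (i + k) < m := by
    intro k
    induction k with
    | zero => intro i hi; simpa using hi
    | succ k ih =>
      intro i hi
      have := st _ (ih i hi)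
      rwa [add_assoc, ← Nat.cast_add_one] at this
  obtain ⟨j, j1, j2⟩ : ∃ j : ℕ, n 0 - m < j ∧ m - n 0 ≤ j := ⟨(n 0 - m).natAbs + 1, by omega⟩
  have k1 := up j (-(2 * j))
  rw [neg_add_cancel] at k1
  have k2 := up j 0
  have k3 := st' (4 * j) (-(2 * j)) (by omega)
  rw [show -(2 * (j : ℤ)) + ((4 * j : ℕ) : ℤ) = 0 + 2 * j by omega] at k3
  omega

private theorem yb_lt {A : ℤ → W} (hA : Line X.T A) {p q : ℤ}
    (h : Fwd X.T (A p, A (p + 1)) (A q, A (q + 1))) : p < q := by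
  have k : Btw X.T (A p) (A (p + 1)) (A q) := h.2.2.1
  have k1 := k.2.2
  rw [(hA.dist X.acyc _ _).2, (hA.dist X.acyc _ _).2, (hA.dist X.acyc _ _).2] at k1
  omega

/-- The position of the turn of an element of `Q` on a line. -/
private theorem yb_turn {A : ℤ → W} (hA : Line X.T A) {p q : ℤ} (hpq : p < q) {y : W}
    (h : QQ X.T X.f (A p, A (p + 1)) y (A (q + 1), A q)) :
    ∃ m, p < m ∧ m ≤ q ∧ y = A m ∧ A m ∈ Ill X.T X.f (A (m - 1)) (A (m + 1)) := by
  have hT := X.acyc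
  have h1 : y ∈ Ill X.T X.f (A p) (A (q + 1)) := by
    have := X.qq_turn h
    dsimp only at this
    rw [this]
    rfl
  obtain ⟨b, n1, n2⟩ := X.ill_btw h1
  obtain ⟨m, m1, m2, rfl⟩ := hA.of_btw hT (by omega) b
  have m3 : m ≠ p := fun e => n1 (by rw [e])
  have m4 : m ≠ q + 1 := fun e => n2 (by rw [e])
  refine ⟨m, by omega, by omega, rfl, X.ill_restr h1 (hA.btw hT (by omega) (by omega))
    (hA.btw hT (by omega) (by omega)) ?_ (hA.1 m).ne⟩
  have := (hA.1 (m - 1)).ne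
  rwa [sub_add_cancel] at this

private theorem yb_ill {x y z : W} (h1 : X.T.Adj x y) (h2 : X.T.Adj y z)
    (h : y ∈ Ill X.T X.f x z) : ¬ Lg X.T X.f x y z := by
  obtain ⟨p, r, s1, s2, k⟩ := h
  have e1 : p = x := by
    rcases (show Btw X.T x p y from s1.2.1).eq_of_adj X.acyc h1 with e | e
    · exact e
    · exact absurd e (show X.T.Adj p y from s1.1).ne
  have e2 : r = z := by
    rcases (show Btw X.T y r z from s2.2.2).eq_of_adj X.acyc h2 with e | e
    · exact absurd e.symm (show X.T.Adj y r from s2.1).ne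
    · exact e
  rwa [e1, e2] at k

private theorem yb_axes {g : G} {a a' : ℤ → X.YS hN} {l l' : ℕ} (ha : IsAxis (X.YH hN) g a l)
    (ha' : IsAxis (X.YH hN) g a' l') (hl : 2 ≤ l) (hl' : 2 ≤ l')
    (hr : X.T.Reachable (X.Ypt hN (a 0)) (X.Ypt hN (a' 0))) : ∃ i k, a i = a' k := by
  have hT := X.acyc
  obtain ⟨ψ, hψ⟩ := X.yb_real hN ha.1
  obtain ⟨ψ', hψ'⟩ := X.yb_real hN ha'.1
  have f := X.yb_fwd hN ha hl hψ
  have f' := X.yb_fwd hN ha' hl' hψ'
  have r0 := X.real_reach hN (hψ 0)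
  rcases ell_or_hyp hT X.gf.acts X.gf.noinv g (x := (ψ 0).1) (f 0).2.2.1.reach with
    ⟨p, p1, p2⟩ | ⟨A, L, hA, hx⟩
  · exact (X.yb_nofix (f 0) p1.1 p2).elim
  have r1 : X.T.Reachable (X.Ypt hN (a 0)) (A 0) := r0.symm.trans (hx 0 le_rfl (by omega)).1
  choose n hn using fun i => X.dart_on_axis hA (f i) ((X.real_reach hN (hψ i)).trans
    ((X.ypt_reach hN (ha.1.dist (X.yh_acyc hN) i 0).1).trans r1))
  choose n' hn' using fun i => X.dart_on_axis hA (f' i) ((X.real_reach hN (hψ' i)).trans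
    ((X.ypt_reach hN (ha'.1.dist (X.yh_acyc hN) i 0).1).trans (hr.symm.trans r1)))
  have nb : ∀ {b : ℤ → X.YS hN}, Line (X.YH hN) b → ∀ i, b i ≠ b (i + 1 + 1) := fun hb i => by
    have := hb.2 i
    rwa [show i + 2 = i + 1 + 1 by omega] at this
  -- a class on the second line
  have cls : ∃ k d d' y, X.Joins hN d (a' k) (a' (k + 1)) ∧
      X.Joins hN d' (a' (k + 1 + 1)) (a' (k + 1)) ∧ d ≠ d' ∧ ψ' k = d 0 ∧
      ψ' (k + 1) = (d' 0).swap ∧ QQ X.T X.f (ψ' k) y (ψ' (k + 1)).swap ∧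
      Fwd X.T (ψ' k) (ψ' (k + 1)) := by
    rcases X.real_step hN (hψ' 0) (hψ' (0 + 1)) (nb ha'.1 0) with k | ⟨b, -⟩
    · exact ⟨0, k⟩
    rcases X.real_step hN (hψ' (0 + 1)) (hψ' (0 + 1 + 1)) (nb ha'.1 (0 + 1)) with k | ⟨b', -⟩
    · exact ⟨0 + 1, k⟩
    exact (X.yb_not_both hN (hψ' (0 + 1)) b b').elim
  obtain ⟨k, e1, e2, y', j1', j2', ne', u1, u2, q', w'⟩ := cls
  rw [hn' k, hn' (k + 1)] at q' w'
  obtain ⟨m, m1, m2, rfl, il⟩ := X.yb_turn hA.1 (X.yb_lt hA.1 w') q'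
  obtain ⟨i, i1, i2⟩ := yb_cross n (fun i => by
    have := X.real_line hN ha.1 hψ (i := i) (j := i + 2) le_rfl
    rw [hn i, hn (i + 2)] at this
    exact X.yb_lt hA.1 this) m
  have adj : X.T.Adj (A (m - 1)) (A m) := by
    have := hA.1.1 (m - 1)
    rwa [sub_add_cancel] at this
  rcases X.real_step hN (hψ i) (hψ (i + 1)) (nb ha.1 i) with
    ⟨d1, d2, y, j1, j2, ne, v1, v2, q, -⟩ | ⟨-, c | ⟨c1, c2, -⟩⟩
  · rw [hn i, hn (i + 1)] at q
    have h1 : A m ∈ Ill X.T X.f (A (n i)) (A (n (i + 1) + 1)) := by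
      have k1 := X.ill_ext il (x := A (n i)) (y := A (m + 1)) (hA.1.btw hT (by omega) (by omega))
        (btw_right (hA.1.dist hT _ _).1)
      exact X.ill_ext k1 (btw_left (hA.1.dist hT _ _).1) (hA.1.btw hT (by omega) (by omega))
    have h2 := X.qq_turn q
    simp only [Prod.swap_prod_mk] at h2
    rw [h2] at h1
    obtain rfl : A m = y := h1
    have key := X.qq_unique' (a := A (min (n i) (n' k)))
      (b := A (max (n (i + 1)) (n' (k + 1)) + 1)) (hA.1.btw hT (by omega) (by omega)) q q'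
      (hA.1.btw hT (by omega) (by omega)) (hA.1.btw hT (by omega) (by omega)).symm
      (hA.1.btw hT (by omega) (by omega)) (hA.1.btw hT (by omega) (by omega)).symm
    rw [← hn, ← hn, ← hn', ← hn', v1, v2, u1, u2, Prod.swap_swap, Prod.swap_swap] at key
    have s1 : Sim X.T X.f d1 d2 :=
      (X.cls_eq_iff j2.1).1 (Sum.inr_injective (j1.2.2.symm.trans j2.2.2))
    have s2 : Sim X.T X.f e1 e2 :=
      (X.cls_eq_iff j2'.1).1 (Sum.inr_injective (j1'.2.2.symm.trans j2'.2.2))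
    have := X.pair_ext hN j1.1 j2.1 s1 ne j1'.1 j2'.1 s2 ne' key.1 key.2
    subst this
    exact ⟨i, k, Subtype.ext (j1.2.1.trans j1'.2.1.symm)⟩
  · rw [hn i, hn (i + 1)] at c
    have := hA.1.inj hT (congrArg Prod.fst c)
    omega
  · rw [hn i, hn (i + 1)] at c1
    rw [hn i, hn (i + 1)] at c2
    have z := hA.1.inj hT c1
    dsimp only at c2
    rw [show n i = m - 1 by omega, show n (i + 1) = m by omega, sub_add_cancel] at c2
    exact (X.yb_ill adj (hA.1.1 m) il c2).elim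

/-- Two axes of `g` in the graph over the same tree component lie in the same component of the
graph.  All realised darts of both lines lie on the axis `A` of `g` in the tree, in the forward
direction (`dart_on_axis` for `g ^ 2`).  Take the illegal vertex `y'` at a class of the second
line; it lies between two consecutive darts `ψ (i-1)`, `ψ i` of the first line; by `real_step`
the vertex `a i` is a class, `qq_turn` and `qq_unique'` identify the elements of `Q`, `pair_ext`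
identifies the rays. -/
theorem axes_reach {g : G} {a a' : ℤ → X.YS hN} {l l' : ℕ} (ha : IsAxis (X.YH hN) g a l)
    (ha' : IsAxis (X.YH hN) g a' l') (hr : X.T.Reachable (X.Ypt hN (a 0)) (X.Ypt hN (a' 0))) :
    (X.YH hN).Reachable (a 0) (a' 0) := by
  have h1 := ha.2.1
  have h2 := ha'.2.1
  obtain ⟨i, k, e⟩ := X.yb_axes hN (ha.pow (n := 2) (by omega)) (ha'.pow (n := 2) (by omega))
    (by omega) (by omega) hr
  have r1 := (ha.1.dist (X.yh_acyc hN) 0 i).1
  rw [e] at r1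
  exact r1.trans (ha'.1.dist (X.yh_acyc hN) k 0).1

end Cx

end EG
end CPOR
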