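import Pool.Agent.P.MP_2cb329_al.EG.Y1

/-! Section F9: the forest of bases and classes as a `YD`. -/

set_option autoImplicit false

namespace CPOR
namespace EG
open ZT MulAction
open scoped Pointwise

variable {G W : Type} [Group G] [MulAction G W] (X : Cx G W)

namespace Cx

variable {N : ℕ} (hN : 0 < N)

theorem y2_loc_base (t : ℤ) (d : ℤ → W × W) :
    Loc t (Sum.inl (base X.f d) : Amb W) (d t).1 := by
  refine Or.inl ⟨_, rfl, ?_⟩
  unfold base; split_ifs <;> simp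

theorem y2_loc_sing (t : ℤ) (u : ℤ → W) : Loc t (Sum.inl (sing u) : Amb W) (u t) :=
  Or.inl ⟨_, rfl, rfl⟩

theorem y2_loc_cls (t : ℤ) {d : ℤ → W × W} (h : IsRay X.T X.f G N d) :
    Loc t (Sum.inr (X.cls N d) : Amb W) (d t).1 :=
  Or.inr ⟨_, rfl, d, ⟨h, X.sim_refl d⟩, rfl⟩

theorem y2_loc_sh {k t : ℤ} {v : Amb W} {w : W} (h : Loc t (shA k v) w) : Loc (t + k) v w := by
  rcases v with β | κ
  · rcases h with ⟨β', h1, h2⟩ | ⟨κ', h1, -⟩
    · obtain rfl : sh k β = β' := Sum.inl.inj h1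
      exact Or.inl ⟨β, rfl, h2⟩
    · cases h1
  · rcases h with ⟨β', h1, -⟩ | ⟨κ', h1, d, hd, h2⟩
    · cases h1
    · obtain rfl : sh k '' κ = κ' := Sum.inr.inj h1
      obtain ⟨d', hd', rfl⟩ := hd
      exact Or.inr ⟨κ, rfl, d', hd', h2⟩

theorem y2_sing_smul (g : G) (u : ℤ → W) : sing (g • u) = g • sing u := by
  funext t
  simp [sing]

theorem y2_joins_sh (k : ℤ) {d : ℤ → W × W} {v v' w w' : X.YS hN} (h : X.Joins hN d v v')
    (e : w.1 = shA k v.1) (e' : w'.1 = shA k v'.1) : X.Joins hN (sh k d) w w' := by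
  refine ⟨X.ray_shift h.1 k, ?_, ?_⟩
  · rw [e, h.2.1]; exact congrArg Sum.inl (X.base_shift d k).symm
  · rw [e', h.2.2]; exact congrArg Sum.inr (X.cls_sh k d).symm

theorem y2_adj_sh (k : ℤ) {v v' w w' : X.YS hN} (h : (X.YH hN).Adj v v')
    (e : w.1 = shA k v.1) (e' : w'.1 = shA k v'.1) : (X.YH hN).Adj w w' := by
  obtain ⟨d, h | h⟩ := h
  · exact ⟨_, Or.inl (X.y2_joins_sh hN k h e e')⟩
  · exact ⟨_, Or.inr (X.y2_joins_sh hN k h e' e)⟩

theorem y2_inl_base (g : G) (d : ℤ → W × W) :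
    (Sum.inl (base X.f (g • d)) : Amb W) = g • Sum.inl (base X.f d) := by
  rw [X.base_smul]; rfl

theorem y2_inl_sing (g : G) (u : ℤ → W) :
    (Sum.inl (sing (g • u)) : Amb W) = g • Sum.inl (sing u) := by
  rw [y2_sing_smul]; rfl

include hN in
theorem y2_inr_cls {d : ℤ → W × W} (h : IsRay X.T X.f G N d) (g : G) :
    (Sum.inr (X.cls N (g • d)) : Amb W) = g • Sum.inr (X.cls N d) := by
  rw [X.cls_smul hN h]; rfl

theorem y2_pt_sing {u : ℤ → W} {v : X.YS hN} (h : v.1 = Sum.inl (sing u)) :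
    X.T.Reachable (u 0) (X.Ypt hN v) :=
  X.loc_reach hN (t := 0) (v := v) (by rw [h]; exact y2_loc_sing 0 u) (X.loc_pt hN v)

theorem ypt_σ (v : X.YS hN) : X.T.Reachable (X.Ypt hN (X.Yσ hN v)) (X.f (X.Ypt hN v)) := by
  have h1 : Loc (0 + 1) v.1 (X.Ypt hN (X.Yσ hN v)) := y2_loc_sh (X.loc_pt hN (X.Yσ hN v))
  have h0 := X.loc_pt hN v
  obtain ⟨w0, w1, k0, k1, hr⟩ : ∃ w0 w1, Loc 0 v.1 w0 ∧ Loc (0 + 1) v.1 w1 ∧
      X.T.Reachable w1 (X.f w0) := by
    obtain ⟨v, ⟨d, h, rfl⟩ | ⟨u, h, rfl⟩ | ⟨d, h, rfl⟩⟩ := v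
    · exact ⟨_, _, X.y2_loc_base 0 d, X.y2_loc_base (0 + 1) d, (h.child 0).2.1.1.symm⟩
    · exact ⟨_, _, y2_loc_sing 0 u, y2_loc_sing (0 + 1) u, by rw [(h 0).1]⟩
    · exact ⟨_, _, X.y2_loc_cls 0 h, X.y2_loc_cls (0 + 1) h, (h.child 0).2.1.1.symm⟩
  exact ((X.loc_reach hN h1 k1).trans hr).trans (X.reach_f (X.loc_reach hN k0 h0))

theorem yσ_smul (g : G) (v : X.YS hN) : X.Yσ hN (g • v) = g • X.Yσ hN v := by
  apply Subtype.ext
  show shA 1 (g • v.1) = g • shA 1 v.1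
  rcases v.1 with β | κ
  · rfl
  · show (Sum.inr (sh 1 '' (g • κ)) : Amb W) = Sum.inr (g • sh 1 '' κ)
    rw [Set.image_smul_comm (sh 1) g κ fun _ => rfl]

theorem yσ_adj (v v' : X.YS hN) :
    (X.YH hN).Adj (X.Yσ hN v) (X.Yσ hN v') ↔ (X.YH hN).Adj v v' := by
  refine ⟨fun h => X.y2_adj_sh hN (-1) h ?_ ?_, fun h => X.y2_adj_sh hN 1 h rfl rfl⟩
  · exact (shA_shA _ _ (by ring) v.1).symm
  · exact (shA_shA _ _ (by ring) v'.1).symm

theorem fo_nt : FinOrb (⊤ : Subgroup G) {u : ℤ → W | IsNT X.f G u} := by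
  refine fo_of_fibres X.finW (fun u => u 0) (fun g u hu => X.nt_smul hu g) (fun _ _ _ => rfl)
    (fun _ _ => Set.mem_univ _) fun b => Set.Subsingleton.finite ?_
  rintro u ⟨hu, h1⟩ u' ⟨hu', h2⟩
  exact X.nt_unique hu hu' (h1.trans h2.symm)

theorem y_finV : FinOrb (⊤ : Subgroup G) (Set.univ : Set (X.YS hN)) := by
  have h1 := fo_image (X.fo_ray hN) (fun d => (Sum.inl (base X.f d) : Amb W))
    (fun g d _ => X.y2_inl_base g d) fun g d hd => X.ray_smul hd g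
  have h2 := fo_image X.fo_nt (fun u => (Sum.inl (sing u) : Amb W))
    (fun g u _ => y2_inl_sing g u) fun g u hu => X.nt_smul hu g
  have h3 := fo_image (X.fo_ray hN) (fun d => (Sum.inr (X.cls N d) : Amb W))
    (fun g d hd => X.y2_inr_cls hN hd g) fun g d hd => X.ray_smul hd g
  refine fo_of_fibres (fo_union h1 (fo_union h2 h3)) Subtype.val (fun _ _ _ => Set.mem_univ _)
    (fun _ _ _ => rfl) (fun v _ => ?_) fun b => Set.Subsingleton.finite ?_
  · rcases v.2 with ⟨d, h, e⟩ | ⟨u, h, e⟩ | ⟨d, h, e⟩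
    · exact Or.inl ⟨d, h, e.symm⟩
    · exact Or.inr (Or.inl ⟨u, h, e.symm⟩)
    · exact Or.inr (Or.inr ⟨d, h, e.symm⟩)
  · rintro v ⟨-, h1⟩ v' ⟨-, h2⟩
    exact Subtype.ext (h1.trans h2.symm)

theorem y_finE : FinOrb (⊤ : Subgroup G) (Darts (X.YH hN)) := by
  have h1 := fo_image (X.fo_ray hN)
    (fun d => ((Sum.inl (base X.f d), Sum.inr (X.cls N d)) : Amb W × Amb W))
    (fun g d hd => Prod.ext (X.y2_inl_base g d) (X.y2_inr_cls hN hd g))
    fun g d hd => X.ray_smul hd g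
  have h2 := fo_image (X.fo_ray hN)
    (fun d => ((Sum.inr (X.cls N d), Sum.inl (base X.f d)) : Amb W × Amb W))
    (fun g d hd => Prod.ext (X.y2_inr_cls hN hd g) (X.y2_inl_base g d))
    fun g d hd => X.ray_smul hd g
  refine fo_of_fibres (fo_union h1 h2) (fun e : X.YS hN × X.YS hN => (e.1.1, e.2.1))
    (fun g e he => (X.yh_gf hN).acts g _ _ he) (fun _ _ _ => rfl) (fun e he => ?_)
    fun b => Set.Subsingleton.finite ?_
  · obtain ⟨d, h | h⟩ := he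
    · exact Or.inl ⟨d, h.1, Prod.ext h.2.1.symm h.2.2.symm⟩
    · exact Or.inr ⟨d, h.1, Prod.ext h.2.2.symm h.2.1.symm⟩
  · rintro e ⟨-, h1⟩ e' ⟨-, h2⟩
    have := h1.trans h2.symm
    exact Prod.ext (Subtype.ext (congrArg Prod.fst this)) (Subtype.ext (congrArg Prod.snd this))

/-- A vertex with non-trivial stabiliser is an orbit of non-trivial vertices of the tree
(`sim_nofix` for classes, no inversion for edge bases, `fc_nt` for vertex bases). -/
theorem y_fix {g : G} (hg : g ≠ 1) {v : X.YS hN} (h : g • v = v) :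
    ∃ u, IsNT X.f G u ∧ v.1 = Sum.inl (sing u) := by
  have h' : g • v.1 = v.1 := congrArg Subtype.val h
  rcases v.2 with ⟨d, hd, e⟩ | hv | ⟨d, hd, e⟩
  · rw [e] at h'
    have h0 : g • base X.f d 0 = base X.f d 0 := congrFun (Sum.inl.inj h') 0
    by_cases hf : FC X.f d
    · have hb : base X.f d = sing fun t => (d t).1 := by
        unfold base; rw [if_pos hf]; rfl
      refine ⟨_, X.fc_nt hN hd hf (s := 0) fun hb0 => hg ?_, by rw [e, hb]⟩
      rw [hb] at h0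
      have : g • (d 0).1 = (d 0).1 := by simpa [sing] using h0
      rw [← Subgroup.mem_bot, ← hb0]
      exact this
    · exfalso
      have hb : base X.f d 0 = {(d 0).1, (d 0).2} := by
        unfold base; rw [if_neg hf]
      rw [hb] at h0
      have ha := hd.adj 0
      have m1 : g • (d 0).1 ∈ ({(d 0).1, (d 0).2} : Set W) := by
        rw [← h0]; exact Set.smul_mem_smul_set (Set.mem_insert _ _)
      have m2 : g • (d 0).2 ∈ ({(d 0).1, (d 0).2} : Set W) := by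
        rw [← h0]; exact Set.smul_mem_smul_set (Set.mem_insert_of_mem _ rfl)
      rcases m1 with m1 | m1 <;> rcases m2 with m2 | m2
      · exact ha.ne (smul_left_cancel g (m1.trans m2.symm))
      · exact hg (X.gf.etriv g _ _ ha m1 m2)
      · exact X.gf.noinv g _ _ ha m1 m2
      · exact ha.ne (smul_left_cancel g (Eq.trans m1 (Eq.symm m2)))
  · exact hv
  · exfalso
    rw [e, ← X.y2_inr_cls hN hd g] at h'
    exact hg (X.sim_nofix hN hd
      ((X.cls_eq_iff (X.ray_smul hd g)).1 (Sum.inr.inj h').symm))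

theorem sing_stab {u : ℤ → W} (hu : IsNT X.f G u) {v : X.YS hN} (h : v.1 = Sum.inl (sing u)) :
    stabilizer G v = stabilizer G (u 0) := by
  ext g
  rw [mem_stabilizer_iff, mem_stabilizer_iff]
  constructor
  · intro e
    have h' : g • v.1 = v.1 := congrArg Subtype.val e
    rw [h, ← y2_inl_sing] at h'
    exact Set.singleton_injective (congrFun (Sum.inl.inj h') 0)
  · intro e
    apply Subtype.ext
    show g • v.1 = v.1
    rw [h, ← y2_inl_sing, X.nt_unique (X.nt_smul hu g) hu (s := 0) e]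

theorem y_stab (v : X.YS hN) :
    stabilizer G v = ⊥ ∨ ∃ w : W, stabilizer G v = stabilizer G w := by
  by_cases hb : stabilizer G v = ⊥
  · exact Or.inl hb
  · obtain ⟨⟨g, hg⟩, hne⟩ := Subgroup.ne_bot_iff_exists_ne_one.1 hb
    obtain ⟨u, hu, e⟩ := X.y_fix hN (fun h => hne (Subtype.ext h)) (mem_stabilizer_iff.1 hg)
    exact Or.inr ⟨u 0, X.sing_stab hN hu e⟩

/-- Malnormality: `ell_or_hyp` in both components; `y_fix`, `fix_unique`, `nt_unique`,
`axis_nofix`, `axes_reach`. -/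
theorem y_mal (g : G) (v v' : X.YS hN) (hg : g ≠ 1) (h : (X.YH hN).Reachable v (g • v))
    (h' : (X.YH hN).Reachable v' (g • v')) (hr : X.T.Reachable (X.Ypt hN v) (X.Ypt hN v')) :
    (X.YH hN).Reachable v v' := by
  have gf := X.yh_gf hN
  have ell : ∀ p : X.YS hN, g • p = p → ∃ u, IsNT X.f G u ∧ p.1 = Sum.inl (sing u) ∧
      g • u 0 = u 0 := fun p hp => by
    obtain ⟨u, hu, e⟩ := X.y_fix hN hg hp
    refine ⟨u, hu, e, ?_⟩
    rw [← mem_stabilizer_iff, ← X.sing_stab hN hu e]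
    exact hp
  have link : ∀ {p p' : X.YS hN}, (X.YH hN).Reachable v p → (X.YH hN).Reachable v' p' →
      X.T.Reachable (X.Ypt hN p) (X.Ypt hN p') := fun k k' =>
    ((X.ypt_reach hN k).symm.trans hr).trans (X.ypt_reach hN k')
  rcases ell_or_hyp gf.acyc gf.acts gf.noinv g h with ⟨p, hp, hf⟩ | ⟨a, l, ha, hb⟩ <;>
    rcases ell_or_hyp gf.acyc gf.acts gf.noinv g h' with ⟨p', hp', hf'⟩ | ⟨a', l', ha', hb'⟩
  · obtain ⟨u, hu, e, k⟩ := ell p hf
    obtain ⟨u', hu', e', k'⟩ := ell p' hf'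
    have h1 := fix_unique X.gf hg (((X.y2_pt_sing hN e).trans (link hp.1 hp'.1)).trans
      (X.y2_pt_sing hN e').symm) k k'
    have h2 : p = p' := Subtype.ext (by rw [e, e', X.nt_unique hu hu' h1])
    exact hp.1.trans (h2 ▸ hp'.1.symm)
  · obtain ⟨u, hu, e, k⟩ := ell p hf
    exact absurd k (X.axis_nofix hN ha' ((X.y2_pt_sing hN e).trans
      (link hp.1 (hb' 0 le_rfl (Int.natCast_nonneg _)).1)).symm)
  · obtain ⟨u, hu, e, k⟩ := ell p' hf'
    exact absurd k (X.axis_nofix hN ha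
      ((link (hb 0 le_rfl (Int.natCast_nonneg _)).1 hp'.1).trans (X.y2_pt_sing hN e).symm))
  · have k := (hb 0 le_rfl (Int.natCast_nonneg _)).1
    have k' := (hb' 0 le_rfl (Int.natCast_nonneg _)).1
    exact (k.trans (X.axes_reach hN ha ha' (link k k'))).trans k'.symm

theorem ycar_smul (g : G) (e : W × W) (v : X.YS hN) (h : X.YCar hN e v) :
    X.YCar hN (g • e) (g • v) := by
  rcases h with ⟨d, hd, rfl, hv⟩ | ⟨u, hu, ha, h0, hv⟩
  · refine Or.inl ⟨g • d, X.ray_smul hd g, rfl, ?_⟩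
    show g • v.1 = _
    rw [hv, X.y2_inl_base]
  · refine Or.inr ⟨g • u, X.nt_smul hu g, X.gf.acts g _ _ ha, congrArg (fun x => g • x) h0, ?_⟩
    show g • v.1 = _
    rw [hv, y2_inl_sing]

theorem ycar_fin :
    FinOrb (⊤ : Subgroup G) {p : (W × W) × X.YS hN | X.YCar hN p.1 p.2} := by
  have h1 := fo_image (X.fo_ray hN)
    (fun d => ((d 0, Sum.inl (base X.f d)) : (W × W) × Amb W))
    (fun g d _ => Prod.ext rfl (X.y2_inl_base g d)) fun g d hd => X.ray_smul hd g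
  have h2 : FinOrb (⊤ : Subgroup G) {p : (W × W) × Amb W | ∃ u, IsNT X.f G u ∧
      X.T.Adj p.1.1 p.1.2 ∧ p.1.1 = u 0 ∧ p.2 = Sum.inl (sing u)} := by
    refine fo_of_fibres X.finE Prod.fst ?_ (fun _ _ _ => rfl) ?_
      fun b => Set.Subsingleton.finite ?_
    · rintro g p ⟨u, hu, ha, h0, hv⟩
      refine ⟨g • u, X.nt_smul hu g, X.gf.acts g _ _ ha, congrArg (fun x => g • x) h0, ?_⟩
      show g • p.2 = _
      rw [hv, y2_inl_sing]
    · rintro p ⟨u, -, ha, -⟩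
      exact ha
    · rintro p ⟨⟨u, hu, -, h0, hv⟩, e⟩ p' ⟨⟨u', hu', -, h0', hv'⟩, e'⟩
      have e1 : p.1 = p'.1 := e.trans e'.symm
      refine Prod.ext e1 ?_
      rw [hv, hv', X.nt_unique hu hu' (s := 0) (by rw [← h0, ← h0', e1])]
  refine fo_of_fibres (fo_union h1 h2) (fun p : (W × W) × X.YS hN => (p.1, p.2.1))
    (fun g p hp => X.ycar_smul hN g _ _ hp) (fun _ _ _ => rfl) (fun p hp => ?_)
    fun b => Set.Subsingleton.finite ?_
  · rcases hp with ⟨d, hd, e, hv⟩ | hp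
    · exact Or.inl ⟨d, hd, Prod.ext e.symm hv.symm⟩
    · exact Or.inr hp
  · rintro p ⟨-, h1⟩ p' ⟨-, h2⟩
    have := h1.trans h2.symm
    exact Prod.ext (Prod.mk.inj this).1 (Subtype.ext (Prod.mk.inj this).2)

theorem ycar_adj (e : W × W) (v : X.YS hN) (h : X.YCar hN e v) :
    X.T.Adj e.1 e.2 ∧ X.T.Reachable e.1 (X.Ypt hN v) := by
  rcases h with ⟨d, hd, rfl, hv⟩ | ⟨u, -, ha, h0, hv⟩
  · exact ⟨hd.adj 0, X.loc_reach hN (t := 0) (v := v) (by rw [hv]; exact X.y2_loc_base 0 d)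
      (X.loc_pt hN v)⟩
  · exact ⟨ha, h0 ▸ X.y2_pt_sing hN hv⟩

theorem y_vert (w : W) (h : stabilizer G w ≠ ⊥) : ∃ v : X.YS hN,
    stabilizer G w ≤ stabilizer G v ∧ X.T.Reachable w (X.Ypt hN v) ∧
      ∀ w', X.T.Adj w w' → X.YCar hN (w, w') v := by
  obtain ⟨u, hu, rfl⟩ := X.exists_nt h
  refine ⟨⟨Sum.inl (sing u), Or.inr (Or.inl ⟨u, hu, rfl⟩)⟩, (X.sing_stab hN hu rfl).ge,
    X.y2_pt_sing hN rfl, fun w' hw => Or.inr ⟨u, hu, hw, rfl, rfl⟩⟩

/-- The forest of bases and classes. -/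
noncomputable def yd : YD X where
  Y := X.YS hN
  H := X.YH hN
  gf := X.yh_gf hN
  finV := X.y_finV hN
  finE := X.y_finE hN
  σ := X.Yσ hN
  σ_smul := X.yσ_smul hN
  σ_adj := X.yσ_adj hN
  pt := X.Ypt hN
  pt_smul := X.ypt_smul hN
  pt_adj := fun _ _ h => X.ypt_adj hN h
  pt_σ := X.ypt_σ hN
  stab := X.y_stab hN
  mal := X.y_mal hN
  Car := X.YCar hN
  car_smul := X.ycar_smul hN
  car_fin := X.ycar_fin hN
  car_adj := X.ycar_adj hN
  vert := X.y_vert hN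

theorem yd_rays : (X.yd hN).Rays N := by
  refine ⟨fun d h => ⟨Sum.inl (base X.f d), Or.inl ⟨d, h, rfl⟩⟩,
    fun d h => Or.inl ⟨d, h, rfl, rfl⟩, ?_⟩
  rintro d h d' h' (hs | hb)
  · have a1 : (X.YH hN).Adj ⟨Sum.inl (base X.f d), Or.inl ⟨d, h, rfl⟩⟩
        ⟨Sum.inr (X.cls N d), Or.inr (Or.inr ⟨d, h, rfl⟩)⟩ := ⟨d, Or.inl ⟨h, rfl, rfl⟩⟩
    have a2 : (X.YH hN).Adj ⟨Sum.inr (X.cls N d), Or.inr (Or.inr ⟨d, h, rfl⟩)⟩
        ⟨Sum.inl (base X.f d'), Or.inl ⟨d', h', rfl⟩⟩ :=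
      ⟨d', Or.inr ⟨h', rfl, congrArg Sum.inr ((X.cls_eq_iff h').2 hs)⟩⟩
    exact a1.reachable.trans a2.reachable
  · have e : (⟨Sum.inl (base X.f d), Or.inl ⟨d, h, rfl⟩⟩ : X.YS hN) =
        ⟨Sum.inl (base X.f d'), Or.inl ⟨d', h', rfl⟩⟩ := Subtype.ext (congrArg Sum.inl hb)
    have key : ∀ v v' : X.YS hN, v = v' → (X.YH hN).Reachable v v' := fun v v' e => by rw [e]
    exact key _ _ e

end Cx

end EG
end CPOR
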