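import Pool.Agent.P.MP_2cb329_al.EG.N
import Pool.Agent.P.MP_2cb329_al.EG.Y2
import Pool.Agent.P.MP_2cb329_al.EG.H

/-! Section F9: output of the tree side. -/

set_option autoImplicit false

namespace CPOR
namespace EG

variable {G W : Type} [Group G] [MulAction G W]

theorem exists_yd (X : Cx G W) : ∃ (D : YD X) (τ τs : ℕ), D.RD τ τs := by
  obtain ⟨τ, τs, N, hN, h⟩ := rd (X := X)
  exact ⟨X.yd hN, τ, τs, h _ (X.yd_rays hN)⟩

end EG
end CPOR
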